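import Pool.Agent.Lib.MP_6e5bed_ag_BC.COSym

set_option autoImplicit false

/-!
# Change of the coefficients
-/

namespace Pool.Agent.MP_6e5bed_ag_NC

attribute [local instance] Alg.iR Alg.iA Cf.iG Cf.iM Rs.iG Rs.iM

open CategoryTheory MonoidalCategory

universe u

variable {k : Type u} [CommRing k] {S T U : Type u} [CommRing S] [CommRing T] [CommRing U]
  [Algebra k S] [Algebra k T] [Algebra k U]

/-- The functor `T ⊗_S -`. -/
noncomputable def COF (f : S →ₐ[k] T) : CO k S ⥤ CO k T where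
  obj X := ⟨X.of⟩
  map {X Y} x := (K0Q.cf f (A := X.of.alg) (B := Y.of.alg) x : _)
  map_id X := K0Q.cf_one f (X.of.smooth.bc S) (X.of.smooth.bc T) (X.of.proper.bc T)
  map_comp {_ Y _} x y := K0Q.cf_comp f (Y.of.proper.bc S) (Y.of.proper.bc T) x y

theorem COF_map (f : S →ₐ[k] T) {X Y : CO k S} (x : X ⟶ Y) :
    (COF f).map x = K0Q.cf f (A := X.of.alg) (B := Y.of.alg) x := rfl

/-- Change of the coefficients preserves the isomorphisms defined over `k`. -/
theorem COF_coIso (f : S →ₐ[k] T) {X Y : CO k S} (φ : DIso X.of.alg Y.of.alg) :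
    (COF f).map (coIso φ).hom =
      (coIso (X := (COF f).obj X) (Y := (COF f).obj Y) φ).hom := by
  change K0Q.cf f (A := X.of.alg) (B := Y.of.alg)
      (K0Q.res (φ.bc S) (DIso.refl (Y.of.alg.bc S)) (K0Q.one (Y.of.smooth.bc S))) =
    K0Q.res (φ.bc T) (DIso.refl (Y.of.alg.bc T)) (K0Q.one (Y.of.smooth.bc T))
  rw [← DIso.bc_refl S, ← DIso.bc_refl T, K0Q.cf_res,
    K0Q.cf_one f (Y.of.smooth.bc S) (Y.of.smooth.bc T) (Y.of.proper.bc T)]

/-- Change of the coefficients is compatible with tensor products of morphisms. -/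
theorem COF_coTens (f : S →ₐ[k] T) {X Y X' Y' : CO k S} (x : X ⟶ Y) (y : X' ⟶ Y') :
    (COF f).map (coTens x y) = coTens ((COF f).map x) ((COF f).map y) :=
  K0Q.cf_tens f (A := X.of.alg) (B := Y.of.alg) (A' := X'.of.alg) (B' := Y'.of.alg) x y

theorem COF_whiskerLeft (f : S →ₐ[k] T) (X : CO k S) {Y Z : CO k S} (y : Y ⟶ Z) :
    (COF f).map (X ◁ y) = (COF f).obj X ◁ (COF f).map y :=
  (COF_coTens f (𝟙 X) y).trans
    (congrArg (fun t => coTens t ((COF f).map y)) ((COF f).map_id X))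

theorem COF_whiskerRight (f : S →ₐ[k] T) {X Y : CO k S} (x : X ⟶ Y) (Z : CO k S) :
    (COF f).map (x ▷ Z) = (COF f).map x ▷ (COF f).obj Z :=
  (COF_coTens f x (𝟙 Z)).trans
    (congrArg (fun t => coTens ((COF f).map x) t) ((COF f).map_id Z))

section coherence

variable (f : S →ₐ[k] T) (X Y Z : CO k S)

private theorem cofun_assoc :
    (𝟙 ((COF f).obj X ⊗ (COF f).obj Y)) ▷ (COF f).obj Z ≫
      (𝟙 (((COF f).obj X ⊗ (COF f).obj Y) ⊗ (COF f).obj Z)) ≫ (α_ _ _ _).hom =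
    (α_ ((COF f).obj X) ((COF f).obj Y) ((COF f).obj Z)).hom ≫
      (COF f).obj X ◁ (𝟙 ((COF f).obj Y ⊗ (COF f).obj Z)) ≫
        𝟙 ((COF f).obj X ⊗ ((COF f).obj Y ⊗ (COF f).obj Z)) := by
  rw [id_whiskerRight, whiskerLeft_id, Category.id_comp, Category.id_comp, Category.comp_id,
    Category.comp_id]

private theorem cofun_left :
    (λ_ ((COF f).obj X)).hom = (𝟙 (𝟙_ (CO k T))) ▷ (COF f).obj X ≫
      (𝟙 (𝟙_ (CO k T) ⊗ (COF f).obj X)) ≫ (λ_ ((COF f).obj X)).hom := by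
  rw [id_whiskerRight, Category.id_comp, Category.id_comp]

private theorem cofun_right :
    (ρ_ ((COF f).obj X)).hom = (COF f).obj X ◁ (𝟙 (𝟙_ (CO k T))) ≫
      (𝟙 ((COF f).obj X ⊗ 𝟙_ (CO k T))) ≫ (ρ_ ((COF f).obj X)).hom := by
  rw [whiskerLeft_id, Category.id_comp, Category.id_comp]

end coherence

noncomputable instance (f : S →ₐ[k] T) : (COF f).Monoidal :=
  Functor.CoreMonoidal.toMonoidal
    { εIso := Iso.refl _
      μIso := fun X Y => Iso.refl _
      μIso_hom_natural_left := fun x X' =>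
        (Category.comp_id ((COF f).map x ▷ (COF f).obj X')).trans
          ((COF_whiskerRight f x X').symm.trans (Category.id_comp ((COF f).map (x ▷ X'))).symm)
      μIso_hom_natural_right := fun X' x =>
        (Category.comp_id ((COF f).obj X' ◁ (COF f).map x)).trans
          ((COF_whiskerLeft f X' x).symm.trans (Category.id_comp ((COF f).map (X' ◁ x))).symm)
      associativity := fun X Y Z =>
        (congrArg (fun t : ((COF f).obj X ⊗ (COF f).obj Y) ⊗ (COF f).obj Z ⟶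
            (COF f).obj X ⊗ ((COF f).obj Y ⊗ (COF f).obj Z) =>
          (𝟙 ((COF f).obj X ⊗ (COF f).obj Y)) ▷ (COF f).obj Z ≫
            (𝟙 (((COF f).obj X ⊗ (COF f).obj Y) ⊗ (COF f).obj Z)) ≫ t)
          (COF_coIso f (X := (X ⊗ Y) ⊗ Z) (Y := X ⊗ (Y ⊗ Z))
            (assocIso X.of.alg Y.of.alg Z.of.alg))).trans (cofun_assoc f X Y Z)
      left_unitality := fun X =>
        (cofun_left f X).trans (congrArg (fun t : 𝟙_ (CO k T) ⊗ (COF f).obj X ⟶ (COF f).obj X =>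
          (𝟙 (𝟙_ (CO k T))) ▷ (COF f).obj X ≫ (𝟙 (𝟙_ (CO k T) ⊗ (COF f).obj X)) ≫ t)
          (COF_coIso f (X := 𝟙_ (CO k S) ⊗ X) (Y := X) (lunitIso X.of.alg)).symm)
      right_unitality := fun X =>
        (cofun_right f X).trans (congrArg (fun t : (COF f).obj X ⊗ 𝟙_ (CO k T) ⟶ (COF f).obj X =>
          (COF f).obj X ◁ (𝟙 (𝟙_ (CO k T))) ≫ (𝟙 ((COF f).obj X ⊗ 𝟙_ (CO k T))) ≫ t)
          (COF_coIso f (X := X ⊗ 𝟙_ (CO k S)) (Y := X) (runitIso X.of.alg)).symm) }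

private theorem cofun_braided (f : S →ₐ[k] T) (X Y : CO k S) :
    (𝟙 ((COF f).obj X ⊗ (COF f).obj Y)) ≫ (COF f).map (β_ X Y).hom =
      (β_ ((COF f).obj X) ((COF f).obj Y)).hom ≫ 𝟙 ((COF f).obj Y ⊗ (COF f).obj X) :=
  (Category.id_comp ((COF f).map (β_ X Y).hom)).trans
    ((COF_coIso f (X := X ⊗ Y) (Y := Y ⊗ X) (swapIso X.of.alg Y.of.alg)).trans
      (Category.comp_id (β_ ((COF f).obj X) ((COF f).obj Y)).hom).symm)

noncomputable instance (f : S →ₐ[k] T) : (COF f).Braided where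
  braided := fun X Y => cofun_braided f X Y

instance (f : S →ₐ[k] T) : (COF f).Additive where
  map_add := map_add (K0Q.cf f) _ _

end Pool.Agent.MP_6e5bed_ag_NC
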