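import Pool.Agent.Lib.MP_6e5bed_ag_BC.SpGerm
import Pool.Agent.Lib.MP_6e5bed_ag_BC.COFun
import Pool.Agent.Lib.MP_6e5bed_ag_NC.NChow
import Pool.Agent.Lib.MP_6e5bed_ag.DescOp
import Pool.Agent.Lib.MP_6e5bed_ag.SOp

set_option autoImplicit false

/-!
# Spreading out of Kimura-finiteness
-/

namespace Pool.Agent.MP_6e5bed_ag_NC

attribute [local instance] Alg.iR Alg.iA Cf.iG Cf.iM Rs.iG Rs.iM

open CategoryTheory MonoidalCategory Pool.Agent.MP_6e5bed_ag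

universe u

section karoubi

open Idempotents

universe v₁ u₁

variable {C : Type u₁} [Category.{v₁} C] [MonoidalCategory C]

private theorem spKF_one :
    𝟙 (𝟙_ C) ≫ 𝟙 (𝟙_ C) ≫ 𝟙 (𝟙_ C) = 𝟙 (𝟙_ C) := by
  rw [Category.comp_id, Category.comp_id]

private theorem spKF_comm (A B : C) :
    (𝟙 A ⊗ₘ 𝟙 B) ≫ 𝟙 (A ⊗ B) ≫ 𝟙 (A ⊗ B) = 𝟙 (A ⊗ B) := by
  rw [id_tensorHom_id, Category.comp_id, Category.comp_id]

private theorem spKF_comm' (A B : C) :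
    𝟙 (A ⊗ B) ≫ 𝟙 (A ⊗ B) ≫ (𝟙 A ⊗ₘ 𝟙 B) = 𝟙 (A ⊗ B) := by
  rw [id_tensorHom_id, Category.comp_id, Category.comp_id]

/-- The inclusion in the idempotent completion preserves the unit. -/
private def spKF_ε : 𝟙_ (Karoubi C) ≅ (toKaroubi C).obj (𝟙_ C) where
  hom := ⟨𝟙 (𝟙_ C), spKF_one⟩
  inv := ⟨𝟙 (𝟙_ C), spKF_one⟩
  hom_inv_id := Karoubi.hom_ext _ _ (Category.comp_id (𝟙 (𝟙_ C)))
  inv_hom_id := Karoubi.hom_ext _ _ (Category.comp_id (𝟙 (𝟙_ C)))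

/-- The inclusion in the idempotent completion preserves tensor products. -/
private def spKF_μ (A B : C) :
    (toKaroubi C).obj A ⊗ (toKaroubi C).obj B ≅ (toKaroubi C).obj (A ⊗ B) where
  hom := ⟨𝟙 (A ⊗ B), spKF_comm A B⟩
  inv := ⟨𝟙 (A ⊗ B), spKF_comm' A B⟩
  hom_inv_id := Karoubi.hom_ext _ _
    ((Category.comp_id (𝟙 (A ⊗ B))).trans (id_tensorHom_id A B).symm)
  inv_hom_id := Karoubi.hom_ext _ _ (Category.comp_id (𝟙 (A ⊗ B)))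

private theorem spKF_left {A B X : C} (f : A ⟶ B) :
    (f ⊗ₘ 𝟙 X) ≫ 𝟙 (B ⊗ X) = 𝟙 (A ⊗ X) ≫ (f ▷ X) := by
  rw [tensorHom_id, Category.comp_id, Category.id_comp]

private theorem spKF_right {A B X : C} (f : A ⟶ B) :
    (𝟙 X ⊗ₘ f) ≫ 𝟙 (X ⊗ B) = 𝟙 (X ⊗ A) ≫ (X ◁ f) := by
  rw [id_tensorHom, Category.comp_id, Category.id_comp]

private theorem spKF_assoc (X Y Z : C) :
    (𝟙 (X ⊗ Y) ⊗ₘ 𝟙 Z) ≫ 𝟙 ((X ⊗ Y) ⊗ Z) ≫ (α_ X Y Z).hom =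
      (((𝟙 X ⊗ₘ 𝟙 Y) ⊗ₘ 𝟙 Z) ≫ (α_ X Y Z).hom) ≫ (𝟙 X ⊗ₘ 𝟙 (Y ⊗ Z)) ≫ 𝟙 (X ⊗ (Y ⊗ Z)) := by
  simp

private theorem spKF_lunit (X : C) :
    (λ_ X).hom ≫ 𝟙 X = (𝟙 (𝟙_ C) ⊗ₘ 𝟙 X) ≫ 𝟙 (𝟙_ C ⊗ X) ≫ (λ_ X).hom := by
  simp

private theorem spKF_runit (X : C) :
    (ρ_ X).hom ≫ 𝟙 X = (𝟙 X ⊗ₘ 𝟙 (𝟙_ C)) ≫ 𝟙 (X ⊗ 𝟙_ C) ≫ (ρ_ X).hom := by
  simp

/-- The inclusion in the idempotent completion is monoidal. -/
@[implicit_reducible]
def spKF_mon : (toKaroubi C).Monoidal :=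
  Functor.CoreMonoidal.toMonoidal
    { εIso := spKF_ε
      μIso := fun X Y => spKF_μ X Y
      μIso_hom_natural_left := fun f _ => Karoubi.hom_ext _ _ (spKF_left f)
      μIso_hom_natural_right := fun _ f => Karoubi.hom_ext _ _ (spKF_right f)
      associativity := fun X Y Z => Karoubi.hom_ext _ _ (spKF_assoc X Y Z)
      left_unitality := fun X => Karoubi.hom_ext _ _ (spKF_lunit X)
      right_unitality := fun X => Karoubi.hom_ext _ _ (spKF_runit X) }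

variable [SymmetricCategory C]

private theorem spKF_braid (X Y : C) :
    𝟙 (X ⊗ Y) ≫ (β_ X Y).hom = ((𝟙 X ⊗ₘ 𝟙 Y) ≫ (β_ X Y).hom) ≫ 𝟙 (Y ⊗ X) := by
  simp

/-- The inclusion in the idempotent completion is braided. -/
@[implicit_reducible]
def spKF_brd : (toKaroubi C).Braided :=
  { spKF_mon with
    braided := fun X Y => Karoubi.hom_ext _ _ (spKF_braid X Y) }

theorem spKF_karoubi [Preadditive C] (X : C) : OpKF ((toKaroubi C).obj X) ↔ OpKF X := by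
  let _ : (toKaroubi C).Braided := spKF_brd
  exact opKF_iff_of_full X

end karoubi

variable {k : Type u} [CommRing k] {S T : Type u} [CommRing S] [CommRing T] [Algebra k S]
  [Algebra k T]

theorem OpKF.co_up (f : S →ₐ[k] T) {A : SP k} (h : OpKF (⟨A⟩ : CO k S)) :
    OpKF (⟨A⟩ : CO k T) := OpKF.map (COF f) h

theorem opKF_co (X : CO k S) : OpKF X ↔ OpKF (X.of.bc S) :=
  (opKF_iff_of_full (F := COJ k S) X).symm

theorem opKF_self (A : SP k) : OpKF (⟨A⟩ : CO k k) ↔ OpKF A :=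
  (opKF_co (⟨A⟩ : CO k k)).trans
    ⟨OpKF.of_iso (mkIso (A := A.bc k) (B := A) (selfIso A.alg)),
      OpKF.of_iso (mkIso (A := A.bc k) (B := A) (selfIso A.alg)).symm⟩

theorem kimuraFinite_U_iff (A : SP k) : KimuraFinite (U A) ↔ OpKF A :=
  ⟨fun h => (spKF_karoubi A).1 (opKF_of_kimuraFinite h),
    fun h => kimuraFinite_of_opKF ((spKF_karoubi A).2 h)⟩

section spread

variable {K : Type u} [CommRing K] [Algebra k K]

private theorem spKF_zero {S : FGS k K} {X Y : CO k S.1} (x : X ⟶ Y)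
    (hx : (COF S.val).map x = 0) :
    ∃ (T : FGS k K) (h : S ≤ T), (COF (FGS.inc h)).map x = 0 :=
  K0Q.cf_zero (A := X.of.alg) (B := Y.of.alg) x hx

private theorem spKF_up {S T U : FGS k K} (h : S ≤ T) (h' : T ≤ U) {X Y : CO k S.1} (x : X ⟶ Y)
    (hx : (COF (FGS.inc h)).map x = 0) : (COF (FGS.inc (h.trans h'))).map x = 0 := by
  have h1 : K0Q.cf (A := X.of.alg) (B := Y.of.alg) (FGS.inc h) x = 0 := hx
  have h2 := K0Q.cf_cf' (A := X.of.alg) (B := Y.of.alg) (FGS.inc h) (FGS.inc h')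
    (FGS.inc (h.trans h')) (FGS.inc_inc h h') x
  rw [h1, map_zero] at h2
  exact h2.symm

end spread

/-- Kimura-finiteness over `K` holds already over a finitely generated subalgebra. -/
theorem opKF_spread {K : Type u} [CommRing K] [Algebra k K] {A : SP k}
    (h : OpKF (⟨A⟩ : CO k K)) : ∃ S : FGS k K, OpKF (⟨A⟩ : CO k S.1) := by
  obtain ⟨e, he, ⟨r, hr⟩, s, hs⟩ := h
  rw [← gSum_coe] at hr
  rw [← gSum_one] at hs
  obtain ⟨S, e₀, he₀⟩ : ∃ (S : FGS k K) (e₀ : (⟨A⟩ : CO k S.1) ⟶ ⟨A⟩),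
      (COF S.val).map e₀ = e := K0Q.exists_cf (A := A.alg) (B := A.alg) e
  subst he₀
  have h1 : (COF S.val).map (e₀ ≫ e₀ - e₀) = 0 := by
    rw [Functor.map_sub, Functor.map_comp, sub_eq_zero]
    exact he
  have h2 : (COF S.val).map (gSum (Units.coeHom ℤ) (⟨A⟩ : CO k S.1) r ≫ tmap e₀ r) = 0 := by
    rw [map_kill_iff]
    exact hr
  have h3 : (COF S.val).map (gSum 1 (⟨A⟩ : CO k S.1) s ≫ tmap (𝟙 _ - e₀) s) = 0 := by
    rw [map_kill_iff, Functor.map_sub, CategoryTheory.Functor.map_id]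
    exact hs
  obtain ⟨T₁, i₁, h1⟩ := spKF_zero _ h1
  obtain ⟨T₂, i₂, h2⟩ := spKF_zero _ h2
  obtain ⟨T₃, i₃, h3⟩ := spKF_zero _ h3
  obtain ⟨T₄, j₁, j₂⟩ := exists_ge_ge T₁ T₂
  obtain ⟨T, j₄, j₃⟩ := exists_ge_ge T₄ T₃
  have h1 := spKF_up i₁ (j₁.trans j₄) _ h1
  have h2 := spKF_up i₂ (j₂.trans j₄) _ h2
  have h3 := spKF_up i₃ j₃ _ h3
  rw [Functor.map_sub, Functor.map_comp, sub_eq_zero] at h1
  rw [map_kill_iff, gSum_coe] at h2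
  rw [map_kill_iff, Functor.map_sub, CategoryTheory.Functor.map_id, gSum_one] at h3
  exact ⟨T, (COF (FGS.inc (i₁.trans (j₁.trans j₄)))).map e₀, h1, ⟨r, h2⟩, s, h3⟩

end Pool.Agent.MP_6e5bed_ag_NC
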