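import Pool.Agent.Lib.MP_6e5bed_ag_BC.CODesc
import Pool.Agent.Lib.MP_6e5bed_ag_BC.SpKF

set_option autoImplicit false

/-!
# Base change and spreading out
-/

namespace Pool.Agent.MP_6e5bed_ag_NC

attribute [local instance] Alg.iR Alg.iA Cf.iG Cf.iM Rs.iG Rs.iM

open CategoryTheory MonoidalCategory Pool.Agent.MP_6e5bed_ag

universe u

theorem kimuraFinite_bc_iff {k K : Type u} [Field k] [Field K] [Algebra k K] (A : SP k) :
    KimuraFinite (U (A.bc K)) ↔ KimuraFinite (U A) := by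
  rw [kimuraFinite_U_iff, kimuraFinite_U_iff, ← opKF_self A]
  refine (opKF_co (⟨A⟩ : CO k K)).symm.trans ?_
  constructor
  · intro h
    obtain ⟨S, hS⟩ := opKF_spread h
    obtain ⟨L, _, _, _, _, ⟨f⟩⟩ := exists_point S
    exact opKF_of_normal A (OpKF.co_up f hS)
  · exact OpKF.co_up (Algebra.ofId k K)

theorem exists_kimuraFinite_bc {R : Type u} [CommRing R] [IsDomain R] (A : SP R)
    (h : KimuraFinite (U (A.bc (FractionRing R)))) : ∃ f : R, f ≠ 0 ∧
      ∀ (L : Type u) [Field L] [Algebra R L], algebraMap R L f ≠ 0 →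
        KimuraFinite (U (A.bc L)) := by
  rw [kimuraFinite_U_iff] at h
  obtain ⟨S, hS⟩ := opKF_spread ((opKF_co (⟨A⟩ : CO R (FractionRing R))).2 h)
  obtain ⟨f, hf, hL⟩ := exists_away S
  refine ⟨f, hf, fun L _ _ h => ?_⟩
  obtain ⟨g⟩ := hL L h
  rw [kimuraFinite_U_iff]
  exact (opKF_co (⟨A⟩ : CO R L)).1 (OpKF.co_up g hS)

end Pool.Agent.MP_6e5bed_ag_NC
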