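import Pool.Agent.Lib.MP_6e5bed_ag_BC.RsDefs

set_option autoImplicit false

/-!
# Base change of restrictions of scalars
-/

namespace Pool.Agent.MP_6e5bed_ag_NC

attribute [local instance] Alg.iR Alg.iA Cf.iG Cf.iM Rs.iG Rs.iM

open scoped TensorProduct

universe u

variable {k : Type u} [CommRing k] {S T : Type u} [CommRing S] [CommRing T]
  [Algebra k S] [Algebra k T] {A B : DGA k}

variable (k S T) in
/-- `s ↦ s ⊗ 1` -/
noncomputable def iL : S →ₐ[k] S ⊗[k] T := Algebra.TensorProduct.includeLeft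

variable (k S T) in
/-- `t ↦ 1 ⊗ t` -/
noncomputable def iR : T →ₐ[k] S ⊗[k] T := Algebra.TensorProduct.includeRight

section inv

variable (k T) in
/-- Multiplication by `t`, as a `k`-linear map. -/
private noncomputable def bcbT {W : Type u} [AddCommGroup W] [Module T W] (t : T) :
    Rs (Algebra.ofId k T).toRingHom W →ₗ[k] Rs (Algebra.ofId k T).toRingHom W :=
  Rs.map (Algebra.ofId k T).toRingHom (LinearMap.lsmul T W t)

variable (k S T) in
/-- `S ⊗ N`, for a `T`-module `N`. -/
private abbrev BcbQ (W : Type u) [AddCommGroup W] [Module T W] : Type u :=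
  Cf (Algebra.ofId k S).toRingHom (Rs (Algebra.ofId k T).toRingHom W)

variable (k S T) in
/-- The map `(S ⊗ T) ⊗_T N → S ⊗ N`. -/
private theorem bcb_exists (W : Type u) [AddCommGroup W] [Module T W] :
    ∃ Ψ : Cf (iR k S T).toRingHom W →+ BcbQ k S T W, ∀ (s : S) (w : W),
      Ψ (iL k S T s • Cf.ι (iR k S T).toRingHom w) =
        s • Cf.ι (Algebra.ofId k S).toRingHom (Rs.to (Algebra.ofId k T).toRingHom w) := by
  let mT : Module T (BcbQ k S T W) :=
    { smul := fun t x => Cf.map (Algebra.ofId k S).toRingHom (bcbT k T t) x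
      one_smul := fun x => by
        change Cf.map (Algebra.ofId k S).toRingHom (bcbT k T (1 : T)) x = x
        have h : bcbT k T (W := W) (1 : T) = LinearMap.id :=
          LinearMap.ext (fun w => one_smul T (Rs.of (Algebra.ofId k T).toRingHom w))
        rw [h, Cf.map_id, LinearMap.id_apply]
      mul_smul := fun t t' x => by
        change Cf.map (Algebra.ofId k S).toRingHom (bcbT k T (t * t')) x =
          Cf.map (Algebra.ofId k S).toRingHom (bcbT k T t)
            (Cf.map (Algebra.ofId k S).toRingHom (bcbT k T t') x)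
        have h : bcbT k T (W := W) (t * t') = (bcbT k T t).comp (bcbT k T t') :=
          LinearMap.ext (fun w => mul_smul t t' (Rs.of (Algebra.ofId k T).toRingHom w))
        rw [h, Cf.map_comp, LinearMap.comp_apply]
      smul_zero := fun t => map_zero (Cf.map (Algebra.ofId k S).toRingHom (bcbT k T t))
      smul_add := fun t x y => map_add (Cf.map (Algebra.ofId k S).toRingHom (bcbT k T t)) x y
      add_smul := fun t t' x => by
        change Cf.map (Algebra.ofId k S).toRingHom (bcbT k T (t + t')) x =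
          Cf.map (Algebra.ofId k S).toRingHom (bcbT k T t) x +
            Cf.map (Algebra.ofId k S).toRingHom (bcbT k T t') x
        have h : bcbT k T (W := W) (t + t') = bcbT k T t + bcbT k T t' :=
          LinearMap.ext (fun w => add_smul t t' (Rs.of (Algebra.ofId k T).toRingHom w))
        rw [h, Cf.map_add', LinearMap.add_apply]
      zero_smul := fun x => by
        change Cf.map (Algebra.ofId k S).toRingHom (bcbT k T (0 : T)) x = 0
        have h : Cf.map (Algebra.ofId k S).toRingHom (bcbT k T (W := W) (0 : T)) = 0 :=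
          Cf.hom_ext (fun w => by
            rw [Cf.map_ι, LinearMap.zero_apply]
            have h1 : bcbT k T (W := W) (0 : T) w = 0 :=
              zero_smul T (Rs.of (Algebra.ofId k T).toRingHom w)
            rw [h1, map_zero])
        rw [h, LinearMap.zero_apply] }
  let mk : Module k (BcbQ k S T W) := Module.compHom _ (algebraMap k S)
  have h1 : IsScalarTower k S (BcbQ k S T W) := ⟨fun c s x => by
    rw [Algebra.smul_def, mul_smul]
    rfl⟩
  have h2 : IsScalarTower k T (BcbQ k S T W) := ⟨fun c t x => by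
    change Cf.map (Algebra.ofId k S).toRingHom (bcbT k T (c • t)) x =
      algebraMap k S c • Cf.map (Algebra.ofId k S).toRingHom (bcbT k T t) x
    have h : bcbT k T (W := W) (c • t) = c • bcbT k T t :=
      LinearMap.ext (fun w => by
        rw [Algebra.smul_def]
        exact mul_smul (algebraMap k T c) t (Rs.of (Algebra.ofId k T).toRingHom w))
    rw [h, Cf.map_smul', LinearMap.smul_apply]
    rfl⟩
  have h3 : SMulCommClass S T (BcbQ k S T W) := ⟨fun s t x =>
    (map_smul (Cf.map (Algebra.ofId k S).toRingHom (bcbT k T t)) s x).symm⟩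
  let mST : Module (S ⊗[k] T) (BcbQ k S T W) := TensorProduct.Algebra.module
  have hsm : ∀ (s : S) (t : T) (x : BcbQ k S T W), (s ⊗ₜ[k] t) • x = s • (t • x) :=
    fun s t x => TensorProduct.Algebra.smul_def s t x
  have hg : ∀ (t : T) (w : W),
      ((Cf.ι (Algebra.ofId k S).toRingHom).comp (Rs.to (Algebra.ofId k T).toRingHom)) (t • w) =
        (iR k S T).toRingHom t •
          ((Cf.ι (Algebra.ofId k S).toRingHom).comp (Rs.to (Algebra.ofId k T).toRingHom)) w := by
    intro t w
    change Cf.ι (Algebra.ofId k S).toRingHom (Rs.to (Algebra.ofId k T).toRingHom (t • w)) =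
      ((1 : S) ⊗ₜ[k] t) •
        Cf.ι (Algebra.ofId k S).toRingHom (Rs.to (Algebra.ofId k T).toRingHom w)
    rw [hsm, one_smul]
    exact (Cf.map_ι (Algebra.ofId k S).toRingHom (bcbT k T t)
      (Rs.to (Algebra.ofId k T).toRingHom w)).symm
  refine ⟨(Cf.lift (f := (iR k S T).toRingHom)
    ((Cf.ι (Algebra.ofId k S).toRingHom).comp (Rs.to (Algebra.ofId k T).toRingHom))
    hg).toAddMonoidHom, fun s w => ?_⟩
  change Cf.lift (f := (iR k S T).toRingHom)
    ((Cf.ι (Algebra.ofId k S).toRingHom).comp (Rs.to (Algebra.ofId k T).toRingHom)) hg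
    (iL k S T s • Cf.ι (iR k S T).toRingHom w) = _
  rw [map_smul, Cf.lift_ι]
  change (s ⊗ₜ[k] (1 : T)) •
    Cf.ι (Algebra.ofId k S).toRingHom (Rs.to (Algebra.ofId k T).toRingHom w) = _
  rw [hsm, one_smul]

end inv

/-- Base change of the algebra in two steps. -/
private theorem bcb_push (x : (A.bc k).A) :
    push (iR k S T) A (push (Algebra.ofId k T) A x) =
      push (iL k S T) A (push (Algebra.ofId k S) A x) := by
  refine DGA.ι_ind (P := fun x => push (iR k S T) A (push (Algebra.ofId k T) A x) =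
      push (iL k S T) A (push (Algebra.ofId k S) A x)) ?_ ?_ ?_ x
  · simp only [map_zero]
  · intro x y hx hy
    simp only [map_add, hx, hy]
  · intro c a
    rw [push_smul, push_smul, push_smul, push_smul, push_ι, push_ι, push_ι, push_ι]
    have h1 : (iR k S T) ((Algebra.ofId k T) c) = algebraMap k (S ⊗[k] T) c :=
      (iR k S T).commutes c
    have h2 : (iL k S T) ((Algebra.ofId k S) c) = algebraMap k (S ⊗[k] T) c :=
      (iL k S T).commutes c
    rw [h1, h2]

private theorem bcb_l {f : S →ₐ[k] T} (M : Bim (A.bc S) (B.bc S)) (x : (A.bc S).A) (m : M.M) :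
    M.ι f (M.l x m) = (M.cf f).l (push f A x) (M.ι f m) := by
  refine DGA.ι_ind (P := fun a => M.ι f (M.l a m) = (M.cf f).l (push f A a) (M.ι f m))
    ?_ ?_ ?_ x
  · simp only [map_zero, LinearMap.zero_apply]
  · intro x y hx hy
    simp only [map_add, LinearMap.add_apply, hx, hy]
  · intro s b
    rw [map_smul, LinearMap.smul_apply, Bim.ι_smul, push_smul, map_smul,
      LinearMap.smul_apply, push_ι, Bim.ι_l]

private theorem bcb_r {f : S →ₐ[k] T} (M : Bim (A.bc S) (B.bc S)) (x : (B.bc S).A) (m : M.M) :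
    M.ι f (M.r x m) = (M.cf f).r (push f B x) (M.ι f m) := by
  refine DGA.ι_ind (P := fun a => M.ι f (M.r a m) = (M.cf f).r (push f B a) (M.ι f m))
    ?_ ?_ ?_ x
  · simp only [map_zero, LinearMap.zero_apply]
  · intro x y hx hy
    simp only [map_add, LinearMap.add_apply, hx, hy]
  · intro s b
    rw [map_smul, LinearMap.smul_apply, Bim.ι_smul, push_smul, map_smul,
      LinearMap.smul_apply, push_ι, Bim.ι_r]

/-- The map `n ↦ 1 ⊗ n`. -/
private noncomputable def bcbφ (N : Bim (A.bc T) (B.bc T)) :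
    GMap 0 (N.rs (Algebra.ofId k T))
      (((N.cf (iR k S T)).rs (iL k S T)).rs (Algebra.ofId k S)) where
  f :=
    { toFun := fun n => ((N.cf (iR k S T)).rs (iL k S T)).to (Algebra.ofId k S)
        ((N.cf (iR k S T)).to (iL k S T) (N.ι (iR k S T) (N.ofRs (Algebra.ofId k T) n)))
      map_add' := fun n n' => by simp only [map_add]
      map_smul' := fun c n => by
        rw [Bim.ofRs_smul, Bim.ι_smul]
        have h1 : (iR k S T) ((Algebra.ofId k T) c) = (iL k S T) ((Algebra.ofId k S) c) :=
          ((iR k S T).commutes c).trans ((iL k S T).commutes c).symm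
        rw [h1]
        rfl }
  deg := fun {i n} h => by
    rw [add_zero]
    exact Bim.ι_deg (M := N) (f := iR k S T) h
  map_l := fun a n => by
    rw [Dg.sp_even (Int.even_iff.2 rfl)]
    change N.ι (iR k S T) (N.l (push (Algebra.ofId k T) A a) n) =
      (N.cf (iR k S T)).l (push (iL k S T) A (push (Algebra.ofId k S) A a)) (N.ι (iR k S T) n)
    rw [bcb_l, bcb_push]
  map_r := fun b n => by
    change N.ι (iR k S T) (N.r (push (Algebra.ofId k T) B b) n) =
      (N.cf (iR k S T)).r (push (iL k S T) B (push (Algebra.ofId k S) B b)) (N.ι (iR k S T) n)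
    rw [bcb_r, bcb_push]

private theorem bcbφ_f (N : Bim (A.bc T) (B.bc T)) (n : (N.rs (Algebra.ofId k T)).M) :
    (N.cf (iR k S T)).ofRs (iL k S T) (((N.cf (iR k S T)).rs (iL k S T)).ofRs (Algebra.ofId k S)
      ((bcbφ (S := S) N).f n)) = N.ι (iR k S T) (N.ofRs (Algebra.ofId k T) n) := rfl

private theorem bcbφ_dd (N : Bim (A.bc T) (B.bc T)) (n : (N.rs (Algebra.ofId k T)).M) :
    (bcbφ (S := S) N).dd n = 0 := by
  rw [GMap.dd_apply]
  have h1 : (((N.cf (iR k S T)).rs (iL k S T)).rs (Algebra.ofId k S)).dg.d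
      ((bcbφ (S := S) N).f n) = (bcbφ (S := S) N).f ((N.rs (Algebra.ofId k T)).dg.d n) :=
    Bim.ι_d (M := N) (f := iR k S T) (N.ofRs (Algebra.ofId k T) n)
  rw [h1, sg_zero, one_smul, sub_self]

/-- `S ⊗_k N = (S ⊗_k T) ⊗_T N` -/
theorem cf_rs (N : Bim (A.bc T) (B.bc T)) :
    BIso ((N.rs (Algebra.ofId k T)).cf (Algebra.ofId k S)) ((N.cf (iR k S T)).rs (iL k S T)) := by
  have hι : ∀ n : (N.rs (Algebra.ofId k T)).M,
      (N.cf (iR k S T)).ofRs (iL k S T)
        (((bcbφ (S := S) N).adj (Algebra.ofId k S)).f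
          ((N.rs (Algebra.ofId k T)).ι (Algebra.ofId k S) n)) =
        N.ι (iR k S T) (N.ofRs (Algebra.ofId k T) n) := fun n => by
    rw [GMap.adj_ι, bcbφ_f]
  have hsι : ∀ (s : S) (n : (N.rs (Algebra.ofId k T)).M),
      (N.cf (iR k S T)).ofRs (iL k S T)
        (((bcbφ (S := S) N).adj (Algebra.ofId k S)).f
          (s • (N.rs (Algebra.ofId k T)).ι (Algebra.ofId k S) n)) =
        iL k S T s • N.ι (iR k S T) (N.ofRs (Algebra.ofId k T) n) := fun s n => by
    rw [map_smul, Bim.ofRs_smul, hι]
  refine BIso.of_bij ((bcbφ (S := S) N).adj (Algebra.ofId k S)) ?_ ⟨?_, ?_⟩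
  · refine Bim.ι_ext (fun m => ?_)
    rw [GMap.adj_dd, bcbφ_dd, map_zero]
    rfl
  · obtain ⟨Ψ, hΨ⟩ : ∃ Ψ : (N.cf (iR k S T)).M →+
        ((N.rs (Algebra.ofId k T)).cf (Algebra.ofId k S)).M, ∀ (s : S) (w : N.M),
        Ψ (iL k S T s • N.ι (iR k S T) w) =
          s • (N.rs (Algebra.ofId k T)).ι (Algebra.ofId k S) (N.to (Algebra.ofId k T) w) :=
      bcb_exists k S T N.M
    refine Function.LeftInverse.injective (g := fun y => Ψ y) (fun x => ?_)
    refine Bim.ι_ind (P := fun x => Ψ ((N.cf (iR k S T)).ofRs (iL k S T)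
      (((bcbφ (S := S) N).adj (Algebra.ofId k S)).f x)) = x) ?_ ?_ ?_ x
    · simp only [map_zero]
    · intro x y hx hy
      simp only [map_add, hx, hy]
    · intro s n
      rw [hsι]
      exact hΨ s n
  · intro y
    refine Bim.ι_ind (M := N) (f := iR k S T) (P := fun y => ∃ x,
      (N.cf (iR k S T)).ofRs (iL k S T)
        (((bcbφ (S := S) N).adj (Algebra.ofId k S)).f x) = y) ?_ ?_ ?_ y
    · exact ⟨0, by simp only [map_zero]⟩
    · rintro x y ⟨x', hx⟩ ⟨y', hy⟩
      exact ⟨x' + y', by simp only [map_add, hx, hy]⟩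
    · intro z n
      induction z using TensorProduct.induction_on with
      | zero => exact ⟨0, by simp only [map_zero, zero_smul]⟩
      | add z z' hz hz' =>
        obtain ⟨x, hx⟩ := hz
        obtain ⟨x', hx'⟩ := hz'
        exact ⟨x + x', by simp only [map_add, add_smul, hx, hx']⟩
      | tmul s t =>
        refine ⟨s • (N.rs (Algebra.ofId k T)).ι (Algebra.ofId k S)
          (N.to (Algebra.ofId k T) (t • n)), ?_⟩
        rw [hsι]
        change iL k S T s • N.ι (iR k S T) (t • n) = _
        rw [Bim.ι_smul, smul_smul]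
        have h : iL k S T s * iR k S T t = s ⊗ₜ[k] t := by
          change (s ⊗ₜ[k] (1 : T)) * ((1 : S) ⊗ₜ[k] t) = s ⊗ₜ[k] t
          rw [Algebra.TensorProduct.tmul_mul_tmul, mul_one, one_mul]
        rw [h]

end Pool.Agent.MP_6e5bed_ag_NC
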