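import Pool.Agent.Lib.MP_6e5bed_ag_BC.BcIso

set_option autoImplicit false

/-!
# Base change of external tensor products
-/

namespace Pool.Agent.MP_6e5bed_ag_NC

attribute [local instance] Alg.iR Alg.iA Cf.iG Cf.iM Rs.iG Rs.iM

open scoped TensorProduct

universe u

variable {k : Type u} [CommRing k] {S T : Type u} [CommRing S] [CommRing T] [Algebra k S]
  [Algebra k T] {A B A' B' : DGA k}

/-- The external tensor product over `S`, as a bimodule over `(A ⊗ A')_S` and `(B ⊗ B')_S`. -/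
noncomputable def tens (M : Bim (A.bc S) (B.bc S)) (M' : Bim (A'.bc S) (B'.bc S)) :
    Bim ((A.tensor A').bc S) ((B.tensor B').bc S) :=
  res (tensIso S A A').hom (tensIso S B B').hom (box M M')

/-- Pure tensors. -/
private noncomputable def bxT (M : Bim (A.bc S) (B.bc S)) (M' : Bim (A'.bc S) (B'.bc S)) :
    M.M →ₗ[S] M'.M →ₗ[S] (tens M M').M := TensorProduct.mk S M.M M'.M

private theorem bxT_ext {M : Bim (A.bc S) (B.bc S)} {M' : Bim (A'.bc S) (B'.bc S)} {P : Type*}
    [AddCommGroup P] [Module S P] {φ ψ : (tens M M').M →ₗ[S] P}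
    (h : (bxT M M').compr₂ φ = (bxT M M').compr₂ ψ) : φ = ψ :=
  TensorProduct.ext (M := M.M) (N := M'.M) (g := φ) (h := ψ) h

private theorem bxT_ind {M : Bim (A.bc S) (B.bc S)} {M' : Bim (A'.bc S) (B'.bc S)}
    {P : (tens M M').M → Prop} (h0 : P 0) (hadd : ∀ x y, P x → P y → P (x + y))
    (h : ∀ x y, P (bxT M M' x y)) (m : (tens M M').M) : P m :=
  TensorProduct.induction_on (motive := fun m : M.M ⊗[S] M'.M => P m) m h0 h hadd

private theorem bxT_l {M : Bim (A.bc S) (B.bc S)} {M' : Bim (A'.bc S) (B'.bc S)} (a : A.A)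
    (a' : A'.A) (x : M.M) (y : M'.M) :
    (tens M M').l ((A.tensor A').ι S (a ⊗ₜ a')) (bxT M M' x y) =
      bxT M M' (M.l (A.ι S a) x) (M'.l (A'.ι S a') y) -
        (2 : S) • bxT M M' (M.l (A.ι S a) (M.dg.o x)) (M'.l (A'.ι S (A'.dg.o a')) y) := by
  have h1 : (tens M M').l ((A.tensor A').ι S (a ⊗ₜ a')) (bxT M M' x y) =
      kz M.dg (A'.bc S).dg M.l M'.l ((tensIso S A A').hom.f ((A.tensor A').ι S (a ⊗ₜ a')))
        (x ⊗ₜ y) := rfl
  rw [h1, tensIso_ι, kz_tmul, DGA.ι_o]
  rfl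

private theorem bxT_r {M : Bim (A.bc S) (B.bc S)} {M' : Bim (A'.bc S) (B'.bc S)} (b : B.A)
    (b' : B'.A) (x : M.M) (y : M'.M) :
    (tens M M').r ((B.tensor B').ι S (b ⊗ₜ b')) (bxT M M' x y) =
      bxT M M' (M.r (B.ι S b) x) (M'.r (B'.ι S b') y) -
        (2 : S) • bxT M M' (M.r (B.ι S (B.dg.o b)) x) (M'.r (B'.ι S b') (M'.dg.o y)) := by
  have h1 : (tens M M').r ((B.tensor B').ι S (b ⊗ₜ b')) (bxT M M' x y) =
      kz (B.bc S).dg M'.dg M.rr M'.rr (x ⊗ₜ y)
        ((tensIso S B B').hom.f ((B.tensor B').ι S (b ⊗ₜ b'))) := rfl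
  rw [h1, tensIso_ι, kz_tmul, DGA.ι_o]
  rfl

private theorem bxT_d {M : Bim (A.bc S) (B.bc S)} {M' : Bim (A'.bc S) (B'.bc S)} (x : M.M)
    (y : M'.M) : (tens M M').dg.d (bxT M M' x y) =
      bxT M M' (M.dg.d x) y + bxT M M' (M.dg.s x) (M'.dg.d y) :=
  Dg.tensor_d x y

private theorem bxT_deg {M : Bim (A.bc S) (B.bc S)} {M' : Bim (A'.bc S) (B'.bc S)} {i j : ℤ}
    {x : M.M} {y : M'.M} (hx : M.dg.IsDeg i x) (hy : M'.dg.IsDeg j y) :
    (tens M M').dg.IsDeg (i + j) (bxT M M' x y) :=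
  Dg.tensor_deg hx hy

/-- The linear map given by a bilinear map. -/
private noncomputable def bxLift (M : Bim (A.bc S) (B.bc S)) (M' : Bim (A'.bc S) (B'.bc S))
    {P : Type*} [AddCommGroup P] [Module S P] (β : M.M →ₗ[S] M'.M →ₗ[S] P) :
    (tens M M').M →ₗ[S] P :=
  TensorProduct.lift β

private theorem bxLift_T (M : Bim (A.bc S) (B.bc S)) (M' : Bim (A'.bc S) (B'.bc S))
    {P : Type*} [AddCommGroup P] [Module S P] (β : M.M →ₗ[S] M'.M →ₗ[S] P) (x : M.M)
    (y : M'.M) : bxLift M M' β (bxT M M' x y) = β x y := rfl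

section

variable (f : S →ₐ[k] T) (M : Bim (A.bc S) (B.bc S)) (M' : Bim (A'.bc S) (B'.bc S))

/-- The map `m ⊗ m' ↦ ι m ⊗ ι m'`, as a linear map to the restriction of scalars. -/
private noncomputable def bxF :
    (tens M M').M →ₗ[S] Rs f.toRingHom (tens (M.cf f) (M'.cf f)).M :=
  bxLift M M' (LinearMap.mk₂ S
    (fun x y => Rs.to f.toRingHom (bxT (M.cf f) (M'.cf f) (M.ι f x) (M'.ι f y)))
    (fun x x' y => by rw [map_add, map_add, LinearMap.add_apply, map_add])
    (fun s x y => by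
      rw [Bim.ι_smul, map_smul, LinearMap.smul_apply]
      rfl)
    (fun x y y' => by rw [map_add, map_add, map_add])
    (fun s x y => by
      rw [Bim.ι_smul, map_smul]
      rfl))

/-- The same map as an additive map. -/
private noncomputable def bxE : (tens M M').M →+ (tens (M.cf f) (M'.cf f)).M :=
  (Rs.of f.toRingHom).comp (bxF f M M').toAddMonoidHom

private theorem bxE_T (x : M.M) (y : M'.M) :
    bxE f M M' (bxT _ _ x y) = bxT _ _ (M.ι f x) (M'.ι f y) := rfl

private theorem bxE_smul (s : S) (m : (tens M M').M) :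
    bxE f M M' (s • m) = f s • bxE f M M' m :=
  (bxF f M M').map_smul s m

private theorem bxE_deg {j : ℤ} {v : (tens M M').M} (hv : (tens M M').dg.IsDeg j v) :
    (tens (M.cf f) (M'.cf f)).dg.IsDeg j (bxE f M M' v) := by
  have h := Dg.tensor_degMap (X := M.dg) (Y := M'.dg)
    (Z := (tens (M.cf f) (M'.cf f)).dg.rs f.toRingHom) (n := 0) (bxF f M M')
    (fun i j v w hv hw => by
      rw [add_zero]
      exact bxT_deg (M := M.cf f) (M' := M'.cf f) (Bim.ι_deg hv) (Bim.ι_deg hw)) hv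
  rw [add_zero] at h
  exact h

private theorem bxE_d (m : (tens M M').M) :
    (tens (M.cf f) (M'.cf f)).dg.d (bxE f M M' m) = bxE f M M' ((tens M M').dg.d m) := by
  refine bxT_ind (P := fun m => (tens (M.cf f) (M'.cf f)).dg.d (bxE f M M' m) =
      bxE f M M' ((tens M M').dg.d m)) ?_ ?_ ?_ m
  · simp only [map_zero]
  · intro x y hx hy
    simp only [map_add, hx, hy]
  · intro x y
    rw [bxT_d, bxE_T, bxT_d, map_add, bxE_T, bxE_T, Bim.ι_d, Bim.ι_d, Bim.ι_s]

private theorem bxE_l (a : A.A ⊗[k] A'.A) (m : (tens M M').M) :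
    bxE f M M' ((tens M M').l ((A.tensor A').ι S a) m) =
      (tens (M.cf f) (M'.cf f)).l ((A.tensor A').ι T a) (bxE f M M' m) := by
  refine TensorProduct.induction_on (motive := fun a : A.A ⊗[k] A'.A =>
    bxE f M M' ((tens M M').l ((A.tensor A').ι S a) m) =
      (tens (M.cf f) (M'.cf f)).l ((A.tensor A').ι T a) (bxE f M M' m)) a ?_ ?_ ?_
  · have h1 : (A.tensor A').ι S (0 : A.A ⊗[k] A'.A) = 0 := map_zero _
    have h2 : (A.tensor A').ι T (0 : A.A ⊗[k] A'.A) = 0 := map_zero _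
    rw [h1, h2]
    simp only [map_zero, LinearMap.zero_apply]
  · intro a a'
    refine bxT_ind (P := fun m =>
      bxE f M M' ((tens M M').l ((A.tensor A').ι S (a ⊗ₜ a')) m) =
      (tens (M.cf f) (M'.cf f)).l ((A.tensor A').ι T (a ⊗ₜ a')) (bxE f M M' m)) ?_ ?_ ?_ m
    · simp only [map_zero]
    · intro x y hx hy
      simp only [map_add, hx, hy]
    · intro x y
      rw [bxT_l, bxE_T, map_sub, bxE_smul, bxE_T, bxE_T, bxT_l, Bim.ι_o, Bim.ι_l, Bim.ι_l,
        Bim.ι_l, Bim.ι_l, map_ofNat]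
  · intro a a' ha ha'
    have h1 : (A.tensor A').ι S (a + a') = (A.tensor A').ι S a + (A.tensor A').ι S a' :=
      map_add _ _ _
    have h2 : (A.tensor A').ι T (a + a') = (A.tensor A').ι T a + (A.tensor A').ι T a' :=
      map_add _ _ _
    rw [h1, h2]
    simp only [map_add, LinearMap.add_apply, ha, ha']

private theorem bxE_r (b : B.A ⊗[k] B'.A) (m : (tens M M').M) :
    bxE f M M' ((tens M M').r ((B.tensor B').ι S b) m) =
      (tens (M.cf f) (M'.cf f)).r ((B.tensor B').ι T b) (bxE f M M' m) := by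
  refine TensorProduct.induction_on (motive := fun b : B.A ⊗[k] B'.A =>
    bxE f M M' ((tens M M').r ((B.tensor B').ι S b) m) =
      (tens (M.cf f) (M'.cf f)).r ((B.tensor B').ι T b) (bxE f M M' m)) b ?_ ?_ ?_
  · have h1 : (B.tensor B').ι S (0 : B.A ⊗[k] B'.A) = 0 := map_zero _
    have h2 : (B.tensor B').ι T (0 : B.A ⊗[k] B'.A) = 0 := map_zero _
    rw [h1, h2]
    simp only [map_zero, LinearMap.zero_apply]
  · intro b b'
    refine bxT_ind (P := fun m =>
      bxE f M M' ((tens M M').r ((B.tensor B').ι S (b ⊗ₜ b')) m) =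
      (tens (M.cf f) (M'.cf f)).r ((B.tensor B').ι T (b ⊗ₜ b')) (bxE f M M' m)) ?_ ?_ ?_ m
    · simp only [map_zero]
    · intro x y hx hy
      simp only [map_add, hx, hy]
    · intro x y
      rw [bxT_r, bxE_T, map_sub, bxE_smul, bxE_T, bxE_T, bxT_r, Bim.ι_o, Bim.ι_r, Bim.ι_r,
        Bim.ι_r, Bim.ι_r, map_ofNat]
  · intro b b' hb hb'
    have h1 : (B.tensor B').ι S (b + b') = (B.tensor B').ι S b + (B.tensor B').ι S b' :=
      map_add _ _ _
    have h2 : (B.tensor B').ι T (b + b') = (B.tensor B').ι T b + (B.tensor B').ι T b' :=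
      map_add _ _ _
    rw [h1, h2]
    simp only [map_add, LinearMap.add_apply, hb, hb']

/-- The map `T ⊗ (M ⊗ M') → (T ⊗ M) ⊗ (T ⊗ M')`. -/
private noncomputable def bxH : ((tens M M').cf f).M →ₗ[T] (tens (M.cf f) (M'.cf f)).M :=
  Bim.lift f (bxE f M M') (bxE_smul f M M')

private theorem bxH_ι (m : (tens M M').M) : bxH f M M' ((tens M M').ι f m) = bxE f M M' m :=
  Bim.lift_ι _ _ m

/-- The map in the other direction. -/
private noncomputable def bxG : (tens (M.cf f) (M'.cf f)).M →ₗ[T] ((tens M M').cf f).M :=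
  bxLift (M.cf f) (M'.cf f) (Bim.lift f
    { toFun := fun x => Bim.lift f
        (((tens M M').ι f).comp (bxT M M' x).toAddMonoidHom)
        (fun s y => by
          change (tens M M').ι f (bxT _ _ x (s • y)) = f s • (tens M M').ι f (bxT _ _ x y)
          rw [map_smul, Bim.ι_smul])
      map_zero' := Bim.ι_ext (fun y => by
        rw [Bim.lift_ι]
        change (tens M M').ι f (bxT _ _ 0 y) = 0
        rw [map_zero, LinearMap.zero_apply, map_zero])
      map_add' := fun x x' => Bim.ι_ext (fun y => by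
        rw [LinearMap.add_apply, Bim.lift_ι, Bim.lift_ι, Bim.lift_ι]
        change (tens M M').ι f (bxT _ _ (x + x') y) =
          (tens M M').ι f (bxT _ _ x y) + (tens M M').ι f (bxT _ _ x' y)
        rw [map_add, LinearMap.add_apply, map_add]) }
    (fun s x => Bim.ι_ext (fun y => by
      rw [LinearMap.smul_apply]
      change Bim.lift f _ _ (M'.ι f y) = f s • Bim.lift f _ _ (M'.ι f y)
      rw [Bim.lift_ι, Bim.lift_ι]
      change (tens M M').ι f (bxT _ _ (s • x) y) = f s • (tens M M').ι f (bxT _ _ x y)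
      rw [map_smul, LinearMap.smul_apply, Bim.ι_smul])))

private theorem bxG_ι (x : M.M) (y : M'.M) :
    bxG f M M' (bxT _ _ (M.ι f x) (M'.ι f y)) = (tens M M').ι f (bxT _ _ x y) := by
  rw [bxG, bxLift_T, Bim.lift_ι]
  exact Bim.lift_ι (f := f) _ _ y

private theorem bxH_G (x : (tens (M.cf f) (M'.cf f)).M) : bxH f M M' (bxG f M M' x) = x := by
  have h : (bxH f M M').comp (bxG f M M') = LinearMap.id := by
    refine bxT_ext (Bim.ι_ext (fun x => Bim.ι_ext (fun y => ?_)))
    change bxH f M M' (bxG f M M' (bxT _ _ (M.ι f x) (M'.ι f y))) =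
      bxT _ _ (M.ι f x) (M'.ι f y)
    rw [bxG_ι, bxH_ι, bxE_T]
  exact LinearMap.congr_fun h x

private theorem bxG_H (x : ((tens M M').cf f).M) : bxG f M M' (bxH f M M' x) = x := by
  have h : (bxG f M M').comp (bxH f M M') = LinearMap.id := by
    refine Bim.ι_ext (fun m => ?_)
    change bxG f M M' (bxH f M M' ((tens M M').ι f m)) = (tens M M').ι f m
    refine bxT_ind (P := fun m =>
      bxG f M M' (bxH f M M' ((tens M M').ι f m)) = (tens M M').ι f m) ?_ ?_ ?_ m
    · simp only [map_zero]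
    · intro x y hx hy
      simp only [map_add, hx, hy]
    · intro x y
      rw [bxH_ι, bxE_T, bxG_ι]
  exact LinearMap.congr_fun h x

/-- The map of bimodules. -/
private noncomputable def bxφ : GMap 0 ((tens M M').cf f) (tens (M.cf f) (M'.cf f)) :=
  GMap.ofCf (bxH f M M')
    (fun {j v} hv => by
      rw [bxH_ι, add_zero]
      exact bxE_deg f M M' hv)
    (fun a m => by
      rw [bxH_ι, bxH_ι, Dg.sp_zero]
      exact bxE_l f M M' a m)
    (fun b m => by
      rw [bxH_ι, bxH_ι]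
      exact bxE_r f M M' b m)

end

/-- Base change is compatible with external tensor products. -/
theorem cf_tens (f : S →ₐ[k] T) (M : Bim (A.bc S) (B.bc S)) (M' : Bim (A'.bc S) (B'.bc S)) :
    BIso ((tens M M').cf f) (tens (M.cf f) (M'.cf f)) := by
  refine BIso.of_bij (bxφ f M M') ?_ ⟨?_, ?_⟩
  · refine Bim.ι_ext (fun m => ?_)
    rw [GMap.dd_apply, LinearMap.zero_apply, sg_zero, one_smul, Bim.ι_d]
    change (tens (M.cf f) (M'.cf f)).dg.d (bxH f M M' ((tens M M').ι f m)) -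
      bxH f M M' ((tens M M').ι f ((tens M M').dg.d m)) = 0
    rw [bxH_ι, bxH_ι, bxE_d, sub_self]
  · intro x y h
    rw [← bxG_H f M M' x, ← bxG_H f M M' y]
    exact congrArg _ h
  · intro y
    exact ⟨bxG f M M' y, bxH_G f M M' y⟩

end Pool.Agent.MP_6e5bed_ag_NC
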