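import Pool.Agent.Lib.MP_6e5bed_ag_BC.BcDefs

set_option autoImplicit false

/-!
# Extension of scalars in stages
-/

namespace Pool.Agent.MP_6e5bed_ag_NC

attribute [local instance] Alg.iR Alg.iA Cf.iG Cf.iM Rs.iG Rs.iM

universe u

variable {k : Type u} [CommRing k] {S T U : Type u} [CommRing S] [CommRing T] [CommRing U]
  [Algebra k S] [Algebra k T] [Algebra k U] {A B : DGA k}

section aux

variable (f : S →ₐ[k] T) (g : T →ₐ[k] U) (h : S →ₐ[k] U)

/-- The `T`-linear map from `T ⊗_S M` to `U ⊗_S M`, with restricted scalars. -/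
private noncomputable def cfθr (e : ∀ s, g (f s) = h s) (M : Bim (A.bc S) (B.bc S)) :
    (M.cf f).M →ₗ[T] Rs g.toRingHom (M.cf h).M :=
  Bim.lift f ((Rs.to g.toRingHom).comp (M.ι h)) (fun s m => by
    change M.ι h (s • m) = g (f s) • M.ι h m
    rw [e, Bim.ι_smul])

/-- The semilinear map from `T ⊗_S M` to `U ⊗_S M`. -/
private noncomputable def cfθ0 (e : ∀ s, g (f s) = h s) (M : Bim (A.bc S) (B.bc S)) :
    (M.cf f).M →+ (M.cf h).M :=
  (Rs.of g.toRingHom).comp (cfθr f g h e M).toAddMonoidHom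

variable {f g h}

private theorem cfθ0_ι (e : ∀ s, g (f s) = h s) (M : Bim (A.bc S) (B.bc S)) (m : M.M) :
    cfθ0 f g h e M (M.ι f m) = M.ι h m := by
  change Rs.of g.toRingHom (cfθr f g h e M (M.ι f m)) = _
  rw [cfθr, Bim.lift_ι]
  rfl

private theorem cfθ0_smul (e : ∀ s, g (f s) = h s) (M : Bim (A.bc S) (B.bc S)) (t : T)
    (x : (M.cf f).M) : cfθ0 f g h e M (t • x) = g t • cfθ0 f g h e M x := by
  change Rs.of g.toRingHom (cfθr f g h e M (t • x)) =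
    g t • Rs.of g.toRingHom (cfθr f g h e M x)
  rw [map_smul]
  rfl

private theorem cfθ0_deg (e : ∀ s, g (f s) = h s) (M : Bim (A.bc S) (B.bc S)) {j : ℤ}
    {x : (M.cf f).M} (hx : (M.cf f).dg.IsDeg j x) :
    (M.cf h).dg.IsDeg (j + 0) (cfθ0 f g h e M x) := by
  have h1 := Bim.ι_degMap (Z := (M.cf h).dg.rs g.toRingHom) (n := 0) (cfθr f g h e M)
    (fun {j v} hv => by
      rw [cfθr, Bim.lift_ι, add_zero]
      exact Dg.rs_deg.2 (Bim.ι_deg hv)) hx
  exact h1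

private theorem cfθ0_d (e : ∀ s, g (f s) = h s) (M : Bim (A.bc S) (B.bc S)) (x : (M.cf f).M) :
    cfθ0 f g h e M ((M.cf f).dg.d x) = (M.cf h).dg.d (cfθ0 f g h e M x) := by
  refine Bim.ι_ind (P := fun x => cfθ0 f g h e M ((M.cf f).dg.d x) =
    (M.cf h).dg.d (cfθ0 f g h e M x)) ?_ ?_ ?_ x
  · simp only [map_zero]
  · intro x y hx hy
    simp only [map_add, hx, hy]
  · intro t m
    rw [map_smul, cfθ0_smul, cfθ0_smul, map_smul, Bim.ι_d, cfθ0_ι, cfθ0_ι, Bim.ι_d]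

private theorem cfθ0_l (e : ∀ s, g (f s) = h s) (M : Bim (A.bc S) (B.bc S)) (a : A.A)
    (x : (M.cf f).M) : cfθ0 f g h e M ((M.cf f).l (A.ι T a) x) =
      (M.cf h).l (A.ι U a) (cfθ0 f g h e M x) := by
  refine Bim.ι_ind (P := fun x => cfθ0 f g h e M ((M.cf f).l (A.ι T a) x) =
    (M.cf h).l (A.ι U a) (cfθ0 f g h e M x)) ?_ ?_ ?_ x
  · simp only [map_zero]
  · intro x y hx hy
    simp only [map_add, hx, hy]
  · intro t m
    rw [map_smul, cfθ0_smul, cfθ0_smul, map_smul, Bim.ι_l, cfθ0_ι, cfθ0_ι, Bim.ι_l]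

private theorem cfθ0_r (e : ∀ s, g (f s) = h s) (M : Bim (A.bc S) (B.bc S)) (b : B.A)
    (x : (M.cf f).M) : cfθ0 f g h e M ((M.cf f).r (B.ι T b) x) =
      (M.cf h).r (B.ι U b) (cfθ0 f g h e M x) := by
  refine Bim.ι_ind (P := fun x => cfθ0 f g h e M ((M.cf f).r (B.ι T b) x) =
    (M.cf h).r (B.ι U b) (cfθ0 f g h e M x)) ?_ ?_ ?_ x
  · simp only [map_zero]
  · intro x y hx hy
    simp only [map_add, hx, hy]
  · intro t m
    rw [map_smul, cfθ0_smul, cfθ0_smul, map_smul, Bim.ι_r, cfθ0_ι, cfθ0_ι, Bim.ι_r]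

end aux

/-- `U ⊗_T (T ⊗_S M) → U ⊗_S M` -/
noncomputable def cfθ (f : S →ₐ[k] T) (g : T →ₐ[k] U) (h : S →ₐ[k] U)
    (e : ∀ s, g (f s) = h s) (M : Bim (A.bc S) (B.bc S)) : GMap 0 ((M.cf f).cf g) (M.cf h) :=
  GMap.ofCf (M := M.cf f) (Bim.lift g (cfθ0 f g h e M) (cfθ0_smul e M))
    (fun hv => by
      rw [Bim.lift_ι]
      exact cfθ0_deg e M hv)
    (fun a m => by
      rw [Bim.lift_ι, Bim.lift_ι, Dg.sp_even Even.zero]
      exact cfθ0_l e M a m)
    (fun b m => by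
      rw [Bim.lift_ι, Bim.lift_ι]
      exact cfθ0_r e M b m)

variable (f : S →ₐ[k] T) (g : T →ₐ[k] U) (h : S →ₐ[k] U) (e : ∀ s, g (f s) = h s)

private theorem cfθ_ι0 (M : Bim (A.bc S) (B.bc S)) (x : (M.cf f).M) :
    (cfθ f g h e M).f ((M.cf f).ι g x) = cfθ0 f g h e M x :=
  Bim.lift_ι (M := M.cf f) (f := g) (cfθ0 f g h e M) (cfθ0_smul e M) x

theorem cfθ_ι (M : Bim (A.bc S) (B.bc S)) (m : M.M) :
    (cfθ f g h e M).f ((M.cf f).ι g (M.ι f m)) = M.ι h m := by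
  rw [cfθ_ι0, cfθ0_ι]

theorem cfθ_dd (M : Bim (A.bc S) (B.bc S)) : (cfθ f g h e M).dd = 0 := by
  refine Bim.ι_ext (M := M.cf f) (f := g) (fun x => ?_)
  rw [GMap.dd_apply, sg_zero, one_smul, cfθ_ι0, Bim.ι_d, cfθ_ι0, cfθ0_d, sub_self,
    LinearMap.zero_apply]

/-- `U ⊗_S M → U ⊗_T (T ⊗_S M)` -/
noncomputable def cfθi (f : S →ₐ[k] T) (g : T →ₐ[k] U) (h : S →ₐ[k] U)
    (e : ∀ s, g (f s) = h s) (M : Bim (A.bc S) (B.bc S)) : GMap 0 (M.cf h) ((M.cf f).cf g) :=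
  GMap.ofCf (Bim.lift h (((M.cf f).ι g).comp (M.ι f)) (fun s m => by
      change (M.cf f).ι g (M.ι f (s • m)) = h s • (M.cf f).ι g (M.ι f m)
      rw [Bim.ι_smul, Bim.ι_smul, e]))
    (fun hv => by
      rw [Bim.lift_ι, add_zero]
      exact Bim.ι_deg (Bim.ι_deg hv))
    (fun a m => by
      rw [Bim.lift_ι, Bim.lift_ι, Dg.sp_even Even.zero]
      change (M.cf f).ι g (M.ι f (M.l (A.ι S a) m)) =
        ((M.cf f).cf g).l (A.ι U a) ((M.cf f).ι g (M.ι f m))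
      rw [Bim.ι_l, Bim.ι_l])
    (fun b m => by
      rw [Bim.lift_ι, Bim.lift_ι]
      change (M.cf f).ι g (M.ι f (M.r (B.ι S b) m)) =
        ((M.cf f).cf g).r (B.ι U b) ((M.cf f).ι g (M.ι f m))
      rw [Bim.ι_r, Bim.ι_r])

theorem cfθi_ι (M : Bim (A.bc S) (B.bc S)) (m : M.M) :
    (cfθi f g h e M).f (M.ι h m) = (M.cf f).ι g (M.ι f m) := Bim.lift_ι _ _ m

theorem cfθi_dd (M : Bim (A.bc S) (B.bc S)) : (cfθi f g h e M).dd = 0 := by
  refine Bim.ι_ext (M := M) (f := h) (fun x => ?_)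
  rw [GMap.dd_apply, sg_zero, one_smul, cfθi_ι, Bim.ι_d, Bim.ι_d, Bim.ι_d, cfθi_ι, sub_self,
    LinearMap.zero_apply]

theorem cfθ_cfθi (M : Bim (A.bc S) (B.bc S)) (x : (M.cf h).M) :
    (cfθ f g h e M).f ((cfθi f g h e M).f x) = x := by
  have h1 : (cfθ f g h e M).f.comp (cfθi f g h e M).f = LinearMap.id :=
    Bim.ι_ext (fun m => by
      rw [LinearMap.comp_apply, cfθi_ι, cfθ_ι, LinearMap.id_apply])
  exact LinearMap.congr_fun h1 x

theorem cfθi_cfθ (M : Bim (A.bc S) (B.bc S)) (x : ((M.cf f).cf g).M) :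
    (cfθi f g h e M).f ((cfθ f g h e M).f x) = x := by
  have h0 : ∀ y : (M.cf f).M, (cfθi f g h e M).f (cfθ0 f g h e M y) = (M.cf f).ι g y := by
    intro y
    refine Bim.ι_ind (P := fun y => (cfθi f g h e M).f (cfθ0 f g h e M y) =
      (M.cf f).ι g y) ?_ ?_ ?_ y
    · simp only [map_zero]
    · intro x y hx hy
      simp only [map_add, hx, hy]
    · intro t m
      rw [cfθ0_smul, map_smul, cfθ0_ι, cfθi_ι, Bim.ι_smul]
  have h1 : (cfθi f g h e M).f.comp (cfθ f g h e M).f = LinearMap.id :=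
    Bim.ι_ext (M := M.cf f) (fun y => by
      rw [LinearMap.comp_apply, cfθ_ι0, h0, LinearMap.id_apply])
  exact LinearMap.congr_fun h1 x

include e in
theorem cf_cf (M : Bim (A.bc S) (B.bc S)) : BIso ((M.cf f).cf g) (M.cf h) :=
  ⟨cfθ f g h e M, cfθi f g h e M, cfθ_dd f g h e M, cfθi_cfθ f g h e M, cfθ_cfθi f g h e M⟩

theorem cfθ_nat {n : ℤ} {M N : Bim (A.bc S) (B.bc S)} (φ : GMap n M N)
    (x : ((M.cf f).cf g).M) :
    (φ.cf h).f ((cfθ f g h e M).f x) = (cfθ f g h e N).f (((φ.cf f).cf g).f x) := by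
  have h0 : ∀ y : (M.cf f).M, (φ.cf h).f (cfθ0 f g h e M y) =
      cfθ0 f g h e N ((φ.cf f).f y) := by
    intro y
    refine Bim.ι_ind (P := fun y => (φ.cf h).f (cfθ0 f g h e M y) =
      cfθ0 f g h e N ((φ.cf f).f y)) ?_ ?_ ?_ y
    · simp only [map_zero]
    · intro x y hx hy
      simp only [map_add, hx, hy]
    · intro t m
      rw [cfθ0_smul, map_smul, map_smul, cfθ0_smul, cfθ0_ι, GMap.cf_ι, GMap.cf_ι, cfθ0_ι]
  have h1 : (φ.cf h).f.comp (cfθ f g h e M).f =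
      (cfθ f g h e N).f.comp ((φ.cf f).cf g).f :=
    Bim.ι_ext (M := M.cf f) (fun y => by
      rw [LinearMap.comp_apply, LinearMap.comp_apply, cfθ_ι0, GMap.cf_ι, cfθ_ι0, h0])
  exact LinearMap.congr_fun h1 x

/-- Extension of scalars along the identity. -/
theorem cf_id (M : Bim (A.bc S) (B.bc S)) : BIso (M.cf (AlgHom.id k S)) M := by
  have hsm : ∀ (s : S) (m : M.M), (AddMonoidHom.id M.M) (s • m) =
      (AlgHom.id k S) s • (AddMonoidHom.id M.M) m := fun s m => by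
    rw [AlgHom.id_apply, AddMonoidHom.id_apply, AddMonoidHom.id_apply]
  let φ : GMap 0 (M.cf (AlgHom.id k S)) M :=
    GMap.ofCf (Bim.lift (AlgHom.id k S) (AddMonoidHom.id M.M) hsm)
      (fun hv => by
        rw [Bim.lift_ι, add_zero]
        exact hv)
      (fun a m => by
        rw [Bim.lift_ι, Bim.lift_ι, Dg.sp_even Even.zero]
        rfl)
      (fun b m => by
        rw [Bim.lift_ι, Bim.lift_ι]
        rfl)
  have hφ : ∀ m, φ.f (M.ι (AlgHom.id k S) m) = m := fun m => Bim.lift_ι _ _ m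
  let i : M.M →ₗ[S] (M.cf (AlgHom.id k S)).M :=
    { toFun := M.ι (AlgHom.id k S)
      map_add' := map_add _
      map_smul' := fun s m => Bim.ι_smul s m }
  have hi : ∀ m, i m = M.ι (AlgHom.id k S) m := fun m => rfl
  let ψ : GMap 0 M (M.cf (AlgHom.id k S)) :=
    { f := i
      deg := fun hm => by
        rw [add_zero]
        exact Bim.ι_deg hm
      map_l := fun a m => by
        rw [Dg.sp_even Even.zero]
        have h1 : M.l.compr₂ i = (M.cf (AlgHom.id k S)).l.compl₁₂ LinearMap.id i :=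
          DGA.ι_ext (fun a => LinearMap.ext (fun m => (Bim.ι_l a m).symm))
        exact LinearMap.congr_fun₂ h1 a m
      map_r := fun b m => by
        have h1 : M.r.compr₂ i = (M.cf (AlgHom.id k S)).r.compl₁₂ LinearMap.id i :=
          DGA.ι_ext (fun a => LinearMap.ext (fun m => (Bim.ι_r a m).symm))
        exact LinearMap.congr_fun₂ h1 b m }
  refine ⟨φ, ψ, ?_, ?_, ?_⟩
  · refine Bim.ι_ext (fun x => ?_)
    rw [GMap.dd_apply, sg_zero, one_smul, hφ, Bim.ι_d, hφ, sub_self, LinearMap.zero_apply]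
  · intro m
    have h1 : i.comp φ.f = LinearMap.id := Bim.ι_ext (fun m => by
      rw [LinearMap.comp_apply, hφ, hi, LinearMap.id_apply])
    exact LinearMap.congr_fun h1 m
  · intro m
    exact hφ m

end Pool.Agent.MP_6e5bed_ag_NC
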