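import Pool.Agent.Lib.MP_6e5bed_ag_BC.DgCf
import Pool.Agent.Lib.MP_6e5bed_ag_NC.Fun
import Pool.Agent.Lib.MP_6e5bed_ag_NC.FBend

set_option autoImplicit false

/-!
# Base change of dg algebras and dg bimodules
-/

namespace Pool.Agent.MP_6e5bed_ag_NC

attribute [local instance] Alg.iR Alg.iA Cf.iG Cf.iM Rs.iG Rs.iM

universe u

section alg

variable {k : Type u} [CommRing k] (S : Type u) [CommRing S] [Algebra k S]

/-- The multiplication of `S ⊗ A`. -/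
noncomputable def bcMul (A : DGA k) : Cf (algebraMap k S) A.A →ₗ[S]
    Cf (algebraMap k S) A.A →ₗ[S] Cf (algebraMap k S) A.A :=
  Cf.lift₂ (algebraMap k S) (algebraMap k S)
    { toFun := fun a => (Cf.ι (algebraMap k S)).comp (A.mul a).toAddMonoidHom
      map_zero' := by
        ext b
        simp
      map_add' := fun a a' => by
        ext b
        simp }
    (fun r a b => by
      change Cf.ι (algebraMap k S) (A.mul (r • a) b) = _ • Cf.ι (algebraMap k S) (A.mul a b)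
      rw [map_smul, LinearMap.smul_apply, Cf.ι_smul])
    (fun a r b => by
      change Cf.ι (algebraMap k S) (A.mul a (r • b)) = _ • Cf.ι (algebraMap k S) (A.mul a b)
      rw [map_smul, Cf.ι_smul])

theorem bcMul_ι (A : DGA k) (a b : A.A) :
    bcMul S A (Cf.ι _ a) (Cf.ι _ b) = Cf.ι (algebraMap k S) (A.mul a b) := by
  rw [bcMul, Cf.lift₂_ι]
  rfl

/-- The dg algebra `S ⊗ A` over `S`. -/
noncomputable def DGA.bc (A : DGA k) : DGA S where
  A := Cf (algebraMap k S) A.A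
  dg := A.dg.cf (algebraMap k S)
  mul := bcMul S A
  one := Cf.ι _ A.one
  one_mul := fun x => by
    have h : bcMul S A (Cf.ι _ A.one) = LinearMap.id := Cf.hom_ext (fun a => by
      rw [bcMul_ι, A.one_mul]
      rfl)
    rw [h]
    rfl
  mul_one := fun x => by
    have h : (bcMul S A).flip (Cf.ι _ A.one) = LinearMap.id := Cf.hom_ext (fun a => by
      rw [LinearMap.flip_apply, bcMul_ι, A.mul_one]
      rfl)
    exact LinearMap.congr_fun h x
  mul_assoc := fun x y z => by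
    have h : (bcMul S A).compr₂ (bcMul S A) =
        (LinearMap.llcomp S _ _ _).compl₁₂ (bcMul S A) (bcMul S A) := by
      refine Cf.hom_ext (fun a => Cf.hom_ext (fun b => Cf.hom_ext (fun c => ?_)))
      change bcMul S A (bcMul S A (Cf.ι _ a) (Cf.ι _ b)) (Cf.ι _ c) =
        bcMul S A (Cf.ι _ a) (bcMul S A (Cf.ι _ b) (Cf.ι _ c))
      rw [bcMul_ι, bcMul_ι, bcMul_ι, bcMul_ι, A.mul_assoc]
    exact LinearMap.congr_fun (LinearMap.congr_fun₂ h x y) z
  one_deg := Dg.cf_deg A.one_deg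
  mul_deg := fun hx hy => Dg.cf_degBilin (bcMul S A) (fun {i j v w} hv hw => by
    rw [bcMul_ι]
    exact Dg.cf_deg (A.mul_deg hv hw)) hx hy
  leibniz := fun x y => by
    have h : (bcMul S A).compr₂ (A.dg.cf (algebraMap k S)).d =
        (bcMul S A).comp (A.dg.cf (algebraMap k S)).d +
          (bcMul S A).compl₁₂ (A.dg.cf (algebraMap k S)).s (A.dg.cf (algebraMap k S)).d := by
      refine Cf.hom_ext₂ (fun a b => ?_)
      change (A.dg.cf (algebraMap k S)).d (bcMul S A (Cf.ι _ a) (Cf.ι _ b)) =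
        bcMul S A ((A.dg.cf (algebraMap k S)).d (Cf.ι _ a)) (Cf.ι _ b) +
          bcMul S A ((A.dg.cf (algebraMap k S)).s (Cf.ι _ a))
            ((A.dg.cf (algebraMap k S)).d (Cf.ι _ b))
      rw [bcMul_ι, Dg.cf_d, Dg.cf_d, Dg.cf_d, Dg.cf_s, bcMul_ι, bcMul_ι, A.leibniz, map_add]
    exact LinearMap.congr_fun₂ h x y

/-- The map `a ↦ 1 ⊗ a`. -/
noncomputable def DGA.ι (A : DGA k) : A.A →+ (A.bc S).A := Cf.ι (algebraMap k S)

variable {S} {A : DGA k}

theorem DGA.ι_smul (r : k) (a : A.A) : A.ι S (r • a) = algebraMap k S r • A.ι S a :=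
  Cf.ι_smul _ r a

theorem DGA.ι_mul (a b : A.A) : (A.bc S).mul (A.ι S a) (A.ι S b) = A.ι S (A.mul a b) :=
  bcMul_ι S A a b

theorem DGA.ι_one : (A.bc S).one = A.ι S A.one := rfl

theorem DGA.ι_d (a : A.A) : (A.bc S).dg.d (A.ι S a) = A.ι S (A.dg.d a) := Dg.cf_d a

theorem DGA.ι_o (a : A.A) : (A.bc S).dg.o (A.ι S a) = A.ι S (A.dg.o a) := Dg.cf_o a

theorem DGA.ι_s (a : A.A) : (A.bc S).dg.s (A.ι S a) = A.ι S (A.dg.s a) := Dg.cf_s a

theorem DGA.ι_sp (n : ℤ) (a : A.A) : (A.bc S).dg.sp n (A.ι S a) = A.ι S (A.dg.sp n a) :=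
  Dg.cf_sp n a

theorem DGA.ι_deg {n : ℤ} {a : A.A} (h : A.dg.IsDeg n a) : (A.bc S).dg.IsDeg n (A.ι S a) :=
  Dg.cf_deg h

theorem DGA.ι_ind {P : (A.bc S).A → Prop} (h0 : P 0) (hadd : ∀ x y, P x → P y → P (x + y))
    (hι : ∀ (s : S) (a : A.A), P (s • A.ι S a)) (x : (A.bc S).A) : P x :=
  Cf.ind (f := algebraMap k S) (V := A.A) h0 hadd hι x

theorem DGA.ι_ext {P : Type*} [AddCommGroup P] [Module S P] {φ ψ : (A.bc S).A →ₗ[S] P}
    (h : ∀ a, φ (A.ι S a) = ψ (A.ι S a)) : φ = ψ := by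
  refine LinearMap.ext (fun x => ?_)
  refine DGA.ι_ind (P := fun x => φ x = ψ x) ?_ ?_ ?_ x
  · rw [map_zero, map_zero]
  · intro x y hx hy
    rw [map_add, map_add, hx, hy]
  · intro s v
    rw [map_smul, map_smul, h]

/-- The linear map on `S ⊗ A` given by a semilinear map on `A`. -/
noncomputable def DGA.lift {P : Type*} [AddCommGroup P] [Module S P] (g : A.A →+ P)
    (hg : ∀ (r : k) (a : A.A), g (r • a) = algebraMap k S r • g a) : (A.bc S).A →ₗ[S] P :=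
  (Cf.lift (f := algebraMap k S) g hg : Cf (algebraMap k S) A.A →ₗ[S] P)

theorem DGA.lift_ι {P : Type*} [AddCommGroup P] [Module S P] (g : A.A →+ P)
    (hg : ∀ (r : k) (a : A.A), g (r • a) = algebraMap k S r • g a) (a : A.A) :
    DGA.lift g hg (A.ι S a) = g a := Cf.lift_ι (f := algebraMap k S) g hg a

end alg

section bim

variable {k : Type u} [CommRing k] {S T : Type u} [CommRing S] [CommRing T] [Algebra k S]
  [Algebra k T] {A B : DGA k} (f : S →ₐ[k] T)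

theorem algHom_map (c : k) : f.toRingHom (algebraMap k S c) = algebraMap k T c := f.commutes c

/-- The extension of scalars of a linear map which depends on an element of `A`. -/
noncomputable def cfAct {M : Type u} [AddCommGroup M] [Module S M]
    (φ : (A.bc S).A →ₗ[S] M →ₗ[S] M) : (A.bc T).A →ₗ[T]
    Cf f.toRingHom M →ₗ[T] Cf f.toRingHom M :=
  DGA.lift
    { toFun := fun a => Cf.map f.toRingHom (φ (A.ι S a))
      map_zero' := Cf.hom_ext (fun m => by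
        rw [map_zero, map_zero, Cf.map_ι, LinearMap.zero_apply, LinearMap.zero_apply, map_zero])
      map_add' := fun a a' => by rw [map_add, map_add, Cf.map_add'] }
    (fun r a => by
      change Cf.map f.toRingHom (φ (A.ι S (r • a))) = _ • Cf.map f.toRingHom (φ (A.ι S a))
      rw [DGA.ι_smul, map_smul, Cf.map_smul', algHom_map])

theorem cfAct_ι {M : Type u} [AddCommGroup M] [Module S M]
    (φ : (A.bc S).A →ₗ[S] M →ₗ[S] M) (a : A.A) (m : M) :
    cfAct f φ (A.ι T a) (Cf.ι _ m) = Cf.ι f.toRingHom (φ (A.ι S a) m) := by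
  rw [cfAct, DGA.lift_ι]
  exact Cf.map_ι _ _ m

theorem cfAct_ext {M : Type u} [AddCommGroup M] [Module S M] {P : Type*} [AddCommGroup P]
    [Module T P] {φ ψ : (A.bc T).A →ₗ[T] Cf f.toRingHom M →ₗ[T] P}
    (h : ∀ a m, φ (A.ι T a) (Cf.ι f.toRingHom m) = ψ (A.ι T a) (Cf.ι f.toRingHom m)) : φ = ψ :=
  DGA.ι_ext (fun a => Cf.hom_ext (fun m => h a m))

/-- The left action of `T ⊗ A` on `T ⊗_S M`. -/
noncomputable def cfL (M : Bim (A.bc S) (B.bc S)) : (A.bc T).A →ₗ[T]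
    Cf f.toRingHom M.M →ₗ[T] Cf f.toRingHom M.M := cfAct f M.l

theorem cfL_ι (M : Bim (A.bc S) (B.bc S)) (a : A.A) (m : M.M) :
    cfL f M (A.ι T a) (Cf.ι _ m) = Cf.ι f.toRingHom (M.l (A.ι S a) m) := cfAct_ι f M.l a m

/-- The right action of `T ⊗ B` on `T ⊗_S M`. -/
noncomputable def cfR (M : Bim (A.bc S) (B.bc S)) : (B.bc T).A →ₗ[T]
    Cf f.toRingHom M.M →ₗ[T] Cf f.toRingHom M.M := cfAct f M.r

theorem cfR_ι (M : Bim (A.bc S) (B.bc S)) (b : B.A) (m : M.M) :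
    cfR f M (B.ι T b) (Cf.ι _ m) = Cf.ι f.toRingHom (M.r (B.ι S b) m) := cfAct_ι f M.r b m

/-- The extension of scalars `T ⊗_S M` of a dg bimodule. -/
noncomputable def Bim.cf (M : Bim (A.bc S) (B.bc S)) : Bim (A.bc T) (B.bc T) where
  M := Cf f.toRingHom M.M
  dg := M.dg.cf f.toRingHom
  l := cfL f M
  r := cfR f M
  l_one := fun x => by
    have h : cfL f M (A.bc T).one = LinearMap.id := Cf.hom_ext (fun m => by
      rw [DGA.ι_one, cfL_ι, ← DGA.ι_one, M.l_one, LinearMap.id_apply])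
    rw [h]
    rfl
  r_one := fun x => by
    have h : cfR f M (B.bc T).one = LinearMap.id := Cf.hom_ext (fun m => by
      rw [DGA.ι_one, cfR_ι, ← DGA.ι_one, M.r_one, LinearMap.id_apply])
    rw [h]
    rfl
  l_mul := fun x y z => by
    have h : (A.bc T).mul.compr₂ (cfL f M) =
        (LinearMap.llcomp T _ _ _).compl₁₂ (cfL f M) (cfL f M) := by
      refine DGA.ι_ext (fun a => DGA.ι_ext (fun b => Cf.hom_ext (fun m => ?_)))
      change cfL f M ((A.bc T).mul (A.ι T a) (A.ι T b)) (Cf.ι _ m) =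
        cfL f M (A.ι T a) (cfL f M (A.ι T b) (Cf.ι _ m))
      rw [DGA.ι_mul, cfL_ι, cfL_ι, cfL_ι, ← M.l_mul, DGA.ι_mul]
    exact LinearMap.congr_fun (LinearMap.congr_fun₂ h x y) z
  r_mul := fun x y z => by
    have h : (B.bc T).mul.compr₂ (cfR f M) =
        ((LinearMap.llcomp T _ _ _).compl₁₂ (cfR f M) (cfR f M)).flip := by
      refine DGA.ι_ext (fun a => DGA.ι_ext (fun b => Cf.hom_ext (fun m => ?_)))
      change cfR f M ((B.bc T).mul (B.ι T a) (B.ι T b)) (Cf.ι _ m) =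
        cfR f M (B.ι T b) (cfR f M (B.ι T a) (Cf.ι _ m))
      rw [DGA.ι_mul, cfR_ι, cfR_ι, cfR_ι, ← M.r_mul, DGA.ι_mul]
    exact LinearMap.congr_fun (LinearMap.congr_fun₂ h x y) z
  l_r := fun x y z => by
    have h : (LinearMap.llcomp T _ _ _).compl₁₂ (cfL f M) (cfR f M) =
        ((LinearMap.llcomp T _ _ _).compl₁₂ (cfR f M) (cfL f M)).flip := by
      refine DGA.ι_ext (fun a => DGA.ι_ext (fun b => Cf.hom_ext (fun m => ?_)))
      change cfL f M (A.ι T a) (cfR f M (B.ι T b) (Cf.ι _ m)) =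
        cfR f M (B.ι T b) (cfL f M (A.ι T a) (Cf.ι _ m))
      rw [cfR_ι, cfL_ι, cfL_ι, cfR_ι, M.l_r]
    exact LinearMap.congr_fun (LinearMap.congr_fun₂ h x y) z
  l_deg := fun hx hy => Dg.cf_degBilin (X := A.dg) (cfL f M) (fun {i j v w} hv hw => by
    refine (congrArg (fun z => (M.dg.cf f.toRingHom).IsDeg (i + j) z) (cfL_ι f M v w)).mpr ?_
    exact Dg.cf_deg (M.l_deg (DGA.ι_deg hv) hw)) hx hy
  r_deg := fun {i j b m} hm hb => by
    rw [add_comm]
    exact Dg.cf_degBilin (X := B.dg) (cfR f M) (fun {i j v w} hv hw => by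
      refine (congrArg (fun z => (M.dg.cf f.toRingHom).IsDeg (i + j) z) (cfR_ι f M v w)).mpr ?_
      rw [add_comm]
      exact Dg.cf_deg (M.r_deg hw (DGA.ι_deg hv))) hb hm
  d_l := fun x y => by
    have h : (cfL f M).compr₂ (M.dg.cf f.toRingHom).d =
        (cfL f M).comp (A.bc T).dg.d +
          (cfL f M).compl₁₂ (A.bc T).dg.s (M.dg.cf f.toRingHom).d := by
      refine cfAct_ext f (fun a m => ?_)
      change (M.dg.cf f.toRingHom).d (cfL f M (A.ι T a) (Cf.ι _ m)) =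
        cfL f M ((A.bc T).dg.d (A.ι T a)) (Cf.ι _ m) +
          cfL f M ((A.bc T).dg.s (A.ι T a)) ((M.dg.cf f.toRingHom).d (Cf.ι _ m))
      rw [cfL_ι, Dg.cf_d, Dg.cf_d, DGA.ι_d, DGA.ι_s, cfL_ι, cfL_ι, M.d_l, map_add, DGA.ι_d,
        DGA.ι_s]
    exact LinearMap.congr_fun₂ h x y
  d_r := fun x y => by
    have h : (cfR f M).compr₂ (M.dg.cf f.toRingHom).d =
        (cfR f M).compl₁₂ LinearMap.id (M.dg.cf f.toRingHom).d +
          (cfR f M).compl₁₂ (B.bc T).dg.d (M.dg.cf f.toRingHom).s := by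
      refine cfAct_ext f (fun a m => ?_)
      change (M.dg.cf f.toRingHom).d (cfR f M (B.ι T a) (Cf.ι _ m)) =
        cfR f M (B.ι T a) ((M.dg.cf f.toRingHom).d (Cf.ι _ m)) +
          cfR f M ((B.bc T).dg.d (B.ι T a)) ((M.dg.cf f.toRingHom).s (Cf.ι _ m))
      rw [cfR_ι, Dg.cf_d, Dg.cf_d, DGA.ι_d, Dg.cf_s, cfR_ι, cfR_ι, M.d_r, map_add, DGA.ι_d]
    exact LinearMap.congr_fun₂ h x y

/-- The map `m ↦ 1 ⊗ m`. -/
noncomputable def Bim.ι (M : Bim (A.bc S) (B.bc S)) : M.M →+ (M.cf f).M := Cf.ι f.toRingHom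

variable {f} {M N : Bim (A.bc S) (B.bc S)}

theorem Bim.ι_smul (s : S) (m : M.M) : M.ι f (s • m) = f s • M.ι f m := Cf.ι_smul _ s m

theorem Bim.ι_l (a : A.A) (m : M.M) : (M.cf f).l (A.ι T a) (M.ι f m) = M.ι f (M.l (A.ι S a) m) :=
  cfL_ι f M a m

theorem Bim.ι_r (b : B.A) (m : M.M) : (M.cf f).r (B.ι T b) (M.ι f m) = M.ι f (M.r (B.ι S b) m) :=
  cfR_ι f M b m

theorem Bim.ι_d (m : M.M) : (M.cf f).dg.d (M.ι f m) = M.ι f (M.dg.d m) := Dg.cf_d m

theorem Bim.ι_ρ (m : M.M) (n : ℤ) : (M.cf f).dg.ρ (M.ι f m) n = M.ι f (M.dg.ρ m n) :=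
  Dg.cf_ρ m n

theorem Bim.ι_s (m : M.M) : (M.cf f).dg.s (M.ι f m) = M.ι f (M.dg.s m) := Dg.cf_s m

theorem Bim.ι_o (m : M.M) : (M.cf f).dg.o (M.ι f m) = M.ι f (M.dg.o m) := Dg.cf_o m

theorem Bim.ι_deg {n : ℤ} {m : M.M} (h : M.dg.IsDeg n m) : (M.cf f).dg.IsDeg n (M.ι f m) :=
  Dg.cf_deg h

theorem Bim.ι_ind {P : (M.cf f).M → Prop} (h0 : P 0) (hadd : ∀ x y, P x → P y → P (x + y))
    (hι : ∀ (t : T) (m : M.M), P (t • M.ι f m)) (x : (M.cf f).M) : P x :=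
  Cf.ind (f := f.toRingHom) (V := M.M) h0 hadd hι x

theorem Bim.ι_ext {P : Type*} [AddCommGroup P] [Module T P] {φ ψ : (M.cf f).M →ₗ[T] P}
    (h : ∀ m, φ (M.ι f m) = ψ (M.ι f m)) : φ = ψ := by
  refine LinearMap.ext (fun x => ?_)
  refine Bim.ι_ind (P := fun x => φ x = ψ x) ?_ ?_ ?_ x
  · rw [map_zero, map_zero]
  · intro x y hx hy
    rw [map_add, map_add, hx, hy]
  · intro s v
    rw [map_smul, map_smul, h]

variable (f) in
/-- The linear map on `T ⊗_S M` given by a semilinear map on `M`. -/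
noncomputable def Bim.lift {P : Type*} [AddCommGroup P] [Module T P] (g : M.M →+ P)
    (hg : ∀ (s : S) (m : M.M), g (s • m) = f s • g m) : (M.cf f).M →ₗ[T] P :=
  (Cf.lift (f := f.toRingHom) g hg : Cf f.toRingHom M.M →ₗ[T] P)

theorem Bim.lift_ι {P : Type*} [AddCommGroup P] [Module T P] (g : M.M →+ P)
    (hg : ∀ (s : S) (m : M.M), g (s • m) = f s • g m) (m : M.M) :
    Bim.lift f g hg (M.ι f m) = g m := Cf.lift_ι (f := f.toRingHom) g hg m

/-- A linear map on `T ⊗_S M` is homogeneous if it is so on `M`. -/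
theorem Bim.ι_degMap {P : Type u} [AddCommGroup P] [Module T P] {Z : Dg T P} {n : ℤ}
    (φ : (M.cf f).M →ₗ[T] P)
    (h : ∀ {j : ℤ} {v : M.M}, M.dg.IsDeg j v → Z.IsDeg (j + n) (φ (M.ι f v)))
    {j : ℤ} {x : (M.cf f).M} (hx : (M.cf f).dg.IsDeg j x) : Z.IsDeg (j + n) (φ x) :=
  Dg.cf_degMap (X := M.dg) (f := f.toRingHom) φ h hx

/-- Bilinear maps may be compared on `A` and `M`. -/
theorem Bim.ι_ext₂ {P : Type*} [AddCommGroup P] [Module T P] {C : DGA k}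
    {φ ψ : (C.bc T).A →ₗ[T] (M.cf f).M →ₗ[T] P}
    (h : ∀ a m, φ (C.ι T a) (M.ι f m) = ψ (C.ι T a) (M.ι f m)) : φ = ψ :=
  DGA.ι_ext (fun a => Bim.ι_ext (fun m => h a m))

/-- A graded map on `T ⊗_S M`, given by a semilinear map on `M`. -/
noncomputable def GMap.ofCf {n : ℤ} {P : Bim (A.bc T) (B.bc T)} (g : (M.cf f).M →ₗ[T] P.M)
    (hd : ∀ {j : ℤ} {v : M.M}, M.dg.IsDeg j v → P.dg.IsDeg (j + n) (g (M.ι f v)))
    (hl : ∀ (a : A.A) (m : M.M), g (M.ι f (M.l (A.ι S a) m)) =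
      P.l (A.ι T (A.dg.sp n a)) (g (M.ι f m)))
    (hr : ∀ (b : B.A) (m : M.M), g (M.ι f (M.r (B.ι S b) m)) = P.r (B.ι T b) (g (M.ι f m))) :
    GMap n (M.cf f) P where
  f := g
  deg := fun hx => Bim.ι_degMap g hd hx
  map_l := fun x y => by
    have h : (M.cf f).l.compr₂ g = P.l.compl₁₂ ((A.bc T).dg.sp n) g := by
      refine Bim.ι_ext₂ (fun a m => ?_)
      change g ((M.cf f).l (A.ι T a) (M.ι f m)) = P.l ((A.bc T).dg.sp n (A.ι T a)) (g (M.ι f m))
      rw [Bim.ι_l, hl, DGA.ι_sp]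
    exact LinearMap.congr_fun₂ h x y
  map_r := fun x y => by
    have h : (M.cf f).r.compr₂ g = P.r.compl₁₂ LinearMap.id g := by
      refine Bim.ι_ext₂ (fun a m => ?_)
      change g ((M.cf f).r (B.ι T a) (M.ι f m)) = P.r (B.ι T a) (g (M.ι f m))
      rw [Bim.ι_r, hr]
    exact LinearMap.congr_fun₂ h x y

variable (f) in
/-- The extension of scalars of a graded map. -/
noncomputable def GMap.cf {n : ℤ} (φ : GMap n M N) : GMap n (M.cf f) (N.cf f) :=
  GMap.ofCf (Bim.lift f ((N.ι f).comp φ.f.toAddMonoidHom) (fun s m => by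
      change N.ι f (φ.f (s • m)) = f s • N.ι f (φ.f m)
      rw [map_smul, Bim.ι_smul]))
    (fun hv => by
      rw [Bim.lift_ι]
      exact Bim.ι_deg (φ.deg hv))
    (fun a m => by
      rw [Bim.lift_ι, Bim.lift_ι]
      change N.ι f (φ.f (M.l (A.ι S a) m)) = (N.cf f).l (A.ι T (A.dg.sp n a)) (N.ι f (φ.f m))
      rw [φ.map_l, DGA.ι_sp, Bim.ι_l])
    (fun b m => by
      rw [Bim.lift_ι, Bim.lift_ι]
      change N.ι f (φ.f (M.r (B.ι S b) m)) = (N.cf f).r (B.ι T b) (N.ι f (φ.f m))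
      rw [φ.map_r, Bim.ι_r])

theorem GMap.cf_ι {n : ℤ} (φ : GMap n M N) (m : M.M) :
    (φ.cf f).f (M.ι f m) = N.ι f (φ.f m) := Bim.lift_ι _ _ m

/-- Graded maps on an extension of scalars may be compared on `M`. -/
theorem GMap.cf_ext {n : ℤ} {P : Bim (A.bc T) (B.bc T)} {φ ψ : GMap n (M.cf f) P}
    (h : ∀ m : M.M, φ.f (M.ι f m) = ψ.f (M.ι f m)) (x : (M.cf f).M) :
    φ.f x = ψ.f x :=
  LinearMap.congr_fun (Bim.ι_ext (φ := φ.f) (ψ := ψ.f) h) x

/-- Extension of scalars as a dg functor. -/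
noncomputable def cfF (f : S →ₐ[k] T) (A B : DGA k) :
    DGFun (A.bc S) (B.bc S) (A.bc T) (B.bc T) where
  obj := fun M => M.cf f
  map := fun φ => φ.cf f
  map_id := fun M x => GMap.cf_ext (φ := (GMap.id M).cf f) (ψ := GMap.id (M.cf f))
    (fun m => GMap.cf_ι _ m) x
  map_comp := fun φ ψ h x => GMap.cf_ext (φ := (φ.comp ψ h).cf f)
    (ψ := (φ.cf f).comp (ψ.cf f) h) (fun m => by
      rw [GMap.cf_ι, GMap.comp_f, GMap.comp_f, GMap.cf_ι, GMap.cf_ι]) x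
  map_add := fun φ ψ x => GMap.cf_ext (φ := (φ + ψ).cf f) (ψ := φ.cf f + ψ.cf f)
    (fun m => by
      rw [GMap.cf_ι, GMap.add_f, GMap.add_f, GMap.cf_ι, GMap.cf_ι, map_add]) x
  map_D := fun {n m M N} φ h x => GMap.cf_ext (φ := (φ.D h).cf f) (ψ := (φ.cf f).D h)
    (fun m => by
      rw [GMap.cf_ι, GMap.D_f, GMap.D_f, GMap.dd_apply, GMap.dd_apply, GMap.cf_ι, map_sub,
        map_zsmul, Bim.ι_d, Bim.ι_d, GMap.cf_ι]) x

end bim

end Pool.Agent.MP_6e5bed_ag_NC
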