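import Pool.Agent.Lib.MP_6e5bed_ag_BC.BcIso

set_option autoImplicit false

/-!
# Base change of diagonal bimodules and of restrictions
-/

namespace Pool.Agent.MP_6e5bed_ag_NC

attribute [local instance] Alg.iR Alg.iA Cf.iG Cf.iM Rs.iG Rs.iM

universe u

variable {k : Type u} [CommRing k] {S T : Type u} [CommRing S] [CommRing T] [Algebra k S]
  [Algebra k T] {A B A' B' : DGA k}

/-- The semilinear map `A_S → A_T`, with values in the restriction of scalars. -/
private noncomputable def bcdPush' (f : S →ₐ[k] T) (A : DGA k) :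
    (A.bc S).A →ₗ[S] Rs f.toRingHom (A.bc T).A :=
  DGA.lift ((Rs.to f.toRingHom).comp (A.ι T)) (fun r a => by
    change A.ι T (r • a) = f.toRingHom (algebraMap k S r) • A.ι T a
    rw [DGA.ι_smul, algHom_map])

/-- The semilinear map `A_S → A_T`. -/
private noncomputable def bcdPush (f : S →ₐ[k] T) (A : DGA k) : (A.bc S).A →+ (A.bc T).A :=
  (Rs.of f.toRingHom).comp (bcdPush' f A).toAddMonoidHom

private theorem bcdPush'_ι (f : S →ₐ[k] T) (A : DGA k) (a : A.A) :
    bcdPush' f A (A.ι S a) = Rs.to f.toRingHom (A.ι T a) := DGA.lift_ι _ _ a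

private theorem bcdPush_ι (f : S →ₐ[k] T) (A : DGA k) (a : A.A) :
    bcdPush f A (A.ι S a) = A.ι T a := bcdPush'_ι f A a

private theorem bcdPush_smul (f : S →ₐ[k] T) (A : DGA k) (s : S) (x : (A.bc S).A) :
    bcdPush f A (s • x) = f s • bcdPush f A x :=
  (bcdPush' f A).map_smul s x

private theorem bcdPush_mul (f : S →ₐ[k] T) (A : DGA k) (x y : (A.bc S).A) :
    bcdPush f A ((A.bc S).mul x y) = (A.bc T).mul (bcdPush f A x) (bcdPush f A y) := by
  refine DGA.ι_ind (P := fun x => bcdPush f A ((A.bc S).mul x y) =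
      (A.bc T).mul (bcdPush f A x) (bcdPush f A y)) ?_ ?_ ?_ x
  · simp only [map_zero, LinearMap.zero_apply]
  · intro x x' hx hx'
    simp only [map_add, LinearMap.add_apply, hx, hx']
  · intro s a
    refine DGA.ι_ind (P := fun y => bcdPush f A ((A.bc S).mul (s • A.ι S a) y) =
      (A.bc T).mul (bcdPush f A (s • A.ι S a)) (bcdPush f A y)) ?_ ?_ ?_ y
    · simp only [map_zero]
    · intro y y' hy hy'
      simp only [map_add, hy, hy']
    · intro s' b
      rw [LinearMap.map_smul, LinearMap.map_smul, LinearMap.smul_apply, DGA.ι_mul,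
        bcdPush_smul, bcdPush_smul, bcdPush_smul, bcdPush_smul, bcdPush_ι, bcdPush_ι, bcdPush_ι,
        LinearMap.map_smul, LinearMap.map_smul, LinearMap.smul_apply, DGA.ι_mul]

private theorem bcdPush_d (f : S →ₐ[k] T) (A : DGA k) (x : (A.bc S).A) :
    (A.bc T).dg.d (bcdPush f A x) = bcdPush f A ((A.bc S).dg.d x) := by
  refine DGA.ι_ind (P := fun x => (A.bc T).dg.d (bcdPush f A x) =
      bcdPush f A ((A.bc S).dg.d x)) ?_ ?_ ?_ x
  · simp only [map_zero]
  · intro x x' hx hx'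
    simp only [map_add, hx, hx']
  · intro s a
    rw [bcdPush_smul, LinearMap.map_smul, LinearMap.map_smul, bcdPush_smul, bcdPush_ι, DGA.ι_d,
      DGA.ι_d, bcdPush_ι]

private theorem bcdPush_deg (f : S →ₐ[k] T) (A : DGA k) {j : ℤ} {x : (A.bc S).A}
    (hx : (A.bc S).dg.IsDeg j x) : (A.bc T).dg.IsDeg (j + 0) (bcdPush f A x) :=
  Dg.cf_degMap (X := A.dg) (f := algebraMap k S) (Z := (A.bc T).dg.rs f.toRingHom) (n := 0)
    (bcdPush' f A) (fun {j v} hv => by
      rw [add_zero]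
      refine (congrArg (fun z => ((A.bc T).dg.rs f.toRingHom).IsDeg j z)
        (bcdPush'_ι f A v)).mpr ?_
      exact Dg.rs_deg.2 (DGA.ι_deg hv)) hx

/-- The map `T ⊗_S A_S → A_T`. -/
private noncomputable def bcdG (f : S →ₐ[k] T) (A : DGA k) :
    ((diag (A.bc S)).cf f).M →ₗ[T] (A.bc T).A :=
  Bim.lift f (bcdPush f A) (fun s m => bcdPush_smul f A s m)

private theorem bcdG_ι (f : S →ₐ[k] T) (A : DGA k) (m : (A.bc S).A) :
    bcdG f A ((diag (A.bc S)).ι f m) = bcdPush f A m :=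
  Bim.lift_ι (M := diag (A.bc S)) (f := f) (bcdPush f A) (fun s m => bcdPush_smul f A s m) m

private theorem bcdι_smul (f : S →ₐ[k] T) (A : DGA k) (s : S) (x : (A.bc S).A) :
    (diag (A.bc S)).ι f (s • x) = f s • (diag (A.bc S)).ι f x :=
  Bim.ι_smul (M := diag (A.bc S)) (f := f) s x

/-- The map `A_T → T ⊗_S A_S`. -/
private noncomputable def bcdH (f : S →ₐ[k] T) (A : DGA k) :
    (A.bc T).A →ₗ[T] ((diag (A.bc S)).cf f).M :=
  DGA.lift (((diag (A.bc S)).ι f).comp (A.ι S)) (fun r a => by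
    change (diag (A.bc S)).ι f (A.ι S (r • a)) = algebraMap k T r • (diag (A.bc S)).ι f (A.ι S a)
    rw [DGA.ι_smul]
    refine (bcdι_smul f A (algebraMap k S r) (A.ι S a)).trans ?_
    rw [f.commutes])

private theorem bcdH_ι (f : S →ₐ[k] T) (A : DGA k) (a : A.A) :
    bcdH f A (A.ι T a) = (diag (A.bc S)).ι f (A.ι S a) := DGA.lift_ι _ _ a

private theorem bcdH_push (f : S →ₐ[k] T) (A : DGA k) (m : (A.bc S).A) :
    bcdH f A (bcdPush f A m) = (diag (A.bc S)).ι f m := by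
  refine DGA.ι_ind (P := fun m => bcdH f A (bcdPush f A m) = (diag (A.bc S)).ι f m) ?_ ?_ ?_ m
  · rw [map_zero, map_zero]
    exact (map_zero _).symm
  · intro x x' hx hx'
    rw [map_add, map_add, hx, hx']
    exact (map_add _ _ _).symm
  · intro s a
    rw [bcdPush_smul, LinearMap.map_smul, bcdPush_ι, bcdH_ι]
    exact (bcdι_smul f A s (A.ι S a)).symm

private theorem bcdH_G (f : S →ₐ[k] T) (A : DGA k) (x : ((diag (A.bc S)).cf f).M) :
    bcdH f A (bcdG f A x) = x := by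
  have h : (bcdH f A).comp (bcdG f A) = LinearMap.id := Bim.ι_ext (fun m =>
    (congrArg (bcdH f A) (bcdG_ι f A m)).trans (bcdH_push f A m))
  exact LinearMap.congr_fun h x

private theorem bcdG_H (f : S →ₐ[k] T) (A : DGA k) (x : (A.bc T).A) :
    bcdG f A (bcdH f A x) = x := by
  have h : (bcdG f A).comp (bcdH f A) = LinearMap.id := DGA.ι_ext (fun a =>
    (congrArg (bcdG f A) (bcdH_ι f A a)).trans ((bcdG_ι f A _).trans (bcdPush_ι f A a)))
  exact LinearMap.congr_fun h x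

/-- `T ⊗_S A_S ≅ A_T` -/
theorem cf_diag (f : S →ₐ[k] T) (A : DGA k) : BIso ((diag (A.bc S)).cf f) (diag (A.bc T)) := by
  refine BIso.of_bij (GMap.ofCf (n := 0) (M := diag (A.bc S)) (f := f) (P := diag (A.bc T))
    (bcdG f A) ?_ ?_ ?_) ?_ ?_
  · intro j v hv
    refine (congrArg (fun z => (A.bc T).dg.IsDeg (j + 0) z) (bcdG_ι f A v)).mpr ?_
    exact bcdPush_deg f A hv
  · intro a m
    rw [Dg.sp_even Even.zero]
    refine (bcdG_ι f A _).trans ((bcdPush_mul f A (A.ι S a) m).trans ?_)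
    refine Eq.trans ?_ (congrArg (fun z => (A.bc T).mul (A.ι T a) z) (bcdG_ι f A m)).symm
    rw [bcdPush_ι]
  · intro b m
    refine (bcdG_ι f A _).trans ((bcdPush_mul f A m (A.ι S b)).trans ?_)
    refine Eq.trans ?_ (congrArg (fun z => (A.bc T).mul z (A.ι T b)) (bcdG_ι f A m)).symm
    rw [bcdPush_ι]
  · refine Bim.ι_ext (fun m => ?_)
    rw [GMap.dd_apply, LinearMap.zero_apply, sg_zero, one_smul, sub_eq_zero]
    change (A.bc T).dg.d (bcdG f A ((diag (A.bc S)).ι f m)) =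
      bcdG f A (((diag (A.bc S)).cf f).dg.d ((diag (A.bc S)).ι f m))
    rw [Bim.ι_d]
    refine (congrArg (A.bc T).dg.d (bcdG_ι f A m)).trans ?_
    exact (bcdPush_d f A m).trans (bcdG_ι f A _).symm
  · exact Function.bijective_iff_has_inverse.2
      ⟨bcdH f A, fun x => bcdH_G f A x, fun x => bcdG_H f A x⟩

/-- Restriction commutes with base change. -/
theorem cf_res (f : S →ₐ[k] T) (φ : DHom A A') (ψ : DHom B B') (M : Bim (A'.bc S) (B'.bc S)) :
    BIso ((res (φ.bc S) (ψ.bc S) M).cf f) (res (φ.bc T) (ψ.bc T) (M.cf f)) := by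
  refine BIso.of_bij (GMap.ofCf (n := 0) (M := res (φ.bc S) (ψ.bc S) M) (f := f)
    (P := res (φ.bc T) (ψ.bc T) (M.cf f)) LinearMap.id ?_ ?_ ?_) ?_ ?_
  · intro j v hv
    rw [add_zero]
    exact Dg.cf_deg hv
  · intro a m
    rw [Dg.sp_even Even.zero]
    change M.ι f (M.l ((φ.bc S).f (A.ι S a)) m) = (M.cf f).l ((φ.bc T).f (A.ι T a)) (M.ι f m)
    rw [DHom.bc_ι, DHom.bc_ι]
    exact (Bim.ι_l (M := M) (f := f) (φ.f a) m).symm
  · intro b m
    change M.ι f (M.r ((ψ.bc S).f (B.ι S b)) m) = (M.cf f).r ((ψ.bc T).f (B.ι T b)) (M.ι f m)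
    rw [DHom.bc_ι, DHom.bc_ι]
    exact (Bim.ι_r (M := M) (f := f) (ψ.f b) m).symm
  · refine LinearMap.ext (fun x => ?_)
    rw [GMap.dd_apply, LinearMap.zero_apply, sg_zero, one_smul, sub_eq_zero]
    rfl
  · exact Function.bijective_id

end Pool.Agent.MP_6e5bed_ag_NC
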