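import Pool.Agent.Lib.MP_6e5bed_ag_BC.BcDefs

set_option autoImplicit false

/-!
# Base change of free bimodules
-/

namespace Pool.Agent.MP_6e5bed_ag_NC

attribute [local instance] Alg.iR Alg.iA Cf.iG Cf.iM Rs.iG Rs.iM

open scoped TensorProduct

universe u

variable {k : Type u} [CommRing k] {S T : Type u} [CommRing S] [CommRing T] [Algebra k S]
  [Algebra k T]

/-- The map `A_S → A_T`, as a linear map to the restriction of scalars. -/
private noncomputable def bcfPushL (f : S →ₐ[k] T) (A : DGA k) :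
    (A.bc S).A →ₗ[S] Rs f.toRingHom (A.bc T).A :=
  DGA.lift ((Rs.to f.toRingHom).comp (A.ι T)) (fun r a => by
    change A.ι T (r • a) = f.toRingHom (algebraMap k S r) • A.ι T a
    rw [DGA.ι_smul, algHom_map])

/-- The map `A_S → A_T`. -/
private noncomputable def bcfPush (f : S →ₐ[k] T) (A : DGA k) : (A.bc S).A →+ (A.bc T).A :=
  (Rs.of f.toRingHom).comp (bcfPushL f A).toAddMonoidHom

private theorem bcfPush_ι (f : S →ₐ[k] T) (A : DGA k) (a : A.A) :
    bcfPush f A (A.ι S a) = A.ι T a := by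
  change (bcfPushL f A) (A.ι S a) = (Rs.to f.toRingHom) (A.ι T a)
  rw [bcfPushL, DGA.lift_ι]
  rfl

private theorem bcfPush_smul (f : S →ₐ[k] T) (A : DGA k) (s : S) (x : (A.bc S).A) :
    bcfPush f A (s • x) = f s • bcfPush f A x :=
  (bcfPushL f A).map_smul s x

private theorem bcfPush_deg (f : S →ₐ[k] T) (A : DGA k) {n : ℤ} {x : (A.bc S).A}
    (hx : (A.bc S).dg.IsDeg n x) : (A.bc T).dg.IsDeg n (bcfPush f A x) := by
  have h := Dg.cf_degMap (X := A.dg) (Z := (A.bc T).dg.rs f.toRingHom) (n := 0)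
    (f := algebraMap k S) (bcfPushL f A) (fun {j v} hv => by
      rw [add_zero]
      change (A.bc T).dg.IsDeg j (bcfPush f A (A.ι S v))
      rw [bcfPush_ι]
      exact DGA.ι_deg hv) hx
  rw [add_zero] at h
  exact h

private theorem bcfPush_mul (f : S →ₐ[k] T) (A : DGA k) (a : A.A) (x : (A.bc S).A) :
    bcfPush f A ((A.bc S).mul (A.ι S a) x) = (A.bc T).mul (A.ι T a) (bcfPush f A x) := by
  refine DGA.ι_ind (P := fun x => bcfPush f A ((A.bc S).mul (A.ι S a) x) =
    (A.bc T).mul (A.ι T a) (bcfPush f A x)) ?_ ?_ ?_ x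
  · simp only [map_zero]
  · intro x y hx hy
    simp only [map_add, hx, hy]
  · intro s b
    rw [map_smul, bcfPush_smul, bcfPush_smul, map_smul, DGA.ι_mul, bcfPush_ι, bcfPush_ι,
      DGA.ι_mul]

private theorem bcfPush_mulR (f : S →ₐ[k] T) (A : DGA k) (a : A.A) (x : (A.bc S).A) :
    bcfPush f A ((A.bc S).mul x (A.ι S a)) = (A.bc T).mul (bcfPush f A x) (A.ι T a) := by
  refine DGA.ι_ind (P := fun x => bcfPush f A ((A.bc S).mul x (A.ι S a)) =
    (A.bc T).mul (bcfPush f A x) (A.ι T a)) ?_ ?_ ?_ x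
  · simp only [map_zero, LinearMap.zero_apply]
  · intro x y hx hy
    simp only [map_add, LinearMap.add_apply, hx, hy]
  · intro s b
    rw [map_smul, LinearMap.smul_apply, bcfPush_smul, bcfPush_smul, map_smul,
      LinearMap.smul_apply, DGA.ι_mul, bcfPush_ι, bcfPush_ι, DGA.ι_mul]

private theorem bcfPush_d (f : S →ₐ[k] T) (A : DGA k) (x : (A.bc S).A) :
    bcfPush f A ((A.bc S).dg.d x) = (A.bc T).dg.d (bcfPush f A x) := by
  refine DGA.ι_ind (P := fun x => bcfPush f A ((A.bc S).dg.d x) =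
    (A.bc T).dg.d (bcfPush f A x)) ?_ ?_ ?_ x
  · simp only [map_zero]
  · intro x y hx hy
    simp only [map_add, hx, hy]
  · intro s b
    rw [map_smul, bcfPush_smul, bcfPush_smul, map_smul, DGA.ι_d, bcfPush_ι, bcfPush_ι, DGA.ι_d]

private theorem bcfPush_s (f : S →ₐ[k] T) (A : DGA k) (x : (A.bc S).A) :
    bcfPush f A ((A.bc S).dg.s x) = (A.bc T).dg.s (bcfPush f A x) := by
  refine DGA.ι_ind (P := fun x => bcfPush f A ((A.bc S).dg.s x) =
    (A.bc T).dg.s (bcfPush f A x)) ?_ ?_ ?_ x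
  · simp only [map_zero]
  · intro x y hx hy
    simp only [map_add, hx, hy]
  · intro s b
    rw [map_smul, bcfPush_smul, bcfPush_smul, map_smul, DGA.ι_s, bcfPush_ι, bcfPush_ι, DGA.ι_s]

/-- Pure tensors in the free bimodule. -/
private noncomputable def bcfT {R : Type u} [CommRing R] (A B : DGA R) :
    A.A →ₗ[R] B.A →ₗ[R] (free A B).M := TensorProduct.mk R A.A B.A

private theorem bcfT_ext {R : Type u} [CommRing R] {A B : DGA R} {P : Type*} [AddCommGroup P]
    [Module R P] {φ ψ : (free A B).M →ₗ[R] P}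
    (h : (bcfT A B).compr₂ φ = (bcfT A B).compr₂ ψ) : φ = ψ :=
  TensorProduct.ext (M := A.A) (N := B.A) (g := φ) (h := ψ) h

private theorem bcfT_ind {R : Type u} [CommRing R] {A B : DGA R} {P : (free A B).M → Prop}
    (h0 : P 0) (hadd : ∀ x y, P x → P y → P (x + y)) (h : ∀ x y, P (bcfT A B x y))
    (m : (free A B).M) : P m :=
  TensorProduct.induction_on (motive := fun m : A.A ⊗[R] B.A => P m) m h0 h hadd

private theorem bcfT_l {R : Type u} [CommRing R] {A B : DGA R} (a x : A.A) (y : B.A) :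
    (free A B).l a (bcfT A B x y) = bcfT A B (A.mul a x) y := rfl

private theorem bcfT_r {R : Type u} [CommRing R] {A B : DGA R} (b : B.A) (x : A.A) (y : B.A) :
    (free A B).r b (bcfT A B x y) = bcfT A B x (B.mul y b) := rfl

private theorem bcfT_d {R : Type u} [CommRing R] {A B : DGA R} (x : A.A) (y : B.A) :
    (free A B).dg.d (bcfT A B x y) = bcfT A B (A.dg.d x) y + bcfT A B (A.dg.s x) (B.dg.d y) :=
  Dg.tensor_d x y

/-- The linear map on the free bimodule given by a bilinear map. -/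
private noncomputable def bcfLift {R : Type u} [CommRing R] (A B : DGA R) {P : Type*}
    [AddCommGroup P] [Module R P] (β : A.A →ₗ[R] B.A →ₗ[R] P) : (free A B).M →ₗ[R] P :=
  TensorProduct.lift β

private theorem bcfLift_T {R : Type u} [CommRing R] {A B : DGA R} {P : Type*}
    [AddCommGroup P] [Module R P] (β : A.A →ₗ[R] B.A →ₗ[R] P) (x : A.A) (y : B.A) :
    bcfLift A B β (bcfT A B x y) = β x y := rfl

/-- The map `A_S ⊗ B_S → A_T ⊗ B_T`, as a linear map to the restriction of scalars. -/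
private noncomputable def bcfF (f : S →ₐ[k] T) (A B : DGA k) :
    (free (A.bc S) (B.bc S)).M →ₗ[S] Rs f.toRingHom (free (A.bc T) (B.bc T)).M :=
  bcfLift (A.bc S) (B.bc S) (LinearMap.mk₂ S
    (fun x y => Rs.to f.toRingHom (bcfT (A.bc T) (B.bc T) (bcfPush f A x) (bcfPush f B y)))
    (fun x x' y => by rw [map_add, map_add, LinearMap.add_apply, map_add])
    (fun s x y => by
      rw [bcfPush_smul, map_smul, LinearMap.smul_apply]
      rfl)
    (fun x y y' => by rw [map_add, map_add, map_add])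
    (fun s x y => by
      rw [bcfPush_smul, map_smul]
      rfl))

/-- The same map as an additive map. -/
private noncomputable def bcfE (f : S →ₐ[k] T) (A B : DGA k) :
    (free (A.bc S) (B.bc S)).M →+ (free (A.bc T) (B.bc T)).M :=
  (Rs.of f.toRingHom).comp (bcfF f A B).toAddMonoidHom

private theorem bcfE_T (f : S →ₐ[k] T) (A B : DGA k) (x : (A.bc S).A) (y : (B.bc S).A) :
    bcfE f A B (bcfT _ _ x y) = bcfT _ _ (bcfPush f A x) (bcfPush f B y) := rfl

private theorem bcfE_smul (f : S →ₐ[k] T) (A B : DGA k) (s : S)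
    (m : (free (A.bc S) (B.bc S)).M) : bcfE f A B (s • m) = f s • bcfE f A B m :=
  (bcfF f A B).map_smul s m

private theorem bcfE_deg (f : S →ₐ[k] T) (A B : DGA k) {j : ℤ}
    {v : (free (A.bc S) (B.bc S)).M} (hv : (free (A.bc S) (B.bc S)).dg.IsDeg j v) :
    (free (A.bc T) (B.bc T)).dg.IsDeg j (bcfE f A B v) := by
  have h := Dg.tensor_degMap (X := (A.bc S).dg) (Y := (B.bc S).dg)
    (Z := (free (A.bc T) (B.bc T)).dg.rs f.toRingHom) (n := 0) (bcfF f A B)
    (fun i j v w hv hw => by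
      rw [add_zero]
      exact Dg.tensor_deg (bcfPush_deg f A hv) (bcfPush_deg f B hw)) hv
  rw [add_zero] at h
  exact h

/-- The map `T ⊗ (A_S ⊗ B_S) → A_T ⊗ B_T`. -/
private noncomputable def bcfH (f : S →ₐ[k] T) (A B : DGA k) :
    ((free (A.bc S) (B.bc S)).cf f).M →ₗ[T] (free (A.bc T) (B.bc T)).M :=
  Bim.lift f (bcfE f A B) (bcfE_smul f A B)

private theorem bcfH_ι (f : S →ₐ[k] T) (A B : DGA k) (m : (free (A.bc S) (B.bc S)).M) :
    bcfH f A B ((free (A.bc S) (B.bc S)).ι f m) = bcfE f A B m :=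
  Bim.lift_ι _ _ m

/-- The map in the other direction. -/
private noncomputable def bcfG (f : S →ₐ[k] T) (A B : DGA k) :
    (free (A.bc T) (B.bc T)).M →ₗ[T] ((free (A.bc S) (B.bc S)).cf f).M :=
  bcfLift (A.bc T) (B.bc T) (DGA.lift
    { toFun := fun a => DGA.lift
        (((free (A.bc S) (B.bc S)).ι f).comp
          ((bcfT (A.bc S) (B.bc S) (A.ι S a)).toAddMonoidHom.comp (B.ι S)))
        (fun r b => by
          change (free (A.bc S) (B.bc S)).ι f (bcfT _ _ (A.ι S a) (B.ι S (r • b))) =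
            algebraMap k T r • (free (A.bc S) (B.bc S)).ι f (bcfT _ _ (A.ι S a) (B.ι S b))
          rw [DGA.ι_smul, map_smul, ← algHom_map f r, Bim.ι_smul]
          rfl)
      map_zero' := DGA.ι_ext (fun b => by
        rw [DGA.lift_ι]
        change (free (A.bc S) (B.bc S)).ι f (bcfT _ _ (A.ι S 0) (B.ι S b)) = 0
        rw [map_zero, map_zero, LinearMap.zero_apply, map_zero])
      map_add' := fun a a' => DGA.ι_ext (fun b => by
        rw [LinearMap.add_apply, DGA.lift_ι, DGA.lift_ι, DGA.lift_ι]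
        change (free (A.bc S) (B.bc S)).ι f (bcfT _ _ (A.ι S (a + a')) (B.ι S b)) =
          (free (A.bc S) (B.bc S)).ι f (bcfT _ _ (A.ι S a) (B.ι S b)) +
          (free (A.bc S) (B.bc S)).ι f (bcfT _ _ (A.ι S a') (B.ι S b))
        rw [map_add, map_add, LinearMap.add_apply, map_add]) }
    (fun r a => DGA.ι_ext (fun b => by
      rw [LinearMap.smul_apply]
      change DGA.lift _ _ (B.ι T b) = algebraMap k T r • DGA.lift _ _ (B.ι T b)
      rw [DGA.lift_ι, DGA.lift_ι]
      change (free (A.bc S) (B.bc S)).ι f (bcfT _ _ (A.ι S (r • a)) (B.ι S b)) =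
        algebraMap k T r • (free (A.bc S) (B.bc S)).ι f (bcfT _ _ (A.ι S a) (B.ι S b))
      rw [DGA.ι_smul, map_smul, LinearMap.smul_apply, ← algHom_map f r, Bim.ι_smul]
      rfl)))

private theorem bcfG_ι (f : S →ₐ[k] T) (A B : DGA k) (a : A.A) (b : B.A) :
    bcfG f A B (bcfT _ _ (A.ι T a) (B.ι T b)) =
      (free (A.bc S) (B.bc S)).ι f (bcfT _ _ (A.ι S a) (B.ι S b)) := by
  rw [bcfG, bcfLift_T, DGA.lift_ι]
  exact DGA.lift_ι (S := T) _ _ b

private theorem bcfH_G (f : S →ₐ[k] T) (A B : DGA k) (x : (free (A.bc T) (B.bc T)).M) :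
    bcfH f A B (bcfG f A B x) = x := by
  have h : (bcfH f A B).comp (bcfG f A B) = LinearMap.id := by
    refine bcfT_ext (DGA.ι_ext (fun a => DGA.ι_ext (fun b => ?_)))
    change bcfH f A B (bcfG f A B (bcfT _ _ (A.ι T a) (B.ι T b))) =
      bcfT _ _ (A.ι T a) (B.ι T b)
    rw [bcfG_ι, bcfH_ι, bcfE_T, bcfPush_ι, bcfPush_ι]
  exact LinearMap.congr_fun h x

private theorem bcfG_push (f : S →ₐ[k] T) (A B : DGA k) (x : (A.bc S).A) (y : (B.bc S).A) :
    bcfG f A B (bcfT _ _ (bcfPush f A x) (bcfPush f B y)) =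
      (free (A.bc S) (B.bc S)).ι f (bcfT _ _ x y) := by
  refine DGA.ι_ind (P := fun x => bcfG f A B (bcfT _ _ (bcfPush f A x) (bcfPush f B y)) =
      (free (A.bc S) (B.bc S)).ι f (bcfT _ _ x y)) ?_ ?_ ?_ x
  · simp only [map_zero, LinearMap.zero_apply]
  · intro x x' hx hx'
    simp only [map_add, LinearMap.add_apply, hx, hx']
  · intro s a
    rw [bcfPush_smul, bcfPush_ι, map_smul, map_smul, LinearMap.smul_apply,
      LinearMap.smul_apply, map_smul, Bim.ι_smul]
    congr 1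
    refine DGA.ι_ind (P := fun y => bcfG f A B (bcfT _ _ (A.ι T a) (bcfPush f B y)) =
      (free (A.bc S) (B.bc S)).ι f (bcfT _ _ (A.ι S a) y)) ?_ ?_ ?_ y
    · simp only [map_zero]
    · intro x x' hx hx'
      simp only [map_add, hx, hx']
    · intro s b
      rw [bcfPush_smul, bcfPush_ι, map_smul, map_smul, map_smul, Bim.ι_smul, bcfG_ι]

private theorem bcfG_H (f : S →ₐ[k] T) (A B : DGA k) (x : ((free (A.bc S) (B.bc S)).cf f).M) :
    bcfG f A B (bcfH f A B x) = x := by
  have h : (bcfG f A B).comp (bcfH f A B) = LinearMap.id := by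
    refine Bim.ι_ext (fun m => ?_)
    change bcfG f A B (bcfH f A B ((free (A.bc S) (B.bc S)).ι f m)) =
      (free (A.bc S) (B.bc S)).ι f m
    refine bcfT_ind (P := fun m =>
      bcfG f A B (bcfH f A B ((free (A.bc S) (B.bc S)).ι f m)) =
      (free (A.bc S) (B.bc S)).ι f m) ?_ ?_ ?_ m
    · simp only [map_zero]
    · intro x y hx hy
      simp only [map_add, hx, hy]
    · intro x y
      rw [bcfH_ι, bcfE_T]
      exact bcfG_push f A B x y
  exact LinearMap.congr_fun h x

/-- The map of bimodules. -/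
private noncomputable def bcfφ (f : S →ₐ[k] T) (A B : DGA k) :
    GMap 0 ((free (A.bc S) (B.bc S)).cf f) (free (A.bc T) (B.bc T)) :=
  GMap.ofCf (bcfH f A B)
    (fun {j v} hv => by
      rw [bcfH_ι, add_zero]
      exact bcfE_deg f A B hv)
    (fun a m => by
      rw [bcfH_ι, bcfH_ι, Dg.sp_zero]
      refine bcfT_ind (P := fun m =>
        bcfE f A B ((free (A.bc S) (B.bc S)).l (A.ι S a) m) =
        (free (A.bc T) (B.bc T)).l (A.ι T a) (bcfE f A B m)) ?_ ?_ ?_ m
      · simp only [map_zero]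
      · intro x y hx hy
        simp only [map_add, hx, hy]
      · intro x y
        rw [bcfT_l, bcfE_T, bcfE_T, bcfT_l, bcfPush_mul])
    (fun b m => by
      rw [bcfH_ι, bcfH_ι]
      refine bcfT_ind (P := fun m =>
        bcfE f A B ((free (A.bc S) (B.bc S)).r (B.ι S b) m) =
        (free (A.bc T) (B.bc T)).r (B.ι T b) (bcfE f A B m)) ?_ ?_ ?_ m
      · simp only [map_zero]
      · intro x y hx hy
        simp only [map_add, hx, hy]
      · intro x y
        rw [bcfT_r, bcfE_T, bcfE_T, bcfT_r, bcfPush_mulR])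

private theorem bcfE_d (f : S →ₐ[k] T) (A B : DGA k) (m : (free (A.bc S) (B.bc S)).M) :
    (free (A.bc T) (B.bc T)).dg.d (bcfE f A B m) =
      bcfE f A B ((free (A.bc S) (B.bc S)).dg.d m) := by
  refine bcfT_ind (P := fun m => (free (A.bc T) (B.bc T)).dg.d (bcfE f A B m) =
      bcfE f A B ((free (A.bc S) (B.bc S)).dg.d m)) ?_ ?_ ?_ m
  · simp only [map_zero]
  · intro x y hx hy
    simp only [map_add, hx, hy]
  · intro x y
    rw [bcfT_d, bcfE_T, bcfT_d, map_add, bcfE_T, bcfE_T, bcfPush_d, bcfPush_s, bcfPush_d]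

/-- `T ⊗_S (A_S ⊗_S B_S) ≅ A_T ⊗_T B_T` -/
theorem cf_free (f : S →ₐ[k] T) (A B : DGA k) :
    BIso ((free (A.bc S) (B.bc S)).cf f) (free (A.bc T) (B.bc T)) := by
  refine BIso.of_bij (bcfφ f A B) ?_ ⟨?_, ?_⟩
  · refine Bim.ι_ext (fun m => ?_)
    rw [GMap.dd_apply, LinearMap.zero_apply, sg_zero, one_smul, Bim.ι_d]
    change (free (A.bc T) (B.bc T)).dg.d (bcfH f A B ((free (A.bc S) (B.bc S)).ι f m)) -
      bcfH f A B ((free (A.bc S) (B.bc S)).ι f ((free (A.bc S) (B.bc S)).dg.d m)) = 0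
    rw [bcfH_ι, bcfH_ι, bcfE_d, sub_self]
  · intro x y h
    rw [← bcfG_H f A B x, ← bcfG_H f A B y]
    exact congrArg _ h
  · intro y
    exact ⟨bcfG f A B y, bcfH_G f A B y⟩

end Pool.Agent.MP_6e5bed_ag_NC
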