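import Pool.Agent.Lib.MP_6e5bed_ag_BC.BcDefs
import Pool.Agent.Lib.MP_6e5bed_ag_NC.Box

set_option autoImplicit false

/-!
# Base change of isomorphisms of dg algebras, tensor products and the unit
-/

namespace Pool.Agent.MP_6e5bed_ag_NC

attribute [local instance] Alg.iR Alg.iA Cf.iG Cf.iM Rs.iG Rs.iM

open scoped TensorProduct

universe u

variable {k : Type u} [CommRing k] (S : Type u) [CommRing S] [Algebra k S] {A B A' B' C : DGA k}

variable {S} in
/-- A morphism from a base change is given by a linear map with conditions on the elements of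
`A`. -/
noncomputable def DHom.ofBc {X : DGA S} (g : (A.bc S).A →ₗ[S] X.A)
    (hdeg : ∀ {i : ℤ} {a : A.A}, A.dg.IsDeg i a → X.dg.IsDeg i (g (A.ι S a)))
    (hd : ∀ a, X.dg.d (g (A.ι S a)) = g (A.ι S (A.dg.d a)))
    (hone : g (A.ι S A.one) = X.one)
    (hmul : ∀ a b, g (A.ι S (A.mul a b)) = X.mul (g (A.ι S a)) (g (A.ι S b))) :
    DHom (A.bc S) X where
  f := g
  deg := fun {i x} hx => by
    have h := Dg.cf_degMap (X := A.dg) (f := algebraMap k S) (Z := X.dg) (n := 0) g
      (fun hv => by
        rw [add_zero]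
        exact hdeg hv) hx
    rwa [add_zero] at h
  d := fun x => by
    have h : X.dg.d.comp g = g.comp (A.bc S).dg.d := DGA.ι_ext (fun a => by
      rw [LinearMap.comp_apply, LinearMap.comp_apply, DGA.ι_d, hd])
    exact LinearMap.congr_fun h x
  one := hone
  mul := fun x y => by
    have h : (A.bc S).mul.compr₂ g = X.mul.compl₁₂ g g :=
      DGA.ι_ext (fun a => DGA.ι_ext (fun b => by
        change g ((A.bc S).mul (A.ι S a) (A.ι S b)) = X.mul (g (A.ι S a)) (g (A.ι S b))
        rw [DGA.ι_mul, hmul]))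
    exact LinearMap.congr_fun₂ h x y

/-- Base change of a morphism of dg algebras. -/
noncomputable def DHom.bc (φ : DHom A A') : DHom (A.bc S) (A'.bc S) :=
  DHom.ofBc (DGA.lift ((A'.ι S).comp φ.f.toAddMonoidHom) (fun r a => by
      change A'.ι S (φ.f (r • a)) = algebraMap k S r • A'.ι S (φ.f a)
      rw [map_smul, DGA.ι_smul]))
    (fun ha => by
      rw [DGA.lift_ι]
      exact DGA.ι_deg (φ.deg ha))
    (fun a => by
      rw [DGA.lift_ι, DGA.lift_ι]
      change (A'.bc S).dg.d (A'.ι S (φ.f a)) = A'.ι S (φ.f (A.dg.d a))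
      rw [DGA.ι_d, φ.d])
    (by
      rw [DGA.lift_ι]
      change A'.ι S (φ.f A.one) = (A'.bc S).one
      rw [φ.one, DGA.ι_one])
    (fun a b => by
      rw [DGA.lift_ι, DGA.lift_ι, DGA.lift_ι]
      change A'.ι S (φ.f (A.mul a b)) = (A'.bc S).mul (A'.ι S (φ.f a)) (A'.ι S (φ.f b))
      rw [φ.mul, DGA.ι_mul])

theorem DHom.bc_ι (φ : DHom A A') (a : A.A) : (φ.bc S).f (A.ι S a) = A'.ι S (φ.f a) :=
  DGA.lift_ι _ _ a

/-- Base change of an isomorphism of dg algebras. -/
noncomputable def DIso.bc (φ : DIso A A') : DIso (A.bc S) (A'.bc S) where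
  hom := φ.hom.bc S
  inv := φ.inv.bc S
  hom_inv := fun x => by
    have h : (φ.inv.bc S).f.comp (φ.hom.bc S).f = LinearMap.id := DGA.ι_ext (fun a => by
      rw [LinearMap.comp_apply, DHom.bc_ι, DHom.bc_ι, φ.hom_inv, LinearMap.id_apply])
    exact LinearMap.congr_fun h x
  inv_hom := fun x => by
    have h : (φ.hom.bc S).f.comp (φ.inv.bc S).f = LinearMap.id := DGA.ι_ext (fun a => by
      rw [LinearMap.comp_apply, DHom.bc_ι, DHom.bc_ι, φ.inv_hom, LinearMap.id_apply])
    exact LinearMap.congr_fun h x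

theorem DIso.bc_refl : (DIso.refl A).bc S = DIso.refl (A.bc S) :=
  DIso.ext (fun x => LinearMap.congr_fun (DGA.ι_ext (φ := ((DIso.refl A).bc S).hom.f)
    (ψ := (DIso.refl (A.bc S)).hom.f) (fun a => DHom.bc_ι S (DHom.id A) a)) x)

theorem DIso.bc_trans (φ : DIso A B) (ψ : DIso B C) : (φ.trans ψ).bc S = (φ.bc S).trans (ψ.bc S) :=
  DIso.ext (fun x => LinearMap.congr_fun (DGA.ι_ext (φ := ((φ.trans ψ).bc S).hom.f)
    (ψ := ((φ.bc S).trans (ψ.bc S)).hom.f) (fun a => by
      change ((φ.hom.comp ψ.hom).bc S).f (A.ι S a) = (ψ.hom.bc S).f ((φ.hom.bc S).f (A.ι S a))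
      rw [DHom.bc_ι, DHom.bc_ι, DHom.bc_ι]
      rfl)) x)

/-- The map `a ⊗ b ↦ ι a ⊗ ι b`. -/
noncomputable def tensIsoG (A B : DGA k) : A.A ⊗[k] B.A →+ (A.bc S).A ⊗[S] (B.bc S).A :=
  TensorProduct.liftAddHom
    { toFun := fun a =>
        ((TensorProduct.mk S (A.bc S).A (B.bc S).A (A.ι S a)).toAddMonoidHom).comp (B.ι S)
      map_zero' := by
        ext b
        simp
      map_add' := fun a a' => by
        ext b
        simp }
    (fun r a b => by
      change A.ι S (r • a) ⊗ₜ[S] B.ι S b = A.ι S a ⊗ₜ[S] B.ι S (r • b)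
      rw [DGA.ι_smul, DGA.ι_smul, TensorProduct.smul_tmul])

theorem tensIsoG_tmul (A B : DGA k) (a : A.A) (b : B.A) :
    tensIsoG S A B (a ⊗ₜ b) = A.ι S a ⊗ₜ B.ι S b := rfl

theorem tensIsoG_smul (A B : DGA k) (r : k) (x : A.A ⊗[k] B.A) :
    tensIsoG S A B (r • x) = algebraMap k S r • tensIsoG S A B x := by
  induction x using TensorProduct.induction_on with
  | zero => simp
  | add x y hx hy => rw [smul_add, map_add, hx, hy, map_add, smul_add]
  | tmul a b =>
    rw [TensorProduct.smul_tmul', tensIsoG_tmul, tensIsoG_tmul, DGA.ι_smul,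
      TensorProduct.smul_tmul']

theorem tensIsoG_deg (A B : DGA k) {i : ℤ} {x : A.A ⊗[k] B.A}
    (hx : (A.dg.tensor B.dg).IsDeg i x) :
    ((A.bc S).dg.tensor (B.bc S).dg).IsDeg i (tensIsoG S A B x) := by
  let φ : A.A ⊗[k] B.A →ₗ[k] Rs (algebraMap k S) ((A.bc S).A ⊗[S] (B.bc S).A) :=
    { toFun := fun x => Rs.to _ (tensIsoG S A B x)
      map_add' := fun x y => by rw [map_add, map_add]
      map_smul' := fun r x => by
        rw [tensIsoG_smul]
        rfl }
  have h := Dg.tensor_degMap (X := A.dg) (Y := B.dg)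
    (Z := Dg.rs (algebraMap k S) ((A.bc S).dg.tensor (B.bc S).dg)) (n := 0) φ
    (fun i j v w hv hw => by
      rw [add_zero]
      exact Dg.tensor_deg (X := (A.bc S).dg) (Y := (B.bc S).dg) (DGA.ι_deg hv) (DGA.ι_deg hw)) hx
  rw [add_zero] at h
  exact h

theorem tensIsoG_d (A B : DGA k) (x : A.A ⊗[k] B.A) :
    ((A.bc S).dg.tensor (B.bc S).dg).d (tensIsoG S A B x) =
      tensIsoG S A B ((A.dg.tensor B.dg).d x) := by
  induction x using TensorProduct.induction_on with
  | zero => simp
  | add x y hx hy => simp only [map_add, hx, hy]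
  | tmul a b =>
    rw [tensIsoG_tmul, Dg.tensor_d, Dg.tensor_d, map_add, tensIsoG_tmul, tensIsoG_tmul, DGA.ι_d,
      DGA.ι_d, DGA.ι_s]

theorem tensIsoG_mul (A B : DGA k) (x y : A.A ⊗[k] B.A) :
    tensIsoG S A B ((A.tensor B).mul x y) =
      ((A.bc S).tensor (B.bc S)).mul (tensIsoG S A B x) (tensIsoG S A B y) := by
  change tensIsoG S A B (kz A.dg B.dg A.mul B.mul x y) =
    kz (A.bc S).dg (B.bc S).dg (A.bc S).mul (B.bc S).mul (tensIsoG S A B x) (tensIsoG S A B y)
  induction x using TensorProduct.induction_on with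
  | zero => simp
  | add x x' hx hx' => simp only [map_add, LinearMap.add_apply, hx, hx']
  | tmul a b =>
    induction y using TensorProduct.induction_on with
    | zero => simp
    | add y y' hy hy' => simp only [map_add, hy, hy']
    | tmul a' b' =>
      rw [kz_tmul, tensIsoG_tmul, tensIsoG_tmul, kz_tmul, map_sub, tensIsoG_smul, tensIsoG_tmul,
        tensIsoG_tmul, DGA.ι_o, DGA.ι_o, DGA.ι_mul, DGA.ι_mul, DGA.ι_mul, DGA.ι_mul]
      rw [map_ofNat]

/-- The inverse map. -/
noncomputable def tensIsoH (A B : DGA k) :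
    (A.bc S).A ⊗[S] (B.bc S).A →ₗ[S] ((A.tensor B).bc S).A :=
  TensorProduct.lift (DGA.lift
    { toFun := fun a => DGA.lift (((A.tensor B).ι S).comp
          (TensorProduct.mk k A.A B.A a).toAddMonoidHom) (fun r b => by
        change (A.tensor B).ι S (a ⊗ₜ[k] (r • b)) = algebraMap k S r • (A.tensor B).ι S (a ⊗ₜ[k] b)
        rw [TensorProduct.tmul_smul]
        exact DGA.ι_smul (A := A.tensor B) r (a ⊗ₜ[k] b))
      map_zero' := DGA.ι_ext (fun b => by
        rw [DGA.lift_ι]
        change (A.tensor B).ι S ((0 : A.A) ⊗ₜ[k] b) = 0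
        rw [TensorProduct.zero_tmul]
        exact map_zero _)
      map_add' := fun a a' => DGA.ι_ext (fun b => by
        rw [LinearMap.add_apply, DGA.lift_ι, DGA.lift_ι, DGA.lift_ι]
        change (A.tensor B).ι S ((a + a') ⊗ₜ[k] b) = (A.tensor B).ι S (a ⊗ₜ[k] b) +
          (A.tensor B).ι S (a' ⊗ₜ[k] b)
        rw [TensorProduct.add_tmul]
        exact map_add _ _ _) }
    (fun r a => DGA.ι_ext (fun b => by
      rw [LinearMap.smul_apply]
      change DGA.lift _ _ (B.ι S b) = algebraMap k S r • DGA.lift _ _ (B.ι S b)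
      rw [DGA.lift_ι, DGA.lift_ι]
      change (A.tensor B).ι S ((r • a) ⊗ₜ[k] b) = algebraMap k S r • (A.tensor B).ι S (a ⊗ₜ[k] b)
      rw [← TensorProduct.smul_tmul']
      exact DGA.ι_smul (A := A.tensor B) r (a ⊗ₜ[k] b))))

theorem tensIsoH_ι (A B : DGA k) (a : A.A) (b : B.A) :
    tensIsoH S A B (A.ι S a ⊗ₜ B.ι S b) = (A.tensor B).ι S (a ⊗ₜ b) := by
  unfold tensIsoH
  rw [TensorProduct.lift.tmul, DGA.lift_ι]
  change DGA.lift _ _ (B.ι S b) = _
  rw [DGA.lift_ι]
  rfl

/-- The forward map. -/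
noncomputable def tensIsoF (A B : DGA k) :
    ((A.tensor B).bc S).A →ₗ[S] (A.bc S).A ⊗[S] (B.bc S).A :=
  DGA.lift (A := A.tensor B) (tensIsoG S A B) (tensIsoG_smul S A B)

theorem tensIsoF_ι (A B : DGA k) (x : A.A ⊗[k] B.A) :
    tensIsoF S A B ((A.tensor B).ι S x) = tensIsoG S A B x :=
  DGA.lift_ι (A := A.tensor B) _ _ x

/-- `(A ⊗ B)_S ≅ A_S ⊗_S B_S` -/
noncomputable def tensIso (A B : DGA k) : DIso ((A.tensor B).bc S) ((A.bc S).tensor (B.bc S)) :=
  DIso.mk'
    (DHom.ofBc (X := (A.bc S).tensor (B.bc S)) (tensIsoF S A B)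
      (fun {i x} hx => by
        have h := tensIsoG_deg S A B hx
        rw [← tensIsoF_ι] at h
        exact h)
      (fun x => by
        have h := tensIsoG_d S A B x
        rw [← tensIsoF_ι S A B x, ← tensIsoF_ι S A B _] at h
        exact h)
      ((tensIsoF_ι S A B _).trans rfl)
      (fun x y => by
        have h := tensIsoG_mul S A B x y
        have h1 := tensIsoF_ι S A B x
        have h2 := tensIsoF_ι S A B y
        have h3 := tensIsoF_ι S A B ((A.tensor B).mul x y)
        exact h3.trans (h.trans (congrArg₂ (fun u v => ((A.bc S).tensor (B.bc S)).mul u v)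
          h1.symm h2.symm))))
    (tensIsoH S A B)
    (fun x => by
      have h : (tensIsoH S A B).comp (tensIsoF S A B) = LinearMap.id :=
        DGA.ι_ext (A := A.tensor B) (fun y => by
          rw [LinearMap.comp_apply, tensIsoF_ι, LinearMap.id_apply]
          induction y using TensorProduct.induction_on with
          | zero => rw [map_zero, map_zero]; exact (map_zero _).symm
          | add y y' hy hy' => rw [map_add, map_add, hy, hy']; exact (map_add _ _ _).symm
          | tmul a b => rw [tensIsoG_tmul, tensIsoH_ι])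
      exact LinearMap.congr_fun h x)
    (fun z => by
      have h : (tensIsoF S A B).comp (tensIsoH S A B) = LinearMap.id := by
        refine TensorProduct.ext ?_
        refine DGA.ι_ext (fun a => DGA.ι_ext (fun b => ?_))
        change tensIsoF S A B (tensIsoH S A B (A.ι S a ⊗ₜ B.ι S b)) = A.ι S a ⊗ₜ B.ι S b
        rw [tensIsoH_ι, tensIsoF_ι, tensIsoG_tmul]
      exact LinearMap.congr_fun h z)

theorem tensIso_ι (a : A.A) (b : B.A) : (tensIso S A B).hom.f ((A.tensor B).ι S (a ⊗ₜ b)) =
    A.ι S a ⊗ₜ B.ι S b :=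
  (tensIsoF_ι S A B (a ⊗ₜ b)).trans (tensIsoG_tmul S A B a b)

/-- The map `k_S → S`. -/
noncomputable def baseIsoF : ((base k).bc S).A →ₗ[S] S :=
  DGA.lift (A := base k) (P := S) (show (base k).A →+ S from (algebraMap k S).toAddMonoidHom)
    (fun r a => (algebraMap k S).map_mul r (show k from a))

theorem baseIsoF_ι (c : k) : baseIsoF (k := k) S ((base k).ι S c) = algebraMap k S c :=
  DGA.lift_ι (A := base k) (P := S) _ _ c

/-- `k_S ≅ S` -/
noncomputable def baseIso : DIso ((base k).bc S) (base S) :=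
  DIso.mk'
    (DHom.ofBc (A := base k) (X := base S) (baseIsoF (k := k) S)
      (fun {i c} hc => by
        rcases base_deg_cases hc with hi | h0
        · rw [hi]
          exact base_deg (k := S) _
        · have h1 : baseIsoF (k := k) S ((base k).ι S c) = 0 := by
            rw [show c = 0 from h0, map_zero, map_zero]
          have h2 := Dg.IsDeg.zero (X := (base S).dg) i
          exact (congrArg (fun z => (base S).dg.IsDeg i z) h1).mpr h2)
      (fun c => by
        have h1 : baseIsoF (k := k) S ((base k).ι S ((base k).dg.d c)) = 0 := by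
          rw [show (base k).dg.d c = 0 from base_d (k := k) c, map_zero, map_zero]
        exact (base_d (k := S) _).trans h1.symm)
      ((baseIsoF_ι S (1 : k)).trans (map_one _))
      (fun (a b : k) => by
        have h1 := baseIsoF_ι (k := k) S a
        have h2 := baseIsoF_ι (k := k) S b
        have h3 := baseIsoF_ι (k := k) S (a * b)
        change baseIsoF (k := k) S ((base k).ι S (a * b)) =
          baseIsoF (k := k) S ((base k).ι S a) * baseIsoF (k := k) S ((base k).ι S b)
        rw [h1, h2, h3, map_mul]))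
    (LinearMap.toSpanSingleton S _ ((base k).ι S (1 : k)))
    (fun x => by
      have h : (LinearMap.toSpanSingleton S _ ((base k).ι S (1 : k))).comp
          (baseIsoF (k := k) S) = LinearMap.id :=
        DGA.ι_ext (A := base k) (fun (c : k) => by
          rw [LinearMap.comp_apply, baseIsoF_ι, LinearMap.toSpanSingleton_apply,
            LinearMap.id_apply]
          have h1 := DGA.ι_smul (S := S) (A := base k) c (1 : k)
          have h2 : c • (1 : k) = c := mul_one c
          exact h1.symm.trans (congrArg (fun z => (base k).ι S z) h2))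
      exact LinearMap.congr_fun h x)
    (fun (z : S) => by
      change baseIsoF (k := k) S (z • (base k).ι S (1 : k)) = z
      rw [map_smul, baseIsoF_ι, map_one, smul_eq_mul, mul_one])

theorem baseIso_ι (c : k) : (baseIso (k := k) S).hom.f ((base k).ι S c) = algebraMap k S c :=
  baseIsoF_ι S c

/-- The map `A_k → A`. -/
noncomputable def selfIsoF (A : DGA k) : (A.bc k).A →ₗ[k] A.A :=
  DGA.lift (AddMonoidHom.id A.A) (fun _ _ => rfl)

theorem selfIsoF_ι (A : DGA k) (a : A.A) : selfIsoF A (A.ι k a) = a :=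
  DGA.lift_ι _ _ a

/-- `A_k ≅ A` -/
noncomputable def selfIso (A : DGA k) : DIso (A.bc k) A :=
  DIso.mk'
    (DHom.ofBc (selfIsoF A)
      (fun {i a} ha => by
        rw [selfIsoF_ι]
        exact ha)
      (fun a => by rw [selfIsoF_ι, selfIsoF_ι])
      (selfIsoF_ι A A.one)
      (fun a b => by rw [selfIsoF_ι, selfIsoF_ι, selfIsoF_ι]))
    { toFun := A.ι k
      map_add' := fun a b => map_add _ a b
      map_smul' := fun r a => DGA.ι_smul r a }
    (fun x => by
      have h : ({ toFun := A.ι k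
                  map_add' := fun a b => map_add _ a b
                  map_smul' := fun r a => DGA.ι_smul r a } : A.A →ₗ[k] (A.bc k).A).comp
          (selfIsoF A) = LinearMap.id := DGA.ι_ext (fun a => by
        rw [LinearMap.comp_apply, selfIsoF_ι]
        rfl)
      exact LinearMap.congr_fun h x)
    (fun a => selfIsoF_ι A a)

theorem selfIso_ι (A : DGA k) (a : A.A) : (selfIso A).hom.f (A.ι k a) = a := selfIsoF_ι A a

end Pool.Agent.MP_6e5bed_ag_NC
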