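import Pool.Agent.Lib.MP_6e5bed_ag_BC.BcDiag
import Pool.Agent.Lib.MP_6e5bed_ag_BC.BcFree
import Pool.Agent.Lib.MP_6e5bed_ag_NC.Htpy
import Pool.Agent.Lib.MP_6e5bed_ag_NC.ResIso
import Pool.Agent.Lib.MP_6e5bed_ag_NC.SmProp

set_option autoImplicit false

/-!
# Base change of smooth proper dg algebras
-/

namespace Pool.Agent.MP_6e5bed_ag_NC

attribute [local instance] Alg.iR Alg.iA Cf.iG Cf.iM Rs.iG Rs.iM

universe u

variable {k : Type u} [CommRing k] {S T : Type u} [CommRing S] [CommRing T] [Algebra k S]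
  [Algebra k T] {A B : DGA k} {f : S →ₐ[k] T}

private theorem bcrq_rac (f : S →ₐ[k] T) {C : Bim (A.bc S) (B.bc S)} (h : RAc C) :
    RAc (C.cf f) := by
  obtain ⟨h, hh⟩ := h
  obtain ⟨g, hg⟩ : ∃ g : C.M →ₗ[S] C.M, ∀ m, g m = h.f m := ⟨h.f, fun _ => rfl⟩
  have hgd : ∀ {j : ℤ} {m : C.M}, C.dg.IsDeg j m → C.dg.IsDeg (j + -1) (g m) := fun {j m} hm => by
    rw [hg]
    exact h.deg hm
  have hh' : ∀ x : (und C).M, (und C).dg.d (h.f x) + h.f ((und C).dg.d x) = x := fun x => by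
    have h1 : h.dd x = x := LinearMap.congr_fun hh x
    rwa [GMap.dd_apply, sg_neg, sg_one, neg_smul, one_smul, sub_neg_eq_add] at h1
  have hd : ∀ m : C.M, C.dg.d (g m) + g (C.dg.d m) = m := fun m => by
    rw [hg, hg]
    exact hh' m
  obtain ⟨L, hL⟩ : ∃ L : (C.cf f).M →ₗ[T] (C.cf f).M, ∀ m, L (C.ι f m) = C.ι f (g m) :=
    ⟨Bim.lift f ((C.ι f).comp g.toAddMonoidHom) (fun s m => by
      change C.ι f (g (s • m)) = f s • C.ι f (g m)
      rw [map_smul, Bim.ι_smul]), fun m => Bim.lift_ι _ _ m⟩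
  have hLd : ∀ x : (C.cf f).M, (C.cf f).dg.d (L x) + L ((C.cf f).dg.d x) = x := fun x => by
    have h1 : (C.cf f).dg.d.comp L + L.comp (C.cf f).dg.d = LinearMap.id :=
      Bim.ι_ext (fun m => by
        change (C.cf f).dg.d (L (C.ι f m)) + L ((C.cf f).dg.d (C.ι f m)) = C.ι f m
        rw [hL, Bim.ι_d, Bim.ι_d, hL, ← map_add, hd])
    exact LinearMap.congr_fun h1 x
  refine ⟨GMap.ofBase (V := und (C.cf f)) (W := und (C.cf f)) L (fun {i v} hv =>
    Bim.ι_degMap (Z := (C.cf f).dg) (n := -1) L (fun {j w} hw => ?_) hv), ?_⟩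
  · rw [hL]
    exact Bim.ι_deg (hgd hw)
  · refine LinearMap.ext (fun x => ?_)
    rw [GMap.dd_apply, sg_neg, sg_one, neg_smul, one_smul, sub_neg_eq_add]
    exact hLd x

/-- Base change preserves relative quasi-isomorphisms. -/
theorem RQIso.cf {M N : Bim (A.bc S) (B.bc S)} {φ : GMap 0 M N} (h : RQIso φ) :
    RQIso (φ.cf f) := by
  have h1 : φ.dd = 0 := h.closed
  have hc : IsCone φ (cone φ h1) := isCone_cone φ h1
  have h2 : RAc ((cone φ h1).cf f) := bcrq_rac f ((hc.rqiso_iff h1).1 h)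
  have h3 : IsCone (φ.cf f) ((cone φ h1).cf f) := (cfF f A B).isCone hc
  exact (h3.rqiso_iff ((cfF f A B).closed h1)).2 h2

theorem Perf.cf {M : Bim (A.bc S) (B.bc S)} (h : Perf M) : Perf (M.cf f) :=
  (cfF f A B).perf ((cf_free f A B).symm.perf Perf.free) h

theorem Smooth.cf (f : S →ₐ[k] T) (h : Smooth (A.bc S)) : Smooth (A.bc T) := by
  obtain ⟨P, φ, hP, hφ⟩ := h
  obtain ⟨χ, χ', h0, h1, h2⟩ := cf_diag f A
  exact ⟨P.cf f, (φ.cf f).comp χ (add_zero 0), Perf.cf hP, (RQIso.cf hφ).comp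
    (RQIso.of_inv h0 h1 h2)⟩

/-- Base change of complexes, as a dg functor. -/
private noncomputable def bcrqF (f : S →ₐ[k] T) :
    DGFun (base S) (base S) (base T) (base T) :=
  ((resF (baseIso (k := k) S).hom (baseIso (k := k) S).hom).comp (cfF f (base k) (base k))).comp
    (resF (baseIso (k := k) T).symm.hom (baseIso (k := k) T).symm.hom)

private theorem bcrqF_free (f : S →ₐ[k] T) :
    Perf ((bcrqF f).obj (free (base S) (base S))) := by
  have h1 : Perf (res (baseIso (k := k) S).hom (baseIso (k := k) S).hom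
      (free (base S) (base S))) :=
    (res_free (baseIso (k := k) S) (baseIso (k := k) S)).symm.perf Perf.free
  exact (resF (baseIso (k := k) T).symm.hom (baseIso (k := k) T).symm.hom).perf
    ((res_free (baseIso (k := k) T).symm (baseIso (k := k) T).symm).symm.perf Perf.free)
    (Perf.cf h1)

theorem Proper.cf (f : S →ₐ[k] T) (h : Proper (A.bc S)) : Proper (A.bc T) := by
  have h1 : Perf ((bcrqF f).obj (und (diag (A.bc S)))) := (bcrqF f).perf (bcrqF_free f) h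
  obtain ⟨χ, χ', h0, h2, h3⟩ := cf_diag f A
  have h4 : χ'.dd = 0 := BIso.closed_inv h0 h2 h3
  have h5 : ∀ {i : ℤ} {x : (diag (A.bc T)).M}, (diag (A.bc T)).dg.IsDeg i x →
      ((diag (A.bc S)).cf f).dg.IsDeg i (χ'.f x) := fun {i x} hx => by
    have h6 := χ'.deg hx
    rwa [add_zero] at h6
  exact (BIso.ofBase (V := und (diag (A.bc T))) (W := (bcrqF f).obj (und (diag (A.bc S)))) χ'.f
    (fun hv => h5 hv) (fun v => GMap.d_f_zero h4 v)
    (Function.bijective_iff_has_inverse.2 ⟨χ.f, h3, h2⟩)).symm.perf h1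

theorem Smooth.of_iso {A A' : DGA k} (φ : DIso A A') (h : Smooth A') : Smooth A := by
  obtain ⟨P, ψ, hP, hψ⟩ := h
  obtain ⟨χ, χ', h0, h1, h2⟩ := res_diag φ
  exact ⟨res φ.hom φ.hom P, (ψ.res φ.hom φ.hom).comp χ (add_zero 0),
    (resF φ.hom φ.hom).perf ((res_free φ φ).symm.perf Perf.free) hP,
    (RQIso.res φ.hom φ.hom hψ).comp (RQIso.of_inv h0 h1 h2)⟩

theorem Proper.of_iso {A A' : DGA k} (φ : DIso A A') (h : Proper A') : Proper A := by
  refine (BIso.ofBase (V := und (diag A')) (W := und (diag A)) φ.inv.f (fun h => φ.inv.deg h)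
    (fun v => φ.inv.d v) ?_).perf h
  exact Function.bijective_iff_has_inverse.2 ⟨φ.hom.f, φ.inv_hom, φ.hom_inv⟩

theorem Smooth.bc (S : Type u) [CommRing S] [Algebra k S] (h : Smooth A) : Smooth (A.bc S) :=
  Smooth.cf (Algebra.ofId k S) (h.of_iso (selfIso A))

theorem Proper.bc (S : Type u) [CommRing S] [Algebra k S] (h : Proper A) : Proper (A.bc S) :=
  Proper.cf (Algebra.ofId k S) (h.of_iso (selfIso A))

end Pool.Agent.MP_6e5bed_ag_NC
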