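import Pool.Agent.Lib.MP_6e5bed_ag_BC.BcDefs
import Pool.Agent.Lib.MP_6e5bed_ag_NC.TB

set_option autoImplicit false
set_option maxHeartbeats 400000

/-!
# Base change of tensor products of bimodules
-/

namespace Pool.Agent.MP_6e5bed_ag_NC

attribute [local instance] Alg.iR Alg.iA Cf.iG Cf.iM Rs.iG Rs.iM

universe u

variable {k : Type u} [CommRing k] {S T : Type u} [CommRing S] [CommRing T] [Algebra k S]
  [Algebra k T] {A B C : DGA k}

/-- The bilinear map `(m, n) ↦ ι m ⊗ ι n`. -/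
private noncomputable def BcTb_β (f : S →ₐ[k] T) (M : Bim (A.bc S) (B.bc S))
    (N : Bim (B.bc S) (C.bc S)) :
    M.M →ₗ[S] N.M →ₗ[S] Rs f.toRingHom (tb (M.cf f) (N.cf f)).M :=
  LinearMap.mk₂ S (fun m n => Rs.to f.toRingHom (tm (M := M.cf f) (N := N.cf f) (M.ι f m) (N.ι f n)))
    (fun m m' n => by rw [map_add, tm_add_left, map_add])
    (fun c m n => by
      rw [Bim.ι_smul, tm_smul_left]
      rfl)
    (fun m n n' => by rw [map_add, tm_add_right, map_add])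
    (fun c m n => by
      rw [Bim.ι_smul, tm_smul_right]
      rfl)

private theorem BcTb_β_apply (f : S →ₐ[k] T) (M : Bim (A.bc S) (B.bc S))
    (N : Bim (B.bc S) (C.bc S)) (m : M.M) (n : N.M) :
    BcTb_β f M N m n =
      Rs.to f.toRingHom (tm (M := M.cf f) (N := N.cf f) (M.ι f m) (N.ι f n)) := rfl

private theorem BcTb_β_bal (f : S →ₐ[k] T) (M : Bim (A.bc S) (B.bc S))
    (N : Bim (B.bc S) (C.bc S)) (m : M.M) (b : (B.bc S).A) (n : N.M) :
    BcTb_β f M N (M.r b m) n = BcTb_β f M N m (N.l b n) := by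
  refine DGA.ι_ind (P := fun b => BcTb_β f M N (M.r b m) n = BcTb_β f M N m (N.l b n))
    ?_ ?_ ?_ b
  · simp only [map_zero, LinearMap.zero_apply]
  · intro x y hx hy
    simp only [map_add, LinearMap.add_apply, hx, hy]
  · intro s a
    simp only [map_smul, LinearMap.smul_apply]
    congr 1
    rw [BcTb_β_apply, BcTb_β_apply, ← Bim.ι_r, ← Bim.ι_l, tm_r_l]

/-- The map `m ⊗ n ↦ ι m ⊗ ι n`. -/
private noncomputable def BcTb_g (f : S →ₐ[k] T) (M : Bim (A.bc S) (B.bc S))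
    (N : Bim (B.bc S) (C.bc S)) : (tb M N).M →+ (tb (M.cf f) (N.cf f)).M :=
  (Rs.of f.toRingHom).comp (tlift (BcTb_β f M N) (BcTb_β_bal f M N)).toAddMonoidHom

private theorem BcTb_g_tm (f : S →ₐ[k] T) (M : Bim (A.bc S) (B.bc S))
    (N : Bim (B.bc S) (C.bc S)) (m : M.M) (n : N.M) :
    BcTb_g f M N (tm m n) = tm (M := M.cf f) (N := N.cf f) (M.ι f m) (N.ι f n) := by
  change Rs.of f.toRingHom (tlift (BcTb_β f M N) (BcTb_β_bal f M N) (tm m n)) = _
  rw [tlift_tm, BcTb_β_apply, Rs.of_to]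

private theorem BcTb_g_smul (f : S →ₐ[k] T) (M : Bim (A.bc S) (B.bc S))
    (N : Bim (B.bc S) (C.bc S)) (s : S) (x : (tb M N).M) :
    BcTb_g f M N (s • x) = f s • BcTb_g f M N x := by
  change Rs.of f.toRingHom (tlift (BcTb_β f M N) (BcTb_β_bal f M N) (s • x)) = _
  rw [map_smul, Rs.smul_def]
  rfl

private theorem BcTb_g_deg (f : S →ₐ[k] T) (M : Bim (A.bc S) (B.bc S))
    (N : Bim (B.bc S) (C.bc S)) {j : ℤ} {x : (tb M N).M} (hx : (tb M N).dg.IsDeg j x) :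
    (tb (M.cf f) (N.cf f)).dg.IsDeg (j + 0) (BcTb_g f M N x) := by
  refine Dg.rs_deg.1 (tb_degMap (Z := (tb (M.cf f) (N.cf f)).dg.rs f.toRingHom)
    (tlift (BcTb_β f M N) (BcTb_β_bal f M N)) (fun {i j v w} hv hw => ?_) hx)
  rw [tlift_tm, BcTb_β_apply, Dg.rs_deg, add_zero]
  exact tb_deg (Bim.ι_deg hv) (Bim.ι_deg hw)

/-- The map `T ⊗_S (M ⊗_B N) → (T ⊗_S M) ⊗_B (T ⊗_S N)`. -/
private noncomputable def BcTb_F (f : S →ₐ[k] T) (M : Bim (A.bc S) (B.bc S))
    (N : Bim (B.bc S) (C.bc S)) : ((tb M N).cf f).M →ₗ[T] (tb (M.cf f) (N.cf f)).M :=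
  Bim.lift f (BcTb_g f M N) (BcTb_g_smul f M N)

private theorem BcTb_F_ι (f : S →ₐ[k] T) (M : Bim (A.bc S) (B.bc S))
    (N : Bim (B.bc S) (C.bc S)) (x : (tb M N).M) :
    BcTb_F f M N ((tb M N).ι f x) = BcTb_g f M N x := Bim.lift_ι _ _ x

private noncomputable def BcTb_φ (f : S →ₐ[k] T) (M : Bim (A.bc S) (B.bc S))
    (N : Bim (B.bc S) (C.bc S)) : GMap 0 ((tb M N).cf f) (tb (M.cf f) (N.cf f)) :=
  GMap.ofCf (BcTb_F f M N)
    (fun {j v} hv => by
      rw [BcTb_F_ι]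
      exact BcTb_g_deg f M N hv)
    (fun a x => by
      rw [BcTb_F_ι, BcTb_F_ι, Dg.sp_zero]
      refine tb_ind (P := fun x => BcTb_g f M N ((tb M N).l (A.ι S a) x) =
        (tb (M.cf f) (N.cf f)).l (A.ι T a) (BcTb_g f M N x)) ?_ ?_ ?_ x
      · simp only [map_zero]
      · intro x y hx hy
        simp only [map_add, hx, hy]
      · intro m n
        rw [tb_l, BcTb_g_tm, BcTb_g_tm, tb_l, Bim.ι_l])
    (fun b x => by
      rw [BcTb_F_ι, BcTb_F_ι]
      refine tb_ind (P := fun x => BcTb_g f M N ((tb M N).r (C.ι S b) x) =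
        (tb (M.cf f) (N.cf f)).r (C.ι T b) (BcTb_g f M N x)) ?_ ?_ ?_ x
      · simp only [map_zero]
      · intro x y hx hy
        simp only [map_add, hx, hy]
      · intro m n
        rw [tb_r, BcTb_g_tm, BcTb_g_tm, tb_r, Bim.ι_r])

private theorem BcTb_φ_f (f : S →ₐ[k] T) (M : Bim (A.bc S) (B.bc S))
    (N : Bim (B.bc S) (C.bc S)) : (BcTb_φ f M N).f = BcTb_F f M N := rfl

private theorem BcTb_φ_d (f : S →ₐ[k] T) (M : Bim (A.bc S) (B.bc S))
    (N : Bim (B.bc S) (C.bc S)) : (BcTb_φ f M N).dd = 0 := by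
  refine Bim.ι_ext (fun x => ?_)
  rw [GMap.dd_apply, LinearMap.zero_apply, sg_zero, one_smul, Bim.ι_d, BcTb_φ_f, BcTb_F_ι,
    BcTb_F_ι, sub_eq_zero]
  refine tb_ind (P := fun x => (tb (M.cf f) (N.cf f)).dg.d (BcTb_g f M N x) =
    BcTb_g f M N ((tb M N).dg.d x)) ?_ ?_ ?_ x
  · simp only [map_zero]
  · intro x y hx hy
    simp only [map_add, hx, hy]
  · intro m n
    rw [tb_d, map_add, BcTb_g_tm, BcTb_g_tm, BcTb_g_tm, tb_d, Bim.ι_d, Bim.ι_d, Bim.ι_s]

/-- The bilinear map `(ι m, ι n) ↦ ι (m ⊗ n)`. -/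
private noncomputable def BcTb_γ (f : S →ₐ[k] T) (M : Bim (A.bc S) (B.bc S))
    (N : Bim (B.bc S) (C.bc S)) :
    (M.cf f).M →ₗ[T] (N.cf f).M →ₗ[T] ((tb M N).cf f).M :=
  Bim.lift f
    { toFun := fun m => Bim.lift f (((tb M N).ι f).comp (tmB M N m).toAddMonoidHom) (fun s n => by
        change (tb M N).ι f (tmB M N m (s • n)) = f s • (tb M N).ι f (tmB M N m n)
        rw [map_smul, Bim.ι_smul])
      map_zero' := Bim.ι_ext (fun n => by
        rw [Bim.lift_ι]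
        change (tb M N).ι f (tmB M N 0 n) = 0
        rw [map_zero, LinearMap.zero_apply, map_zero])
      map_add' := fun m m' => Bim.ι_ext (fun n => by
        rw [LinearMap.add_apply, Bim.lift_ι, Bim.lift_ι, Bim.lift_ι]
        change (tb M N).ι f (tmB M N (m + m') n) =
          (tb M N).ι f (tmB M N m n) + (tb M N).ι f (tmB M N m' n)
        rw [map_add, LinearMap.add_apply, map_add]) }
    (fun s m => Bim.ι_ext (fun n => by
      rw [LinearMap.smul_apply]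
      change Bim.lift f (((tb M N).ι f).comp (tmB M N (s • m)).toAddMonoidHom) _ (N.ι f n) =
        f s • Bim.lift f (((tb M N).ι f).comp (tmB M N m).toAddMonoidHom) _ (N.ι f n)
      rw [Bim.lift_ι, Bim.lift_ι]
      change (tb M N).ι f (tmB M N (s • m) n) = f s • (tb M N).ι f (tmB M N m n)
      rw [map_smul, LinearMap.smul_apply, Bim.ι_smul]))

private theorem BcTb_γ_ι (f : S →ₐ[k] T) (M : Bim (A.bc S) (B.bc S))
    (N : Bim (B.bc S) (C.bc S)) (m : M.M) (n : N.M) :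
    BcTb_γ f M N (M.ι f m) (N.ι f n) = (tb M N).ι f (tm m n) := by
  unfold BcTb_γ
  rw [Bim.lift_ι]
  exact Bim.lift_ι _ _ n

private theorem BcTb_γ_bal (f : S →ₐ[k] T) (M : Bim (A.bc S) (B.bc S))
    (N : Bim (B.bc S) (C.bc S)) (m : (M.cf f).M) (b : (B.bc T).A) (n : (N.cf f).M) :
    BcTb_γ f M N ((M.cf f).r b m) n = BcTb_γ f M N m ((N.cf f).l b n) := by
  refine DGA.ι_ind (P := fun b => BcTb_γ f M N ((M.cf f).r b m) n =
    BcTb_γ f M N m ((N.cf f).l b n)) ?_ ?_ ?_ b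
  · simp only [map_zero, LinearMap.zero_apply]
  · intro x y hx hy
    simp only [map_add, LinearMap.add_apply, hx, hy]
  · intro s b
    simp only [map_smul, LinearMap.smul_apply]
    congr 1
    refine Bim.ι_ind (P := fun m => BcTb_γ f M N ((M.cf f).r (B.ι T b) m) n =
      BcTb_γ f M N m ((N.cf f).l (B.ι T b) n)) ?_ ?_ ?_ m
    · simp only [map_zero, LinearMap.zero_apply]
    · intro x y hx hy
      simp only [map_add, LinearMap.add_apply, hx, hy]
    · intro s m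
      simp only [map_smul, LinearMap.smul_apply]
      congr 1
      refine Bim.ι_ind (P := fun n => BcTb_γ f M N ((M.cf f).r (B.ι T b) (M.ι f m)) n =
        BcTb_γ f M N (M.ι f m) ((N.cf f).l (B.ι T b) n)) ?_ ?_ ?_ n
      · simp only [map_zero]
      · intro x y hx hy
        simp only [map_add, hx, hy]
      · intro s n
        simp only [map_smul]
        congr 1
        rw [Bim.ι_r, Bim.ι_l, BcTb_γ_ι, BcTb_γ_ι, tm_r_l]

/-- The inverse. -/
private noncomputable def BcTb_G (f : S →ₐ[k] T) (M : Bim (A.bc S) (B.bc S))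
    (N : Bim (B.bc S) (C.bc S)) : (tb (M.cf f) (N.cf f)).M →ₗ[T] ((tb M N).cf f).M :=
  tlift (BcTb_γ f M N) (BcTb_γ_bal f M N)

private theorem BcTb_G_F (f : S →ₐ[k] T) (M : Bim (A.bc S) (B.bc S))
    (N : Bim (B.bc S) (C.bc S)) : (BcTb_G f M N).comp (BcTb_F f M N) = LinearMap.id := by
  refine Bim.ι_ext (fun x => ?_)
  rw [LinearMap.comp_apply, BcTb_F_ι, LinearMap.id_apply]
  refine tb_ind (P := fun x => BcTb_G f M N (BcTb_g f M N x) = (tb M N).ι f x) ?_ ?_ ?_ x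
  · simp only [map_zero]
  · intro x y hx hy
    simp only [map_add, hx, hy]
  · intro m n
    rw [BcTb_g_tm, BcTb_G, tlift_tm, BcTb_γ_ι]

private theorem BcTb_F_G (f : S →ₐ[k] T) (M : Bim (A.bc S) (B.bc S))
    (N : Bim (B.bc S) (C.bc S)) : (BcTb_F f M N).comp (BcTb_G f M N) = LinearMap.id := by
  refine tb_hom_ext (fun m n => ?_)
  rw [LinearMap.comp_apply, BcTb_G, tlift_tm, LinearMap.id_apply]
  have h : (BcTb_γ f M N).compr₂ (BcTb_F f M N) = tmB (M.cf f) (N.cf f) := by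
    refine Bim.ι_ext (fun m => Bim.ι_ext (fun n => ?_))
    rw [LinearMap.compr₂_apply, BcTb_γ_ι, BcTb_F_ι, BcTb_g_tm, tmB_apply]
  exact LinearMap.congr_fun₂ h m n

/-- `T ⊗_S (M ⊗_{B_S} N) ≅ (T ⊗_S M) ⊗_{B_T} (T ⊗_S N)` -/
theorem cf_tb (f : S →ₐ[k] T) (M : Bim (A.bc S) (B.bc S)) (N : Bim (B.bc S) (C.bc S)) :
    BIso ((tb M N).cf f) (tb (M.cf f) (N.cf f)) :=
  BIso.of_bij (BcTb_φ f M N) (BcTb_φ_d f M N) (Function.bijective_iff_has_inverse.2
    ⟨BcTb_G f M N, fun x => LinearMap.congr_fun (BcTb_G_F f M N) x,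
      fun y => LinearMap.congr_fun (BcTb_F_G f M N) y⟩)

end Pool.Agent.MP_6e5bed_ag_NC
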