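import Pool.Agent.Lib.MP_6e5bed_ag_BC.K0Cf
import Pool.Agent.Lib.MP_6e5bed_ag_NC.CatSym

set_option autoImplicit false

/-!
# Smooth proper dg algebras over `k` with the morphisms over a `k`-algebra `S`
-/

namespace Pool.Agent.MP_6e5bed_ag_NC

attribute [local instance] Alg.iR Alg.iA Cf.iG Cf.iM Rs.iG Rs.iM

open CategoryTheory MonoidalCategory

universe u

section coAux

open TensorProduct

variable {k : Type u} [CommRing k] (S : Type u) [CommRing S] [Algebra k S]

private theorem co_sandwich {A B A' B' : SP S} (τ : DIso A'.alg A.alg) (τ' : DIso B'.alg B.alg)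
    (h : A ⟶ B) : ofIso (A := A') (B := A) τ ≫ h ≫ ofIso (A := B) (B := B') τ'.symm =
      K0Q.res τ τ' h := by
  rw [comp_ofIso, ofIso_comp, K0Q.res_res, DIso.trans_refl]
  rfl

private theorem co_tens_inv (A B : DGA k) (a : A.A) (b : B.A) :
    (tensIso S A B).inv.f (A.ι S a ⊗ₜ B.ι S b) = (A.tensor B).ι S (a ⊗ₜ b) := by
  rw [← tensIso_ι, DIso.hom_inv]

private theorem co_ind2 {V W P : Type u} [AddCommGroup V] [Module k V] [AddCommGroup W]
    [Module k W] [AddCommGroup P] (f g : V ⊗[k] W →+ P)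
    (h : ∀ (a : V) (b : W), f (a ⊗ₜ b) = g (a ⊗ₜ b)) (v : V ⊗[k] W) : f v = g v := by
  induction v using TensorProduct.induction_on with
  | zero => rw [map_zero, map_zero]
  | add x y hx hy => rw [map_add, map_add, hx, hy]
  | tmul a b => exact h a b

private theorem co_ind3 {V W U P : Type u} [AddCommGroup V] [Module k V] [AddCommGroup W]
    [Module k W] [AddCommGroup U] [Module k U] [AddCommGroup P]
    (f g : (V ⊗[k] W) ⊗[k] U →+ P)
    (h : ∀ (a : V) (b : W) (c : U), f ((a ⊗ₜ b) ⊗ₜ c) = g ((a ⊗ₜ b) ⊗ₜ c))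
    (v : (V ⊗[k] W) ⊗[k] U) : f v = g v := by
  induction v using TensorProduct.induction_on with
  | zero => rw [map_zero, map_zero]
  | add x y hx hy => rw [map_add, map_add, hx, hy]
  | tmul w c =>
    induction w using TensorProduct.induction_on with
    | zero => rw [TensorProduct.zero_tmul, map_zero, map_zero]
    | add x y hx hy => rw [TensorProduct.add_tmul, map_add, map_add, hx, hy]
    | tmul a b => exact h a b c

private theorem co_assoc (A B C : DGA k) : (assocIso A B C).bc S =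
    ((tensIso S (A.tensor B) C).trans ((tensIso S A B).tensor (DIso.refl (C.bc S)))).trans
      ((assocIso (A.bc S) (B.bc S) (C.bc S)).trans
        (((DIso.refl (A.bc S)).tensor (tensIso S B C).symm).trans
          (tensIso S A (B.tensor C)).symm)) := by
  refine DIso.ext fun x => ?_
  refine LinearMap.congr_fun (DGA.ι_ext fun v => ?_) x
  refine co_ind3 (V := A.A) (W := B.A) (U := C.A) ((((assocIso A B C).bc S).hom.f.toAddMonoidHom).comp
    (((A.tensor B).tensor C).ι S)) (((((tensIso S (A.tensor B) C).trans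
      ((tensIso S A B).tensor (DIso.refl (C.bc S)))).trans
      ((assocIso (A.bc S) (B.bc S) (C.bc S)).trans
        (((DIso.refl (A.bc S)).tensor (tensIso S B C).symm).trans
          (tensIso S A (B.tensor C)).symm))).hom.f.toAddMonoidHom).comp
            (((A.tensor B).tensor C).ι S)) (fun a b c => ?_) v
  have h1 : ((assocIso A B C).bc S).hom.f (((A.tensor B).tensor C).ι S ((a ⊗ₜ b) ⊗ₜ c)) =
      (A.tensor (B.tensor C)).ι S (a ⊗ₜ (b ⊗ₜ c)) :=
    DHom.bc_ι S (assocIso A B C).hom _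
  have h2 : (tensIso S (A.tensor B) C).hom.f (((A.tensor B).tensor C).ι S ((a ⊗ₜ b) ⊗ₜ c)) =
      (A.tensor B).ι S (a ⊗ₜ b) ⊗ₜ C.ι S c := tensIso_ι S (A := A.tensor B) (B := C) (a ⊗ₜ b) c
  have h3 := tensIso_ι S (A := A) (B := B) a b
  have h4 := co_tens_inv S B C b c
  have h5 := co_tens_inv S A (B.tensor C) a (b ⊗ₜ c)
  have s1 := congrArg (fun y : (((A.tensor B).bc S).tensor (C.bc S)).A =>
    (tensIso S A (B.tensor C)).inv.f (TensorProduct.map LinearMap.id (tensIso S B C).inv.f
      ((assocIso (A.bc S) (B.bc S) (C.bc S)).hom.f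
        (TensorProduct.map (tensIso S A B).hom.f LinearMap.id y)))) h2
  have s2 := congrArg (fun y : ((A.bc S).tensor (B.bc S)).A =>
    (tensIso S A (B.tensor C)).inv.f (TensorProduct.map LinearMap.id (tensIso S B C).inv.f
      ((assocIso (A.bc S) (B.bc S) (C.bc S)).hom.f (y ⊗ₜ C.ι S c)))) h3
  have s3 := congrArg (fun y : ((B.tensor C).bc S).A =>
    (tensIso S A (B.tensor C)).inv.f (A.ι S a ⊗ₜ y)) h4
  exact h1.trans (s1.trans (s2.trans (s3.trans h5))).symm

private theorem co_lunit (A : DGA k) : (lunitIso A).bc S =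
    ((tensIso S (base k) A).trans ((baseIso S).tensor (DIso.refl (A.bc S)))).trans
      (lunitIso (A.bc S)) := by
  refine DIso.ext fun x => ?_
  refine LinearMap.congr_fun (DGA.ι_ext fun v => ?_) x
  refine co_ind2 (V := (base k).A) (W := A.A) ((((lunitIso A).bc S).hom.f.toAddMonoidHom).comp
    (((base k).tensor A).ι S))
    (((((tensIso S (base k) A).trans ((baseIso S).tensor (DIso.refl (A.bc S)))).trans
      (lunitIso (A.bc S))).hom.f.toAddMonoidHom).comp (((base k).tensor A).ι S))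
    (fun c a => ?_) v
  have h1 : ((lunitIso A).bc S).hom.f (((base k).tensor A).ι S (c ⊗ₜ a)) =
      A.ι S ((show k from c) • a) := DHom.bc_ι S (lunitIso A).hom _
  have h2 := tensIso_ι S (A := base k) (B := A) c a
  have h3 : (baseIso (k := k) S).hom.f ((base k).ι S c) = algebraMap k S c :=
    baseIso_ι S (show k from c)
  have h4 := DGA.ι_smul (S := S) (A := A) (show k from c) a
  have s1 := congrArg (fun y : (((base k).bc S).tensor (A.bc S)).A =>
    (lunitIso (A.bc S)).hom.f (TensorProduct.map (baseIso (k := k) S).hom.f LinearMap.id y)) h2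
  have s2 := congrArg (fun y : (base S).A =>
    (lunitIso (A.bc S)).hom.f (y ⊗ₜ A.ι S a)) h3
  exact h1.trans (h4.trans (s1.trans s2).symm)

private theorem co_runit (A : DGA k) : (runitIso A).bc S =
    ((tensIso S A (base k)).trans ((DIso.refl (A.bc S)).tensor (baseIso S))).trans
      (runitIso (A.bc S)) := by
  refine DIso.ext fun x => ?_
  refine LinearMap.congr_fun (DGA.ι_ext fun v => ?_) x
  refine co_ind2 (V := A.A) (W := (base k).A) ((((runitIso A).bc S).hom.f.toAddMonoidHom).comp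
    ((A.tensor (base k)).ι S))
    (((((tensIso S A (base k)).trans ((DIso.refl (A.bc S)).tensor (baseIso S))).trans
      (runitIso (A.bc S))).hom.f.toAddMonoidHom).comp ((A.tensor (base k)).ι S))
    (fun a c => ?_) v
  have h1 : ((runitIso A).bc S).hom.f ((A.tensor (base k)).ι S (a ⊗ₜ c)) =
      A.ι S ((show k from c) • a) := DHom.bc_ι S (runitIso A).hom _
  have h2 := tensIso_ι S (A := A) (B := base k) a c
  have h3 : (baseIso (k := k) S).hom.f ((base k).ι S c) = algebraMap k S c :=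
    baseIso_ι S (show k from c)
  have h4 := DGA.ι_smul (S := S) (A := A) (show k from c) a
  have s1 := congrArg (fun y : ((A.bc S).tensor ((base k).bc S)).A =>
    (runitIso (A.bc S)).hom.f (TensorProduct.map LinearMap.id (baseIso (k := k) S).hom.f y)) h2
  have s2 := congrArg (fun y : (base S).A =>
    (runitIso (A.bc S)).hom.f (A.ι S a ⊗ₜ y)) h3
  exact h1.trans (h4.trans (s1.trans s2).symm)

private theorem co_comp5 {A B C D E F : SP S} {φ1 : DIso A.alg B.alg} {φ2 : DIso B.alg C.alg}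
    {φ3 : DIso C.alg D.alg} {φ4 : DIso D.alg E.alg} {φ5 : DIso E.alg F.alg}
    {α : DIso A.alg F.alg} {g : B ⟶ C} {i : D ⟶ E} (hg : g = ofIso φ2) (hi : i = ofIso φ4)
    (H : α = (φ1.trans φ2).trans (φ3.trans (φ4.trans φ5))) :
    ofIso α = (ofIso φ1 ≫ g) ≫ (ofIso φ3 ≫ (i ≫ ofIso φ5)) := by
  rw [hg, hi, H, ofIso_trans, ofIso_trans, ofIso_trans, ofIso_trans]

private theorem co_comp3 {A B C D : SP S} {φ1 : DIso A.alg B.alg} {φ2 : DIso B.alg C.alg}
    {φ3 : DIso C.alg D.alg} {α : DIso A.alg D.alg} {g : B ⟶ C} (hg : g = ofIso φ2)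
    (H : α = (φ1.trans φ2).trans φ3) : ofIso α = (ofIso φ1 ≫ g) ≫ ofIso φ3 := by
  rw [hg, H, ofIso_trans, ofIso_trans]

section lin

variable {A B A' B' E F : DGA S} (φ : DIso E (A.tensor A')) (ψ : DIso F (B.tensor B'))

private theorem co_zero_right (x : K0Q A B) :
    K0Q.res φ ψ (K0Q.box x (0 : K0Q A' B')) = 0 := by
  rw [map_zero, map_zero]

private theorem co_zero_left (y : K0Q A' B') :
    K0Q.res φ ψ (K0Q.box (0 : K0Q A B) y) = 0 := by
  rw [map_zero, LinearMap.zero_apply, map_zero]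

private theorem co_add_right (x : K0Q A B) (y y' : K0Q A' B') :
    K0Q.res φ ψ (K0Q.box x (y + y')) =
      K0Q.res φ ψ (K0Q.box x y) + K0Q.res φ ψ (K0Q.box x y') := by
  rw [map_add, map_add]

private theorem co_add_left (x x' : K0Q A B) (y : K0Q A' B') :
    K0Q.res φ ψ (K0Q.box (x + x') y) =
      K0Q.res φ ψ (K0Q.box x y) + K0Q.res φ ψ (K0Q.box x' y) := by
  rw [map_add, LinearMap.add_apply, map_add]

end lin

end coAux

/-- Base change of a smooth proper dg algebra. -/
noncomputable def SP.bc {k : Type u} [CommRing k] (S : Type u) [CommRing S] [Algebra k S]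
    (A : SP k) : SP S where
  alg := A.alg.bc S
  smooth := A.smooth.bc S
  proper := A.proper.bc S

/-- The smooth proper dg algebras over `k`, with the morphisms over `S`. -/
structure CO (k : Type u) [CommRing k] (S : Type u) [CommRing S] [Algebra k S] where
  of : SP k

variable {k : Type u} [CommRing k] {S : Type u} [CommRing S] [Algebra k S]

noncomputable instance : Category (CO k S) where
  Hom X Y := (X.of.bc S ⟶ Y.of.bc S)
  id X := 𝟙 (X.of.bc S)
  comp {X Y Z} f g := CategoryStruct.comp (X := X.of.bc S) (Y := Y.of.bc S) (Z := Z.of.bc S) f g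
  id_comp {X Y} f := Category.id_comp (X := X.of.bc S) (Y := Y.of.bc S) f
  comp_id {X Y} f := Category.comp_id (X := X.of.bc S) (Y := Y.of.bc S) f
  assoc {W X Y Z} f g h := Category.assoc (W := W.of.bc S) (X := X.of.bc S) (Y := Y.of.bc S)
    (Z := Z.of.bc S) f g h

noncomputable instance (X Y : CO k S) : AddCommGroup (X ⟶ Y) :=
  inferInstanceAs (AddCommGroup (X.of.bc S ⟶ Y.of.bc S))

noncomputable instance (X Y : CO k S) : Module ℚ (X ⟶ Y) :=
  inferInstanceAs (Module ℚ (X.of.bc S ⟶ Y.of.bc S))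

noncomputable instance : Preadditive (CO k S) where
  homGroup _ _ := inferInstance
  add_comp X Y Z f f' g :=
    Preadditive.add_comp (X.of.bc S) (Y.of.bc S) (Z.of.bc S) f f' g
  comp_add X Y Z f g g' :=
    Preadditive.comp_add (X.of.bc S) (Y.of.bc S) (Z.of.bc S) f g g'

noncomputable instance : Linear ℚ (CO k S) where
  homModule _ _ := inferInstance
  smul_comp X Y Z c f g :=
    Linear.smul_comp (X.of.bc S) (Y.of.bc S) (Z.of.bc S) c f g
  comp_smul X Y Z f c g :=
    Linear.comp_smul (X.of.bc S) (Y.of.bc S) (Z.of.bc S) f c g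

variable (k S) in
/-- The inclusion `A ↦ A_S`. -/
noncomputable def COJ : CO k S ⥤ SP S where
  obj X := X.of.bc S
  map f := f

instance : (COJ k S).Faithful where
  map_injective h := h

instance : (COJ k S).Full where
  map_surjective f := ⟨f, rfl⟩

instance : (COJ k S).Additive where
  map_add := rfl

/-- The isomorphism over `S` given by an isomorphism of dg algebras over `k`. -/
noncomputable def coIso {X Y : CO k S} (φ : DIso X.of.alg Y.of.alg) : X ≅ Y where
  hom := ofIso (A := X.of.bc S) (B := Y.of.bc S) (φ.bc S)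
  inv := ofIso (A := Y.of.bc S) (B := X.of.bc S) (φ.symm.bc S)
  hom_inv_id := (mkIso (A := X.of.bc S) (B := Y.of.bc S) (φ.bc S)).hom_inv_id
  inv_hom_id := (mkIso (A := X.of.bc S) (B := Y.of.bc S) (φ.bc S)).inv_hom_id

/-- The tensor product of morphisms. -/
noncomputable def coTens {X Y X' Y' : CO k S} (f : X ⟶ Y) (g : X' ⟶ Y') :
    (⟨X.of.tensor X'.of⟩ : CO k S) ⟶ ⟨Y.of.tensor Y'.of⟩ :=
  K0Q.res (tensIso S X.of.alg X'.of.alg) (tensIso S Y.of.alg Y'.of.alg) (K0Q.box f g)

noncomputable instance : MonoidalCategoryStruct (CO k S) where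
  tensorObj X Y := ⟨X.of.tensor Y.of⟩
  whiskerLeft X _ _ f := coTens (𝟙 X) f
  whiskerRight f Y := coTens f (𝟙 Y)
  tensorHom := coTens
  tensorUnit := ⟨SP.base k⟩
  associator X Y Z := coIso (assocIso X.of.alg Y.of.alg Z.of.alg)
  leftUnitor X := coIso (lunitIso X.of.alg)
  rightUnitor X := coIso (runitIso X.of.alg)

variable (k S) in
/-- `A ↦ A_S` is compatible with tensor products. -/
noncomputable def coData : Monoidal.InducingFunctorData (COJ k S) where
  μIso X Y := mkIso (A := (X.of.bc S).tensor (Y.of.bc S)) (B := (X.of.tensor Y.of).bc S)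
    (tensIso S X.of.alg Y.of.alg).symm
  whiskerLeft_eq := fun X {Y₁ Y₂} f =>
    (co_sandwich S (A := (X.of.bc S).tensor (Y₁.of.bc S)) (B := (X.of.bc S).tensor (Y₂.of.bc S))
      (A' := (X.of.tensor Y₁.of).bc S) (B' := (X.of.tensor Y₂.of).bc S)
      (tensIso S X.of.alg Y₁.of.alg) (tensIso S X.of.alg Y₂.of.alg)
      (SP.tensorHom (𝟙 (X.of.bc S)) f)).symm
  whiskerRight_eq := fun {X₁ X₂} f Y =>
    (co_sandwich S (A := (X₁.of.bc S).tensor (Y.of.bc S)) (B := (X₂.of.bc S).tensor (Y.of.bc S))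
      (A' := (X₁.of.tensor Y.of).bc S) (B' := (X₂.of.tensor Y.of).bc S)
      (tensIso S X₁.of.alg Y.of.alg) (tensIso S X₂.of.alg Y.of.alg)
      (SP.tensorHom f (𝟙 (Y.of.bc S)))).symm
  tensorHom_eq := fun {X₁ Y₁ X₂ Y₂} f g =>
    (co_sandwich S (A := (X₁.of.bc S).tensor (X₂.of.bc S)) (B := (Y₁.of.bc S).tensor (Y₂.of.bc S))
      (A' := (X₁.of.tensor X₂.of).bc S) (B' := (Y₁.of.tensor Y₂.of).bc S)
      (tensIso S X₁.of.alg X₂.of.alg) (tensIso S Y₁.of.alg Y₂.of.alg)
      (SP.tensorHom (A := X₁.of.bc S) (B := Y₁.of.bc S) (A' := X₂.of.bc S)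
        (B' := Y₂.of.bc S) f g)).symm
  εIso := mkIso (A := SP.base S) (B := (SP.base k).bc S) (baseIso S).symm
  associator_eq := fun X Y Z =>
    co_comp5 S (A := ((X.of.tensor Y.of).tensor Z.of).bc S)
      (B := ((X.of.tensor Y.of).bc S).tensor (Z.of.bc S))
      (C := ((X.of.bc S).tensor (Y.of.bc S)).tensor (Z.of.bc S))
      (D := (X.of.bc S).tensor ((Y.of.bc S).tensor (Z.of.bc S)))
      (E := (X.of.bc S).tensor ((Y.of.tensor Z.of).bc S))
      (F := (X.of.tensor (Y.of.tensor Z.of)).bc S)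
      (φ1 := tensIso S (X.of.alg.tensor Y.of.alg) Z.of.alg)
      (φ3 := assocIso (X.of.alg.bc S) (Y.of.alg.bc S) (Z.of.alg.bc S))
      (φ5 := (tensIso S X.of.alg (Y.of.alg.tensor Z.of.alg)).symm)
      (α := (assocIso X.of.alg Y.of.alg Z.of.alg).bc S)
      (CatMon.tensor_id_right (A := (X.of.tensor Y.of).bc S)
        (B := (X.of.bc S).tensor (Y.of.bc S)) (C := Z.of.bc S) (tensIso S X.of.alg Y.of.alg))
      (CatMon.tensor_id_left (A := (Y.of.bc S).tensor (Z.of.bc S))
        (B := (Y.of.tensor Z.of).bc S) (C := X.of.bc S) (tensIso S Y.of.alg Z.of.alg).symm)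
      (co_assoc S X.of.alg Y.of.alg Z.of.alg)
  leftUnitor_eq := fun X =>
    co_comp3 S (A := ((SP.base k).tensor X.of).bc S)
      (B := ((SP.base k).bc S).tensor (X.of.bc S)) (C := (SP.base S).tensor (X.of.bc S))
      (D := X.of.bc S) (φ1 := tensIso S (base k) X.of.alg) (φ3 := lunitIso (X.of.alg.bc S))
      (α := (lunitIso X.of.alg).bc S)
      (CatMon.tensor_id_right (A := (SP.base k).bc S) (B := SP.base S) (C := X.of.bc S)
        (baseIso S)) (co_lunit S X.of.alg)
  rightUnitor_eq := fun X =>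
    co_comp3 S (A := (X.of.tensor (SP.base k)).bc S)
      (B := (X.of.bc S).tensor ((SP.base k).bc S)) (C := (X.of.bc S).tensor (SP.base S))
      (D := X.of.bc S) (φ1 := tensIso S X.of.alg (base k)) (φ3 := runitIso (X.of.alg.bc S))
      (α := (runitIso X.of.alg).bc S)
      (CatMon.tensor_id_left (A := (SP.base k).bc S) (B := SP.base S) (C := X.of.bc S)
        (baseIso S)) (co_runit S X.of.alg)

noncomputable instance : MonoidalCategory (CO k S) := Monoidal.induced (COJ k S) (coData k S)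

noncomputable instance : (COJ k S).Monoidal := Monoidal.fromInducedMonoidal (COJ k S) (coData k S)

noncomputable instance : MonoidalPreadditive (CO k S) where
  whiskerLeft_zero := fun {X Y Z} =>
    co_zero_right S (tensIso S X.of.alg Y.of.alg) (tensIso S X.of.alg Z.of.alg)
      (𝟙 (X.of.bc S) : X.of.bc S ⟶ X.of.bc S)
  zero_whiskerRight := fun {X Y Z} =>
    co_zero_left S (tensIso S Y.of.alg X.of.alg) (tensIso S Z.of.alg X.of.alg)
      (𝟙 (X.of.bc S) : X.of.bc S ⟶ X.of.bc S)
  whiskerLeft_add := fun {X Y Z} f g =>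
    co_add_right S (tensIso S X.of.alg Y.of.alg) (tensIso S X.of.alg Z.of.alg)
      (𝟙 (X.of.bc S) : X.of.bc S ⟶ X.of.bc S) f g
  add_whiskerRight := fun {X Y Z} f g =>
    co_add_left S (tensIso S Y.of.alg X.of.alg) (tensIso S Z.of.alg X.of.alg) f g
      (𝟙 (X.of.bc S) : X.of.bc S ⟶ X.of.bc S)

end Pool.Agent.MP_6e5bed_ag_NC
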