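import Pool.Agent.Lib.MP_6e5bed_ag_NC.Rigid
import Pool.Agent.Lib.MP_6e5bed_ag_NC.CatSym

set_option autoImplicit false

/-!
# The second zigzag identity in the category of smooth proper dg algebras
-/

namespace Pool.Agent.MP_6e5bed_ag_NC

open CategoryTheory MonoidalCategory
open scoped TensorProduct

universe v u

/-- In a braided category, one zigzag identity for `A` and `B` and one for `B` and `B'` give an
exact pairing of `B` and `A`, if the two coevaluations correspond to each other under the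
braiding. -/
private theorem coDualA_pairing {C : Type u} [Category.{v} C] [MonoidalCategory C]
    [BraidedCategory C] {A B B' : C} (η : 𝟙_ C ⟶ B ⊗ A) (ε : A ⊗ B ⟶ 𝟙_ C)
    (h : (A ◁ η) ≫ (α_ A B A).inv ≫ (ε ▷ A) = (ρ_ A).hom ≫ (λ_ A).inv)
    (η' : 𝟙_ C ⟶ B' ⊗ B) (ε' : B ⊗ B' ⟶ 𝟙_ C)
    (h' : (B ◁ η') ≫ (α_ B B' B).inv ≫ (ε' ▷ B) = (ρ_ B).hom ≫ (λ_ B).inv)
    (ω : A ⟶ B') (hη : η' = η ≫ (β_ B A).hom ≫ (ω ▷ B)) :
    Nonempty (ExactPairing B A) := by
  obtain ⟨e, he⟩ : ∃ e : B ⟶ B,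
      e = (λ_ B).inv ≫ (η ▷ B) ≫ (α_ B A B).hom ≫ (B ◁ ε) ≫ (ρ_ B).hom := ⟨_, rfl⟩
  have h1 : η ≫ e ▷ A = η := by
    calc η ≫ e ▷ A
        = 𝟙 _ ⊗≫ ((𝟙_ C) ◁ η ≫ η ▷ (B ⊗ A)) ⊗≫ B ◁ ε ▷ A ⊗≫ 𝟙 _ := by
          rw [he]; monoidal
      _ = 𝟙 _ ⊗≫ (η ▷ (𝟙_ C) ≫ (B ⊗ A) ◁ η) ⊗≫ B ◁ ε ▷ A ⊗≫ 𝟙 _ := by
          rw [whisker_exchange]
      _ = η ⊗≫ B ◁ (A ◁ η ≫ (α_ A B A).inv ≫ ε ▷ A) ⊗≫ 𝟙 _ := by monoidal
      _ = η := by rw [h]; monoidal
  have h2 : η' ≫ B' ◁ e = η' := by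
    rw [hη, Category.assoc, Category.assoc, ← whisker_exchange,
      ← BraidedCategory.braiding_naturality_left_assoc, reassoc_of% h1]
  have h3 : (𝟙_ C) ◁ e ≫ (λ_ B).hom = (λ_ B).hom := by
    have h4 : (ρ_ B).hom ≫ (λ_ B).inv ≫ (𝟙_ C) ◁ e = (ρ_ B).hom ≫ (λ_ B).inv := by
      calc (ρ_ B).hom ≫ (λ_ B).inv ≫ (𝟙_ C) ◁ e
          = ((B ◁ η') ≫ (α_ B B' B).inv ≫ (ε' ▷ B)) ≫ (𝟙_ C) ◁ e := by
            rw [h', Category.assoc]
        _ = 𝟙 _ ⊗≫ (B ◁ η') ⊗≫ (ε' ▷ B ≫ (𝟙_ C) ◁ e) := by monoidal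
        _ = 𝟙 _ ⊗≫ (B ◁ η') ⊗≫ ((B ⊗ B') ◁ e ≫ ε' ▷ B) := by rw [whisker_exchange]
        _ = (B ◁ (η' ≫ B' ◁ e)) ≫ (α_ B B' B).inv ≫ (ε' ▷ B) := by monoidal
        _ = (ρ_ B).hom ≫ (λ_ B).inv := by rw [h2, h']
    have h5 : (λ_ B).inv ≫ (𝟙_ C) ◁ e = (λ_ B).inv := by
      rwa [cancel_epi] at h4
    calc (𝟙_ C) ◁ e ≫ (λ_ B).hom = (λ_ B).hom ≫ ((λ_ B).inv ≫ (𝟙_ C) ◁ e) ≫ (λ_ B).hom := by
          simp
      _ = (λ_ B).hom := by rw [h5]; simp
  have h6 : e = 𝟙 B := by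
    have h7 : (λ_ B).hom ≫ e = (λ_ B).hom ≫ 𝟙 B := by
      rw [← leftUnitor_naturality, h3, Category.comp_id]
    rwa [cancel_epi] at h7
  refine ⟨⟨η, ε, h, ?_⟩⟩
  calc η ▷ B ≫ (α_ B A B).hom ≫ B ◁ ε
      = (λ_ B).hom ≫ ((λ_ B).inv ≫ (η ▷ B) ≫ (α_ B A B).hom ≫ (B ◁ ε) ≫ (ρ_ B).hom) ≫
          (ρ_ B).inv := by simp
    _ = (λ_ B).hom ≫ (ρ_ B).inv := by rw [← he, h6, Category.id_comp]

variable {k : Type u} [CommRing k]

private theorem coDualA_tw {V W U : Type u} [AddCommGroup V] [Module k V] [AddCommGroup W]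
    [Module k W] [AddCommGroup U] [Module k U] (X : Dg k V) (Y : Dg k W)
    (β : V →ₗ[k] W →ₗ[k] U) (v : V) (w : W) : tw Y X (tw X Y β) v w = β v w := by
  refine X.parity_ind (P := fun v => tw Y X (tw X Y β) v w = β v w) ?_ ?_ ?_ v
  · intro x y hx hy
    simp only [map_add, LinearMap.add_apply, hx, hy]
  · intro v hv
    rw [tw_even hv, tw_even' hv]
  · intro v hv
    rw [tw_odd hv, tw_odd' hv, Dg.s_s]

/-- The double opposite. -/
private noncomputable def coDualA_opop (A : DGA k) : DIso A A.op.op where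
  hom :=
    { f := LinearMap.id
      deg := fun h => h
      d := fun _ => rfl
      one := rfl
      mul := fun a b => (coDualA_tw A.dg A.dg A.mul a b).symm }
  inv :=
    { f := LinearMap.id
      deg := fun h => h
      d := fun _ => rfl
      one := rfl
      mul := fun a b => coDualA_tw A.dg A.dg A.mul a b }
  hom_inv := fun _ => rfl
  inv_hom := fun _ => rfl

/-- The exchange of the factors, `Aᵒᵖ ⊗ A ≅ A ⊗ Aᵒᵖ ≅ Aᵒᵖᵒᵖ ⊗ Aᵒᵖ`. -/
private noncomputable def coDualA_τ (A : DGA k) : DIso (A.op.tensor A) (A.op.op.tensor A.op) :=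
  (swapIso A.op A).trans ((coDualA_opop A).tensor (DIso.refl A.op))

private theorem coDualA_τ_inv (A : DGA k) (x : A.A ⊗[k] A.A) :
    (coDualA_τ A).symm.hom.f x = ksw A.dg A.dg x := by
  change ksw A.dg A.dg (TensorProduct.map LinearMap.id LinearMap.id x) = ksw A.dg A.dg x
  rw [TensorProduct.map_id]
  rfl

section

variable {A : DGA k}

/-- The bent action for the opposite bimodule. -/
private noncomputable def coDualA_h (M : Bim A A) : A.A ⊗[k] A.A →ₗ[k] M.M →ₗ[k] M.M :=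
  hhr M.op

private theorem coDualA_r (M : Bim A A) (x : A.A ⊗[k] A.A) (m : M.M) :
    coDualA_h M x m = hhr M (ksw A.dg A.dg x) m := by
  induction x using TensorProduct.induction_on with
  | zero => simp only [map_zero, LinearMap.zero_apply]
  | add x y hx hy => rw [map_add, map_add, LinearMap.add_apply, hx, hy, map_add,
      LinearMap.add_apply]
  | tmul b a =>
    refine A.dg.parity_ind (P := fun b => coDualA_h M (b ⊗ₜ a) m =
      hhr M (ksw A.dg A.dg (b ⊗ₜ a)) m) ?_ ?_ ?_ b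
    · intro x y hx hy
      rw [TensorProduct.add_tmul, map_add, map_add, LinearMap.add_apply, hx, hy, map_add,
        LinearMap.add_apply]
    · intro b hb
      have h1 : ksw A.dg A.dg (b ⊗ₜ a) = a ⊗ₜ b := by
        rw [ksw_tmul, hb, TensorProduct.tmul_zero, smul_zero, sub_zero]
      have h2 : coDualA_h M (b ⊗ₜ a) m = M.op.r a (M.op.l b m) := hhr_even (M := M.op) hb a m
      have h3 : M.op.l b m = M.r b m := tw_even hb m
      have h4 : M.op.r a (M.r b m) = tw A.dg M.dg M.l (M.r b m) a := rfl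
      have h5 : hhr M (a ⊗ₜ b) m = M.r b (tw A.dg M.dg M.l m a) := by
        rw [hhr_tmul, tw_apply, map_sub, map_smul]
      rw [h1, h2, h3, h4, h5]
      refine A.dg.parity_ind (P := fun a => tw A.dg M.dg M.l (M.r b m) a =
        M.r b (tw A.dg M.dg M.l m a)) ?_ ?_ ?_ a
      · intro x y hx hy
        rw [map_add, map_add, map_add, hx, hy]
      · intro a ha
        rw [tw_even' ha, tw_even' ha, M.l_r]
      · intro a ha
        rw [tw_odd' ha, tw_odd' ha, ← Bim.rr_apply, M.s_rr, Dg.s_of_even hb, Bim.rr_apply,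
          M.l_r]
    · intro b hb
      have h1 : ksw A.dg A.dg (b ⊗ₜ a) = A.dg.s a ⊗ₜ b := by
        rw [ksw_tmul, hb, Dg.s_apply, TensorProduct.sub_tmul, TensorProduct.smul_tmul']
      have h2 : coDualA_h M (b ⊗ₜ a) m = M.op.r a (M.op.l b (M.dg.s m)) :=
        hhr_odd (M := M.op) hb a m
      have h3 : M.op.l b (M.dg.s m) = M.r b m :=
        (tw_odd hb (M.dg.s m)).trans (by rw [Dg.s_s]; rfl)
      have h4 : M.op.r a (M.r b m) = tw A.dg M.dg M.l (M.r b m) a := rfl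
      have h5 : hhr M (A.dg.s a ⊗ₜ b) m = M.r b (tw A.dg M.dg M.l m (A.dg.s a)) := by
        rw [hhr_tmul, tw_apply, map_sub, map_smul]
      rw [h1, h2, h3, h4, h5]
      refine A.dg.parity_ind (P := fun a => tw A.dg M.dg M.l (M.r b m) a =
        M.r b (tw A.dg M.dg M.l m (A.dg.s a))) ?_ ?_ ?_ a
      · intro x y hx hy
        rw [map_add, map_add, map_add, map_add, hx, hy]
      · intro a ha
        rw [Dg.s_of_even ha, tw_even' ha, tw_even' ha, M.l_r]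
      · intro a ha
        rw [Dg.s_of_odd ha, map_neg, map_neg, tw_odd' ha, tw_odd' ha, ← Bim.rr_apply, M.s_rr,
          Dg.s_of_odd hb, map_neg, map_neg, Bim.rr_apply, M.l_r]

/-- The coevaluations of `Aᵒᵖ` and of `A`, on bimodules. -/
private theorem coDualA_iso (M : Bim A A) :
    BIso (HH M.op) (res (DIso.refl (base k)).hom (coDualA_τ A).symm.hom (HH M)) := by
  refine BIso.of_bij (M := HH M.op)
    (N := res (DIso.refl (base k)).hom (coDualA_τ A).symm.hom (HH M))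
    ⟨LinearMap.id, fun {i m} h => by rwa [add_zero], fun a m => ?_, fun x m => ?_⟩ ?_
    Function.bijective_id
  · rw [Dg.sp_zero]
    rfl
  · exact (coDualA_r M x m).trans (by rw [← coDualA_τ_inv]; rfl)
  · ext x
    rw [GMap.dd_apply, sg_zero, one_smul]
    exact sub_self _

end

/-- The coevaluations of `Aᵒᵖ` and of `A` correspond to each other. -/
private theorem coDualA_eta (A : SP k) :
    A.op.eta = A.eta ≫ (β_ A.op A).hom ≫
      ((mkIso (A := A) (B := A.op.op) (coDualA_opop A.alg)).hom ▷ A.op) := by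
  have h1 : (β_ A.op A).hom ≫ ((mkIso (A := A) (B := A.op.op) (coDualA_opop A.alg)).hom ▷ A.op) =
      ofIso (A := A.op ⊗ A) (B := A.op.op ⊗ A.op) (coDualA_τ A.alg) := by
    have h2 : (mkIso (A := A) (B := A.op.op) (coDualA_opop A.alg)).hom ▷ A.op =
        ofIso (A := A ⊗ A.op) (B := A.op.op ⊗ A.op)
          ((coDualA_opop A.alg).tensor (DIso.refl A.op.alg)) := by
      have h3 := tensorHom_ofIso (A := A) (B := A.op.op) (A' := A.op) (B' := A.op)
        (coDualA_opop A.alg) (DIso.refl A.op.alg)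
      rw [ofIso_refl] at h3
      exact h3
    rw [h2]
    exact ofIso_trans (A := A.op ⊗ A) (B := A ⊗ A.op) (C := A.op.op ⊗ A.op)
      (swapIso A.op.alg A.alg) ((coDualA_opop A.alg).tensor (DIso.refl A.op.alg))
  rw [h1, comp_ofIso (A := 𝟙_ (SP k)) (B := A.op ⊗ A) (C := A.op.op ⊗ A.op)]
  obtain ⟨P, φ, hP, hφ, h1⟩ : ∃ (P : Bim A.alg A.alg) (φ : GMap 0 P (diag A.alg)) (hP : Perf P),
      RQIso φ ∧ K0Q.one A.smooth = cls P hP :=
    ⟨A.smooth.choose, A.smooth.choose_spec.choose, A.smooth.choose_spec.choose_spec.1,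
      A.smooth.choose_spec.choose_spec.2, rfl⟩
  have hPh : Perf (HH P) := (hhF A.alg A.alg).perf ((hh_free A.alg A.alg).symm.perf Perf.free) hP
  have hη : A.eta = cls (HH P) hPh := by
    change (hhF A.alg A.alg).k0 _ (K0Q.one A.smooth) = _
    rw [h1]
    exact DGFun.k0_cls _ _ hP
  obtain ⟨α, β, h0, h2, h3⟩ := op_diag A.alg
  have hq' : RQIso φ.op :=
    RQIso.congr hφ (LinearEquiv.refl k P.M : P.M ≃ₗ[k] P.op.M)
      (LinearEquiv.refl k (diag A.alg).M : (diag A.alg).M ≃ₗ[k] (diag A.alg).op.M)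
      (fun _ _ => Iff.rfl) (fun _ _ => Iff.rfl) (fun _ => rfl) (fun _ => rfl) (fun _ => rfl)
  have hPo : Perf P.op := (opF A.alg A.alg).perf
    (Perf.summand (op_free A.alg A.alg).symm.summand Perf.free) hP
  have h4 : K0Q.one A.op.smooth = cls P.op hPo :=
    K0Q.one_eq A.op.smooth A.op.proper hPo (RQIso.comp hq' (RQIso.of_inv h0 h2 h3))
  have hPoh : Perf (HH P.op) := (hhF A.op.alg A.op.alg).perf
    ((hh_free A.op.alg A.op.alg).symm.perf Perf.free) hPo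
  have hη' : A.op.eta = cls (HH P.op) hPoh := by
    change (hhF A.op.alg A.op.alg).k0 _ (K0Q.one A.op.smooth) = _
    rw [h4]
    exact DGFun.k0_cls _ _ hPo
  rw [hη, hη']
  refine Eq.trans ?_ (K0Q.res_cls (DIso.refl (base k)) (coDualA_τ A.alg).symm hPh).symm
  exact K0Q.cls_iso (coDualA_iso P) _ _

/-- The exact pairing of `Aᵒᵖ` and `A`. -/
theorem SP.exactPairing (A : SP k) : Nonempty (ExactPairing A.op A) :=
  coDualA_pairing A.eta A.eps A.zigzag A.op.eta A.op.eps A.op.zigzag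
    (mkIso (A := A) (B := A.op.op) (coDualA_opop A.alg)).hom (coDualA_eta A)

end Pool.Agent.MP_6e5bed_ag_NC
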