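import Pool.Agent.Lib.MP_6e5bed_ag_BC.COSym
import Pool.Agent.Lib.MP_6e5bed_ag_BC.CODualA
import Pool.Agent.Lib.MP_6e5bed_ag_NC.Rigid

set_option autoImplicit false

/-!
# Duals in `CO k S`
-/

namespace Pool.Agent.MP_6e5bed_ag_NC

attribute [local instance] Alg.iR Alg.iA Cf.iG Cf.iM Rs.iG Rs.iM

open CategoryTheory MonoidalCategory

universe u

variable {k : Type u} [CommRing k] {S : Type u} [CommRing S] [Algebra k S]

/-- the map `(Aᵒᵖ)_S → A_S` -/
private noncomputable def coDualF (A : DGA k) : (A.op.bc S).A →ₗ[S] (A.bc S).A :=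
  DGA.lift (A := A.op) (A.ι S) (fun r a => DGA.ι_smul (A := A) r a)

private theorem coDualF_ι (A : DGA k) (a : A.A) :
    coDualF (S := S) A (A.op.ι S a) = A.ι S a := DGA.lift_ι (A := A.op) _ _ a

/-- the map `A_S → (Aᵒᵖ)_S` -/
private noncomputable def coDualG (A : DGA k) : (A.bc S).A →ₗ[S] (A.op.bc S).A :=
  DGA.lift (A := A) (A.op.ι S) (fun r a => DGA.ι_smul (A := A.op) r a)

private theorem coDualG_ι (A : DGA k) (a : A.A) :
    coDualG (S := S) A (A.ι S a) = A.op.ι S a := DGA.lift_ι (A := A) _ _ a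

private theorem coDual_mul (A : DGA k) (a b : A.A) :
    A.ι S (tw A.dg A.dg A.mul a b) =
      tw (A.bc S).dg (A.bc S).dg (A.bc S).mul (A.ι S a) (A.ι S b) := by
  rw [tw_apply, tw_apply, map_sub, DGA.ι_smul, map_ofNat, DGA.ι_o, DGA.ι_o, DGA.ι_mul, DGA.ι_mul]

/-- `(Aᵒᵖ)_S = (A_S)ᵒᵖ` -/
theorem exists_opIso (A : DGA k) : Nonempty (DIso (A.op.bc S) (A.bc S).op) := by
  refine ⟨DIso.mk' (DHom.ofBc (A := A.op) (X := (A.bc S).op) (coDualF A) ?_ ?_ ?_ ?_)
    (coDualG A) ?_ ?_⟩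
  · intro i a ha
    exact (congrArg (fun z => (A.bc S).dg.IsDeg i z) (coDualF_ι A a)).mpr (DGA.ι_deg (A := A) ha)
  · intro a
    exact ((congrArg (A.bc S).dg.d (coDualF_ι A a)).trans (DGA.ι_d a)).trans
      (coDualF_ι A (A.dg.d a)).symm
  · exact coDualF_ι A A.one
  · intro a b
    exact ((coDualF_ι A (tw A.dg A.dg A.mul a b)).trans (coDual_mul A a b)).trans
      (congrArg₂ (fun x y => tw (A.bc S).dg (A.bc S).dg (A.bc S).mul x y)
        (coDualF_ι A a).symm (coDualF_ι A b).symm)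
  · intro x
    have h : (coDualG (S := S) A).comp (coDualF A) = LinearMap.id :=
      DGA.ι_ext (A := A.op) (fun a =>
        (congrArg (coDualG A) (coDualF_ι A a)).trans (coDualG_ι A a))
    exact LinearMap.congr_fun h x
  · intro x
    have h : (coDualF (S := S) A).comp (coDualG A) = LinearMap.id :=
      DGA.ι_ext (A := A) (fun a =>
        (congrArg (coDualF A) (coDualG_ι A a)).trans (coDualF_ι A a))
    exact LinearMap.congr_fun h x

theorem co_dual (X : CO k S) : ∃ X' : CO k S, Nonempty (ExactPairing X' X) := by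
  obtain ⟨φ⟩ := exists_opIso (S := S) X.of.alg
  obtain ⟨p⟩ := SP.exactPairing (X.of.bc S)
  have p' : ExactPairing (X.of.bc S).op ((COJ k S).obj X) := p
  have q : ExactPairing ((COJ k S).obj ⟨X.of.op⟩) ((COJ k S).obj X) :=
    exactPairingCongrLeft (X := (COJ k S).obj ⟨X.of.op⟩) (X' := (X.of.bc S).op)
      (mkIso (A := (X.of.op).bc S) (B := (X.of.bc S).op) φ)
  exact ⟨⟨X.of.op⟩, ⟨ExactPairing.ofFullyFaithful (COJ k S) ⟨X.of.op⟩ X⟩⟩

end Pool.Agent.MP_6e5bed_ag_NC
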