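import Pool.Agent.Lib.MP_6e5bed_ag_BC.CompSer
import Pool.Agent.Lib.MP_6e5bed_ag_BC.COFun
import Pool.Agent.Lib.MP_6e5bed_ag_BC.CODual
import Pool.Agent.Lib.MP_6e5bed_ag.DescOp

set_option autoImplicit false

/-!
# Descent of Kimura-finiteness for finite normal extensions
-/

namespace Pool.Agent.MP_6e5bed_ag_NC

attribute [local instance] Alg.iR Alg.iA Cf.iG Cf.iM Rs.iG Rs.iM

open CategoryTheory MonoidalCategory Pool.Agent.MP_6e5bed_ag

universe u

variable {k : Type u} [Field k] {L : Type u} [Field L] [Algebra k L] [FiniteDimensional k L]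

private theorem coDesc_inj {A B : DGA k} (x y : K0Q (A.bc k) (B.bc k))
    (h : K0Q.cf (Algebra.ofId k L) x = K0Q.cf (Algebra.ofId k L) y) : x = y := by
  have h1 := K0Q.tr_cf (L := L) x
  have h2 := K0Q.tr_cf (L := L) y
  rw [h, h2] at h1
  have h3 : (Module.finrank k L : ℚ) ≠ 0 := Nat.cast_ne_zero.2 Module.finrank_pos.ne'
  have h4 := congrArg (fun z => (Module.finrank k L : ℚ)⁻¹ • z) h1
  simp only [smul_smul, inv_mul_cancel₀ h3, one_smul] at h4
  exact h4.symm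

instance : (COF (Algebra.ofId k L)).Faithful where
  map_injective {X Y} f g h := coDesc_inj (L := L) (A := X.of.alg) (B := Y.of.alg) f g h

private theorem coDesc_sum {A B : DGA k} (s : List (L →ₐ[k] L)) (hs : s ≠ [])
    (hs' : ∀ x : K0Q (A.bc L) (B.bc L), K0Q.cf (Algebra.ofId k L) (K0Q.tr x) =
      (s.map (fun γ => K0Q.cf γ x)).sum)
    (N : Submodule ℚ (K0Q (A.bc L) (B.bc L))) (f : K0Q (A.bc L) (B.bc L))
    (hf : ∀ i : Fin s.length, K0Q.cf (s.get i) f - f ∈ N) :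
    ∃ g : K0Q (A.bc k) (B.bc k), f - K0Q.cf (Algebra.ofId k L) g ∈ N := by
  have hn : (s.length : ℚ) ≠ 0 := by
    rw [Nat.cast_ne_zero]
    exact fun h => hs (List.length_eq_zero_iff.1 h)
  refine ⟨(s.length : ℚ)⁻¹ • K0Q.tr f, ?_⟩
  rw [map_smul, hs']
  have key : ∀ t : List (L →ₐ[k] L), (∀ γ ∈ t, K0Q.cf γ f - f ∈ N) →
      (t.map (fun γ => K0Q.cf γ f)).sum - (t.length : ℚ) • f ∈ N := by
    intro t
    induction t with
    | nil =>
      intro _
      have e : (([] : List (L →ₐ[k] L)).map (fun γ => K0Q.cf γ f)).sum -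
          ((([] : List (L →ₐ[k] L)).length : ℕ) : ℚ) • f = 0 := by
        rw [List.map_nil, List.sum_nil, List.length_nil, Nat.cast_zero, zero_smul, sub_zero]
      rw [e]
      exact N.zero_mem
    | cons γ t ih =>
      intro ht
      have e : ((γ :: t).map (fun γ => K0Q.cf γ f)).sum - (((γ :: t).length : ℕ) : ℚ) • f =
          (K0Q.cf γ f - f) + ((t.map (fun γ => K0Q.cf γ f)).sum - (t.length : ℚ) • f) := by
        rw [List.map_cons, List.sum_cons, List.length_cons, Nat.cast_succ, add_smul, one_smul]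
        abel
      rw [e]
      exact N.add_mem (ht γ (List.mem_cons_self ..)) (ih fun δ hδ => ht δ (List.mem_cons_of_mem _ hδ))
  have h1 : (s.map (fun γ => K0Q.cf γ f)).sum - (s.length : ℚ) • f ∈ N := by
    refine key s fun γ hγ => ?_
    obtain ⟨i, rfl⟩ := List.get_of_mem hγ
    exact hf i
  have h2 : f - (s.length : ℚ)⁻¹ • (s.map (fun γ => K0Q.cf γ f)).sum =
      -((s.length : ℚ)⁻¹ • ((s.map (fun γ => K0Q.cf γ f)).sum - (s.length : ℚ) • f)) := by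
    rw [smul_sub, smul_smul, inv_mul_cancel₀ hn, one_smul]
    abel
  rw [h2]
  exact N.neg_mem (N.smul_mem _ h1)

omit [FiniteDimensional k L] in
private theorem coDesc_unit {X Y X' Y' : CO k L} (f : X ⟶ Y) (g : X' ⟶ Y') :
    (𝟙 (X ⊗ X')) ≫ (show (X ⊗ X' ⟶ Y ⊗ Y') from coTens f g) ≫ 𝟙 (Y ⊗ Y') = coTens f g :=
  (Category.id_comp _).trans (Category.comp_id _)

omit [FiniteDimensional k L] in
private theorem coDesc_tens (γ : L →ₐ[k] L) {X Y X' Y' : CO k L} (f : X ⟶ Y) (g : X' ⟶ Y') :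
    K0Q.cf γ (A := (X ⊗ X').of.alg) (B := (Y ⊗ Y').of.alg)
      ((𝟙 (X ⊗ X')) ≫ (show (X ⊗ X' ⟶ Y ⊗ Y') from coTens f g) ≫ 𝟙 (Y ⊗ Y')) =
      (𝟙 (X ⊗ X')) ≫ (show (X ⊗ X' ⟶ Y ⊗ Y') from
        coTens (X := X) (Y := Y) (X' := X') (Y' := Y')
          (K0Q.cf γ (A := X.of.alg) (B := Y.of.alg) f)
          (K0Q.cf γ (A := X'.of.alg) (B := Y'.of.alg) g)) ≫ 𝟙 (Y ⊗ Y') :=
  (congrArg (K0Q.cf γ (A := (X ⊗ X').of.alg) (B := (Y ⊗ Y').of.alg)) (coDesc_unit f g)).trans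
    ((COF_coTens γ f g).trans (coDesc_unit (X := X) (Y := Y) (X' := X') (Y' := Y')
      (K0Q.cf γ (A := X.of.alg) (B := Y.of.alg) f)
      (K0Q.cf γ (A := X'.of.alg) (B := Y'.of.alg) g)).symm)

variable [Normal k L]

theorem exists_coDescent : Nonempty (Descent (COF (Algebra.ofId k L))) := by
  obtain ⟨s, hs, hs'⟩ := K0Q.cf_tr k L
  refine ⟨⟨Fin s.length, fun i {X Y} => K0Q.cf (s.get i) (A := X.of.alg) (B := Y.of.alg),
    ?_, ?_, ?_, ?_⟩⟩
  · intro a X Y Z f g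
    exact K0Q.cf_comp (s.get a) (Y.of.proper.bc L) (Y.of.proper.bc L) f g
  · intro a X Y g
    exact K0Q.cf_cf' (Algebra.ofId k L) (s.get a) (Algebra.ofId k L)
      (fun c => (s.get a).commutes c) g
  · intro a X Y X' Y' f g
    exact coDesc_tens (s.get a) (X := ⟨X.of⟩) (Y := ⟨Y.of⟩) (X' := ⟨X'.of⟩) (Y' := ⟨Y'.of⟩) f g
  · intro X Y N _ f hf
    exact coDesc_sum (A := X.of.alg) (B := Y.of.alg) s hs (hs' X.of.alg Y.of.alg) N f hf

theorem opKF_of_normal (A : SP k) (h : OpKF (⟨A⟩ : CO k L)) : OpKF (⟨A⟩ : CO k k) := by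
  obtain ⟨G⟩ := exists_coDescent (k := k) (L := L)
  obtain ⟨X', ⟨hX⟩⟩ := co_dual (⟨A⟩ : CO k k)
  exact opKF_of_descent (F := COF (Algebra.ofId k L)) G (M := (⟨A⟩ : CO k k)) (M' := X') h

end Pool.Agent.MP_6e5bed_ag_NC
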