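import Pool.Agent.Lib.MP_6e5bed_ag_BC.CO

set_option autoImplicit false

/-!
# The symmetry over `S`
-/

namespace Pool.Agent.MP_6e5bed_ag_NC

attribute [local instance] Alg.iR Alg.iA Cf.iG Cf.iM Rs.iG Rs.iM

open CategoryTheory MonoidalCategory
open scoped TensorProduct

universe u

variable {k : Type u} [CommRing k] {S : Type u} [CommRing S] [Algebra k S]

private theorem coSym_diso (A B : DGA k) :
    ((swapIso A B).bc S).trans (tensIso S B A) =
      (tensIso S A B).trans (swapIso (A.bc S) (B.bc S)) := by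
  have h : (tensIso S B A).hom.f.comp ((swapIso A B).bc S).hom.f =
      (swapIso (A.bc S) (B.bc S)).hom.f.comp (tensIso S A B).hom.f := by
    refine DGA.ι_ext fun z => ?_
    change (tensIso S B A).hom.f (((swapIso A B).hom.bc S).f ((A.tensor B).ι S z)) =
      (swapIso (A.bc S) (B.bc S)).hom.f ((tensIso S A B).hom.f ((A.tensor B).ι S z))
    rw [DHom.bc_ι]
    have key : ∀ z : A.A ⊗[k] B.A,
        (tensIso S B A).hom.f ((B.tensor A).ι S ((swapIso A B).hom.f z)) =
        (swapIso (A.bc S) (B.bc S)).hom.f ((tensIso S A B).hom.f ((A.tensor B).ι S z)) := by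
      intro z
      induction z using TensorProduct.induction_on with
      | zero =>
        have h0 : (A.tensor B).ι S (0 : A.A ⊗[k] B.A) = 0 := map_zero _
        have h1 : (swapIso A B).hom.f (0 : A.A ⊗[k] B.A) = 0 := map_zero _
        rw [h0, h1, map_zero, map_zero, map_zero, map_zero]
      | add x y hx hy =>
        have h0 : (A.tensor B).ι S (x + y) = (A.tensor B).ι S x + (A.tensor B).ι S y :=
          map_add _ _ _
        have h1 : (swapIso A B).hom.f (x + y) = (swapIso A B).hom.f x + (swapIso A B).hom.f y :=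
          map_add _ _ _
        rw [h0, h1, map_add, map_add, map_add, map_add, hx, hy]
      | tmul a b =>
        have e1 : (B.tensor A).ι S (b ⊗ₜ[k] a - (2 : k) • B.dg.o b ⊗ₜ[k] A.dg.o a) =
            (B.tensor A).ι S (b ⊗ₜ[k] a) -
              algebraMap k S 2 • (B.tensor A).ι S (B.dg.o b ⊗ₜ[k] A.dg.o a) := by
          rw [← DGA.ι_smul]
          exact map_sub _ _ _
        rw [swapIso_hom, tensIso_ι, swapIso_hom, DGA.ι_o, DGA.ι_o]
        refine (congrArg _ e1).trans ?_
        rw [map_sub, map_smul, tensIso_ι, tensIso_ι, map_ofNat]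
        rfl
    exact key z
  exact DIso.ext fun x => LinearMap.congr_fun h x

private theorem coSym_diso' (A B : DGA k) :
    (tensIso S A B).symm.trans ((swapIso A B).bc S) =
      (swapIso (A.bc S) (B.bc S)).trans (tensIso S B A).symm := by
  have h := coSym_diso (S := S) A B
  have h1 := congrArg (fun φ => ((tensIso S A B).symm.trans φ).trans (tensIso S B A).symm) h
  refine DIso.ext fun x => ?_
  have h2 := congrArg (fun φ => φ.hom.f x) h1
  change (tensIso S B A).inv.f ((tensIso S B A).hom.f (((swapIso A B).bc S).hom.f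
    ((tensIso S A B).inv.f x))) = (tensIso S B A).inv.f ((swapIso (A.bc S) (B.bc S)).hom.f
      ((tensIso S A B).hom.f ((tensIso S A B).inv.f x))) at h2
  rw [(tensIso S B A).hom_inv, (tensIso S A B).inv_hom] at h2
  exact h2

private theorem coSym_w (X Y : CO k S) :
    Functor.LaxMonoidal.μ (COJ k S) X Y ≫
      (COJ k S).map (coIso (X := X ⊗ Y) (Y := Y ⊗ X) (swapIso X.of.alg Y.of.alg)).hom =
    (β_ ((COJ k S).obj X) ((COJ k S).obj Y)).hom ≫ Functor.LaxMonoidal.μ (COJ k S) Y X := by
  change ofIso (A := (X.of.bc S).tensor (Y.of.bc S)) (B := (X.of.tensor Y.of).bc S)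
      (tensIso S X.of.alg Y.of.alg).symm ≫
    ofIso (A := (X.of.tensor Y.of).bc S) (B := (Y.of.tensor X.of).bc S)
      ((swapIso X.of.alg Y.of.alg).bc S) =
    ofIso (A := (X.of.bc S).tensor (Y.of.bc S)) (B := (Y.of.bc S).tensor (X.of.bc S))
      (swapIso (X.of.alg.bc S) (Y.of.alg.bc S)) ≫
    ofIso (A := (Y.of.bc S).tensor (X.of.bc S)) (B := (Y.of.tensor X.of).bc S)
      (tensIso S Y.of.alg X.of.alg).symm
  rw [ofIso_trans, ofIso_trans]
  exact congrArg _ (coSym_diso' X.of.alg Y.of.alg)

noncomputable instance : BraidedCategory (CO k S) :=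
  BraidedCategory.ofFaithful (COJ k S) (fun X Y => coIso (swapIso X.of.alg Y.of.alg)) coSym_w

noncomputable instance : (COJ k S).Braided where
  braided := fun X Y => by
    rw [← coSym_w]
    rfl

noncomputable instance : SymmetricCategory (CO k S) := SymmetricCategory.ofFaithful (COJ k S)

end Pool.Agent.MP_6e5bed_ag_NC
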