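import Mathlib

set_option autoImplicit false

/-!
# Extension and restriction of scalars

`Cf f V` is the extension of scalars `S ⊗_R V` of the `R`-module `V` along the ring homomorphism
`f : R → S`, and `Rs f W` is the `S`-module `W` regarded as an `R`-module.
-/

namespace Pool.Agent.MP_6e5bed_ag_NC

open scoped TensorProduct

universe u

variable {R S T : Type u} [CommRing R] [CommRing S] [CommRing T]

/-- The ring `S`, as an algebra over `R` by means of `f : R → S`. -/
def Alg (_f : R →+* S) : Type u := S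

/-- The ring structure of `Alg f`. -/
@[implicit_reducible]
def Alg.iR (f : R →+* S) : CommRing (Alg f) := inferInstanceAs (CommRing S)

attribute [local instance] Alg.iR

/-- The algebra structure of `Alg f`. -/
@[implicit_reducible]
def Alg.iA (f : R →+* S) : Algebra R (Alg f) := f.toAlgebra

attribute [local instance] Alg.iA

/-- The extension of scalars `S ⊗_R V` along `f : R → S`. -/
def Cf (f : R →+* S) (V : Type u) [AddCommGroup V] [Module R V] : Type u := Alg f ⊗[R] V

section Cf

variable (f : R →+* S) (V : Type u) [AddCommGroup V] [Module R V]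

/-- The additive group `Cf f V`. -/
@[implicit_reducible]
noncomputable def Cf.iG : AddCommGroup (Cf f V) := inferInstanceAs (AddCommGroup (Alg f ⊗[R] V))

attribute [local instance] Cf.iG

/-- The module `Cf f V`. -/
@[implicit_reducible]
noncomputable def Cf.iM : Module S (Cf f V) := inferInstanceAs (Module (Alg f) (Alg f ⊗[R] V))

attribute [local instance] Cf.iM

variable {V}

/-- The map `v ↦ 1 ⊗ v`. -/
noncomputable def Cf.ι : V →+ Cf f V := (TensorProduct.mk R (Alg f) V 1).toAddMonoidHom

theorem Cf.ι_smul (r : R) (v : V) : Cf.ι f (r • v) = f r • Cf.ι f v := by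
  change (1 : Alg f) ⊗ₜ[R] (r • v) = (algebraMap R (Alg f) r) • ((1 : Alg f) ⊗ₜ[R] v)
  rw [TensorProduct.tmul_smul, algebraMap_smul]

variable {f}

theorem Cf.ind {P : Cf f V → Prop} (h0 : P 0) (hadd : ∀ x y, P x → P y → P (x + y))
    (hι : ∀ (s : S) (v : V), P (s • Cf.ι f v)) (x : Cf f V) : P x := by
  have key : ∀ y : Alg f ⊗[R] V, P y := by
    intro y
    induction y using TensorProduct.induction_on with
    | zero => exact h0
    | add v w hv hw => exact hadd v w hv hw
    | tmul s v =>
      have h1 : s ⊗ₜ[R] v = s • ((1 : Alg f) ⊗ₜ[R] v) := by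
        rw [TensorProduct.smul_tmul', smul_eq_mul, mul_one]
      rw [h1]
      exact hι s v
  exact key x

section lift

variable {P : Type*} [AddCommGroup P] [Module S P]

/-- The linear map on `S ⊗_R V` given by a semilinear map on `V`. -/
noncomputable def Cf.lift (g : V →+ P) (hg : ∀ (r : R) (v : V), g (r • v) = f r • g v) :
    Cf f V →ₗ[S] P :=
  letI : Module R P := Module.compHom P f
  letI : Module (Alg f) P := inferInstanceAs (Module S P)
  haveI : IsScalarTower R (Alg f) P := ⟨fun r s p => by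
    rw [Algebra.smul_def, mul_smul]
    rfl⟩
  (LinearMap.liftBaseChange (Alg f) ({ g with map_smul' := hg } : V →ₗ[R] P) :
    Alg f ⊗[R] V →ₗ[Alg f] P)

theorem Cf.lift_ι (g : V →+ P) (hg : ∀ (r : R) (v : V), g (r • v) = f r • g v) (v : V) :
    Cf.lift g hg (Cf.ι f v) = g v := by
  letI : Module R P := Module.compHom P f
  letI : Module (Alg f) P := inferInstanceAs (Module S P)
  haveI : IsScalarTower R (Alg f) P := ⟨fun r s p => by
    rw [Algebra.smul_def, mul_smul]
    rfl⟩
  change LinearMap.liftBaseChange (Alg f) ({ g with map_smul' := hg } : V →ₗ[R] P)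
    (1 ⊗ₜ v) = g v
  rw [LinearMap.liftBaseChange_tmul, one_smul]
  rfl

theorem Cf.hom_ext {φ ψ : Cf f V →ₗ[S] P} (h : ∀ v, φ (Cf.ι f v) = ψ (Cf.ι f v)) : φ = ψ := by
  refine LinearMap.ext (fun x => ?_)
  refine Cf.ind (P := fun x => φ x = ψ x) ?_ ?_ ?_ x
  · rw [map_zero, map_zero]
  · intro x y hx hy
    rw [map_add, map_add, hx, hy]
  · intro s v
    rw [map_smul, map_smul, h]

end lift

variable (f)
variable {W X : Type u} [AddCommGroup W] [Module R W] [AddCommGroup X] [Module R X]

/-- The extension of scalars of a linear map. -/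
noncomputable def Cf.map (φ : V →ₗ[R] W) : Cf f V →ₗ[S] Cf f W :=
  Cf.lift ((Cf.ι f).comp φ.toAddMonoidHom) (fun r v => by
    rw [AddMonoidHom.comp_apply, AddMonoidHom.comp_apply, LinearMap.toAddMonoidHom_coe, map_smul,
      Cf.ι_smul])

@[simp] theorem Cf.map_ι (φ : V →ₗ[R] W) (v : V) : Cf.map f φ (Cf.ι f v) = Cf.ι f (φ v) :=
  Cf.lift_ι _ _ v

theorem Cf.map_id : Cf.map f (LinearMap.id : V →ₗ[R] V) = LinearMap.id :=
  Cf.hom_ext (fun v => Cf.map_ι f _ v)

theorem Cf.map_comp (ψ : W →ₗ[R] X) (φ : V →ₗ[R] W) :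
    Cf.map f (ψ.comp φ) = (Cf.map f ψ).comp (Cf.map f φ) :=
  Cf.hom_ext (fun v => by simp)

theorem Cf.map_add' (φ ψ : V →ₗ[R] W) : Cf.map f (φ + ψ) = Cf.map f φ + Cf.map f ψ :=
  Cf.hom_ext (fun v => by simp)

theorem Cf.map_zsmul' (n : ℤ) (φ : V →ₗ[R] W) : Cf.map f (n • φ) = n • Cf.map f φ :=
  Cf.hom_ext (fun v => by simp)

theorem Cf.map_smul' (r : R) (φ : V →ₗ[R] W) : Cf.map f (r • φ) = f r • Cf.map f φ :=
  Cf.hom_ext (fun v => by simp [Cf.ι_smul])

end Cf

attribute [local instance] Cf.iG Cf.iM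

section bilin

variable {V W P : Type u} [AddCommGroup V] [Module R V] [AddCommGroup W] [Module S W]
  [AddCommGroup P] [Module T P]

/-- The bilinear map on extensions of scalars given by a semilinear map in two variables. -/
noncomputable def Cf.lift₂ (f : R →+* T) (g : S →+* T) (β : V →+ W →+ P)
    (h1 : ∀ (r : R) (v : V) (w : W), β (r • v) w = f r • β v w)
    (h2 : ∀ (v : V) (s : S) (w : W), β v (s • w) = g s • β v w) :
    Cf f V →ₗ[T] Cf g W →ₗ[T] P :=
  Cf.lift (f := f)
    { toFun := fun v => Cf.lift (f := g) (β v) (h2 v)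
      map_zero' := Cf.hom_ext (fun w => by
        rw [Cf.lift_ι, map_zero]
        rfl)
      map_add' := fun v v' => Cf.hom_ext (fun w => by
        rw [LinearMap.add_apply, Cf.lift_ι, Cf.lift_ι, Cf.lift_ι, map_add]
        rfl) }
    (fun r v => Cf.hom_ext (fun w => by
      rw [LinearMap.smul_apply]
      change Cf.lift (f := g) (β (r • v)) (h2 (r • v)) (Cf.ι g w) =
        f r • Cf.lift (f := g) (β v) (h2 v) (Cf.ι g w)
      rw [Cf.lift_ι, Cf.lift_ι, h1]))

theorem Cf.lift₂_ι (f : R →+* T) (g : S →+* T) (β : V →+ W →+ P)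
    (h1 : ∀ (r : R) (v : V) (w : W), β (r • v) w = f r • β v w)
    (h2 : ∀ (v : V) (s : S) (w : W), β v (s • w) = g s • β v w) (v : V) (w : W) :
    Cf.lift₂ f g β h1 h2 (Cf.ι f v) (Cf.ι g w) = β v w := by
  unfold Cf.lift₂
  rw [Cf.lift_ι]
  exact Cf.lift_ι (f := g) (β v) (h2 v) w

/-- Bilinear maps on extensions of scalars may be compared on `V` and `W`. -/
theorem Cf.hom_ext₂ {f : R →+* T} {g : S →+* T} {φ ψ : Cf f V →ₗ[T] Cf g W →ₗ[T] P}
    (h : ∀ v w, φ (Cf.ι f v) (Cf.ι g w) = ψ (Cf.ι f v) (Cf.ι g w)) : φ = ψ :=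
  Cf.hom_ext (fun v => Cf.hom_ext (fun w => h v w))

end bilin

/-- The `S`-module `W` as an `R`-module. -/
def Rs (_f : R →+* S) (W : Type u) : Type u := W

section Rs

variable (f : R →+* S) (W : Type u) [AddCommGroup W] [Module S W]

/-- The additive group `Rs f W`. -/
@[implicit_reducible]
def Rs.iG : AddCommGroup (Rs f W) := inferInstanceAs (AddCommGroup W)

attribute [local instance] Rs.iG

/-- The module `Rs f W`. -/
@[implicit_reducible]
def Rs.iM : Module R (Rs f W) := Module.compHom W f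

attribute [local instance] Rs.iM

variable {W}

/-- The identity, from `W` to `W` as an `R`-module. -/
def Rs.to : W →+ Rs f W := AddMonoidHom.id W

/-- The identity, from `W` as an `R`-module to `W`. -/
def Rs.of : Rs f W →+ W := AddMonoidHom.id W

theorem Rs.smul_def (r : R) (w : Rs f W) : Rs.of f (r • w) = f r • Rs.of f w := rfl

@[simp] theorem Rs.of_to (w : W) : Rs.of f (Rs.to f w) = w := rfl

@[simp] theorem Rs.to_of (w : Rs f W) : Rs.to f (Rs.of f w) = w := rfl

variable {W' : Type u} [AddCommGroup W'] [Module S W']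

/-- A linear map as an `R`-linear map. -/
def Rs.map (φ : W →ₗ[S] W') : Rs f W →ₗ[R] Rs f W' where
  toFun := φ
  map_add' := φ.map_add
  map_smul' := fun r w => φ.map_smul (f r) w

theorem Rs.map_apply (φ : W →ₗ[S] W') (w : W) : Rs.map f φ w = φ w := rfl

end Rs

attribute [local instance] Rs.iG Rs.iM

end Pool.Agent.MP_6e5bed_ag_NC
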