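import Pool.Agent.Lib.MP_6e5bed_ag_BC.FGS

set_option autoImplicit false

/-!
# Commutative algebra: the tensor square of a normal extension, and points of algebras of finite
type
-/

namespace Pool.Agent.MP_6e5bed_ag_NC

attribute [local instance] Alg.iR Alg.iA Cf.iG Cf.iM Rs.iG Rs.iM

open scoped TensorProduct

universe u

variable {k : Type u} [Field k]

section normal

variable {L : Type u} [Field L] [Algebra k L] [FiniteDimensional k L] [Normal k L]

private theorem normAlg_mem_range {F : Type u} [Field F] [Algebra k F] (j j' : L →ₐ[k] F)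
    (x : L) : j' x ∈ Set.range j := by
  have hs := Normal.splits (inferInstance : Normal k L) x
  have h1 := hs.image_rootSet j
  have hx : x ∈ (minpoly k x).rootSet L := by
    rw [Polynomial.mem_rootSet]
    exact ⟨minpoly.ne_zero (Normal.isIntegral (inferInstance : Normal k L) x), minpoly.aeval k x⟩
  have h2 : j' x ∈ (minpoly k x).rootSet F := by
    rw [Polynomial.mem_rootSet]
    refine ⟨minpoly.ne_zero (Normal.isIntegral (inferInstance : Normal k L) x), ?_⟩
    rw [Polynomial.aeval_algHom_apply, minpoly.aeval, map_zero]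
  rw [← h1] at h2
  obtain ⟨y, -, hy⟩ := h2
  exact ⟨y, hy⟩

/-- The residue fields of `L ⊗ L` are `L`, if `L` is a finite normal extension of `k`. -/
theorem exists_retraction (m : Ideal (L ⊗[k] L)) (hm : m.IsMaximal) :
    ∃ π : L ⊗[k] L →ₐ[k] L, (∀ x : L, π (x ⊗ₜ[k] 1) = x) ∧ RingHom.ker π = m := by
  letI : Field ((L ⊗[k] L) ⧸ m) := Ideal.Quotient.field m
  let q : L ⊗[k] L →ₐ[k] (L ⊗[k] L) ⧸ m := Ideal.Quotient.mkₐ k m
  let j : L →ₐ[k] (L ⊗[k] L) ⧸ m := q.comp Algebra.TensorProduct.includeLeft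
  let j' : L →ₐ[k] (L ⊗[k] L) ⧸ m := q.comp Algebra.TensorProduct.includeRight
  have hj : Function.Injective j := j.toRingHom.injective
  have hmem : ∀ z, q z ∈ j.range := by
    intro z
    induction z using TensorProduct.induction_on with
    | zero =>
      rw [map_zero]
      exact j.range.zero_mem
    | add a b ha hb =>
      rw [map_add]
      exact j.range.add_mem ha hb
    | tmul x y =>
      have h1 : x ⊗ₜ[k] y = (x ⊗ₜ[k] (1 : L)) * ((1 : L) ⊗ₜ[k] y) := by
        rw [Algebra.TensorProduct.tmul_mul_tmul, mul_one, one_mul]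
      rw [h1, map_mul]
      exact j.range.mul_mem ⟨x, rfl⟩ (normAlg_mem_range j j' y)
  have hq : Function.Surjective q := Ideal.Quotient.mkₐ_surjective k m
  have hj' : Function.Surjective j := by
    intro z
    obtain ⟨w, rfl⟩ := hq z
    exact hmem w
  let e : L ≃ₐ[k] (L ⊗[k] L) ⧸ m := AlgEquiv.ofBijective j ⟨hj, hj'⟩
  refine ⟨e.symm.toAlgHom.comp q, fun x => ?_, ?_⟩
  · change e.symm (q (x ⊗ₜ[k] 1)) = x
    rw [AlgEquiv.symm_apply_eq]
    rfl
  · ext z
    rw [RingHom.mem_ker]
    change e.symm (q z) = 0 ↔ _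
    rw [map_eq_zero_iff e.symm e.symm.injective]
    exact Ideal.Quotient.eq_zero_iff_mem

/-- The simple modules over `L ⊗ L`. -/
theorem exists_simple (Q : Type u) [AddCommGroup Q] [Module (L ⊗[k] L) Q]
    [IsSimpleModule (L ⊗[k] L) Q] : ∃ π : L ⊗[k] L →ₐ[k] L, (∀ x : L, π (x ⊗ₜ[k] 1) = x) ∧
      Nonempty (Q ≃ₗ[L ⊗[k] L] Rs π.toRingHom L) := by
  obtain ⟨I, hI, ⟨e⟩⟩ := isSimpleModule_iff_quot_maximal.1
    (inferInstance : IsSimpleModule (L ⊗[k] L) Q)
  obtain ⟨π, h1, h2⟩ := exists_retraction I hI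
  let ψ : L ⊗[k] L →ₗ[L ⊗[k] L] Rs π.toRingHom L :=
    { toFun := fun a => Rs.to π.toRingHom (π a)
      map_add' := fun a b => by rw [map_add, map_add]
      map_smul' := fun a b => by
        rw [smul_eq_mul, map_mul]
        rfl }
  have hψ : Function.Surjective ψ := fun x => ⟨x ⊗ₜ[k] 1, h1 x⟩
  have hker : LinearMap.ker ψ = I := by
    ext z
    rw [LinearMap.mem_ker, ← h2]
    exact Iff.rfl
  exact ⟨π, h1, ⟨e.trans ((Submodule.quotEquivOfEq _ _ hker.symm).trans
    (ψ.quotKerEquivOfSurjective hψ))⟩⟩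

end normal

/-- A finitely generated algebra `S ≠ 0` over the field `k` has a point with values in a finite
normal extension of `k`. -/
theorem exists_point {K : Type u} [Field K] [Algebra k K] (S : FGS k K) :
    ∃ (L : Type u) (_ : Field L) (_ : Algebra k L), FiniteDimensional k L ∧ Normal k L ∧
      Nonempty (S.1 →ₐ[k] L) := by
  have hft : Algebra.FiniteType k S.1 := S.1.fg_iff_finiteType.1 S.2
  obtain ⟨M, hM⟩ := Ideal.exists_maximal S.1
  letI : Field (S.1 ⧸ M) := Ideal.Quotient.field M
  have hft' : Algebra.FiniteType k (S.1 ⧸ M) :=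
    Algebra.FiniteType.of_surjective (Ideal.Quotient.mkₐ k M) (Ideal.Quotient.mkₐ_surjective k M)
  have hfin : Module.Finite k (S.1 ⧸ M) := finite_of_finite_type_of_isJacobsonRing k (S.1 ⧸ M)
  have halg : Algebra.IsAlgebraic k (AlgebraicClosure (S.1 ⧸ M)) :=
    Algebra.IsAlgebraic.trans k (S.1 ⧸ M) _
  haveI : IsAlgClosure k (AlgebraicClosure (S.1 ⧸ M)) := ⟨inferInstance, halg⟩
  haveI : Normal k (AlgebraicClosure (S.1 ⧸ M)) := IsAlgClosure.normal k _
  refine ⟨IntermediateField.normalClosure k (S.1 ⧸ M) (AlgebraicClosure (S.1 ⧸ M)), inferInstance, inferInstance,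
    inferInstance, inferInstance, ⟨?_⟩⟩
  exact (IsScalarTower.toAlgHom k (S.1 ⧸ M)
    (IntermediateField.normalClosure k (S.1 ⧸ M) (AlgebraicClosure (S.1 ⧸ M)))).comp (Ideal.Quotient.mkₐ k M)

/-- A finitely generated subalgebra of the fraction field of a domain becomes defined after
inverting one element. -/
theorem exists_away {R : Type u} [CommRing R] [IsDomain R] (S : FGS R (FractionRing R)) :
    ∃ f : R, f ≠ 0 ∧ ∀ (L : Type u) [Field L] [Algebra R L], algebraMap R L f ≠ 0 →
      Nonempty (S.1 →ₐ[R] L) := by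
  obtain ⟨t, ht⟩ := S.2
  obtain ⟨b, hb⟩ := IsLocalization.exist_integer_multiples_of_finset (nonZeroDivisors R) t
  have hb0 : (b : R) ≠ 0 := nonZeroDivisors.ne_zero b.2
  refine ⟨b, hb0, fun L _ _ hL => ?_⟩
  have hK : algebraMap R (FractionRing R) b ≠ 0 := fun h =>
    hb0 ((IsFractionRing.injective R (FractionRing R)) (by rw [h, map_zero]))
  have hu : ∀ (E : Type u) [Field E] [Algebra R E], algebraMap R E (b : R) ≠ 0 →
      ∀ y : Submonoid.powers (b : R), IsUnit (Algebra.ofId R E (y : R)) := by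
    rintro E _ _ hE ⟨_, n, rfl⟩
    change IsUnit (algebraMap R E ((b : R) ^ n))
    rw [map_pow]
    exact (IsUnit.mk0 _ hE).pow n
  let φ : Localization.Away (b : R) →ₐ[R] FractionRing R :=
    IsLocalization.liftAlgHom (M := Submonoid.powers (b : R)) (f := Algebra.ofId R _)
      (hu (FractionRing R) hK)
  let χ : Localization.Away (b : R) →ₐ[R] L :=
    IsLocalization.liftAlgHom (M := Submonoid.powers (b : R)) (f := Algebra.ofId R _) (hu L hL)
  have hφ : Function.Injective φ := by
    have h1 : Submonoid.powers (b : R) ≤ nonZeroDivisors R :=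
      powers_le_nonZeroDivisors_of_noZeroDivisors hb0
    have h2 := IsLocalization.injective (Localization.Away (b : R)) h1
    have h3 := (IsLocalization.lift_injective_iff (M := Submonoid.powers (b : R))
      (S := Localization.Away (b : R)) (g := algebraMap R (FractionRing R))
      (hg := fun y => hu (FractionRing R) hK y)).2 (fun x y => by
        rw [h2.eq_iff, (IsFractionRing.injective R (FractionRing R)).eq_iff])
    exact h3
  have hle : S.1 ≤ φ.range := by
    rw [← ht, Algebra.adjoin_le_iff]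
    intro x hx
    obtain ⟨r, hr⟩ := hb x hx
    have h1 : algebraMap R (FractionRing R) b *
        φ (IsLocalization.Away.invSelf (S := Localization.Away (b : R)) (b : R)) = 1 := by
      rw [← φ.commutes, ← map_mul, IsLocalization.Away.mul_invSelf, map_one]
    refine ⟨algebraMap R _ r * IsLocalization.Away.invSelf (S := Localization.Away (b : R))
      (b : R), ?_⟩
    change φ _ = x
    rw [map_mul, φ.commutes, hr, Algebra.smul_def, mul_right_comm]
    rw [h1, one_mul]
  exact ⟨χ.comp ((AlgEquiv.ofInjective φ hφ).symm.toAlgHom.comp (Subalgebra.inclusion hle))⟩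

end Pool.Agent.MP_6e5bed_ag_NC
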