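import Pool.Agent.Lib.MP_6e5bed_ag_BC.Transfer
import Pool.Agent.Lib.MP_6e5bed_ag_BC.BcBase
import Pool.Agent.Lib.MP_6e5bed_ag_BC.NormAlg

set_option autoImplicit false

/-!
# The transfer for a finite normal extension
-/

namespace Pool.Agent.MP_6e5bed_ag_NC

attribute [local instance] Alg.iR Alg.iA Cf.iG Cf.iM Rs.iG Rs.iM

open scoped TensorProduct

universe u

variable {k : Type u} [Field k] {L : Type u} [Field L] [Algebra k L] [FiniteDimensional k L]

/-- `Q ⊗_L M` for a module `Q` over `L ⊗ L`. -/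
noncomputable abbrev Phi (Q : Type u) [AddCommGroup Q] [Module (L ⊗[k] L) Q] {A B : DGA k}
    (M : Bim (A.bc L) (B.bc L)) : Bim (A.bc L) (B.bc L) :=
  ((M.cf (iR k L L)).qt Q).rs (iL k L L)

private theorem compSer_finite (Q : Type u) [AddCommGroup Q] [Module (L ⊗[k] L) Q]
    [Module.Finite (L ⊗[k] L) Q] : FiniteDimensional L (Rs (iL k L L).toRingHom Q) := by
  letI : Module (L ⊗[k] L) (Rs (iL k L L).toRingHom Q) := inferInstanceAs (Module (L ⊗[k] L) Q)
  have : Module.Finite (L ⊗[k] L) (Rs (iL k L L).toRingHom Q) :=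
    inferInstanceAs (Module.Finite (L ⊗[k] L) Q)
  have : IsScalarTower L (L ⊗[k] L) (Rs (iL k L L).toRingHom Q) := ⟨fun x y z => by
    rw [Algebra.smul_def, mul_smul]
    rfl⟩
  exact Module.Finite.trans (L ⊗[k] L) (Rs (iL k L L).toRingHom Q)

/-- The functor `M ↦ Q ⊗_L M`. -/
private noncomputable def phiF (Q : Type u) [AddCommGroup Q] [Module (L ⊗[k] L) Q]
    (A B : DGA k) : DGFun (A.bc L) (B.bc L) (A.bc L) (B.bc L) :=
  ((cfF (iR k L L) A B).comp (qtF Q (A.bc (L ⊗[k] L)) (B.bc (L ⊗[k] L)))).comp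
    (rsF (iL k L L) A B)

theorem Perf.phi (Q : Type u) [AddCommGroup Q] [Module (L ⊗[k] L) Q]
    [Module.Finite (L ⊗[k] L) Q] {A B : DGA k} {M : Bim (A.bc L) (B.bc L)} (hM : Perf M) :
    Perf (Phi Q M) := by
  have := compSer_finite (k := k) (L := L) Q
  have h1 : BIso ((phiF Q A B).obj (MP_6e5bed_ag_NC.free (A.bc L) (B.bc L)))
      ((MP_6e5bed_ag_NC.free (A.bc L) (B.bc L)).qt (Rs (iL k L L).toRingHom Q)) :=
    BIso.trans ((rsF (iL k L L) A B).biso ((qtF Q (A.bc (L ⊗[k] L)) (B.bc (L ⊗[k] L))).biso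
      (cf_free (iR k L L) A B)))
      (rs_qt_free (iL k L L) Q)
  exact (phiF Q A B).perf (h1.symm.perf (Perf.qt _ Perf.free)) hM

theorem phi_ext {Q Q' Q'' : Type u} [AddCommGroup Q] [Module (L ⊗[k] L) Q] [AddCommGroup Q']
    [Module (L ⊗[k] L) Q'] [AddCommGroup Q''] [Module (L ⊗[k] L) Q'']
    (f : Q' →ₗ[L ⊗[k] L] Q) (g : Q →ₗ[L ⊗[k] L] Q'') (hf : Function.Injective f)
    (hg : Function.Surjective g) (h : Function.Exact f g) {A B : DGA k}
    {M : Bim (A.bc L) (B.bc L)} (h1 : Perf (Phi Q' M)) (h2 : Perf (Phi Q M))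
    (h3 : Perf (Phi Q'' M)) : cls (Phi Q M) h2 = cls (Phi Q' M) h1 + cls (Phi Q'' M) h3 := by
  have : Module.Flat (L ⊗[k] L) (M.cf (iR k L L)).M :=
    inferInstanceAs (Module.Flat (Alg (iR k L L).toRingHom)
      (Alg (iR k L L).toRingHom ⊗[L] M.M))
  obtain ⟨e1, e2, e3⟩ := Bim.qt_exact (M.cf (iR k L L)) f g hf hg h
  exact K0Q.cls_exact (i := (GMap.qm (M.cf (iR k L L)) f).rs (iL k L L))
    (p := (GMap.qm (M.cf (iR k L L)) g).rs (iL k L L))
    ((rsF (iL k L L) A B).closed (GMap.qm_dd f)) ((rsF (iL k L L) A B).closed (GMap.qm_dd g))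
    e1 e2 e3 h1 h2 h3

theorem phi_simple {Q : Type u} [AddCommGroup Q] [Module (L ⊗[k] L) Q] (π : L ⊗[k] L →ₐ[k] L)
    (hπ : ∀ x : L, π (x ⊗ₜ[k] 1) = x) (e : Q ≃ₗ[L ⊗[k] L] Rs π.toRingHom L) {A B : DGA k}
    {M : Bim (A.bc L) (B.bc L)} : BIso (Phi Q M) (M.cf (π.comp (iR k L L))) := by
  have h1 : BIso ((M.cf (iR k L L)).qt Q) (((M.cf (iR k L L)).cf π).rs π) :=
    (Bim.qt_congr e (M.cf (iR k L L))).trans (rs_cf π (M.cf (iR k L L))).symm
  have h2 : BIso (Phi Q M) ((((M.cf (iR k L L)).cf π).rs π).rs (iL k L L)) :=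
    (rsF (iL k L L) A B).biso h1
  exact ((h2.trans (rs_rs (iL k L L) π (AlgHom.id k L) hπ _)).trans
    (rs_id (AlgHom.id k L) (fun _ => rfl) _)).trans
    (cf_cf (iR k L L) π (π.comp (iR k L L)) (fun _ => rfl) M)

theorem phi_self {A B : DGA k} (M : Bim (A.bc L) (B.bc L)) : BIso (Phi (L ⊗[k] L) M)
    ((M.rs (Algebra.ofId k L)).cf (Algebra.ofId k L)) :=
  ((rsF (iL k L L) A B).biso (Bim.qt_self (M.cf (iR k L L)))).trans (cf_rs M).symm

private theorem phi_contr (Q : Type u) [AddCommGroup Q] [Module (L ⊗[k] L) Q] [Subsingleton Q]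
    {A B : DGA k} (M : Bim (A.bc L) (B.bc L)) : Contr (Phi Q M) := by
  have h : ∀ x : ((M.cf (iR k L L)).qt Q).M, x = 0 := by
    intro x
    refine Bim.tq_ind (P := fun x => x = 0) rfl ?_ ?_ x
    · rintro x y rfl rfl
      exact add_zero 0
    · intro q m
      have hq : q = (0 : L ⊗[k] L) • q := Subsingleton.elim _ _
      rw [hq, Bim.smul_tq, zero_smul]
  refine ⟨0, LinearMap.ext (fun x => ?_)⟩
  exact (h _).trans (h _).symm

variable [Normal k L]

/-- The composition factors. -/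
theorem exists_list (Q : Type u) [AddCommGroup Q] [Module (L ⊗[k] L) Q]
    [Module.Finite (L ⊗[k] L) Q] : ∃ s : List (L →ₐ[k] L), (Nontrivial Q → s ≠ []) ∧
      ∀ (A B : DGA k) (M : Bim (A.bc L) (B.bc L)) (hM : Perf M) (h : Perf (Phi Q M)),
        cls (Phi Q M) h = (s.map (fun γ => K0Q.cf γ (cls M hM))).sum := by
  have : IsArtinianRing (L ⊗[k] L) := IsArtinianRing.of_finite k (L ⊗[k] L)
  have hQ : IsFiniteLength (L ⊗[k] L) Q :=
    isFiniteLength_iff_isNoetherian_isArtinian.2 ⟨inferInstance, inferInstance⟩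
  induction hQ with
  | of_subsingleton =>
    refine ⟨[], fun h => absurd h (not_nontrivial _), fun A B M hM h => ?_⟩
    rw [K0Q.cls_contr h (phi_contr _ M)]
    rfl
  | @of_simple_quotient Q _ _ N _ hN ih =>
    obtain ⟨s, -, hs⟩ := ih
    have hQ : IsFiniteLength (L ⊗[k] L) Q := IsFiniteLength.of_simple_quotient hN
    have := (isFiniteLength_iff_isNoetherian_isArtinian.1 hQ).1
    have := (isFiniteLength_iff_isNoetherian_isArtinian.1 hN).1
    obtain ⟨π, hπ, ⟨e⟩⟩ := exists_simple (k := k) (L := L) (Q ⧸ N)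
    refine ⟨π.comp (iR k L L) :: s, fun _ => List.cons_ne_nil _ _, fun A B M hM h => ?_⟩
    have h1 : Perf (Phi N M) := hM.phi N
    have h3 : Perf (Phi (Q ⧸ N) M) := hM.phi (Q ⧸ N)
    rw [phi_ext N.subtype N.mkQ N.injective_subtype N.mkQ_surjective
      (LinearMap.exact_subtype_mkQ N) h1 h h3, hs A B M hM h1, List.map_cons, List.sum_cons,
      add_comm, K0Q.cf_cls]
    congr 1
    exact K0Q.cls_iso (phi_simple π hπ e) _ _

/-- The extension of scalars of the transfer. -/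
theorem K0Q.cf_tr (k L : Type u) [Field k] [Field L] [Algebra k L] [FiniteDimensional k L]
    [Normal k L] : ∃ s : List (L →ₐ[k] L), s ≠ [] ∧
      ∀ (A B : DGA k) (x : K0Q (A.bc L) (B.bc L)), K0Q.cf (Algebra.ofId k L) (K0Q.tr x) =
        (s.map (fun γ => K0Q.cf γ x)).sum := by
  obtain ⟨s, hs, hs'⟩ := exists_list (k := k) (L := L) (L ⊗[k] L)
  have hn : Nontrivial (L ⊗[k] L) :=
    (Algebra.TensorProduct.lmul' k : L ⊗[k] L →ₐ[k] L).toRingHom.domain_nontrivial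
  refine ⟨s, hs hn, fun A B x => ?_⟩
  obtain ⟨g, hg⟩ : ∃ g : K0Q (A.bc L) (B.bc L) →ₗ[ℚ] K0Q (A.bc L) (B.bc L),
      ∀ x, g x = (s.map (fun γ => K0Q.cf γ x)).sum := by
    clear hs hs'
    induction s with
    | nil => exact ⟨0, fun x => rfl⟩
    | cons γ s ih =>
      obtain ⟨g, hg⟩ := ih
      exact ⟨K0Q.cf γ + g, fun x => by
        rw [LinearMap.add_apply, hg, List.map_cons, List.sum_cons]⟩
  rw [← hg]
  have h : (K0Q.cf (Algebra.ofId k L)).comp K0Q.tr = g := K0Q.hom_ext (fun M hM => by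
    rw [LinearMap.comp_apply, K0Q.tr_cls, K0Q.cf_cls, hg,
      ← hs' A B M hM (hM.phi (L ⊗[k] L))]
    exact (K0Q.cls_iso (phi_self M) _ _).symm)
  exact LinearMap.congr_fun h x

end Pool.Agent.MP_6e5bed_ag_NC
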