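import Pool.Agent.Lib.MP_6e5bed_ag_BC.Cf
import Pool.Agent.Lib.MP_6e5bed_ag_NC.GMap

set_option autoImplicit false

/-!
# Extension and restriction of scalars for complexes
-/

namespace Pool.Agent.MP_6e5bed_ag_NC

attribute [local instance] Alg.iR Alg.iA Cf.iG Cf.iM Rs.iG Rs.iM

universe u

variable {R S T : Type u} [CommRing R] [CommRing S] [CommRing T]

section ext

variable {V W : Type u} [AddCommGroup V] [Module R V] [AddCommGroup W] [Module R W]

/-- The extension of scalars of a family of components. -/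
noncomputable def cfρ (f : R →+* S) (X : Dg R V) : Cf f V →ₗ[S] (ℤ →₀ Cf f V) :=
  Cf.lift ((Finsupp.mapRange.addMonoidHom (Cf.ι f)).comp X.ρ.toAddMonoidHom) (fun r v => by
    ext n
    change Cf.ι f (X.ρ (r • v) n) = f r • Cf.ι f (X.ρ v n)
    rw [map_smul, Finsupp.smul_apply, Cf.ι_smul])

theorem cfρ_ι (f : R →+* S) (X : Dg R V) (v : V) (n : ℤ) :
    cfρ f X (Cf.ι f v) n = Cf.ι f (X.ρ v n) := by
  rw [cfρ, Cf.lift_ι]
  rfl

/-- The extension of scalars of a complex. -/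
noncomputable def Dg.cf (f : R →+* S) (X : Dg R V) : Dg S (Cf f V) where
  ρ := cfρ f X
  sum_ρ := fun v => by
    have h1 : ∀ x : ℤ →₀ Cf f V, x.sum (fun _ w => w) =
        Finsupp.lsum S (fun _ : ℤ => (LinearMap.id : Cf f V →ₗ[S] Cf f V)) x := fun x => rfl
    have h2 : (Finsupp.lsum S (fun _ : ℤ => (LinearMap.id : Cf f V →ₗ[S] Cf f V))).comp
        (cfρ f X) = LinearMap.id := Cf.hom_ext (fun v => by
      rw [LinearMap.comp_apply, ← h1, LinearMap.id_apply, cfρ, Cf.lift_ι]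
      change (Finsupp.mapRange (Cf.ι f) (map_zero _) (X.ρ v)).sum (fun _ w => w) = _
      rw [Finsupp.sum_mapRange_index (fun _ => rfl)]
      conv_rhs => rw [← X.sum_ρ v, map_finsuppSum])
    rw [h1]
    exact LinearMap.congr_fun h2 v
  ρ_ρ := fun v n => by
    have h1 : (cfρ f X).comp ((Finsupp.lapply n).comp (cfρ f X)) =
        (Finsupp.lsingle n).comp ((Finsupp.lapply n).comp (cfρ f X)) := Cf.hom_ext (fun v => by
      simp only [LinearMap.comp_apply, Finsupp.lapply_apply, Finsupp.lsingle_apply]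
      rw [cfρ_ι]
      ext m
      rw [cfρ_ι, X.ρ_ρ, Finsupp.single_apply, Finsupp.single_apply]
      split_ifs
      · rfl
      · exact map_zero _)
    exact LinearMap.congr_fun h1 v
  d := Cf.map f X.d
  d_d := fun v => by
    have h1 : (Cf.map f X.d).comp (Cf.map f X.d) = 0 := Cf.hom_ext (fun v => by
      rw [LinearMap.comp_apply, Cf.map_ι, Cf.map_ι, X.d_d, map_zero]
      rfl)
    exact LinearMap.congr_fun h1 v
  ρ_d := fun v n => by
    have h1 : (Finsupp.lapply (n + 1)).comp ((cfρ f X).comp (Cf.map f X.d)) =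
        (Cf.map f X.d).comp ((Finsupp.lapply n).comp (cfρ f X)) := Cf.hom_ext (fun v => by
      simp only [LinearMap.comp_apply, Finsupp.lapply_apply]
      rw [Cf.map_ι, cfρ_ι, cfρ_ι, Cf.map_ι, X.ρ_d])
    exact LinearMap.congr_fun h1 v

variable {f : R →+* S} {X : Dg R V} {Y : Dg R W}

theorem Dg.cf_ρ (v : V) (n : ℤ) : (X.cf f).ρ (Cf.ι f v) n = Cf.ι f (X.ρ v n) := cfρ_ι f X v n

theorem Dg.cf_d (v : V) : (X.cf f).d (Cf.ι f v) = Cf.ι f (X.d v) := Cf.map_ι f X.d v

theorem Dg.cf_deg {n : ℤ} {v : V} (h : X.IsDeg n v) : (X.cf f).IsDeg n (Cf.ι f v) := by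
  unfold Dg.IsDeg at *
  ext m
  rw [Dg.cf_ρ, h, Finsupp.single_apply, Finsupp.single_apply]
  split_ifs
  · rfl
  · exact map_zero _

theorem Dg.cf_o (v : V) : (X.cf f).o (Cf.ι f v) = Cf.ι f (X.o v) := by
  refine X.ind (P := fun v => (X.cf f).o (Cf.ι f v) = Cf.ι f (X.o v)) ?_ ?_ ?_ v
  · simp only [map_zero]
  · intro v w hv hw
    simp only [map_add, hv, hw]
  · intro n v hv
    rw [Dg.o_of_deg hv, Dg.o_of_deg (Dg.cf_deg hv)]
    split_ifs
    · rfl
    · exact (map_zero _).symm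

theorem Dg.cf_s (v : V) : (X.cf f).s (Cf.ι f v) = Cf.ι f (X.s v) := by
  rw [Dg.s_apply, Dg.s_apply, Dg.cf_o, map_sub, two_smul, two_smul, map_add]

theorem Dg.cf_sp (n : ℤ) (v : V) : (X.cf f).sp n (Cf.ι f v) = Cf.ι f (X.sp n v) := by
  rcases Int.even_or_odd n with h | h
  · rw [Dg.sp_even h, Dg.sp_even h]
  · rw [Dg.sp_odd h, Dg.sp_odd h, Dg.cf_s]

/-- A linear map on an extension of scalars is homogeneous if it is so on `V`. -/
theorem Dg.cf_degMap {P : Type u} [AddCommGroup P] [Module S P] {Z : Dg S P} {n : ℤ}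
    (φ : Cf f V →ₗ[S] P) (h : ∀ {j : ℤ} {v : V}, X.IsDeg j v → Z.IsDeg (j + n) (φ (Cf.ι f v)))
    {j : ℤ} {x : Cf f V} (hx : (X.cf f).IsDeg j x) : Z.IsDeg (j + n) (φ x) := by
  refine (Dg.degMap_iff (X := X.cf f) (Y := Z) φ).2 (fun x j => ?_) j x hx
  have h1 : (Finsupp.lapply (j + n)).comp (Z.ρ.comp φ) =
      φ.comp ((Finsupp.lapply j).comp (X.cf f).ρ) := Cf.hom_ext (fun v => by
    simp only [LinearMap.comp_apply, Finsupp.lapply_apply]
    rw [Dg.cf_ρ]
    refine X.ind (P := fun v => Z.ρ (φ (Cf.ι f v)) (j + n) = φ (Cf.ι f (X.ρ v j))) ?_ ?_ ?_ v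
    · simp only [map_zero, Finsupp.coe_zero, Pi.zero_apply]
    · intro v w hv hw
      simp only [map_add, Finsupp.add_apply, hv, hw]
    · intro i v hv
      have h2 : Z.ρ (φ (Cf.ι f v)) = Finsupp.single (i + n) (φ (Cf.ι f v)) := h hv
      have h3 : X.ρ v = Finsupp.single i v := hv
      rw [h2, h3, Finsupp.single_apply, Finsupp.single_apply]
      by_cases hij : i = j
      · rw [if_pos hij, if_pos (by rw [hij])]
      · rw [if_neg hij, if_neg (fun h => hij (by omega)), map_zero, map_zero])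
  exact LinearMap.congr_fun h1 x

/-- A bilinear map on extensions of scalars is homogeneous if it is so on `V` and `W`. -/
theorem Dg.cf_degBilin {V' W' P : Type u} [AddCommGroup V'] [Module R V'] [AddCommGroup W']
    [Module S W'] [AddCommGroup P] [Module T P] {f : R →+* T} {g : S →+* T} {X : Dg R V'}
    {Y : Dg S W'} {Z : Dg T P} (β : Cf f V' →ₗ[T] Cf g W' →ₗ[T] P)
    (h : ∀ {i j : ℤ} {v : V'} {w : W'}, X.IsDeg i v → Y.IsDeg j w →
      Z.IsDeg (i + j) (β (Cf.ι f v) (Cf.ι g w)))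
    {i j : ℤ} {x : Cf f V'} {y : Cf g W'} (hx : (X.cf f).IsDeg i x) (hy : (Y.cf g).IsDeg j y) :
    Z.IsDeg (i + j) (β x y) := by
  have h1 := Dg.cf_degMap (X := X) (Z := Z) (n := j) (β.flip y) (fun {i' v} hv => by
    rw [LinearMap.flip_apply, add_comm]
    exact Dg.cf_degMap (X := Y) (Z := Z) (n := i') (β (Cf.ι f v)) (fun {j' w} hw => by
      rw [add_comm]
      exact h hv hw) hy) hx
  exact h1

end ext

section restr

variable {V : Type u} [AddCommGroup V] [Module S V]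

/-- The restriction of scalars of a complex. -/
noncomputable def Dg.rs (f : R →+* S) (X : Dg S V) : Dg R (Rs f V) where
  ρ :=
    { toFun := fun v => (X.ρ v : ℤ →₀ V)
      map_add' := X.ρ.map_add
      map_smul' := fun r v => X.ρ.map_smul (f r) v }
  sum_ρ := X.sum_ρ
  ρ_ρ := X.ρ_ρ
  d := Rs.map f X.d
  d_d := X.d_d
  ρ_d := X.ρ_d

variable {f : R →+* S} {X : Dg S V}

theorem Dg.rs_deg {n : ℤ} {v : V} : (X.rs f).IsDeg n (Rs.to f v) ↔ X.IsDeg n v := Iff.rfl

theorem Dg.rs_d (v : V) : (X.rs f).d (Rs.to f v) = Rs.to f (X.d v) := rfl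

theorem Dg.rs_o (v : V) : (X.rs f).o (Rs.to f v) = Rs.to f (X.o v) := by
  refine X.ind (P := fun v => (X.rs f).o (Rs.to f v) = Rs.to f (X.o v)) ?_ ?_ ?_ v
  · simp only [map_zero]
  · intro v w hv hw
    simp only [map_add, hv, hw]
  · intro n v hv
    rw [Dg.o_of_deg hv, Dg.o_of_deg (Dg.rs_deg.2 hv)]
    split_ifs
    · rfl
    · exact (map_zero _).symm

theorem Dg.rs_s (v : V) : (X.rs f).s (Rs.to f v) = Rs.to f (X.s v) := by
  rw [Dg.s_apply, Dg.s_apply, Dg.rs_o, map_sub, two_smul, two_smul, map_add]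

theorem Dg.rs_sp (n : ℤ) (v : V) : (X.rs f).sp n (Rs.to f v) = Rs.to f (X.sp n v) := by
  rcases Int.even_or_odd n with h | h
  · rw [Dg.sp_even h, Dg.sp_even h]
  · rw [Dg.sp_odd h, Dg.sp_odd h, Dg.rs_s]

end restr

end Pool.Agent.MP_6e5bed_ag_NC
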