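import Pool.Agent.Lib.MP_6e5bed_ag_BC.Cf

set_option autoImplicit false

/-!
# Finitely generated subalgebras
-/

namespace Pool.Agent.MP_6e5bed_ag_NC

attribute [local instance] Alg.iR Alg.iA Cf.iG Cf.iM Rs.iG Rs.iM

universe u

/-- The finitely generated `k`-subalgebras of `K`. -/
abbrev FGS (k K : Type u) [CommRing k] [CommRing K] [Algebra k K] := {S : Subalgebra k K // S.FG}

variable {k K : Type u} [CommRing k] [CommRing K] [Algebra k K]

instance : IsDirected (FGS k K) (· ≤ ·) :=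
  ⟨fun S T => ⟨⟨S.1 ⊔ T.1, S.2.sup T.2⟩, (le_sup_left : S.1 ≤ S.1 ⊔ T.1),
    (le_sup_right : T.1 ≤ S.1 ⊔ T.1)⟩⟩

instance : Nonempty (FGS k K) := ⟨⟨⊥, Subalgebra.fg_bot⟩⟩

theorem FGS.exists_mem (S : FGS k K) (x : K) : ∃ T : FGS k K, S ≤ T ∧ x ∈ T.1 := by
  classical
  refine ⟨⟨S.1 ⊔ Algebra.adjoin k {x}, S.2.sup ⟨{x}, by rw [Finset.coe_singleton]⟩⟩,
    (le_sup_left : S.1 ≤ S.1 ⊔ Algebra.adjoin k {x}), ?_⟩
  exact (le_sup_right : Algebra.adjoin k {x} ≤ S.1 ⊔ Algebra.adjoin k {x})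
    (Algebra.subset_adjoin (Set.mem_singleton x))

/-- The inclusion of a finitely generated subalgebra in a larger one. -/
def FGS.inc {S T : FGS k K} (h : S ≤ T) : S.1 →ₐ[k] T.1 := Subalgebra.inclusion h

/-- The inclusion of a finitely generated subalgebra in `K`. -/
def FGS.val (S : FGS k K) : S.1 →ₐ[k] K := S.1.val

theorem FGS.val_inc {S T : FGS k K} (h : S ≤ T) (s : S.1) : T.val (FGS.inc h s) = S.val s := rfl

theorem FGS.inc_inc {S T U : FGS k K} (h : S ≤ T) (h' : T ≤ U) (s : S.1) :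
    FGS.inc h' (FGS.inc h s) = FGS.inc (h.trans h') s := rfl

section push

variable {R S T : Type u} [CommRing R] [CommRing S] [CommRing T] {V : Type u} [AddCommGroup V]
  [Module R V]

/-- The map `S ⊗_R V → T ⊗_R V`. -/
noncomputable def Cf.push (f : R →+* S) (g : S →+* T) (h : R →+* T) (e : ∀ r, g (f r) = h r) :
    Cf f V →+ Cf h V :=
  (Rs.of g).comp (Cf.lift (f := f) (P := Rs g (Cf h V)) ((Rs.to g).comp (Cf.ι h)) (fun r v => by
    change Rs.to g (Cf.ι h (r • v)) = f r • Rs.to g (Cf.ι h v)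
    rw [Cf.ι_smul, ← e]
    rfl)).toAddMonoidHom

theorem Cf.push_ι (f : R →+* S) (g : S →+* T) (h : R →+* T) (e : ∀ r, g (f r) = h r) (s : S)
    (v : V) : Cf.push f g h e (s • Cf.ι f v) = g s • Cf.ι h v := by
  unfold Cf.push
  change Rs.of g (Cf.lift (f := f) (P := Rs g (Cf h V)) _ _ (s • Cf.ι f v)) = _
  rw [map_smul, Cf.lift_ι]
  rfl

private theorem FGS.push_push {Q : Type u} [CommRing Q] (f : R →+* S) (g : S →+* T) (h : R →+* T)
    (e : ∀ r, g (f r) = h r) (g' : T →+* Q) (h' : R →+* Q) (e' : ∀ r, g' (h r) = h' r)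
    (g'' : S →+* Q) (e'' : ∀ r, g'' (f r) = h' r) (he : ∀ s, g' (g s) = g'' s) (x : Cf f V) :
    Cf.push h g' h' e' (Cf.push f g h e x) = Cf.push f g'' h' e'' x := by
  refine Cf.ind (P := fun x => Cf.push h g' h' e' (Cf.push f g h e x) =
    Cf.push f g'' h' e'' x) ?_ ?_ ?_ x
  · rw [map_zero, map_zero, map_zero]
  · intro x y hx hy
    rw [map_add, map_add, map_add, hx, hy]
  · intro s v
    rw [Cf.push_ι, Cf.push_ι, Cf.push_ι, he]

end push

private theorem FGS.push_inc {S T U : FGS k K} (h : S ≤ T) (h' : T ≤ U) {V : Type u}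
    [AddCommGroup V] [Module S.1 V] (y : Cf (FGS.inc h).toRingHom V) :
    Cf.push (FGS.inc (h.trans h')).toRingHom U.val.toRingHom S.val.toRingHom
      (FGS.val_inc (h.trans h'))
      (Cf.push (FGS.inc h).toRingHom (FGS.inc h').toRingHom (FGS.inc (h.trans h')).toRingHom
        (FGS.inc_inc h h') y) =
    Cf.push (FGS.inc h).toRingHom T.val.toRingHom S.val.toRingHom (FGS.val_inc h) y :=
  FGS.push_push (FGS.inc h).toRingHom (FGS.inc h').toRingHom (FGS.inc (h.trans h')).toRingHom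
    (FGS.inc_inc h h') U.val.toRingHom S.val.toRingHom (FGS.val_inc (h.trans h'))
    T.val.toRingHom (FGS.val_inc h) (FGS.val_inc h') y

/-- Every element of `K ⊗_S V` comes from `T ⊗_S V` for a finitely generated `T`. -/
theorem FGS.exists_push {S : FGS k K} {V : Type u} [AddCommGroup V] [Module S.1 V]
    (x : Cf S.val.toRingHom V) : ∃ (T : FGS k K) (h : S ≤ T) (y : Cf (FGS.inc h).toRingHom V),
      Cf.push (FGS.inc h).toRingHom T.val.toRingHom S.val.toRingHom (FGS.val_inc h) y = x := by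
  refine Cf.ind (P := fun x => ∃ (T : FGS k K) (h : S ≤ T) (y : Cf (FGS.inc h).toRingHom V),
      Cf.push (FGS.inc h).toRingHom T.val.toRingHom S.val.toRingHom (FGS.val_inc h) y = x)
      ?_ ?_ ?_ x
  · exact ⟨S, le_rfl, 0, map_zero _⟩
  · rintro x x' ⟨T, h, y, hy⟩ ⟨T', h', y', hy'⟩
    obtain ⟨U, hU, hU'⟩ := exists_ge_ge T T'
    refine ⟨U, h.trans hU, Cf.push (FGS.inc h).toRingHom (FGS.inc hU).toRingHom
      (FGS.inc (h.trans hU)).toRingHom (FGS.inc_inc h hU) y +
      Cf.push (FGS.inc h').toRingHom (FGS.inc hU').toRingHom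
      (FGS.inc (h'.trans hU')).toRingHom (FGS.inc_inc h' hU') y', ?_⟩
    rw [map_add, FGS.push_inc h hU, hy]
    congr 1
    exact (FGS.push_inc h' hU' y').trans hy'
  · intro s v
    obtain ⟨T, h, hs⟩ := FGS.exists_mem S s
    exact ⟨T, h, (⟨s, hs⟩ : T.1) • Cf.ι (FGS.inc h).toRingHom v,
      Cf.push_ι (FGS.inc h).toRingHom T.val.toRingHom S.val.toRingHom (FGS.val_inc h) _ v⟩

section aux

open TensorProduct

variable {S : FGS k K}

/-- `T` as a subalgebra over `S`. -/
private def FGS.sub (T : FGS k K) (h : S ≤ T) : Subalgebra S.1 (Alg S.val.toRingHom) where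
  carrier := {x | (show K from x) ∈ T.1}
  mul_mem' := fun ha hb => T.1.mul_mem ha hb
  add_mem' := fun ha hb => T.1.add_mem ha hb
  algebraMap_mem' := fun r => h r.2

private def FGS.eqv {T : FGS k K} (h : S ≤ T) :
    Alg (FGS.inc h).toRingHom ≃ₗ[S.1] FGS.sub T h where
  toFun x := ⟨(show T.1 from x).1, (show T.1 from x).2⟩
  invFun y := (⟨y.1, y.2⟩ : T.1)
  map_add' _ _ := rfl
  map_smul' _ _ := rfl
  left_inv _ := rfl
  right_inv _ := rfl

/-- the identification of `T ⊗_S V` with the tensor product of the subalgebra -/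
private noncomputable def FGS.tens {T : FGS k K} (h : S ≤ T) (V : Type u) [AddCommGroup V]
    [Module S.1 V] : Cf (FGS.inc h).toRingHom V →+ (FGS.sub T h ⊗[S.1] V) :=
  ((FGS.eqv h).toLinearMap.rTensor V).toAddMonoidHom

private theorem FGS.tens_ι {T : FGS k K} (h : S ≤ T) {V : Type u} [AddCommGroup V]
    [Module S.1 V] (t : T.1) (v : V) :
    FGS.tens h V (t • Cf.ι (FGS.inc h).toRingHom v) = (FGS.eqv h t) ⊗ₜ[S.1] v := by
  change (FGS.eqv h).toLinearMap.rTensor V
    ((show Alg (FGS.inc h).toRingHom from t) • ((1 : Alg (FGS.inc h).toRingHom) ⊗ₜ[S.1] v)) = _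
  rw [TensorProduct.smul_tmul', smul_eq_mul, mul_one, LinearMap.rTensor_tmul]
  rfl

private theorem FGS.tens_injective {T : FGS k K} (h : S ≤ T) {V : Type u} [AddCommGroup V]
    [Module S.1 V] : Function.Injective (FGS.tens h V) :=
  (LinearEquiv.rTensor V (FGS.eqv h)).injective

/-- the identification for `K` -/
private noncomputable def FGS.tensK (S : FGS k K) (V : Type u) [AddCommGroup V]
    [Module S.1 V] : Cf S.val.toRingHom V →+ (Alg S.val.toRingHom ⊗[S.1] V) :=
  AddMonoidHom.id _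

private theorem FGS.tensK_ι {V : Type u} [AddCommGroup V]
    [Module S.1 V] (t : K) (v : V) :
    FGS.tensK S V (t • Cf.ι S.val.toRingHom v) =
      (show Alg S.val.toRingHom from t) ⊗ₜ[S.1] v := by
  change (show Alg S.val.toRingHom from t) • ((1 : Alg S.val.toRingHom) ⊗ₜ[S.1] v) = _
  rw [TensorProduct.smul_tmul', smul_eq_mul, mul_one]

private theorem FGS.tens_K {T : FGS k K} (h : S ≤ T) {V : Type u} [AddCommGroup V]
    [Module S.1 V] (y : Cf (FGS.inc h).toRingHom V) :
    (FGS.sub T h).val.toLinearMap.rTensor V (FGS.tens h V y) =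
      FGS.tensK S V (Cf.push (FGS.inc h).toRingHom T.val.toRingHom S.val.toRingHom
        (FGS.val_inc h) y) := by
  refine Cf.ind (P := fun y => (FGS.sub T h).val.toLinearMap.rTensor V (FGS.tens h V y) =
      FGS.tensK S V (Cf.push (FGS.inc h).toRingHom T.val.toRingHom S.val.toRingHom
        (FGS.val_inc h) y)) ?_ ?_ ?_ y
  · simp only [map_zero]
  · intro x y hx hy
    simp only [map_add, hx, hy]
  · intro t v
    rw [FGS.tens_ι, Cf.push_ι, FGS.tensK_ι, LinearMap.rTensor_tmul]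
    rfl

private theorem FGS.sub_mono {T U : FGS k K} (h : S ≤ T) (h' : T ≤ U) :
    FGS.sub T h ≤ FGS.sub U (h.trans h') := fun _ hx => h' hx

private theorem FGS.tens_push {T U : FGS k K} (h : S ≤ T) (h' : T ≤ U) {V : Type u}
    [AddCommGroup V] [Module S.1 V] (y : Cf (FGS.inc h).toRingHom V) :
    (Subalgebra.inclusion (FGS.sub_mono h h')).toLinearMap.rTensor V (FGS.tens h V y) =
      FGS.tens (h.trans h') V (Cf.push (FGS.inc h).toRingHom (FGS.inc h').toRingHom
        (FGS.inc (h.trans h')).toRingHom (FGS.inc_inc h h') y) := by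
  refine Cf.ind (P := fun y =>
    (Subalgebra.inclusion (FGS.sub_mono h h')).toLinearMap.rTensor V (FGS.tens h V y) =
      FGS.tens (h.trans h') V (Cf.push (FGS.inc h).toRingHom (FGS.inc h').toRingHom
        (FGS.inc (h.trans h')).toRingHom (FGS.inc_inc h h') y)) ?_ ?_ ?_ y
  · simp only [map_zero]
  · intro x y hx hy
    simp only [map_add, hx, hy]
  · intro t v
    rw [FGS.tens_ι, Cf.push_ι, FGS.tens_ι, LinearMap.rTensor_tmul]
    rfl

private def FGS.res (A : Subalgebra S.1 (Alg S.val.toRingHom)) : Subalgebra k K where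
  carrier := {y | (show Alg S.val.toRingHom from y) ∈ A}
  mul_mem' := fun ha hb => A.mul_mem ha hb
  add_mem' := fun ha hb => A.add_mem ha hb
  algebraMap_mem' := fun r => A.algebraMap_mem (algebraMap k S.1 r)

private theorem FGS.sub_fg {T : FGS k K} (h : S ≤ T) : (FGS.sub T h).FG := by
  obtain ⟨s, hs⟩ := T.2
  refine ⟨s, le_antisymm ?_ ?_⟩
  · refine Algebra.adjoin_le ?_
    intro x hx
    change x ∈ T.1
    rw [← hs]
    exact Algebra.subset_adjoin hx
  · intro x hx
    have hx' : (show K from x) ∈ Algebra.adjoin k (s : Set K) := by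
      rw [hs]
      exact hx
    clear hx
    revert hx'
    suffices H : Algebra.adjoin k (s : Set K) ≤ FGS.res (Algebra.adjoin S.1
        (show Set (Alg S.val.toRingHom) from (s : Set K))) from fun hx => H hx
    refine Algebra.adjoin_le ?_
    intro y hy
    exact Algebra.subset_adjoin hy

end aux

/-- An element of `T ⊗_S V` which vanishes in `K ⊗_S V` vanishes in `U ⊗_S V` for a finitely
generated `U`. -/
theorem FGS.exists_push_zero {S T : FGS k K} (h : S ≤ T) {V : Type u} [AddCommGroup V]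
    [Module S.1 V] (y : Cf (FGS.inc h).toRingHom V)
    (hy : Cf.push (FGS.inc h).toRingHom T.val.toRingHom S.val.toRingHom (FGS.val_inc h) y = 0) :
    ∃ (U : FGS k K) (h' : T ≤ U), Cf.push (FGS.inc h).toRingHom (FGS.inc h').toRingHom
      (FGS.inc (h.trans h')).toRingHom (FGS.inc_inc h h') y = 0 := by
  classical
  have h0 : (FGS.sub T h).val.toLinearMap.rTensor V (FGS.tens h V y) =
      (FGS.sub T h).val.toLinearMap.rTensor V 0 := by
    rw [FGS.tens_K, hy, map_zero, map_zero]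
  obtain ⟨B, hB, ⟨b, hb⟩, hB0⟩ := TensorProduct.Algebra.eq_of_fg_of_subtype_eq (FGS.sub_fg h) h0
  have hTU : T ≤ (⟨T.1 ⊔ Algebra.adjoin k (show Set K from (b : Set (Alg S.val.toRingHom))),
      T.2.sup (Subalgebra.fg_adjoin_finset (show Finset K from b))⟩ : FGS k K) :=
    (le_sup_left : T.1 ≤ T.1 ⊔ _)
  refine ⟨_, hTU, ?_⟩
  apply FGS.tens_injective (h.trans hTU)
  rw [map_zero, ← FGS.tens_push]
  have hBU : B ≤ FGS.sub _ (h.trans hTU) := by
    rw [← hb]
    refine Algebra.adjoin_le ?_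
    intro x hx
    exact (le_sup_right : Algebra.adjoin k (show Set K from (b : Set (Alg S.val.toRingHom))) ≤
      T.1 ⊔ _) (Algebra.subset_adjoin hx)
  have hcomp : (Subalgebra.inclusion (FGS.sub_mono h hTU)).toLinearMap =
      (Subalgebra.inclusion hBU).toLinearMap ∘ₗ (Subalgebra.inclusion hB).toLinearMap := rfl
  rw [hcomp, LinearMap.rTensor_comp, LinearMap.comp_apply, hB0, map_zero, map_zero]

end Pool.Agent.MP_6e5bed_ag_NC
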