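import Pool.Agent.Lib.MP_6e5bed_ag_BC.He

set_option autoImplicit false

/-!
# Homotopy invariance of cones
-/

namespace Pool.Agent.MP_6e5bed_ag_NC

universe u

variable {k : Type u} [CommRing k] {A B : DGA k}

/-- A closed map with a left and a right homotopy inverse is a homotopy equivalence. -/
private theorem htpyEq_of_sides {C C' : Bim A B} {γ : GMap 0 C C'} {a b : GMap 0 C' C}
    (hγ : γ.dd = 0) (ha : a.dd = 0) (hb : b.dd = 0) (u : GMap (-1) C C) (w : GMap (-1) C' C')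
    (hu : ∀ x, u.dd x = x - a.f (γ.f x)) (hw : ∀ y, w.dd y = y - γ.f (b.f y)) :
    HtpyEq γ := by
  refine ⟨hγ, b, u + (γ.comp (w.comp a (add_zero (-1))) (zero_add (-1)) -
    γ.comp (b.comp u (zero_add (-1))) (zero_add (-1))), w, hb, fun x => ?_, hw⟩
  rw [GMap.dd_add, GMap.dd_sub, GMap.dd_comp, GMap.dd_comp, GMap.dd_comp, GMap.dd_comp, hγ, ha,
    hb, hu, hw, hu]
  simp only [LinearMap.zero_apply, map_zero, smul_zero, add_zero, zero_add, sg_zero, one_smul,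
    map_sub]
  abel

/-- The map of cones induced by a square which commutes up to homotopy. -/
private theorem exists_coneMap {M N C M' N' C' : Bim A B} {φ : GMap 0 M N} {φ' : GMap 0 M' N'}
    {t : GMap (-1) M C} {j : GMap 0 N C} {p : GMap 1 C M} {q : GMap 0 C N}
    {t' : GMap (-1) M' C'} {j' : GMap 0 N' C'} {p' : GMap 1 C' M'}
    (h0 : p.dd = 0) (h1 : j.dd = 0) (h2 : ∀ x, t.dd x = j.f (φ.f x))
    (h4 : ∀ y, q.f (j.f y) = y) (h5 : ∀ y, p.f (j.f y) = 0) (h6 : ∀ x, q.f (t.f x) = 0)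
    (h7 : ∀ c, t.f (p.f c) + j.f (q.f c) = c)
    (k1 : j'.dd = 0) (k2 : ∀ x, t'.dd x = j'.f (φ'.f x))
    (k3 : ∀ x, p'.f (t'.f x) = x) (k5 : ∀ y, p'.f (j'.f y) = 0)
    {α : GMap 0 M M'} {β : GMap 0 N N'} (hα : α.dd = 0) (hβ : β.dd = 0)
    (h : GMap (-1) M N') (hh : ∀ x, h.dd x = β.f (φ.f x) - φ'.f (α.f x)) :
    ∃ γ : GMap 0 C C', γ.dd = 0 ∧ (∀ y, γ.f (j.f y) = j'.f (β.f y)) ∧
      ∀ c, p'.f (γ.f c) = α.f (p.f c) := by
  have hq := IsCone.q_dd h1 h2 h4 h6 h7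
  refine ⟨p.comp (α.comp t' (zero_add (-1))) (add_neg_cancel 1) +
    (p.comp (h.comp j' (add_zero (-1))) (add_neg_cancel 1) +
      q.comp (β.comp j' (zero_add 0)) (zero_add 0)), LinearMap.ext (fun c => ?_), fun y => ?_,
      fun c => ?_⟩
  · rw [GMap.dd_add, GMap.dd_add, GMap.dd_comp p, GMap.dd_comp p, GMap.dd_comp q,
      GMap.dd_comp α, GMap.dd_comp h, GMap.dd_comp β, h0, hα, hβ, k1, k2, hh, hq]
    simp only [LinearMap.zero_apply, map_zero, smul_zero, add_zero, zero_add, sg_zero, one_smul,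
      map_sub, map_neg, GMap.comp_f]
    abel
  · simp only [GMap.add_f, GMap.comp_f, h5, h4, map_zero, zero_add]
  · simp only [GMap.add_f, GMap.comp_f, map_add, k3, k5, add_zero]

/-- A map of a cone to itself, which is homotopic to the identity on both pieces, is invertible
up to homotopy. -/
private theorem exists_coneInv {M N C : Bim A B} {φ : GMap 0 M N}
    {t : GMap (-1) M C} {j : GMap 0 N C} {p : GMap 1 C M} {q : GMap 0 C N}
    (h0 : p.dd = 0) (h1 : j.dd = 0) (h2 : ∀ x, t.dd x = j.f (φ.f x))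
    (h3 : ∀ x, p.f (t.f x) = x)
    (h4 : ∀ y, q.f (j.f y) = y) (h5 : ∀ y, p.f (j.f y) = 0) (h6 : ∀ x, q.f (t.f x) = 0)
    (h7 : ∀ c, t.f (p.f c) + j.f (q.f c) = c)
    {α : GMap 0 M M} {β : GMap 0 N N} (u : GMap (-1) M M) (v : GMap (-1) N N)
    (hu : ∀ x, u.dd x = x - α.f x) (hv : ∀ y, v.dd y = y - β.f y)
    {γ : GMap 0 C C} (hγ : γ.dd = 0) (hj : ∀ y, γ.f (j.f y) = j.f (β.f y))
    (hp : ∀ c, p.f (γ.f c) = α.f (p.f c)) :
    ∃ ι : GMap 0 C C, ι.dd = 0 ∧ (∃ w : GMap (-1) C C, ∀ x, w.dd x = x - ι.f (γ.f x)) ∧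
      ∃ w : GMap (-1) C C, ∀ x, w.dd x = x - γ.f (ι.f x) := by
  have hq := IsCone.q_dd h1 h2 h4 h6 h7
  obtain ⟨K, hK⟩ : ∃ K : GMap (-1) C C, ∀ c, K.dd c =
      (j.f (v.dd (q.f c)) + j.f (v.f (φ.f (p.f c)))) -
        (j.f (φ.f (u.f (p.f c))) - t.f (u.dd (p.f c))) := by
    refine ⟨q.comp (v.comp j (add_zero (-1))) (zero_add (-1)) -
      p.comp (u.comp t (show (-1 : ℤ) + -1 = -2 by norm_num)) (by norm_num), fun c => ?_⟩
    rw [GMap.dd_sub, GMap.dd_comp q, GMap.dd_comp p, GMap.dd_comp v, GMap.dd_comp u, h0, h1, h2,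
      hq]
    simp only [LinearMap.zero_apply, map_zero, smul_zero, add_zero, zero_add, sg_zero, sg_neg,
      sg_one, one_smul, neg_smul, map_neg, neg_neg, GMap.comp_f]
    abel
  obtain ⟨δ, hδ⟩ : ∃ δ : GMap 0 C C, ∀ c, δ.f c = γ.f c + K.dd c - c :=
    ⟨γ + K.D (neg_add_cancel 1) - GMap.id C, fun c => rfl⟩
  have hδ0 : δ.dd = 0 := by
    have e : δ = γ + K.D (neg_add_cancel 1) - GMap.id C := GMap.ext hδ
    ext c
    rw [e, GMap.dd_sub, GMap.dd_add, GMap.dd_id, hγ, GMap.dd_D]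
    simp
  have hδj : ∀ y, δ.f (j.f y) = 0 := fun y => by
    rw [hδ, hj, hK, h5, h4, hv]
    simp only [map_zero, map_sub]
    abel
  have hδp : ∀ c, p.f (δ.f c) = 0 := fun c => by
    rw [hδ, map_sub, map_add, hp, hK, hu]
    simp only [map_add, map_sub, h3, h5]
    abel
  have hδδ : ∀ c, δ.f (δ.f c) = 0 := fun c => by
    rw [← h7 (δ.f c), hδp, map_zero, zero_add, hδj]
  obtain ⟨ι, hι⟩ : ∃ ι : GMap 0 C C, ι = GMap.id C - δ := ⟨_, rfl⟩
  have hι0 : ι.dd = 0 := by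
    ext c
    rw [hι, GMap.dd_sub, GMap.dd_id, hδ0, LinearMap.zero_apply, sub_zero]
  have hιf : ∀ c, ι.f c = c - δ.f c := fun c => by
    rw [hι, GMap.sub_f, GMap.id_f]
  have hγf : ∀ c, γ.f c = c + δ.f c - K.dd c := fun c => by
    rw [hδ]
    abel
  refine ⟨ι, hι0, ⟨K.comp ι (add_zero (-1)), fun x => ?_⟩, ⟨ι.comp K (zero_add (-1)),
    fun x => ?_⟩⟩
  · rw [GMap.dd_comp, hι0, hγf, sg_zero, one_smul, LinearMap.zero_apply, zero_add, map_sub,
      map_add, hιf x, hιf (δ.f x), hδδ]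
    abel
  · rw [GMap.dd_comp, hι0, hγf, LinearMap.zero_apply, map_zero, smul_zero, add_zero, hιf x,
      map_sub δ.f, hδδ]
    abel

/-- Homotopy equivalences which commute up to homotopy with two closed maps induce a homotopy
equivalence of the cones. -/
theorem HE.cone {M N C M' N' C' : Bim A B} {φ : GMap 0 M N} {φ' : GMap 0 M' N'}
    (e : φ.dd = 0) (e' : φ'.dd = 0) (hC : IsCone φ C) (hC' : IsCone φ' C')
    {α : GMap 0 M M'} {β : GMap 0 N N'} (hα : HtpyEq α) (hβ : HtpyEq β)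
    (h : GMap (-1) M N') (hh : ∀ x, h.dd x = β.f (φ.f x) - φ'.f (α.f x)) : HE C C' := by
  obtain ⟨t, j, p, q, h0, h1, h2, h3, h4, h5, h6, h7⟩ := hC
  obtain ⟨t', j', p', q', k0, k1, k2, k3, k4, k5, k6, k7⟩ := hC'
  obtain ⟨a0, α', u, u', a1, a2, a3⟩ := hα
  obtain ⟨b0, β', v, v', b1, b2, b3⟩ := hβ
  obtain ⟨h', hh'⟩ : ∃ h' : GMap (-1) M' N, ∀ y, h'.dd y = β'.f (φ'.f y) - φ.f (α'.f y) := by
    refine ⟨u'.comp (φ'.comp β' (add_zero 0)) (add_zero (-1)) -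
      α'.comp (h.comp β' (add_zero (-1))) (zero_add (-1)) -
      α'.comp (φ.comp v (zero_add (-1))) (zero_add (-1)), fun y => ?_⟩
    rw [GMap.dd_sub, GMap.dd_sub, GMap.dd_comp u', GMap.dd_comp α', GMap.dd_comp α',
      GMap.dd_comp φ', GMap.dd_comp h, GMap.dd_comp φ, e, e', a1, b1, a3, b2, hh]
    simp only [LinearMap.zero_apply, map_zero, smul_zero, add_zero, zero_add, sg_zero, one_smul,
      map_sub, GMap.comp_f]
    abel
  obtain ⟨γ, c0, c1, c2⟩ := exists_coneMap h0 h1 h2 h4 h5 h6 h7 k1 k2 k3 k5 a0 b0 h hh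
  obtain ⟨γ', d0, d1, d2⟩ := exists_coneMap k0 k1 k2 k4 k5 k6 k7 h1 h2 h3 h5 a1 b1 h' hh'
  obtain ⟨ι, i0, ⟨w, hw⟩, -⟩ := exists_coneInv (γ := γ.comp γ' (add_zero 0))
    (α := α.comp α' (add_zero 0)) (β := β.comp β' (add_zero 0))
    h0 h1 h2 h3 h4 h5 h6 h7 u v a2 b2 (by
      ext c
      rw [GMap.dd_comp, c0, d0]
      simp) (fun y => by
      rw [GMap.comp_f, c1, d1]
      rfl) (fun c => by
      rw [GMap.comp_f, d2, c2]
      rfl)
  obtain ⟨κ, l0, -, ⟨w', hw'⟩⟩ := exists_coneInv (γ := γ'.comp γ (add_zero 0))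
    (α := α'.comp α (add_zero 0)) (β := β'.comp β (add_zero 0))
    k0 k1 k2 k3 k4 k5 k6 k7 u' v' a3 b3 (by
      ext c
      rw [GMap.dd_comp, c0, d0]
      simp) (fun y => by
      rw [GMap.comp_f, d1, c1]
      rfl) (fun c => by
      rw [GMap.comp_f, c2, d2]
      rfl)
  refine ⟨γ, htpyEq_of_sides (a := γ'.comp ι (add_zero 0)) (b := κ.comp γ' (add_zero 0)) c0
    (by
      ext c
      rw [GMap.dd_comp, d0, i0]
      simp) (by
      ext c
      rw [GMap.dd_comp, d0, l0]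
      simp) w w' hw hw'⟩

end Pool.Agent.MP_6e5bed_ag_NC
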