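import Pool.Agent.Lib.MP_6e5bed_ag_BC.He

set_option autoImplicit false

/-!
# Short exact sequences and cones
-/

namespace Pool.Agent.MP_6e5bed_ag_NC

universe u

variable {k : Type u} [CommRing k] {A B : DGA k} {M' M M'' : Bim A B}

private theorem sg_neg_one : sg (-1) = -1 := by rw [sg_neg, sg_one]

theorem IsExt.he_right (h : IsExt M' M M'') :
    ∃ i : GMap 0 M' M, i.dd = 0 ∧ ∀ C, IsCone i C → HE C M'' := by
  obtain ⟨i, p, r, σ, h0, h1, h2, h3, h4, h5, h6⟩ := h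
  obtain ⟨κ, k0, k1, k2⟩ := ext_kappa h0 h1 h2 h3 h4 h5 h6
  refine ⟨i, h0, fun C hC => ?_⟩
  obtain ⟨t, j, pC, qC, c0, c1, c2, c3, c4, c5, c6, c7⟩ := hC
  have hq := IsCone.q_dd c1 c2 c4 c6 c7
  refine ⟨qC.comp p (add_zero 0), ?_,
    σ.comp j (add_zero 0) - κ.comp t (add_neg_cancel 1),
    qC.comp (r.comp t (zero_add (-1))) (zero_add (-1)), 0, ?_, fun c => ?_, fun y => ?_⟩
  · ext c
    rw [GMap.dd_comp, h1, hq, LinearMap.zero_apply, LinearMap.zero_apply, map_neg, h4, neg_zero,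
      smul_zero, add_zero]
  · ext y
    rw [GMap.dd_sub, GMap.dd_comp, GMap.dd_comp, c1, c2, k0, k1, LinearMap.zero_apply,
      LinearMap.zero_apply, LinearMap.zero_apply, map_zero, smul_zero, add_zero, zero_add,
      sg_zero, one_smul, sub_self]
  · rw [GMap.dd_comp, GMap.dd_comp, c2, k2, hq]
    simp only [GMap.comp_f, GMap.sub_f, sg_neg_one, neg_smul, one_smul, map_neg, neg_neg, h2]
    have e1 : j.f (i.f (r.f (qC.f c))) = j.f (qC.f c) - j.f (σ.f (p.f (qC.f c))) := by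
      rw [← map_sub, eq_comm]
      congr 1
      rw [sub_eq_iff_eq_add]
      exact (h6 _).symm
    rw [e1]
    conv_rhs => rw [← c7 c]
    simp only [map_add, c6, c4, zero_add]
    abel
  · rw [GMap.dd_zero]
    simp only [GMap.comp_f, GMap.sub_f, map_sub, c4, c6, h3, map_zero, sub_zero, sub_self]

theorem IsExt.he_left (h : IsExt M' M M'') :
    ∃ p : GMap 0 M M'', p.dd = 0 ∧ ∀ C, IsCone p C → HE C (M'.shift 1) := by
  obtain ⟨i, p, r, σ, h0, h1, h2, h3, h4, h5, h6⟩ := h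
  obtain ⟨κ, k0, k1, k2⟩ := ext_kappa h0 h1 h2 h3 h4 h5 h6
  refine ⟨p, h1, fun C hC => ?_⟩
  obtain ⟨t, j, pC, qC, c0, c1, c2, c3, c4, c5, c6, c7⟩ := hC
  have hq := IsCone.q_dd c1 c2 c4 c6 c7
  obtain ⟨ρ, hρ⟩ : ∃ ρ : GMap 1 C M', ρ = pC.comp r (add_zero 1) + qC.comp κ (zero_add 1) :=
    ⟨_, rfl⟩
  have hρf : ∀ c, ρ.f c = r.f (pC.f c) + κ.f (qC.f c) := fun c => by
    rw [hρ, GMap.add_f, GMap.comp_f, GMap.comp_f]
  have hρd : ∀ c, ρ.dd c = 0 := fun c => by
    rw [hρ, GMap.dd_add, GMap.dd_comp, GMap.dd_comp, k2, c0, k0, hq]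
    simp only [LinearMap.zero_apply, map_zero, smul_zero, add_zero, zero_add, sg_one, neg_smul,
      one_smul, map_neg, neg_neg, neg_add_cancel]
  have hθd : ∀ x, (i.comp t (zero_add (-1))).dd x = 0 := fun x => by
    rw [GMap.dd_comp, c2, h0, h4, LinearMap.zero_apply, map_zero, map_zero, smul_zero, add_zero]
  refine ⟨ρ.shiftTgt 1 (zero_add 1), LinearMap.ext fun c => ?_,
    (i.comp t (zero_add (-1))).shiftSrc 1 (neg_add_cancel 1),
    qC.comp (σ.comp t (zero_add (-1))) (zero_add (-1)), 0, LinearMap.ext fun x => ?_,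
    fun c => ?_, fun y => ?_⟩
  · rw [GMap.shiftTgt_dd, hρd]
    exact smul_zero _
  · rw [GMap.shiftSrc_dd, hθd]
    rfl
  · have e0 : ((i.comp t (zero_add (-1))).shiftSrc 1 (neg_add_cancel 1)).f
        ((ρ.shiftTgt 1 (zero_add 1)).f c) = t.f (i.f (ρ.f c)) := rfl
    rw [e0, hρf, GMap.dd_comp, GMap.dd_comp, c2, hq, h3, ← k1]
    simp only [GMap.comp_f, sg_neg_one, neg_smul, one_smul, map_neg, neg_neg, map_add]
    have e1 : t.f (σ.f (p.f (pC.f c))) = t.f (pC.f c) - t.f (i.f (r.f (pC.f c))) := by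
      rw [← map_sub, eq_comm]
      congr 1
      rw [sub_eq_iff_eq_add, add_comm]
      exact (h6 _).symm
    rw [e1]
    have e2 := c7 c
    conv_rhs => rw [← e2]
    simp only [map_add, c3, c4, c5, c6, add_zero, zero_add]
    abel
  · rw [GMap.dd_zero]
    have e0 : (ρ.shiftTgt 1 (zero_add 1)).f
        (((i.comp t (zero_add (-1))).shiftSrc 1 (neg_add_cancel 1)).f y) =
        ρ.f (t.f (i.f y)) := rfl
    rw [e0, hρf, c3, c6, h2, map_zero, add_zero]
    exact (sub_self (G := M'.M) y).symm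

theorem IsExt.he_mid (h : IsExt M' M M'') :
    ∃ κ : GMap 0 (M''.shift (-1)) M', κ.dd = 0 ∧ ∀ C, IsCone κ C → HE C M := by
  obtain ⟨i, p, r, σ, h0, h1, h2, h3, h4, h5, h6⟩ := h
  obtain ⟨κ, k0, k1, k2⟩ := ext_kappa h0 h1 h2 h3 h4 h5 h6
  refine ⟨κ.shiftSrc (-1) (add_neg_cancel 1), LinearMap.ext fun x => ?_, fun C hC => ?_⟩
  · rw [GMap.shiftSrc_dd, k0]
    rfl
  obtain ⟨t, j, pC, qC, c0, c1, c2, c3, c4, c5, c6, c7⟩ := hC
  have hq := IsCone.q_dd c1 c2 c4 c6 c7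
  obtain ⟨w, hw⟩ : ∃ w : GMap 0 C M'', w = pC.comp
      ((GMap.id M'').shiftSrc (-1) (zero_add (-1))) (add_neg_cancel 1) := ⟨_, rfl⟩
  have hwf : ∀ c, w.f c = pC.f c := fun c => by
    rw [hw]
    rfl
  have hwd : ∀ c, w.dd c = 0 := fun c => by
    rw [hw, GMap.dd_comp, c0, GMap.shiftSrc_dd, LinearMap.zero_apply, map_zero, smul_zero,
      add_zero]
    exact GMap.dd_id _
  refine BIso.he (BIso.of_bij (qC.comp i (add_zero 0) + w.comp σ (add_zero 0))
    (LinearMap.ext fun c => ?_) ?_)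
  · rw [GMap.dd_add, GMap.dd_comp, GMap.dd_comp, h0, hq, hwd, hwf, ← k1, LinearMap.zero_apply,
      map_zero, smul_zero, add_zero, zero_add, sg_zero, one_smul, map_neg]
    exact neg_add_cancel _
  · have hf : ∀ c, (qC.comp i (add_zero 0) + w.comp σ (add_zero 0)).f c =
        i.f (qC.f c) + σ.f (pC.f c) := fun c => by
      rw [GMap.add_f, GMap.comp_f, GMap.comp_f, hwf]
    refine Function.bijective_iff_has_inverse.2
      ⟨fun x => j.f (r.f x) + t.f (p.f x), fun c => ?_, fun x => ?_⟩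
    · have e1 : r.f (i.f (qC.f c) + σ.f (pC.f c)) = qC.f c := by
        rw [map_add, h2, h5, add_zero]
      have e2 : p.f (i.f (qC.f c) + σ.f (pC.f c)) = pC.f c := by
        rw [map_add, h3, h4, zero_add]
      change j.f (r.f ((qC.comp i (add_zero 0) + w.comp σ (add_zero 0)).f c)) +
        t.f (p.f ((qC.comp i (add_zero 0) + w.comp σ (add_zero 0)).f c)) = c
      rw [hf, e1, e2, add_comm]
      exact c7 c
    · have e1 : qC.f (j.f (r.f x) + t.f (p.f x)) = r.f x := by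
        rw [map_add, c4, c6, add_zero]
      have e2 : pC.f (j.f (r.f x) + t.f (p.f x)) = p.f x := by
        rw [map_add, c5, c3, zero_add]
      change (qC.comp i (add_zero 0) + w.comp σ (add_zero 0)).f
        (j.f (r.f x) + t.f (p.f x)) = x
      rw [hf, e1]
      refine Eq.trans ?_ (h6 x)
      congr 1
      exact congrArg σ.f e2

end Pool.Agent.MP_6e5bed_ag_NC
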