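import Pool.Agent.Lib.MP_6e5bed_ag_NC.Htpy

set_option autoImplicit false
set_option maxHeartbeats 400000

/-!
# Homotopy idempotents split
-/

namespace Pool.Agent.MP_6e5bed_ag_NC

universe u

variable {k : Type u} [CommRing k] {A B : DGA k}

/-! ### Countable direct sums -/

section dsum

variable {V W : Type u} [AddCommGroup V] [Module k V] [AddCommGroup W] [Module k W]

/-- The coaction on the direct sum. -/
private noncomputable def hsRho (X : Dg k V) : (ℕ →₀ V) →ₗ[k] (ℤ →₀ (ℕ →₀ V)) :=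
  Finsupp.lsum k (fun j : ℕ =>
    (Finsupp.mapRange.linearMap (Finsupp.lsingle j : V →ₗ[k] (ℕ →₀ V))).comp X.ρ)

private theorem hsRho_single (X : Dg k V) (j : ℕ) (x : V) (i : ℤ) :
    hsRho X (Finsupp.single j x) i = Finsupp.single j (X.ρ x i) := by
  unfold hsRho
  rw [Finsupp.lsum_single, LinearMap.comp_apply, Finsupp.mapRange.linearMap_apply,
    Finsupp.mapRange_apply, Finsupp.lsingle_apply]

private theorem hs_ext {U : Type*} [AddCommGroup U] [Module k U] {f g : (ℕ →₀ V) →ₗ[k] U}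
    (h : ∀ j x, f (Finsupp.single j x) = g (Finsupp.single j x)) (v : ℕ →₀ V) : f v = g v :=
  LinearMap.congr_fun (Finsupp.lhom_ext h) v

/-- The direct sum of countably many copies of a complex. -/
private noncomputable def hsDg (X : Dg k V) : Dg k (ℕ →₀ V) where
  ρ := hsRho X
  sum_ρ := fun v => by
    have h := hs_ext (f := (Finsupp.lsum k (fun _ : ℤ => (LinearMap.id :
      (ℕ →₀ V) →ₗ[k] (ℕ →₀ V)))).comp (hsRho X)) (g := LinearMap.id) (fun j x => by
      have h1 : hsRho X (Finsupp.single j x) =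
          Finsupp.mapRange.linearMap (Finsupp.lsingle j : V →ₗ[k] (ℕ →₀ V)) (X.ρ x) := by
        ext1 i
        rw [hsRho_single]
        rfl
      rw [LinearMap.comp_apply, h1, LinearMap.id_apply]
      change (Finsupp.mapRange (Finsupp.lsingle j : V →ₗ[k] (ℕ →₀ V)) (map_zero _) (X.ρ x)).sum
        (fun _ w => w) = _
      rw [Finsupp.sum_mapRange_index (fun _ => rfl)]
      conv_rhs => rw [← X.sum_ρ x]
      rw [Finsupp.sum, Finsupp.sum, ← Finsupp.lsingle_apply (R := k), map_sum]) v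
    exact h
  ρ_ρ := fun v n => by
    have h := hs_ext (f := (hsRho X).comp ((Finsupp.lapply n).comp (hsRho X)))
      (g := (Finsupp.lsingle n).comp ((Finsupp.lapply n).comp (hsRho X))) (fun j x => by
      simp only [LinearMap.comp_apply, Finsupp.lapply_apply, Finsupp.lsingle_apply]
      rw [hsRho_single]
      ext1 i
      rw [hsRho_single, X.ρ_ρ]
      by_cases hi : n = i
      · subst hi
        rw [Finsupp.single_eq_same, Finsupp.single_eq_same]
      · rw [Finsupp.single_apply, Finsupp.single_apply, if_neg hi, if_neg hi,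
          Finsupp.single_zero]) v
    exact h
  d := Finsupp.mapRange.linearMap X.d
  d_d := fun v => by
    ext j
    exact X.d_d (v j)
  ρ_d := fun v n => by
    have h := hs_ext (f := (Finsupp.lapply (n + 1)).comp ((hsRho X).comp
      (Finsupp.mapRange.linearMap X.d))) (g := (Finsupp.mapRange.linearMap X.d).comp
        ((Finsupp.lapply n).comp (hsRho X))) (fun j x => by
      simp only [LinearMap.comp_apply, Finsupp.lapply_apply, Finsupp.mapRange.linearMap_apply,
        Finsupp.mapRange_single]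
      rw [hsRho_single, hsRho_single, Finsupp.mapRange_single, X.ρ_d]) v
    exact h

private theorem hsDg_single {X : Dg k V} {i : ℤ} {x : V} (hx : X.IsDeg i x) (j : ℕ) :
    (hsDg X).IsDeg i (Finsupp.single j x) := by
  change hsRho X (Finsupp.single j x) = Finsupp.single i (Finsupp.single j x)
  have hx' : X.ρ x = Finsupp.single i x := hx
  ext1 n
  rw [hsRho_single, hx']
  by_cases hi : i = n
  · subst hi
    rw [Finsupp.single_eq_same, Finsupp.single_eq_same]
  · rw [Finsupp.single_apply, Finsupp.single_apply, if_neg hi, if_neg hi, Finsupp.single_zero]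

private theorem hsDg_degMap {X : Dg k V} {Y : Dg k W} {n : ℤ} (f : (ℕ →₀ V) →ₗ[k] W)
    (h : ∀ j i x, X.IsDeg i x → Y.IsDeg (i + n) (f (Finsupp.single j x))) {i : ℤ} {v : ℕ →₀ V}
    (hv : (hsDg X).IsDeg i v) : Y.IsDeg (i + n) (f v) := by
  refine (Dg.degMap_iff (X := hsDg X) (Y := Y) f).2 (fun v i => ?_) i v hv
  have h1 := hs_ext (f := (Finsupp.lapply (i + n)).comp (Y.ρ.comp f))
    (g := f.comp ((Finsupp.lapply i).comp (hsRho X))) (fun j x => by
      simp only [LinearMap.comp_apply, Finsupp.lapply_apply]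
      rw [hsRho_single]
      exact (Dg.degMap_iff (X := X) (Y := Y) (f.comp (Finsupp.lsingle j))).1
        (fun i x hx => h j i x hx) x i) v
  exact h1

private theorem hsDg_s (X : Dg k V) (v : ℕ →₀ V) (j : ℕ) : (hsDg X).s v j = X.s (v j) := by
  have h := Dg.s_degMap (X := hsDg X) (Y := X) (n := 0) (Finsupp.lapply j)
    (fun {i v} hv => hsDg_degMap (X := X) (Y := X) (Finsupp.lapply j) (fun j' i x hx => by
      rw [Finsupp.lapply_apply, Finsupp.single_apply, add_zero]
      split_ifs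
      · exact hx
      · exact Dg.IsDeg.zero i) hv) v
  rw [sg_zero, one_smul] at h
  exact h.symm

private theorem hs_lsum_map (f : ℕ → V →ₗ[k] W) (a : V →ₗ[k] V) (b : W →ₗ[k] W)
    (h : ∀ j x, f j (a x) = b (f j x)) (v : ℕ →₀ V) :
    Finsupp.lsum k f (Finsupp.mapRange.linearMap a v) = b (Finsupp.lsum k f v) := by
  refine hs_ext (f := (Finsupp.lsum k f).comp (Finsupp.mapRange.linearMap a))
    (g := b.comp (Finsupp.lsum k f)) (fun j x => ?_) v
  rw [LinearMap.comp_apply, LinearMap.comp_apply, Finsupp.mapRange.linearMap_apply,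
    Finsupp.mapRange_single, Finsupp.lsum_single, Finsupp.lsum_single, h]

end dsum

/-- The direct sum of countably many copies of a bimodule. -/
private noncomputable def hsBim (M : Bim A B) : Bim A B where
  M := ℕ →₀ M.M
  dg := hsDg M.dg
  l := { toFun := fun a => Finsupp.mapRange.linearMap (M.l a)
         map_add' := fun a b => by
          refine LinearMap.ext (fun v => Finsupp.ext (fun j => ?_))
          change M.l (a + b) (v j) = M.l a (v j) + M.l b (v j)
          rw [map_add, LinearMap.add_apply]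
         map_smul' := fun c a => by
          refine LinearMap.ext (fun v => Finsupp.ext (fun j => ?_))
          change M.l (c • a) (v j) = c • M.l a (v j)
          rw [map_smul, LinearMap.smul_apply] }
  r := { toFun := fun a => Finsupp.mapRange.linearMap (M.r a)
         map_add' := fun a b => by
          refine LinearMap.ext (fun v => Finsupp.ext (fun j => ?_))
          change M.r (a + b) (v j) = M.r a (v j) + M.r b (v j)
          rw [map_add, LinearMap.add_apply]
         map_smul' := fun c a => by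
          refine LinearMap.ext (fun v => Finsupp.ext (fun j => ?_))
          change M.r (c • a) (v j) = c • M.r a (v j)
          rw [map_smul, LinearMap.smul_apply] }
  l_one := fun v => Finsupp.ext (fun j => M.l_one (v j))
  r_one := fun v => Finsupp.ext (fun j => M.r_one (v j))
  l_mul := fun a a' v => Finsupp.ext (fun j => M.l_mul a a' (v j))
  r_mul := fun a a' v => Finsupp.ext (fun j => M.r_mul a a' (v j))
  l_r := fun a b v => Finsupp.ext (fun j => M.l_r a b (v j))
  l_deg := fun {i j a v} ha hv => by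
    rw [add_comm]
    refine hsDg_degMap (X := M.dg) (Y := hsDg M.dg) (n := i)
      (Finsupp.mapRange.linearMap (M.l a)) (fun j' i' x hx => ?_) hv
    rw [Finsupp.mapRange.linearMap_apply, Finsupp.mapRange_single, add_comm]
    exact hsDg_single (M.l_deg ha hx) j'
  r_deg := fun {i j b v} hv hb => by
    refine hsDg_degMap (X := M.dg) (Y := hsDg M.dg) (n := j)
      (Finsupp.mapRange.linearMap (M.r b)) (fun j' i' x hx => ?_) hv
    rw [Finsupp.mapRange.linearMap_apply, Finsupp.mapRange_single]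
    exact hsDg_single (M.r_deg hx hb) j'
  d_l := fun a v => Finsupp.ext (fun j => M.d_l a (v j))
  d_r := fun b v => Finsupp.ext (fun j => by
    have h := M.d_r b (v j)
    rw [← hsDg_s M.dg v j] at h
    exact h)

/-- The inclusion of the `j`-th summand. -/
private noncomputable def hsIncl (M : Bim A B) (j : ℕ) : GMap 0 M (hsBim M) where
  f := Finsupp.lsingle j
  deg := fun {i m} h => by
    rw [add_zero]
    exact hsDg_single h j
  map_l := fun a m => by
    rw [Dg.sp_zero]
    exact (Finsupp.mapRange_single (f := M.l a) (hf := map_zero _)).symm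
  map_r := fun b m => (Finsupp.mapRange_single (f := M.r b) (hf := map_zero _)).symm

private theorem hsIncl_dd (M : Bim A B) (j : ℕ) : (hsIncl M j).dd = 0 := by
  ext1 x
  rw [GMap.dd_apply, sg_zero, one_smul, LinearMap.zero_apply, sub_eq_zero]
  exact Finsupp.mapRange_single (f := M.dg.d) (hf := map_zero _)

private theorem hs_lext {M : Bim A B} {U : Type*} [AddCommGroup U] [Module k U]
    {f g : (hsBim M).M →ₗ[k] U} (h : ∀ j x, f ((hsIncl M j).f x) = g ((hsIncl M j).f x))
    (v : (hsBim M).M) : f v = g v :=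
  hs_ext (V := M.M) (f := f) (g := g) h v

/-- The map on the direct sum given by a family of maps. -/
private noncomputable def hsLift {M Y : Bim A B} {n : ℤ} (φ : ℕ → GMap n M Y) :
    GMap n (hsBim M) Y where
  f := Finsupp.lsum k (fun j => (φ j).f)
  deg := fun {i v} hv => by
    refine hsDg_degMap (X := M.dg) (Y := Y.dg) (n := n) (Finsupp.lsum k (fun j => (φ j).f))
      (fun j i x hx => ?_) hv
    rw [Finsupp.lsum_single]
    exact (φ j).deg hx
  map_l := fun a v => hs_lsum_map (fun j => (φ j).f) (M.l a) (Y.l (A.dg.sp n a))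
    (fun j x => (φ j).map_l a x) v
  map_r := fun b v => hs_lsum_map (fun j => (φ j).f) (M.r b) (Y.r b)
    (fun j x => (φ j).map_r b x) v

private theorem hsLift_f {M Y : Bim A B} {n : ℤ} (φ : ℕ → GMap n M Y) (j : ℕ) (x : M.M) :
    (hsLift φ).f ((hsIncl M j).f x) = (φ j).f x := by
  change Finsupp.lsum k (fun j => (φ j).f) (Finsupp.single j x) = _
  rw [Finsupp.lsum_single]

private theorem hsIncl_pull {M Y : Bim A B} {n : ℤ} (φ : GMap n (hsBim M) Y) (j : ℕ) (x : M.M) :
    φ.dd ((hsIncl M j).f x) = ((hsIncl M j).comp φ (zero_add n)).dd x :=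
  (null_pull (hsIncl_dd M j) φ x).symm

private theorem hsLift_dd {M Y : Bim A B} {n : ℤ} (φ : ℕ → GMap n M Y) (j : ℕ) (x : M.M) :
    (hsLift φ).dd ((hsIncl M j).f x) = (φ j).dd x := by
  have h : (hsIncl M j).comp (hsLift φ) (zero_add n) = φ j := GMap.ext (fun x => hsLift_f φ j x)
  rw [hsIncl_pull, h]

/-- The null homotopies of the maps `incl_n; j; f`. -/
private theorem hs_step {M Y : Bim A B} (e : GMap 0 M M) (he : e.dd = 0) (h : GMap (-1) M M)
    (hh : ∀ x, h.dd x = e.f (e.f x) - e.f x) (f f' : GMap 0 M Y) (hf' : f'.dd = 0)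
    (T' T K : GMap (-1) M Y) (f0 : GMap 0 M Y) (hT' : ∀ x, T'.dd x = f0.f x - f.f (e.f x))
    (hT : ∀ x, T.dd x = f.f x - f'.f (e.f x)) (hK : ∀ x, K.dd x = f0.f x) (x : M.M) :
    (T + (K - T') - e.comp T (zero_add (-1)) - h.comp f' (add_zero (-1))).dd x = f.f x := by
  rw [GMap.dd_sub, GMap.dd_sub, GMap.dd_add, GMap.dd_sub, GMap.dd_comp, GMap.dd_comp, he, hf',
    hT, hT', hK, hh, hT]
  simp only [LinearMap.zero_apply, map_zero, smul_zero, add_zero, zero_add, sg_zero, one_smul,
    map_sub]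
  abel

/-- The key lemma. -/
private theorem hs_key {M X Y : Bim A B} (e : GMap 0 M M) (he : e.dd = 0) (h : GMap (-1) M M)
    (hh : ∀ x, h.dd x = e.f (e.f x) - e.f x) (E : GMap 0 (hsBim M) (hsBim M))
    (hE : ∀ n x, E.f ((hsIncl M n).f x) = (hsIncl M n).f x - (hsIncl M (n + 1)).f (e.f x))
    (t : GMap (-1) (hsBim M) X) (j : GMap 0 (hsBim M) X) (p : GMap 1 X (hsBim M))
    (q : GMap 0 X (hsBim M)) (h0 : p.dd = 0) (h1 : j.dd = 0) (h2 : ∀ x, t.dd x = j.f (E.f x))
    (h3 : ∀ x, p.f (t.f x) = x) (h4 : ∀ y, q.f (j.f y) = y) (h5 : ∀ y, p.f (j.f y) = 0)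
    (h6 : ∀ x, q.f (t.f x) = 0) (h7 : ∀ c, t.f (p.f c) + j.f (q.f c) = c)
    (f : GMap 0 X Y) (hf : f.dd = 0) (K0 : GMap (-1) M Y)
    (hK0 : ∀ x, K0.dd x = f.f (j.f ((hsIncl M 0).f x))) :
    ∃ u : GMap (-1) X Y, ∀ x, u.dd x = f.f x := by
  have hq := IsCone.q_dd h1 h2 h4 h6 h7
  -- null homotopies of `incl_n; j; f`
  have hi := hsIncl_dd M
  obtain ⟨F, hFe⟩ : ∃ F : ℕ → GMap 0 M Y, ∀ n, F n =
    (hsIncl M n).comp (j.comp f (add_zero 0)) (add_zero 0) := ⟨_, fun _ => rfl⟩
  have hF : ∀ n, (F n).dd = 0 := fun n => by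
    ext x
    rw [hFe, GMap.dd_comp, GMap.dd_comp, hi, h1, hf]
    simp
  have hFf : ∀ n x, (F n).f x = f.f (j.f ((hsIncl M n).f x)) := fun n x => by rw [hFe]; rfl
  obtain ⟨T, hTe⟩ : ∃ T : ℕ → GMap (-1) M Y, ∀ n, T n =
    (hsIncl M n).comp (t.comp f (add_zero (-1))) (zero_add (-1)) := ⟨_, fun _ => rfl⟩
  have hT : ∀ n x, (T n).dd x = (F n).f x - (F (n + 1)).f (e.f x) := fun n x => by
    rw [hTe, GMap.dd_comp, GMap.dd_comp, hi, hf, h2, hE, hFf, hFf]
    simp only [LinearMap.zero_apply, map_zero, smul_zero, add_zero, zero_add, sg_zero, one_smul,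
      map_sub]
  have hK : ∀ n, ∃ K : GMap (-1) M Y, ∀ x, K.dd x = (F n).f x := by
    intro n
    induction n with
    | zero => exact ⟨K0, fun x => by rw [hK0, hFf]⟩
    | succ n ih =>
      obtain ⟨K, hK⟩ := ih
      exact ⟨_, hs_step e he h hh (F (n + 1)) (F (n + 2)) (hF (n + 2)) (T n) (T (n + 1)) K (F n)
        (hT n) (hT (n + 1)) hK⟩
  choose K hK using hK
  have hKK : ∀ y, (hsLift K).dd y = f.f (j.f y) := fun y =>
    hs_lext (f := (hsLift K).dd) (g := f.f.comp j.f) (fun n x => by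
      rw [hsLift_dd, hK, hFf]
      rfl) y
  obtain ⟨g, hg⟩ : ∃ g : GMap 0 X Y, g = f - (q.comp (hsLift K) (zero_add (-1))).D
    (neg_add_cancel 1) := ⟨_, rfl⟩
  have hgj : ∀ y, g.f (j.f y) = 0 := fun y => by
    rw [hg, GMap.sub_f, GMap.D_f, GMap.dd_comp, hKK, h4, hq, h5, map_zero, neg_zero, map_zero,
      smul_zero, add_zero, sub_self]
  have hgd : g.dd = 0 := by
    ext x
    rw [hg, GMap.dd_sub, hf, GMap.dd_D, LinearMap.zero_apply, sub_self]
  have hgt : ∀ c, g.f (t.f (p.f c)) = g.f c := fun c => by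
    conv_rhs => rw [← h7 c]
    rw [map_add, hgj, add_zero]
  -- `g = p; γ`
  obtain ⟨G, hGe⟩ : ∃ G : ℕ → GMap (-1) M Y, ∀ n, G n =
    (hsIncl M n).comp (t.comp g (add_zero (-1))) (zero_add (-1)) := ⟨_, fun _ => rfl⟩
  have hG : ∀ n x, (G n).dd x = 0 := fun n x => by
    rw [hGe, GMap.dd_comp, GMap.dd_comp, hi, hgd, h2, hgj]
    simp
  have hGf : ∀ n x, (G n).f x = g.f (t.f ((hsIncl M n).f x)) := fun n x => by rw [hGe]; rfl
  have hGh : ∀ n x, (G n).f (e.f (e.f x)) = (G n).f (e.f x) -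
      (h.comp (G n) (show (-1 : ℤ) + -1 = -2 by norm_num)).dd x := fun n x => by
    rw [GMap.dd_comp, hG, hh, zero_add, sg_neg, sg_one, neg_smul, one_smul, sub_neg_eq_add,
      ← map_add, add_sub_cancel]
  obtain ⟨V, hV0, hVs⟩ : ∃ V : ℕ → GMap (-1) M Y, V 0 = 0 ∧
      ∀ n, V (n + 1) = V n + e.comp (G n) (zero_add (-1)) :=
    ⟨fun n => Nat.rec 0 (fun m v => v + e.comp (G m) (zero_add (-1))) n, rfl, fun _ => rfl⟩
  obtain ⟨U, hU0, hUs⟩ : ∃ U : ℕ → GMap (-2) M Y, U 0 = 0 ∧
      ∀ n, U (n + 1) = U n + h.comp (G n) (show (-1 : ℤ) + -1 = -2 by norm_num) :=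
    ⟨fun n => Nat.rec 0 (fun m v => v + h.comp (G m)
      (show (-1 : ℤ) + -1 = -2 by norm_num)) n, rfl, fun _ => rfl⟩
  have hVd : ∀ n x, (V n).dd x = 0 := by
    intro n
    induction n with
    | zero =>
      intro x
      rw [hV0, GMap.dd_zero]
    | succ n ih =>
      intro x
      rw [hVs, GMap.dd_add, ih, GMap.dd_comp, hG, he]
      simp
  have hVe : ∀ n x, (V n).f (e.f x) = (V n).f x - (U n).dd x := by
    intro n
    induction n with
    | zero =>
      intro x
      rw [hV0, hU0, GMap.dd_zero, GMap.zero_f, GMap.zero_f, sub_zero]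
    | succ n ih =>
      intro x
      rw [hVs, hUs, GMap.dd_add, GMap.add_f, GMap.add_f, ih, GMap.comp_f, GMap.comp_f, hGh]
      abel
  obtain ⟨w, hwe⟩ : ∃ w : ℕ → GMap (-1) M Y, ∀ n, w n =
    G n - e.comp (G n) (zero_add (-1)) - V n := ⟨_, fun _ => rfl⟩
  have hwd : ∀ n x, (w n).dd x = 0 := fun n x => by
    rw [hwe, GMap.dd_sub, GMap.dd_sub, GMap.dd_comp, hG, hG, hVd, he]
    simp
  have hwE : ∀ n x, (w n).f x - (w (n + 1)).f (e.f x) = (G n).f x - (U (n + 2)).dd x := by
    intro n x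
    rw [hwe, hwe]
    simp only [GMap.sub_f, GMap.comp_f]
    rw [hVe, hGh, hUs (n + 1), GMap.dd_add, hVs, GMap.add_f, GMap.comp_f]
    abel
  have hwd' : ∀ y, (hsLift w).dd y = 0 := fun y =>
    hs_lext (f := (hsLift w).dd) (g := 0) (fun n x => by
      rw [hsLift_dd, hwd]
      rfl) y
  have hwE' : ∀ y, (hsLift w).f (E.f y) + (hsLift (fun n => U (n + 2))).dd y =
      g.f (t.f y) := fun y =>
    hs_lext (f := (hsLift w).f.comp E.f + (hsLift (fun n => U (n + 2))).dd)
      (g := g.f.comp t.f) (fun n x => by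
      rw [LinearMap.add_apply, LinearMap.comp_apply, LinearMap.comp_apply, hE, map_sub, hsLift_f,
        hsLift_f, hsLift_dd, hwE, sub_add_cancel, hGf]) y
  refine ⟨q.comp (hsLift K) (zero_add (-1)) + (q.comp (hsLift w) (zero_add (-1)) +
    p.comp (hsLift (fun n => U (n + 2))) (show (1 : ℤ) + -2 = -1 by norm_num)), fun c => ?_⟩
  have e1 : g.f c = (q.comp (hsLift w) (zero_add (-1))).dd c +
      (p.comp (hsLift (fun n => U (n + 2))) (show (1 : ℤ) + -2 = -1 by norm_num)).dd c := by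
    rw [GMap.dd_comp, GMap.dd_comp, hwd', h0, hq, ← hgt, ← hwE']
    simp only [LinearMap.zero_apply, map_zero, map_neg, smul_zero, add_zero, zero_add, sg_neg,
      sg_one, neg_smul, one_smul, neg_neg]
  have e2 : f.f c = (q.comp (hsLift K) (zero_add (-1))).dd c + g.f c := by
    rw [hg, GMap.sub_f, GMap.D_f, add_sub_cancel]
  rw [GMap.dd_add, GMap.dd_add, e2, e1]

/-- Every homotopy idempotent splits. -/
theorem exists_splitting {M : Bim A B} (e : GMap 0 M M) (he : e.dd = 0) (h : GMap (-1) M M)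
    (hh : ∀ x, h.dd x = e.f (e.f x) - e.f x) :
    ∃ (X : Bim A B) (i : GMap 0 X M) (r : GMap 0 M X), i.dd = 0 ∧ r.dd = 0 ∧
      (∃ u : GMap (-1) X X, ∀ x, u.dd x = x - r.f (i.f x)) ∧
      ∃ w : GMap (-1) M M, ∀ x, w.dd x = i.f (r.f x) - e.f x := by
  have hi := hsIncl_dd M
  obtain ⟨E, hEe⟩ : ∃ E : GMap 0 (hsBim M) (hsBim M), E = hsLift (fun n => hsIncl M n -
    e.comp (hsIncl M (n + 1)) (add_zero 0)) := ⟨_, rfl⟩
  have hE : ∀ n x, E.f ((hsIncl M n).f x) = (hsIncl M n).f x -
      (hsIncl M (n + 1)).f (e.f x) := fun n x => by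
    rw [hEe, hsLift_f]
    rfl
  have hEd : E.dd = 0 := by
    refine LinearMap.ext (fun y => hs_lext (f := E.dd) (g := 0) (fun n x => ?_) y)
    rw [hEe, hsLift_dd, GMap.dd_sub, GMap.dd_comp, hi, hi, he]
    simp
  obtain ⟨t, j, p, q, h0, h1, h2, h3, h4, h5, h6, h7⟩ := isCone_cone E hEd
  have hq := IsCone.q_dd h1 h2 h4 h6 h7
  obtain ⟨S, hS⟩ : ∃ S : GMap 0 (hsBim M) M, S = hsLift (fun _ => e) := ⟨_, rfl⟩
  obtain ⟨R, hR⟩ : ∃ R : GMap (-1) (hsBim M) M, R = hsLift (fun _ => -h) := ⟨_, rfl⟩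
  have hSd : S.dd = 0 := by
    refine LinearMap.ext (fun y => hs_lext (f := S.dd) (g := 0) (fun n x => ?_) y)
    rw [hS, hsLift_dd, he]
    rfl
  have hSf : ∀ n x, S.f ((hsIncl M n).f x) = e.f x := fun n x => by rw [hS, hsLift_f]
  have hRd : ∀ y, R.dd y = S.f (E.f y) := fun y =>
    hs_lext (f := R.dd) (g := S.f.comp E.f) (fun n x => by
      rw [LinearMap.comp_apply, hE, map_sub, hSf, hSf, hR, hsLift_dd, GMap.dd_neg, hh, neg_sub]) y
  refine ⟨cone E hEd, q.comp S (add_zero 0) + p.comp R (show (1 : ℤ) + -1 = 0 by norm_num),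
    (hsIncl M 0).comp j (add_zero 0), ?_, ?_, ?_, 0, fun x => ?_⟩
  · ext c
    rw [GMap.dd_add, GMap.dd_comp, GMap.dd_comp, hSd, h0, hRd, hq]
    simp [sg_zero]
  · ext x
    rw [GMap.dd_comp, hi, h1]
    simp
  · obtain ⟨f, hfe⟩ : ∃ f : GMap 0 (cone E hEd) (cone E hEd), f = GMap.id _ -
      (q.comp S (add_zero 0) + p.comp R (show (1 : ℤ) + -1 = 0 by norm_num)).comp
        ((hsIncl M 0).comp j (add_zero 0)) (add_zero 0) := ⟨_, rfl⟩
    have hf : f.dd = 0 := by
      ext c
      rw [hfe, GMap.dd_sub, GMap.dd_comp, GMap.dd_comp, GMap.dd_add, GMap.dd_comp, GMap.dd_comp,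
        GMap.dd_id, hSd, h0, hRd, hq, hi, h1]
      simp [sg_zero]
    have hff : ∀ x, f.f x = x - j.f ((hsIncl M 0).f (S.f (q.f x) + R.f (p.f x))) := fun x => by
      rw [hfe]
      rfl
    obtain ⟨u, hu⟩ := hs_key e he h hh E hE t j p q h0 h1 h2 h3 h4 h5 h6 h7 f hf
      ((hsIncl M 0).comp t (zero_add (-1)) - e.comp ((hsIncl M 0).comp t (zero_add (-1)))
        (zero_add (-1)) - h.comp ((hsIncl M 1).comp j (add_zero 0)) (add_zero (-1)))
      (fun x => by
        have e1 : ∀ x, ((hsIncl M 0).comp t (zero_add (-1))).dd x =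
            j.f ((hsIncl M 0).f x) - j.f ((hsIncl M 1).f (e.f x)) := fun x => by
          rw [GMap.dd_comp, hi, h2, hE, map_sub]
          simp
        have e2 : ∀ x, ((hsIncl M 1).comp j (add_zero 0)).dd x = 0 := fun x => by
          rw [GMap.dd_comp, hi, h1]
          simp
        rw [GMap.dd_sub, GMap.dd_sub, GMap.dd_comp e, GMap.dd_comp h, e1, e1, e2, he, hh, hff,
          h4, h5, hSf]
        simp only [LinearMap.zero_apply, map_zero, smul_zero, add_zero, zero_add, sg_zero,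
          one_smul, map_sub, GMap.comp_f]
        abel)
    exact ⟨u, fun x => by rw [hu, hff]; rfl⟩
  · rw [GMap.dd_zero]
    change 0 = S.f (q.f (j.f ((hsIncl M 0).f x))) + R.f (p.f (j.f ((hsIncl M 0).f x))) - e.f x
    rw [h4, h5, hSf, map_zero, add_zero, sub_self]

end Pool.Agent.MP_6e5bed_ag_NC
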