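import Pool.Agent.Lib.MP_6e5bed_ag_NC.Null

set_option autoImplicit false

/-!
# Maps from perfect bimodules to directed unions
-/

namespace Pool.Agent.MP_6e5bed_ag_NC

universe u

variable {k : Type u} [CommRing k] {A B : DGA k}

/-- A directed system of bimodules with its colimit. -/
structure Sys (A B : DGA k) (ι : Type u) [Preorder ι] where
  N : ι → Bim A B
  t : ∀ {i j : ι}, i ≤ j → GMap 0 (N i) (N j)
  t_dd : ∀ {i j : ι} (h : i ≤ j), (t h).dd = 0
  t_t : ∀ {i j l : ι} (h : i ≤ j) (h' : j ≤ l) (x : (N i).M),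
    (t h').f ((t h).f x) = (t (h.trans h')).f x
  L : Bim A B
  c : ∀ i, GMap 0 (N i) L
  c_dd : ∀ i, (c i).dd = 0
  c_t : ∀ {i j : ι} (h : i ≤ j) (x : (N i).M), (c j).f ((t h).f x) = (c i).f x
  surj : ∀ x : L.M, ∃ i y, (c i).f y = x
  inj : ∀ (i : ι) (y : (N i).M), (c i).f y = 0 → ∃ (j : ι) (h : i ≤ j), (t h).f y = 0

variable {ι : Type u} [Preorder ι] [IsDirected ι (· ≤ ·)]

/-- The complex of maps from `M` to the colimit is the colimit of the complexes of maps, up to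
quasi-isomorphism: the cone of the comparison map is acyclic. -/
def Sys.Q (Y : Sys A B ι) (M : Bim A B) : Prop :=
  ∀ (n m l : ℤ), n + 1 = m → l + 1 = n → ∀ (i : ι) (g : GMap m M (Y.N i)) (f : GMap n M Y.L),
    g.dd = 0 → (∀ x, f.dd x = (Y.c i).f (g.f x)) →
    ∃ (j : ι) (h : i ≤ j) (f' : GMap n M (Y.N j)), (∀ x, f'.dd x = (Y.t h).f (g.f x)) ∧
      ∃ u : GMap l M Y.L, ∀ x, u.dd x = f.f x - (Y.c j).f (f'.f x)

end Pool.Agent.MP_6e5bed_ag_NC
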