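import Pool.Agent.Lib.MP_6e5bed_ag_BC.HSys

set_option autoImplicit false

/-!
# Maps to directed unions: free and contractible bimodules, summands
-/

namespace Pool.Agent.MP_6e5bed_ag_NC

open scoped TensorProduct

universe u

variable {k : Type u} [CommRing k] {A B : DGA k} {ι : Type u} [Preorder ι] [IsDirected ι (· ≤ ·)]

private theorem hsysa_d_one (A : DGA k) : A.dg.d A.one = 0 := by
  have h := A.leibniz A.one A.one
  rw [A.one_mul, Dg.s_of_even (Dg.o_of_even A.one_deg Even.zero), A.mul_one, A.one_mul] at h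
  exact left_eq_add.1 h

private theorem hsysa_sp_mul (A : DGA k) (m : ℤ) (a b : A.A) :
    A.dg.sp m (A.mul a b) = A.mul (A.dg.sp m a) (A.dg.sp m b) := by
  rcases Int.even_or_odd m with h | h
  · rw [Dg.sp_even h, Dg.sp_even h, Dg.sp_even h]
  · rw [Dg.sp_odd h, Dg.sp_odd h, Dg.sp_odd h, A.s_mul]

private theorem hsysa_sp_one (A : DGA k) (m : ℤ) : A.dg.sp m A.one = A.one := by
  rcases Int.even_or_odd m with h | h
  · rw [Dg.sp_even h]
  · rw [Dg.sp_odd h, Dg.s_of_even (Dg.o_of_even A.one_deg Even.zero)]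

/-- The map from the free bimodule which is given by an element. -/
private noncomputable def hsysaLin (Y : Bim A B) (m : ℤ) (z : Y.M) : A.A ⊗[k] B.A →ₗ[k] Y.M :=
  TensorProduct.lift ((Y.l ∘ₗ A.dg.sp m).compl₂ (Y.r.flip z))

private theorem hsysaLin_tmul (Y : Bim A B) (m : ℤ) (z : Y.M) (a : A.A) (b : B.A) :
    hsysaLin Y m z (a ⊗ₜ b) = Y.l (A.dg.sp m a) (Y.r b z) := by
  rw [hsysaLin, TensorProduct.lift.tmul]
  rfl

private theorem hsysaLin_l (Y : Bim A B) (m : ℤ) (z : Y.M) (a : A.A) (x : A.A ⊗[k] B.A) :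
    hsysaLin Y m z (LinearMap.rTensor B.A (A.mul a) x) = Y.l (A.dg.sp m a) (hsysaLin Y m z x) := by
  induction x using TensorProduct.induction_on with
  | zero => simp
  | add x y hx hy => rw [map_add, map_add, hx, hy, map_add, map_add]
  | tmul x y => rw [LinearMap.rTensor_tmul, hsysaLin_tmul, hsysaLin_tmul, hsysa_sp_mul, Y.l_mul]

private theorem hsysaLin_r (Y : Bim A B) (m : ℤ) (z : Y.M) (b : B.A) (x : A.A ⊗[k] B.A) :
    hsysaLin Y m z (LinearMap.lTensor A.A (B.mul.flip b) x) = Y.r b (hsysaLin Y m z x) := by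
  induction x using TensorProduct.induction_on with
  | zero => simp
  | add x y hx hy => rw [map_add, map_add, hx, hy, map_add, map_add]
  | tmul x y =>
    rw [LinearMap.lTensor_tmul, hsysaLin_tmul, hsysaLin_tmul, LinearMap.flip_apply, Y.r_mul, Y.l_r]

/-- The graded map from the free bimodule which is given by an element. -/
private noncomputable def hsysaFree {Y : Bim A B} {m : ℤ} (z : Y.M) (hz : Y.dg.IsDeg m z) :
    GMap m (free A B) Y where
  f := hsysaLin Y m z
  deg := fun {i x} hx => by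
    refine Dg.tensor_degMap (X := A.dg) (Y := B.dg) (hsysaLin Y m z)
      (fun i' j' v w hv hw => ?_) hx
    have h1 := Y.l_deg (hv.sp (n := m)) (Y.r_deg hz hw)
    rw [show i' + j' + m = i' + (m + j') by ring, hsysaLin_tmul]
    exact h1
  map_l := hsysaLin_l Y m z
  map_r := hsysaLin_r Y m z

/-- Pure tensors. -/
private def hsysaT (A B : DGA k) (a : A.A) (b : B.A) : (free A B).M :=
  (a ⊗ₜ b : A.A ⊗[k] B.A)

private theorem hsysa_ind {P : (free A B).M → Prop} (h0 : P 0)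
    (hadd : ∀ x y, P x → P y → P (x + y)) (ht : ∀ a b, P (hsysaT A B a b))
    (x : (free A B).M) : P x := by
  have key : ∀ y : A.A ⊗[k] B.A, P y := by
    intro y
    induction y using TensorProduct.induction_on with
    | zero => exact h0
    | add v w hv hw => exact hadd v w hv hw
    | tmul v w => exact ht v w
  exact key x

private theorem hsysaFree_one {Y : Bim A B} {m : ℤ} (z : Y.M) (hz : Y.dg.IsDeg m z) :
    (hsysaFree (A := A) (B := B) z hz).f (hsysaT A B A.one B.one) = z := by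
  change hsysaLin Y m z (A.one ⊗ₜ B.one) = z
  rw [hsysaLin_tmul, hsysa_sp_one, Y.r_one, Y.l_one]

private theorem hsysa_d_oneone (A B : DGA k) :
    (free A B).dg.d (hsysaT A B A.one B.one) = 0 := by
  change (A.dg.tensor B.dg).d (A.one ⊗ₜ B.one) = 0
  rw [Dg.tensor_d, hsysa_d_one, hsysa_d_one]
  simp

private theorem hsysa_free_val {Y : Bim A B} {n : ℤ} (φ : GMap n (free A B) Y) (a : A.A)
    (b : B.A) : φ.f (hsysaT A B a b) =
      Y.l (A.dg.sp n a) (Y.r b (φ.f (hsysaT A B A.one B.one))) := by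
  have h1 : (free A B).r b (hsysaT A B A.one B.one) = hsysaT A B A.one b := by
    change LinearMap.lTensor A.A (B.mul.flip b) (A.one ⊗ₜ B.one) = A.one ⊗ₜ b
    rw [LinearMap.lTensor_tmul, LinearMap.flip_apply, B.one_mul]
  have h2 : (free A B).l a (hsysaT A B A.one b) = hsysaT A B a b := by
    change LinearMap.rTensor B.A (A.mul a) (A.one ⊗ₜ b) = a ⊗ₜ b
    rw [LinearMap.rTensor_tmul, A.mul_one]
  rw [← h2, φ.map_l, ← h1, φ.map_r]

private theorem hsysa_free_ext {Y : Bim A B} {n : ℤ} (f g : GMap n (free A B) Y)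
    (h : f.f (hsysaT A B A.one B.one) = g.f (hsysaT A B A.one B.one)) (x : (free A B).M) :
    f.f x = g.f x := by
  refine hsysa_ind (P := fun x => f.f x = g.f x) ?_ ?_ ?_ x
  · rw [map_zero, map_zero]
  · intro v w hv hw
    rw [map_add, map_add, hv, hw]
  · intro a b
    rw [hsysa_free_val f, hsysa_free_val g, h]

private theorem hsysa_c_ρ (Y : Sys A B ι) (i : ι) (x : (Y.N i).M) (n : ℤ) :
    Y.L.dg.ρ ((Y.c i).f x) n = (Y.c i).f ((Y.N i).dg.ρ x n) := by
  have h := (Dg.degMap_iff (X := (Y.N i).dg) (Y := Y.L.dg) (n := 0) (Y.c i).f).1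
    (fun j v hv => (Y.c i).deg hv) x n
  rwa [add_zero] at h

private theorem hsysa_deg_e {Y : Bim A B} {n : ℤ} (f : GMap n (free A B) Y) :
    Y.dg.IsDeg n (f.f (hsysaT A B A.one B.one)) := by
  have h1 : (free A B).dg.IsDeg (0 + 0) (hsysaT A B A.one B.one) :=
    Dg.tensor_deg A.one_deg B.one_deg
  have h2 := f.deg h1
  rw [add_zero, zero_add] at h2
  exact h2

theorem Sys.q_free (Y : Sys A B ι) : Y.Q (free A B) := by
  intro n m l hnm hln i g f hg hf
  have hx : Y.L.dg.IsDeg n (f.f (hsysaT A B A.one B.one)) := hsysa_deg_e f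
  have hdx : Y.L.dg.d (f.f (hsysaT A B A.one B.one)) =
      (Y.c i).f (g.f (hsysaT A B A.one B.one)) := by
    rw [← hf, GMap.dd_apply, hsysa_d_oneone, map_zero, smul_zero, sub_zero]
  obtain ⟨i', z', hz'⟩ := Y.surj (f.f (hsysaT A B A.one B.one))
  -- the homogeneous component
  have hz : (Y.c i').f ((Y.N i').dg.ρ z' n) = f.f (hsysaT A B A.one B.one) := by
    rw [← hsysa_c_ρ, hz']
    have h3 : Y.L.dg.ρ (f.f (hsysaT A B A.one B.one)) =
      Finsupp.single n (f.f (hsysaT A B A.one B.one)) := hx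
    rw [h3, Finsupp.single_eq_same]
  have hzdeg : (Y.N i').dg.IsDeg n ((Y.N i').dg.ρ z' n) := Dg.isDeg_ρ z' n
  generalize (Y.N i').dg.ρ z' n = z at hz hzdeg
  obtain ⟨j0, h0, h0'⟩ := exists_ge_ge i i'
  have hc : (Y.c j0).f ((Y.N j0).dg.d ((Y.t h0').f z) -
      (Y.t h0).f (g.f (hsysaT A B A.one B.one))) = 0 := by
    rw [map_sub, Y.c_t, ← GMap.d_f_zero (Y.c_dd j0), Y.c_t, hz, hdx, sub_self]
  obtain ⟨j, h1, hj⟩ := Y.inj j0 _ hc
  have hw : (Y.N j).dg.IsDeg n ((Y.t h1).f ((Y.t h0').f z)) := by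
    have h2 := (Y.t h1).deg ((Y.t h0').deg hzdeg)
    rwa [add_zero, add_zero] at h2
  have hdw : (Y.N j).dg.d ((Y.t h1).f ((Y.t h0').f z)) =
      (Y.t (h0.trans h1)).f (g.f (hsysaT A B A.one B.one)) := by
    rw [GMap.d_f_zero (Y.t_dd h1), ← Y.t_t h0 h1, ← sub_eq_zero, ← map_sub, hj]
  refine ⟨j, h0.trans h1, hsysaFree _ hw, fun x => ?_, 0, fun x => ?_⟩
  · have h4 := hsysa_free_ext ((hsysaFree _ hw).D hnm)
      (g.comp (Y.t (h0.trans h1)) (add_zero m)) (by
        rw [GMap.D_f, GMap.dd_apply, hsysa_d_oneone, map_zero, smul_zero, sub_zero,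
          hsysaFree_one, hdw, GMap.comp_f]) x
    rw [GMap.D_f, GMap.comp_f] at h4
    exact h4
  · have h5 := hsysa_free_ext f ((hsysaFree _ hw).comp (Y.c j) (add_zero n)) (by
      rw [GMap.comp_f, hsysaFree_one, Y.c_t, Y.c_t, hz]) x
    rw [GMap.comp_f] at h5
    rw [GMap.dd_zero, h5, sub_self]

theorem Sys.q_contr (Y : Sys A B ι) {M : Bim A B} (h : Contr M) : Y.Q M := by
  obtain ⟨h, hh⟩ := h
  intro n m l hnm hln i g f hg hf
  have h1 : -1 + m = n := by omega
  have h2 : -1 + n = l := by omega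
  have hh' : ∀ x, h.dd x = x := fun x => by rw [hh, LinearMap.id_apply]
  have hF : ∀ x, (sg m • ((h.comp g h1).comp (Y.t (le_refl i)) (add_zero n))).dd x =
      (Y.t (le_refl i)).f (g.f x) := by
    intro x
    rw [GMap.dd_smul, GMap.dd_comp, GMap.dd_comp, Y.t_dd, hg, hh', sg_zero, one_smul,
      LinearMap.zero_apply, LinearMap.zero_apply, zero_add, zero_add, map_zsmul, smul_smul,
      sg_mul_self, one_smul]
  refine ⟨i, le_refl i, _, hF, sg n • h.comp
    (f - (sg m • ((h.comp g h1).comp (Y.t (le_refl i)) (add_zero n))).comp (Y.c i) (add_zero n))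
    h2, fun x => ?_⟩
  rw [GMap.dd_smul, GMap.dd_comp, hh', GMap.dd_sub, GMap.dd_comp, hF, Y.c_dd,
    LinearMap.zero_apply, zero_add, sg_zero, one_smul, Y.c_t, hf, sub_self, zero_add, smul_smul,
    sg_mul_self, one_smul, GMap.sub_f, GMap.comp_f]

theorem Sys.q_summand (Y : Sys A B ι) {M' M : Bim A B} (h : IsSummand M' M) (h' : Y.Q M) :
    Y.Q M' := by
  obtain ⟨s, r, hs, hr, hrs⟩ := h
  intro n m l hnm hln i g f hg hf
  obtain ⟨j, hj, F, hF, U, hU⟩ := h' n m l hnm hln i (r.comp g (zero_add m))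
    (r.comp f (zero_add n)) (by
      ext x
      rw [GMap.dd_comp, hg, hr]
      simp) (by
      intro x
      rw [GMap.dd_comp, hr, hf]
      simp)
  refine ⟨j, hj, s.comp F (zero_add n), fun x => ?_, s.comp U (zero_add l), fun x => ?_⟩
  · rw [GMap.dd_comp, hs, hF, GMap.comp_f, hrs]
    simp
  · rw [GMap.dd_comp, hs, hU, GMap.comp_f, hrs]
    simp

end Pool.Agent.MP_6e5bed_ag_NC
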