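import Pool.Agent.Lib.MP_6e5bed_ag_BC.HSys

set_option autoImplicit false

/-!
# Maps to directed unions: short exact sequences
-/

namespace Pool.Agent.MP_6e5bed_ag_NC

universe u

variable {k : Type u} [CommRing k] {A B : DGA k} {ι : Type u} [Preorder ι] [IsDirected ι (· ≤ ·)]

private theorem HSysB_push {M N P : Bim A B} {n : ℤ} (φ : GMap n M N) {ψ : GMap 0 N P}
    (h : ψ.dd = 0) (x : M.M) : (φ.comp ψ (add_zero n)).dd x = ψ.f (φ.dd x) := by
  rw [GMap.dd_comp, h, LinearMap.zero_apply, zero_add, sg_zero, one_smul]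

private theorem HSysB_zero {M N : Bim A B} {n : ℤ} {φ : GMap n M N} (h : ∀ x, φ.dd x = 0) :
    φ.dd = 0 := LinearMap.ext h

theorem Sys.q_mid (Y : Sys A B ι) {M' M M'' : Bim A B} (h : IsExt M' M M'') (h' : Y.Q M')
    (h'' : Y.Q M'') : Y.Q M := by
  intro n m l hnm hln a g f hg hf
  obtain ⟨i, p, r, σ, h0, h1, h2, h3, h4, h5, h6⟩ := h
  obtain ⟨j, hij, F', hF', u', hu'⟩ := h' n m l hnm hln a (i.comp g (zero_add m))
    (i.comp f (zero_add n))
    (HSysB_zero fun x => by rw [null_pull h0, hg, LinearMap.zero_apply])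
    (fun x => by rw [null_pull h0, hf, GMap.comp_f])
  have hF1 : ∀ x, (r.comp F' (zero_add n)).dd (i.f x) = F'.dd x := null_ret h0 h2 F'
  have hu1 : ∀ x, (r.comp u' (zero_add l)).dd (i.f x) = u'.dd x := null_ret h0 h2 u'
  obtain ⟨G, hG1, hG2⟩ := null_factor h1 h6
    (g.comp (Y.t hij) (add_zero m) - (r.comp F' (zero_add n)).D hnm) (fun x => by
      rw [GMap.sub_f, GMap.D_f, hF1, hF', GMap.comp_f, GMap.comp_f, sub_self])
  have hGc : G.dd = 0 := HSysB_zero fun y => by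
    rw [← h3 y, hG2, GMap.dd_sub, GMap.dd_D, HSysB_push _ (Y.t_dd hij), hg,
      LinearMap.zero_apply, map_zero, sub_zero]
  obtain ⟨F, hFa, hFb⟩ := null_factor h1 h6
    (f - (r.comp F' (zero_add n)).comp (Y.c j) (add_zero n) - (r.comp u' (zero_add l)).D hln)
    (fun x => by
      rw [GMap.sub_f, GMap.sub_f, GMap.D_f, hu1, hu', GMap.comp_f, GMap.comp_f, GMap.comp_f, h2,
        sub_self])
  have hFd : ∀ y, F.dd y = (Y.c j).f (G.f y) := by
    intro y
    have e : y = p.f (σ.f y) := (h3 y).symm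
    rw [e, hFb, hG1, GMap.dd_sub, GMap.dd_sub, GMap.dd_D, HSysB_push _ (Y.c_dd j), hf,
      GMap.sub_f, map_sub, GMap.comp_f, Y.c_t, GMap.D_f, sub_zero]
  obtain ⟨j2, hj2, F'', hF'', u'', hu''⟩ := h'' n m l hnm hln j G F hGc hFd
  refine ⟨j2, hij.trans hj2, (r.comp F' (zero_add n)).comp (Y.t hj2) (add_zero n) +
    p.comp F'' (zero_add n), fun x => ?_, r.comp u' (zero_add l) + p.comp u'' (zero_add l),
    fun x => ?_⟩
  · rw [GMap.dd_add, HSysB_push _ (Y.t_dd hj2), null_pull h1, hF'', hG1, GMap.sub_f, GMap.D_f,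
      map_sub, GMap.comp_f, Y.t_t, add_sub_cancel]
  · rw [GMap.dd_add, null_pull h1, hu'', hFa, GMap.sub_f, GMap.sub_f, GMap.D_f, GMap.add_f,
      GMap.comp_f, GMap.comp_f (r.comp F' (zero_add n)) (Y.t hj2), GMap.comp_f p F'', map_add,
      Y.c_t]
    abel

theorem Sys.q_left (Y : Sys A B ι) {M' M M'' : Bim A B} (h : IsExt M' M M'') (h' : Y.Q M)
    (h'' : Y.Q M'') : Y.Q M' := by
  intro n m l hnm hln a g f hg hf
  obtain ⟨i, p, r, σ, h0, h1, h2, h3, h4, h5, h6⟩ := h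
  obtain ⟨κ, hκ, hκ1, hκ2⟩ := ext_kappa h0 h1 h2 h3 h4 h5 h6
  obtain ⟨j, hij, G'', hG'', u'', hu''⟩ := h'' m (1 + m) n (by ring) hnm a (κ.comp g rfl)
    (κ.comp f (by omega))
    (HSysB_zero fun x => by
      rw [GMap.dd_comp, hg, hκ, LinearMap.zero_apply, LinearMap.zero_apply, map_zero, smul_zero,
        add_zero])
    (fun x => by
      rw [GMap.dd_comp, hκ, hf, GMap.comp_f, LinearMap.zero_apply, map_zero, smul_zero,
        add_zero])
  have hs : sg m = - sg n := by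
    rw [← hnm, sg_add, sg_one, mul_neg_one]
  have hgt : (g.comp (Y.t hij) (add_zero m)).dd = 0 := HSysB_zero fun x => by
    rw [HSysB_push _ (Y.t_dd hij), hg, LinearMap.zero_apply, map_zero]
  obtain ⟨j2, hj2, H, hH, U, hU⟩ := h' n m l hnm hln j
    (r.comp (g.comp (Y.t hij) (add_zero m)) (zero_add m) + (sg m) • p.comp G'' (zero_add m))
    (r.comp f (zero_add n) + (sg n) • p.comp u'' (zero_add n))
    (HSysB_zero fun x => by
      rw [GMap.dd_add, GMap.dd_smul, null_pull h1, hG'', GMap.dd_comp, hgt, hκ2,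
        LinearMap.zero_apply, zero_add, GMap.comp_f, GMap.comp_f, map_neg, map_neg, smul_neg,
        neg_add_cancel])
    (fun x => by
      rw [GMap.dd_add, GMap.dd_smul, null_pull h1, hu'', GMap.dd_comp, hf, hκ2, map_neg,
        GMap.add_f, map_add, GMap.comp_f, GMap.comp_f, GMap.comp_f, Y.c_t, GMap.smul_f,
        map_zsmul, GMap.comp_f, hs, smul_sub, smul_neg, neg_smul]
      abel)
  refine ⟨j2, hij.trans hj2, i.comp H (zero_add n), fun x => ?_, i.comp U (zero_add l),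
    fun x => ?_⟩
  · rw [null_pull h0, hH, GMap.add_f, GMap.smul_f, GMap.comp_f, GMap.comp_f, GMap.comp_f, h2,
      h4, map_zero, smul_zero, add_zero, Y.t_t]
  · rw [null_pull h0, hU, GMap.add_f, GMap.smul_f, GMap.comp_f, GMap.comp_f, GMap.comp_f, h2,
      h4, map_zero, smul_zero, add_zero]

theorem Sys.q_right (Y : Sys A B ι) {M' M M'' : Bim A B} (h : IsExt M' M M'') (h' : Y.Q M')
    (h'' : Y.Q M) : Y.Q M'' := by
  intro n m l hnm hln a g f hg hf
  obtain ⟨i, p, r, σ, h0, h1, h2, h3, h4, h5, h6⟩ := h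
  obtain ⟨j, hij, F, hF, u, hu⟩ := h'' n m l hnm hln a (p.comp g (zero_add m))
    (p.comp f (zero_add n))
    (HSysB_zero fun x => by rw [null_pull h1, hg, LinearMap.zero_apply])
    (fun x => by rw [null_pull h1, hf, GMap.comp_f])
  obtain ⟨j2, hj2, F1, hF1, u1, hu1⟩ := h' l n (l - 1) hln (by ring) j
    (i.comp F (zero_add n)) (-(i.comp u (zero_add l)))
    (HSysB_zero fun x => by
      rw [null_pull h0, hF, GMap.comp_f, h4, map_zero, map_zero])
    (fun x => by
      rw [GMap.dd_neg, null_pull h0, hu, GMap.comp_f, h4, map_zero, zero_sub, neg_neg,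
        GMap.comp_f])
  have hrF : ∀ x, (r.comp F1 (zero_add l)).dd (i.f x) = F1.dd x := null_ret h0 h2 F1
  have hru : ∀ x, (r.comp u1 (zero_add (l - 1))).dd (i.f x) = u1.dd x := null_ret h0 h2 u1
  obtain ⟨f', hf1, hf2⟩ := null_factor h1 h6
    (F.comp (Y.t hj2) (add_zero n) - (r.comp F1 (zero_add l)).D hln) (fun x => by
      rw [GMap.sub_f, GMap.D_f, hrF, hF1, GMap.comp_f, GMap.comp_f, sub_self])
  obtain ⟨U, hU1, hU2⟩ := null_factor h1 h6
    (u + (r.comp F1 (zero_add l)).comp (Y.c j2) (add_zero l) +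
      (r.comp u1 (zero_add (l - 1))).D (by ring)) (fun x => by
      rw [GMap.add_f, GMap.add_f, GMap.D_f, hru, hu1, GMap.comp_f, GMap.comp_f, h2, GMap.neg_f,
        GMap.comp_f]
      abel)
  refine ⟨j2, hij.trans hj2, f', fun y => ?_, U, fun y => ?_⟩
  · have e : y = p.f (σ.f y) := (h3 y).symm
    rw [e, hf2, GMap.dd_sub, GMap.dd_D, HSysB_push _ (Y.t_dd hj2), hF, GMap.comp_f, Y.t_t,
      sub_zero]
  · have e : y = p.f (σ.f y) := (h3 y).symm
    rw [e, hU2, hf1, GMap.dd_add, GMap.dd_add, GMap.dd_D, HSysB_push _ (Y.c_dd j2), hu,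
      GMap.comp_f, GMap.sub_f, GMap.D_f, map_sub, GMap.comp_f, Y.c_t]
    abel

end Pool.Agent.MP_6e5bed_ag_NC
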