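import Pool.Agent.Lib.MP_6e5bed_ag_BC.HSysA
import Pool.Agent.Lib.MP_6e5bed_ag_BC.HSysB

set_option autoImplicit false

/-!
# Maps from perfect bimodules to directed unions
-/

namespace Pool.Agent.MP_6e5bed_ag_NC

universe u

variable {k : Type u} [CommRing k] {A B : DGA k} {ι : Type u} [Preorder ι] [IsDirected ι (· ≤ ·)]

theorem Perf.q {M : Bim A B} (hM : Perf M) (Y : Sys A B ι) : Y.Q M := by
  induction hM with
  | free => exact Y.q_free
  | contr h => exact Y.q_contr h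
  | mid h _ _ h1 h2 => exact Y.q_mid h h1 h2
  | left h _ _ h1 h2 => exact Y.q_left h h1 h2
  | right h _ _ h1 h2 => exact Y.q_right h h1 h2
  | summand h _ h1 => exact Y.q_summand h h1

/-- Closed maps from a perfect bimodule to the colimit come from a stage, up to homotopy. -/
theorem Sys.exists_lift (Y : Sys A B ι) {M : Bim A B} (hM : Perf M) (i : ι) {n : ℤ}
    (f : GMap n M Y.L) (hf : f.dd = 0) : ∃ (j : ι) (_ : i ≤ j) (f' : GMap n M (Y.N j)),
      f'.dd = 0 ∧ ∃ u : GMap (n - 1) M Y.L, ∀ x, u.dd x = f.f x - (Y.c j).f (f'.f x) := by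
  obtain ⟨j, h, f', h1, u, h2⟩ := hM.q Y n (n + 1) (n - 1) rfl (by ring) i 0 f
    (LinearMap.ext (fun x => GMap.dd_zero x)) (fun x => by
      rw [hf, GMap.zero_f, map_zero, LinearMap.zero_apply])
  exact ⟨j, h, f', LinearMap.ext (fun x => by
    rw [h1, GMap.zero_f, map_zero, LinearMap.zero_apply]), u, h2⟩

/-- Null homotopies descend to a stage. -/
theorem Sys.exists_null (Y : Sys A B ι) {M : Bim A B} (hM : Perf M) {i : ι} {n : ℤ}
    (g : GMap n M (Y.N i)) (hg : g.dd = 0) (u : GMap (n - 1) M Y.L)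
    (hu : ∀ x, u.dd x = (Y.c i).f (g.f x)) : ∃ (j : ι) (h : i ≤ j) (u' : GMap (n - 1) M (Y.N j)),
      ∀ x, u'.dd x = (Y.t h).f (g.f x) := by
  obtain ⟨j, h, f', h1, -⟩ := hM.q Y (n - 1) n (n - 2) (by ring) (by ring) i g u hg hu
  exact ⟨j, h, f', h1⟩

end Pool.Agent.MP_6e5bed_ag_NC
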