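import Pool.Agent.Lib.MP_6e5bed_ag_NC.Htpy
import Pool.Agent.Lib.MP_6e5bed_ag_NC.K0Api

set_option autoImplicit false

/-!
# Homotopy equivalent bimodules
-/

namespace Pool.Agent.MP_6e5bed_ag_NC

universe u

variable {k k' : Type u} [CommRing k] [CommRing k'] {A B : DGA k} {A' B' : DGA k'}

/-- `M` and `N` are homotopy equivalent. -/
def HE (M N : Bim A B) : Prop := ∃ φ : GMap 0 M N, HtpyEq φ

variable {M N P : Bim A B}

theorem HE.refl (M : Bim A B) : HE M M :=
  ⟨GMap.id M, HtpyEq.of_inv (ψ := GMap.id M) (LinearMap.ext GMap.dd_id) (fun _ => rfl)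
    (fun _ => rfl)⟩

theorem HE.symm (h : HE M N) : HE N M := by
  obtain ⟨φ, hφ⟩ := h
  exact hφ.exists_symm

theorem HE.trans (h : HE M N) (h' : HE N P) : HE M P := by
  obtain ⟨φ, hφ⟩ := h
  obtain ⟨ψ, hψ⟩ := h'
  exact ⟨_, hφ.comp hψ⟩

theorem BIso.he (h : BIso M N) : HE M N := by
  obtain ⟨φ, ψ, h0, h1, h2⟩ := h
  exact ⟨φ, HtpyEq.of_inv h0 h1 h2⟩

theorem HE.map (F : DGFun A B A' B') (h : HE M N) : HE (F.obj M) (F.obj N) := by
  obtain ⟨φ, hφ⟩ := h
  exact ⟨F.map φ, hφ.map F⟩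

theorem HE.of_contr (hM : Contr M) (hN : Contr N) : HE M N := by
  obtain ⟨u, hu⟩ := hM
  obtain ⟨v, hv⟩ := hN
  refine ⟨0, LinearMap.ext GMap.dd_zero, 0, u, v, LinearMap.ext GMap.dd_zero, fun x => ?_,
    fun y => ?_⟩
  · rw [hu, GMap.zero_f, LinearMap.id_apply, sub_zero]
  · rw [hv, GMap.zero_f, LinearMap.id_apply, sub_zero]

theorem HE.perf (h : HE M N) (hM : Perf M) : Perf N := by
  obtain ⟨φ, hφ⟩ := h
  have hc := isCone_cone φ hφ.1
  exact Perf.left hc.isExt (Perf.contr (hφ.contr hc)) (hM.shift 1)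

private theorem he_sg {V : Type u} [AddCommGroup V] [Module k V] (n : ℤ) {x y : V} (h : x = y) :
    (sg n • (sg n • x : V) : V) = y := by
  rw [smul_smul, sg_mul_self, one_smul, h]

/-- The shifted map. -/
private noncomputable def heShift {m : ℤ} (φ : GMap m M N) (n : ℤ) : GMap m (M.shift n) (N.shift n) :=
  (φ.shiftSrc n rfl).shiftTgt n rfl

private theorem heShift_f {m : ℤ} (φ : GMap m M N) (n : ℤ) (x : M.M) :
    (heShift φ n).f x = φ.f x := rfl

private theorem heShift_dd {m : ℤ} (φ : GMap m M N) (n : ℤ) (x : M.M) :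
    (heShift φ n).dd x = sg n • φ.dd x := by
  refine (GMap.shiftTgt_dd (φ.shiftSrc n rfl) n rfl x).trans ?_
  exact congrArg (fun y : N.M => sg n • y) (GMap.shiftSrc_dd φ n rfl x)

theorem HE.shift (h : HE M N) (n : ℤ) : HE (M.shift n) (N.shift n) := by
  obtain ⟨φ, h0, ψ, u, v, h1, h2, h3⟩ := h
  refine ⟨heShift φ n, LinearMap.ext fun x => ?_, heShift ψ n, sg n • heShift u n,
    sg n • heShift v n, LinearMap.ext fun x => ?_, fun x => ?_, fun x => ?_⟩
  · refine (heShift_dd φ n x).trans ?_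
    rw [h0, LinearMap.zero_apply]
    exact smul_zero (sg n)
  · refine (heShift_dd ψ n x).trans ?_
    rw [h1, LinearMap.zero_apply]
    exact smul_zero (sg n)
  · refine (GMap.dd_smul (sg n) (heShift u n) x).trans ?_
    refine (congrArg (fun y : M.M => sg n • y) (heShift_dd u n x)).trans ?_
    exact he_sg (k := k) (V := M.M) n (h2 x)
  · refine (GMap.dd_smul (sg n) (heShift v n) x).trans ?_
    refine (congrArg (fun y : N.M => sg n • y) (heShift_dd v n x)).trans ?_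
    exact he_sg (k := k) (V := N.M) n (h3 x)

/-- Homotopy equivalent perfect bimodules have the same class. -/
theorem K0Q.cls_he (h : HE M N) (hM : Perf M) (hN : Perf N) : cls M hM = cls N hN := by
  obtain ⟨φ, hφ⟩ := h
  exact K0Q.cls_qiso hM hN φ hφ.qiso

/-- The class of a cone. -/
theorem K0Q.cls_cone {C : Bim A B} {φ : GMap 0 M N} (hC : IsCone φ C) (hM : Perf M)
    (hN : Perf N) (hC' : Perf C) : cls C hC' = cls N hN - cls M hM := by
  have h1 := K0Q.cls_ext hN hC' (hM.shift 1) hC.isExt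
  rw [h1, K0Q.cls_shift hM 1 (hM.shift 1), sg_one]
  simp [sub_eq_add_neg]

/-- The map to a direct sum. -/
private noncomputable def heTo {X Y : Bim A B} {h : (0 : GMap 1 X Y).dd = 0} (a : GMap 0 N X)
    (b : GMap 0 N Y) : GMap 0 N (tsum (0 : GMap 1 X Y) h) where
  f := a.f.prod b.f
  deg := fun {i m} hm => tsum_deg.2 ⟨a.deg hm, b.deg hm⟩
  map_l := fun c x => by
    have e1 := a.map_l c x
    have e2 := b.map_l c x
    change ((a.f (N.l c x), b.f (N.l c x)) : X.M × Y.M) = (X.l _ (a.f x), Y.l _ (b.f x))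
    rw [e1, e2]
  map_r := fun c x => by
    have e1 := a.map_r c x
    have e2 := b.map_r c x
    change ((a.f (N.r c x), b.f (N.r c x)) : X.M × Y.M) = (X.r _ (a.f x), Y.r _ (b.f x))
    rw [e1, e2]

private theorem heTo_dd {X Y : Bim A B} {h : (0 : GMap 1 X Y).dd = 0} {a : GMap 0 N X}
    {b : GMap 0 N Y} (ha : a.dd = 0) (hb : b.dd = 0) : (heTo (h := h) a b).dd = 0 := by
  refine LinearMap.ext fun x => ?_
  have e1 := GMap.d_f_zero ha x
  have e2 := GMap.d_f_zero hb x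
  change ((X.dg.d (a.f x), (0 : Y.M) + Y.dg.d (b.f x)) : X.M × Y.M) -
    sg 0 • ((a.f (N.dg.d x), b.f (N.dg.d x)) : X.M × Y.M) = 0
  rw [sg_zero, one_smul, e1, e2, zero_add, sub_self]

/-- The map from a direct sum. -/
private noncomputable def heFrom {X Y : Bim A B} {h : (0 : GMap 1 X Y).dd = 0} (a : GMap 0 X N)
    (b : GMap 0 Y N) : GMap 0 (tsum (0 : GMap 1 X Y) h) N where
  f := a.f.coprod b.f
  deg := fun {i m} hm => by
    obtain ⟨x, y⟩ := m
    have h1 := tsum_deg.1 hm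
    exact (a.deg h1.1).add (b.deg h1.2)
  map_l := fun c m => by
    obtain ⟨x, y⟩ := m
    change a.f (X.l c x) + b.f (Y.l c y) = N.l _ (a.f x + b.f y)
    rw [a.map_l, b.map_l, map_add]
  map_r := fun c m => by
    obtain ⟨x, y⟩ := m
    change a.f (X.r c x) + b.f (Y.r c y) = N.r _ (a.f x + b.f y)
    rw [a.map_r, b.map_r, map_add]

private theorem heFrom_dd {X Y : Bim A B} {h : (0 : GMap 1 X Y).dd = 0} {a : GMap 0 X N}
    {b : GMap 0 Y N} (ha : a.dd = 0) (hb : b.dd = 0) : (heFrom (h := h) a b).dd = 0 := by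
  refine LinearMap.ext fun m => ?_
  obtain ⟨x, y⟩ := m
  have e1 := GMap.d_f_zero ha x
  have e2 := GMap.d_f_zero hb y
  change N.dg.d (a.f x + b.f y) - sg 0 • (a.f (X.dg.d x) + b.f ((0 : Y.M) + Y.dg.d y)) = 0
  rw [sg_zero, one_smul, map_add, e1, e2, zero_add, sub_self]

/-- A homotopy retract of a perfect bimodule is perfect. -/
theorem Perf.of_retract {i : GMap 0 N M} {r : GMap 0 M N} (hi : i.dd = 0) (hr : r.dd = 0)
    (u : GMap (-1) N N) (hu : ∀ x, u.dd x = x - r.f (i.f x)) (hM : Perf M) : Perf N := by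
  obtain ⟨C, hC, hCc⟩ : ∃ C : Bim A B, IsCone (GMap.id N) C ∧ Contr C :=
    ⟨cone (GMap.id N) (LinearMap.ext GMap.dd_id), isCone_cone _ _, contr_cone_id N⟩
  obtain ⟨t, j, p, q, h0, h1, h2, h3, h4, h5, h6, h7⟩ := hC
  have hq := IsCone.q_dd h1 h2 h4 h6 h7
  have ha : ∀ x, (GMap.id N - i.comp r (add_zero 0)).dd x = 0 := fun x => by
    rw [GMap.dd_sub, GMap.dd_id, GMap.dd_comp, hr, hi, LinearMap.zero_apply,
      LinearMap.zero_apply, map_zero, smul_zero, add_zero, sub_zero]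
  obtain ⟨H, hH, hHj⟩ : ∃ H : GMap 0 C N, H.dd = 0 ∧ ∀ y, H.f (j.f y) = y - r.f (i.f y) := by
    refine ⟨q.comp (GMap.id N - i.comp r (add_zero 0)) (add_zero 0) +
      p.comp u (add_neg_cancel 1), LinearMap.ext fun c => ?_, fun y => ?_⟩
    · rw [GMap.dd_add, GMap.dd_comp, GMap.dd_comp, ha, hq, h0, hu]
      simp only [LinearMap.zero_apply, map_zero, smul_zero, add_zero, sg_zero, one_smul,
        zero_add, map_neg, GMap.sub_f, GMap.comp_f, GMap.id_f]
      abel
    · rw [GMap.add_f, GMap.comp_f, GMap.comp_f, h4, h5, map_zero, add_zero, GMap.sub_f,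
        GMap.comp_f, GMap.id_f]
  have h0' : (0 : GMap 1 M C).dd = 0 := LinearMap.ext GMap.dd_zero
  have hD : Perf (tsum (0 : GMap 1 M C) h0') := Perf.mid (isExt_tsum _ h0') (Perf.contr hCc) hM
  refine Perf.summand (⟨heTo i j, heFrom r H, heTo_dd hi h1, heFrom_dd hr hH, fun x => ?_⟩ :
    IsSummand N (tsum (0 : GMap 1 M C) h0')) hD
  change r.f (i.f x) + H.f (j.f x) = x
  rw [hHj]
  abel

/-- Two homotopy retracts of `M` with homotopic idempotents are homotopy equivalent. -/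
theorem HE.of_retracts {i : GMap 0 N M} {r : GMap 0 M N} {j : GMap 0 P M} {s : GMap 0 M P}
    (hi : i.dd = 0) (hr : r.dd = 0) (hj : j.dd = 0) (hs : s.dd = 0)
    (u : GMap (-1) N N) (hu : ∀ x, u.dd x = x - r.f (i.f x))
    (v : GMap (-1) P P) (hv : ∀ x, v.dd x = x - s.f (j.f x))
    (w : GMap (-1) M M) (hw : ∀ x, w.dd x = i.f (r.f x) - j.f (s.f x)) : HE N P := by
  refine ⟨i.comp s (add_zero 0), LinearMap.ext fun x => ?_, j.comp r (add_zero 0),
    (u + u.comp (i.comp r (add_zero 0)) (add_zero (-1))) +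
      i.comp (w.comp r (add_zero (-1))) (zero_add (-1)),
    (v + v.comp (j.comp s (add_zero 0)) (add_zero (-1))) -
      j.comp (w.comp s (add_zero (-1))) (zero_add (-1)), LinearMap.ext fun x => ?_,
    fun x => ?_, fun y => ?_⟩
  · rw [GMap.dd_comp, hi, hs]
    simp
  · rw [GMap.dd_comp, hj, hr]
    simp
  · rw [GMap.dd_add, GMap.dd_add, GMap.dd_comp, GMap.dd_comp, GMap.dd_comp, GMap.dd_comp, hi, hr,
      hw, hu]
    simp only [LinearMap.zero_apply, map_zero, smul_zero, add_zero, zero_add, sg_zero, one_smul,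
      map_sub, GMap.comp_f]
    abel
  · rw [GMap.dd_sub, GMap.dd_add, GMap.dd_comp, GMap.dd_comp, GMap.dd_comp, GMap.dd_comp, hj, hs,
      hw, hv]
    simp only [LinearMap.zero_apply, map_zero, smul_zero, add_zero, zero_add, sg_zero, one_smul,
      map_sub, GMap.comp_f]
    abel

end Pool.Agent.MP_6e5bed_ag_NC
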