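import Pool.Agent.Lib.MP_6e5bed_ag_BC.BcRq
import Pool.Agent.Lib.MP_6e5bed_ag_BC.BcComp
import Pool.Agent.Lib.MP_6e5bed_ag_BC.BcTb
import Pool.Agent.Lib.MP_6e5bed_ag_BC.BcBox
import Pool.Agent.Lib.MP_6e5bed_ag_NC.KBox

set_option autoImplicit false

/-!
# Base change on Grothendieck groups
-/

namespace Pool.Agent.MP_6e5bed_ag_NC

attribute [local instance] Alg.iR Alg.iA Cf.iG Cf.iM Rs.iG Rs.iM

universe u

variable {k : Type u} [CommRing k] {S T U : Type u} [CommRing S] [CommRing T] [CommRing U]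
  [Algebra k S] [Algebra k T] [Algebra k U] {A B C A' B' : DGA k} (f : S →ₐ[k] T)

namespace K0Q

/-- Base change `[M] ↦ [T ⊗_S M]`. -/
noncomputable def cf : K0Q (A.bc S) (B.bc S) →ₗ[ℚ] K0Q (A.bc T) (B.bc T) :=
  (cfF f A B).k0 ((cf_free f A B).symm.perf Perf.free)

theorem cf_cls {M : Bim (A.bc S) (B.bc S)} (h : Perf M) :
    cf f (cls M h) = cls (M.cf f) h.cf := DGFun.k0_cls _ _ h

theorem cf_id' (x : K0Q (A.bc S) (B.bc S)) : cf (AlgHom.id k S) x = x := by
  have h : cf (AlgHom.id k S) = (LinearMap.id : K0Q (A.bc S) (B.bc S) →ₗ[ℚ] _) :=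
    hom_ext (fun M hM => by
      rw [cf_cls]
      exact cls_iso (cf_id M) _ _)
  rw [h, LinearMap.id_apply]

theorem cf_cf' (g : T →ₐ[k] U) (h : S →ₐ[k] U) (e : ∀ s, g (f s) = h s)
    (x : K0Q (A.bc S) (B.bc S)) : cf g (cf f x) = cf h x := by
  have h' : (cf g).comp (cf f) = cf (A := A) (B := B) h :=
    hom_ext (fun M hM => by
      rw [LinearMap.comp_apply, cf_cls, cf_cls, cf_cls]
      exact cls_iso (cf_cf f g h e M) _ _)
  exact LinearMap.congr_fun h' x

theorem cf_comp (hS : Proper (B.bc S)) (hT : Proper (B.bc T)) (x : K0Q (A.bc S) (B.bc S))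
    (y : K0Q (B.bc S) (C.bc S)) : cf f (comp hS x y) = comp hT (cf f x) (cf f y) := by
  have h : (comp hS).compr₂ (cf (A := A) (B := C) f) =
      (comp hT).compl₁₂ (cf (A := A) (B := B) f) (cf (A := B) (B := C) f) :=
    ind₂ (fun M hM N hN => by
      rw [LinearMap.compr₂_apply, LinearMap.compl₁₂_apply, comp_cls, cf_cls, cf_cls, cf_cls,
        comp_cls]
      exact cls_iso (cf_tb f M N) _ _)
  exact LinearMap.congr_fun₂ h x y

theorem cf_one (hS : Smooth (A.bc S)) (hT : Smooth (A.bc T)) (hT' : Proper (A.bc T)) :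
    cf f (one hS) = one hT := by
  obtain ⟨α, β, h0, h1, h2⟩ := cf_diag f A
  have hq : RQIso ((GMap.cf f hS.choose_spec.choose).comp α (add_zero 0)) :=
    RQIso.comp (RQIso.cf hS.choose_spec.choose_spec.2) (RQIso.of_inv h0 h1 h2)
  rw [one_eq hT hT' (Perf.cf hS.choose_spec.choose_spec.1) hq]
  exact cf_cls f hS.choose_spec.choose_spec.1

theorem cf_res (φ : DIso A A') (ψ : DIso B B') (x : K0Q (A'.bc S) (B'.bc S)) :
    cf f (res (φ.bc S) (ψ.bc S) x) = res (φ.bc T) (ψ.bc T) (cf f x) := by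
  have h : (cf f).comp (res (φ.bc S) (ψ.bc S)) = (res (φ.bc T) (ψ.bc T)).comp (cf f) :=
    hom_ext (fun M hM => by
      rw [LinearMap.comp_apply, LinearMap.comp_apply, res_cls, cf_cls, cf_cls, res_cls]
      exact cls_iso (MP_6e5bed_ag_NC.cf_res f φ.hom ψ.hom M) _ _)
  exact LinearMap.congr_fun h x

theorem cf_tens (x : K0Q (A.bc S) (B.bc S)) (y : K0Q (A'.bc S) (B'.bc S)) :
    cf f (res (tensIso S A A') (tensIso S B B') (box x y)) =
      res (tensIso T A A') (tensIso T B B') (box (cf f x) (cf f y)) := by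
  have h : (box.compr₂ (res (tensIso S A A') (tensIso S B B'))).compr₂ (cf f) =
      (box.compl₁₂ (cf f) (cf f)).compr₂ (res (tensIso T A A') (tensIso T B B')) :=
    ind₂ (fun M hM N hN => by
      rw [LinearMap.compr₂_apply, LinearMap.compr₂_apply, LinearMap.compr₂_apply,
        LinearMap.compl₁₂_apply, box_cls, res_cls, cf_cls, cf_cls, cf_cls, box_cls, res_cls]
      exact cls_iso (MP_6e5bed_ag_NC.cf_tens f M N) _ _)
  exact LinearMap.congr_fun₂ h x y

end K0Q

end Pool.Agent.MP_6e5bed_ag_NC
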