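import Pool.Agent.Lib.MP_6e5bed_ag_BC.RsDefs

set_option autoImplicit false

/-!
# The tensor product of a module and a dg bimodule over the base ring
-/

namespace Pool.Agent.MP_6e5bed_ag_NC

attribute [local instance] Alg.iR Alg.iA Cf.iG Cf.iM Rs.iG Rs.iM

open scoped TensorProduct

universe u

section Dg

variable {S : Type u} [CommRing S] (Q : Type u) [AddCommGroup Q] [Module S Q]
  {V W : Type u} [AddCommGroup V] [Module S V] [AddCommGroup W] [Module S W]

/-- The components of an element of `Q ⊗ V`. -/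
noncomputable def qtρ (X : Dg S V) : Q ⊗[S] V →ₗ[S] (ℤ →₀ Q ⊗[S] V) :=
  TensorProduct.lift (LinearMap.mk₂ S
    (fun q v => Finsupp.mapRange.linearMap (TensorProduct.mk S Q V q) (X.ρ v))
    (fun q q' v => by
      ext n
      simp [TensorProduct.add_tmul])
    (fun s q v => by
      ext n
      simp [TensorProduct.smul_tmul'])
    (fun q v v' => by
      simp only [map_add])
    (fun s q v => by
      simp only [map_smul]))

theorem qtρ_tmul (X : Dg S V) (q : Q) (v : V) (n : ℤ) :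
    qtρ Q X (q ⊗ₜ[S] v) n = q ⊗ₜ[S] (X.ρ v n) := by
  rw [qtρ, TensorProduct.lift.tmul]
  rfl

/-- The complex `Q ⊗ V`. -/
noncomputable def Dg.qt (X : Dg S V) : Dg S (Q ⊗[S] V) where
  ρ := qtρ Q X
  sum_ρ := fun v => by
    have h1 : ∀ x : ℤ →₀ Q ⊗[S] V, x.sum (fun _ w => w) =
        Finsupp.lsum S (fun _ : ℤ => (LinearMap.id : Q ⊗[S] V →ₗ[S] Q ⊗[S] V)) x := fun x => rfl
    have h2 : (Finsupp.lsum S (fun _ : ℤ => (LinearMap.id : Q ⊗[S] V →ₗ[S] Q ⊗[S] V))).comp
        (qtρ Q X) = LinearMap.id := TensorProduct.ext' (fun q v => by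
      rw [LinearMap.comp_apply, ← h1, LinearMap.id_apply, qtρ, TensorProduct.lift.tmul]
      change (Finsupp.mapRange (TensorProduct.mk S Q V q) (map_zero _) (X.ρ v)).sum
        (fun _ w => w) = _
      rw [Finsupp.sum_mapRange_index (fun _ => rfl)]
      have h3 := congrArg (TensorProduct.mk S Q V q) (X.sum_ρ v)
      rw [map_finsuppSum] at h3
      exact h3)
    rw [h1]
    exact LinearMap.congr_fun h2 v
  ρ_ρ := fun v n => by
    have h1 : (qtρ Q X).comp ((Finsupp.lapply n).comp (qtρ Q X)) =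
        (Finsupp.lsingle n).comp ((Finsupp.lapply n).comp (qtρ Q X)) :=
        TensorProduct.ext' (fun q v => by
      simp only [LinearMap.comp_apply, Finsupp.lapply_apply, Finsupp.lsingle_apply]
      rw [qtρ_tmul]
      ext m
      rw [qtρ_tmul, X.ρ_ρ, Finsupp.single_apply, Finsupp.single_apply]
      split_ifs
      · rfl
      · exact TensorProduct.tmul_zero _ _)
    exact LinearMap.congr_fun h1 v
  d := X.d.lTensor Q
  d_d := fun v => by
    have h1 : (X.d.lTensor Q).comp (X.d.lTensor Q) = 0 := TensorProduct.ext' (fun q v => by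
      rw [LinearMap.comp_apply, LinearMap.lTensor_tmul, LinearMap.lTensor_tmul, X.d_d,
        TensorProduct.tmul_zero]
      rfl)
    exact LinearMap.congr_fun h1 v
  ρ_d := fun v n => by
    have h1 : (Finsupp.lapply (n + 1)).comp ((qtρ Q X).comp (X.d.lTensor Q)) =
        (X.d.lTensor Q).comp ((Finsupp.lapply n).comp (qtρ Q X)) :=
        TensorProduct.ext' (fun q v => by
      simp only [LinearMap.comp_apply, Finsupp.lapply_apply]
      rw [LinearMap.lTensor_tmul, qtρ_tmul, qtρ_tmul, LinearMap.lTensor_tmul, X.ρ_d])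
    exact LinearMap.congr_fun h1 v

variable {Q} {X : Dg S V} {Y : Dg S W}

theorem Dg.qt_ρ (q : Q) (v : V) (n : ℤ) : (X.qt Q).ρ (q ⊗ₜ[S] v) n = q ⊗ₜ[S] (X.ρ v n) :=
  qtρ_tmul Q X q v n

theorem Dg.qt_d (q : Q) (v : V) : (X.qt Q).d (q ⊗ₜ[S] v) = q ⊗ₜ[S] (X.d v) := rfl

theorem Dg.qt_deg {n : ℤ} (q : Q) {v : V} (h : X.IsDeg n v) : (X.qt Q).IsDeg n (q ⊗ₜ[S] v) := by
  unfold Dg.IsDeg at *
  ext m
  rw [Dg.qt_ρ, h, Finsupp.single_apply, Finsupp.single_apply]
  split_ifs
  · rfl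
  · exact TensorProduct.tmul_zero _ _

theorem Dg.qt_o (q : Q) (v : V) : (X.qt Q).o (q ⊗ₜ[S] v) = q ⊗ₜ[S] (X.o v) := by
  refine X.ind (P := fun v => (X.qt Q).o (q ⊗ₜ[S] v) = q ⊗ₜ[S] (X.o v)) ?_ ?_ ?_ v
  · simp only [TensorProduct.tmul_zero, map_zero]
  · intro v w hv hw
    simp only [TensorProduct.tmul_add, map_add, hv, hw]
  · intro n v hv
    rw [Dg.o_of_deg hv, Dg.o_of_deg (Dg.qt_deg q hv)]
    split_ifs
    · rfl
    · exact (TensorProduct.tmul_zero _ _).symm

theorem Dg.qt_s (q : Q) (v : V) : (X.qt Q).s (q ⊗ₜ[S] v) = q ⊗ₜ[S] (X.s v) := by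
  rw [Dg.s_apply, Dg.s_apply, Dg.qt_o, TensorProduct.tmul_sub, two_smul, two_smul,
    TensorProduct.tmul_add]

/-- A linear map on `Q ⊗ V` is homogeneous if it is so on pure tensors. -/
theorem Dg.qt_degMap {Z : Dg S W} {n : ℤ} (φ : Q ⊗[S] V →ₗ[S] W)
    (h : ∀ (q : Q) {j : ℤ} {v : V}, X.IsDeg j v → Z.IsDeg (j + n) (φ (q ⊗ₜ[S] v)))
    {j : ℤ} {x : Q ⊗[S] V} (hx : (X.qt Q).IsDeg j x) : Z.IsDeg (j + n) (φ x) := by
  refine (Dg.degMap_iff (X := X.qt Q) (Y := Z) φ).2 (fun x j => ?_) j x hx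
  have h1 : (Finsupp.lapply (j + n)).comp (Z.ρ.comp φ) =
      φ.comp ((Finsupp.lapply j).comp (X.qt Q).ρ) := TensorProduct.ext' (fun q v => by
    simp only [LinearMap.comp_apply, Finsupp.lapply_apply]
    rw [Dg.qt_ρ]
    refine X.ind (P := fun v => Z.ρ (φ (q ⊗ₜ[S] v)) (j + n) = φ (q ⊗ₜ[S] X.ρ v j)) ?_ ?_ ?_ v
    · simp only [map_zero, TensorProduct.tmul_zero, Finsupp.coe_zero, Pi.zero_apply]
    · intro v w hv hw
      simp only [TensorProduct.tmul_add, map_add, Finsupp.add_apply, hv, hw]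
    · intro i v hv
      have h2 : Z.ρ (φ (q ⊗ₜ[S] v)) = Finsupp.single (i + n) (φ (q ⊗ₜ[S] v)) := h q hv
      have h3 : X.ρ v = Finsupp.single i v := hv
      rw [h2, h3, Finsupp.single_apply, Finsupp.single_apply]
      by_cases hij : i = j
      · rw [if_pos hij, if_pos (by rw [hij])]
      · rw [if_neg hij, if_neg (fun h => hij (by omega)), TensorProduct.tmul_zero, map_zero])
  exact LinearMap.congr_fun h1 x

end Dg

variable {S : Type u} [CommRing S] {A B : DGA S}

/-- The bimodule `Q ⊗ M`. -/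
noncomputable def Bim.qt (Q : Type u) [AddCommGroup Q] [Module S Q] (M : Bim A B) : Bim A B where
  M := Q ⊗[S] M.M
  dg := M.dg.qt Q
  l := (LinearMap.lTensorHom Q).comp M.l
  r := (LinearMap.lTensorHom Q).comp M.r
  l_one := fun m => by
    have h : (M.l A.one).lTensor Q = LinearMap.id := TensorProduct.ext' (fun q m => by
      rw [LinearMap.lTensor_tmul, M.l_one]
      rfl)
    exact LinearMap.congr_fun h m
  r_one := fun m => by
    have h : (M.r B.one).lTensor Q = LinearMap.id := TensorProduct.ext' (fun q m => by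
      rw [LinearMap.lTensor_tmul, M.r_one]
      rfl)
    exact LinearMap.congr_fun h m
  l_mul := fun a a' m => by
    have h : (M.l (A.mul a a')).lTensor Q = ((M.l a).lTensor Q).comp ((M.l a').lTensor Q) :=
      TensorProduct.ext' (fun q m => by
        rw [LinearMap.comp_apply, LinearMap.lTensor_tmul, LinearMap.lTensor_tmul,
          LinearMap.lTensor_tmul, M.l_mul])
    exact LinearMap.congr_fun h m
  r_mul := fun b b' m => by
    have h : (M.r (B.mul b b')).lTensor Q = ((M.r b').lTensor Q).comp ((M.r b).lTensor Q) :=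
      TensorProduct.ext' (fun q m => by
        rw [LinearMap.comp_apply, LinearMap.lTensor_tmul, LinearMap.lTensor_tmul,
          LinearMap.lTensor_tmul, M.r_mul])
    exact LinearMap.congr_fun h m
  l_r := fun a b m => by
    have h : ((M.l a).lTensor Q).comp ((M.r b).lTensor Q) =
        ((M.r b).lTensor Q).comp ((M.l a).lTensor Q) :=
      TensorProduct.ext' (fun q m => by
        rw [LinearMap.comp_apply, LinearMap.comp_apply, LinearMap.lTensor_tmul,
          LinearMap.lTensor_tmul, LinearMap.lTensor_tmul, LinearMap.lTensor_tmul, M.l_r])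
    exact LinearMap.congr_fun h m
  l_deg := fun {i j a m} ha hm => by
    rw [add_comm]
    exact Dg.qt_degMap (X := M.dg) (Z := M.dg.qt Q) ((M.l a).lTensor Q) (fun q {j v} hv => by
      rw [LinearMap.lTensor_tmul, add_comm]
      exact Dg.qt_deg q (M.l_deg ha hv)) hm
  r_deg := fun {i j b m} hm hb =>
    Dg.qt_degMap (X := M.dg) (Z := M.dg.qt Q) ((M.r b).lTensor Q) (fun q {j v} hv => by
      rw [LinearMap.lTensor_tmul]
      exact Dg.qt_deg q (M.r_deg hv hb)) hm
  d_l := fun a m => by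
    have h : (M.dg.qt Q).d.comp ((M.l a).lTensor Q) = (M.l (A.dg.d a)).lTensor Q +
        ((M.l (A.dg.s a)).lTensor Q).comp (M.dg.qt Q).d :=
      TensorProduct.ext' (fun q m => by
        rw [LinearMap.comp_apply, LinearMap.add_apply, LinearMap.comp_apply,
          LinearMap.lTensor_tmul, LinearMap.lTensor_tmul, Dg.qt_d, Dg.qt_d,
          LinearMap.lTensor_tmul, M.d_l, TensorProduct.tmul_add])
    exact LinearMap.congr_fun h m
  d_r := fun b m => by
    have h : (M.dg.qt Q).d.comp ((M.r b).lTensor Q) = ((M.r b).lTensor Q).comp (M.dg.qt Q).d +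
        ((M.r (B.dg.d b)).lTensor Q).comp (M.dg.qt Q).s :=
      TensorProduct.ext' (fun q m => by
        rw [LinearMap.comp_apply, LinearMap.add_apply, LinearMap.comp_apply,
          LinearMap.comp_apply, LinearMap.lTensor_tmul, Dg.qt_d, Dg.qt_d, Dg.qt_s,
          LinearMap.lTensor_tmul, LinearMap.lTensor_tmul, M.d_r, TensorProduct.tmul_add])
    exact LinearMap.congr_fun h m

section qt

variable {Q : Type u} [AddCommGroup Q] [Module S Q] {M N P : Bim A B}

/-- The pure tensor `q ⊗ m`. -/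
noncomputable def Bim.tq (M : Bim A B) (q : Q) : M.M →+ (M.qt Q).M :=
  (TensorProduct.mk S Q M.M q).toAddMonoidHom

theorem Bim.tq_smul (q : Q) (s : S) (m : M.M) : M.tq q (s • m) = s • M.tq q m :=
  (TensorProduct.mk S Q M.M q).map_smul s m

theorem Bim.smul_tq (q : Q) (s : S) (m : M.M) : M.tq (s • q) m = s • M.tq q m := rfl

theorem Bim.add_tq (q q' : Q) (m : M.M) : M.tq (q + q') m = M.tq q m + M.tq q' m :=
  TensorProduct.add_tmul q q' m

theorem Bim.tq_l (q : Q) (a : A.A) (m : M.M) : (M.qt Q).l a (M.tq q m) = M.tq q (M.l a m) := rfl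

theorem Bim.tq_r (q : Q) (b : B.A) (m : M.M) : (M.qt Q).r b (M.tq q m) = M.tq q (M.r b m) := rfl

theorem Bim.tq_d (q : Q) (m : M.M) : (M.qt Q).dg.d (M.tq q m) = M.tq q (M.dg.d m) := rfl

theorem Bim.tq_s (q : Q) (m : M.M) : (M.qt Q).dg.s (M.tq q m) = M.tq q (M.dg.s m) :=
  Dg.qt_s q m

theorem Bim.tq_deg {n : ℤ} (q : Q) {m : M.M} (h : M.dg.IsDeg n m) :
    (M.qt Q).dg.IsDeg n (M.tq q m) := Dg.qt_deg q h

theorem Bim.tq_ind {P : (M.qt Q).M → Prop} (h0 : P 0) (hadd : ∀ x y, P x → P y → P (x + y))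
    (h : ∀ q m, P (M.tq q m)) (x : (M.qt Q).M) : P x :=
  TensorProduct.induction_on (R := S) (M := Q) (N := M.M) (motive := P) x h0 h hadd

/-- The linear map on `Q ⊗ M` given by a bilinear map. -/
noncomputable def Bim.tqLift {W : Type u} [AddCommGroup W] [Module S W] (M : Bim A B)
    (β : Q →ₗ[S] M.M →ₗ[S] W) : (M.qt Q).M →ₗ[S] W := TensorProduct.lift β

theorem Bim.tqLift_tq {W : Type u} [AddCommGroup W] [Module S W]
    (β : Q →ₗ[S] M.M →ₗ[S] W) (q : Q) (m : M.M) : M.tqLift β (M.tq q m) = β q m :=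
  TensorProduct.lift.tmul q m

theorem Bim.tq_ext {W : Type u} [AddCommGroup W] [Module S W]
    {φ ψ : (M.qt Q).M →ₗ[S] W} (h : ∀ q m, φ (M.tq q m) = ψ (M.tq q m)) : φ = ψ :=
  TensorProduct.ext' h

/-- A graded map `Q ⊗ M → N` given by a linear map and conditions on pure tensors. -/
noncomputable def GMap.ofQt {n : ℤ} (φ : (M.qt Q).M →ₗ[S] N.M)
    (hdeg : ∀ (q : Q) {i : ℤ} {m : M.M}, M.dg.IsDeg i m → N.dg.IsDeg (i + n) (φ (M.tq q m)))
    (hl : ∀ (q : Q) a m, φ (M.tq q (M.l a m)) = N.l (A.dg.sp n a) (φ (M.tq q m)))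
    (hr : ∀ (q : Q) b m, φ (M.tq q (M.r b m)) = N.r b (φ (M.tq q m))) :
    GMap n (M.qt Q) N where
  f := φ
  deg := fun h => Dg.qt_degMap (X := M.dg) (Z := N.dg) φ (fun q {j v} hv => hdeg q hv) h
  map_l := fun a x => by
    have h : φ.comp ((M.qt Q).l a) = (N.l (A.dg.sp n a)).comp φ := Bim.tq_ext (fun q m => by
      rw [LinearMap.comp_apply, LinearMap.comp_apply, Bim.tq_l, hl])
    exact LinearMap.congr_fun h x
  map_r := fun b x => by
    have h : φ.comp ((M.qt Q).r b) = (N.r b).comp φ := Bim.tq_ext (fun q m => by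
      rw [LinearMap.comp_apply, LinearMap.comp_apply, Bim.tq_r, hr])
    exact LinearMap.congr_fun h x

/-- The map `Q ⊗ M → Q ⊗ N` given by `M → N`. -/
noncomputable def GMap.qt (Q : Type u) [AddCommGroup Q] [Module S Q] {n : ℤ} (φ : GMap n M N) :
    GMap n (M.qt Q) (N.qt Q) :=
  GMap.ofQt (φ.f.lTensor Q)
    (fun q {i m} h => Bim.tq_deg q (φ.deg h))
    (fun q a m => congrArg (N.tq q) (φ.map_l a m))
    (fun q b m => congrArg (N.tq q) (φ.map_r b m))

theorem GMap.qt_tq {n : ℤ} (φ : GMap n M N) (q : Q) (m : M.M) :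
    (φ.qt Q).f (M.tq q m) = N.tq q (φ.f m) := rfl

/-- The map `Q ⊗ M → Q' ⊗ M` given by `Q → Q'`. -/
noncomputable def GMap.qm {Q' : Type u} [AddCommGroup Q'] [Module S Q'] (M : Bim A B)
    (g : Q →ₗ[S] Q') : GMap 0 (M.qt Q) (M.qt Q') :=
  GMap.ofQt (g.rTensor M.M)
    (fun q {i m} h => by
      rw [add_zero]
      exact Bim.tq_deg (g q) h)
    (fun q a m => by
      rw [Dg.sp_zero]
      rfl)
    (fun q b m => rfl)

theorem GMap.qm_tq {Q' : Type u} [AddCommGroup Q'] [Module S Q']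
    (g : Q →ₗ[S] Q') (q : Q) (m : M.M) : (GMap.qm M g).f (M.tq q m) = M.tq (g q) m := rfl

theorem GMap.qm_dd {Q' : Type u} [AddCommGroup Q'] [Module S Q']
    (g : Q →ₗ[S] Q') : (GMap.qm M g).dd = 0 := Bim.tq_ext (fun q m => by
  rw [GMap.dd_apply, Bim.tq_d, GMap.qm_tq, GMap.qm_tq, Bim.tq_d, sg_zero, one_smul, sub_self]
  rfl)

/-- `Q ⊗ -` as a dg functor. -/
noncomputable def qtF (Q : Type u) [AddCommGroup Q] [Module S Q] (A B : DGA S) :
    DGFun A B A B where
  obj := fun M => M.qt Q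
  map := fun φ => φ.qt Q
  map_id := fun M x => by
    have h : (GMap.id M).f.lTensor Q = LinearMap.id := TensorProduct.ext' (fun q m => rfl)
    exact LinearMap.congr_fun h x
  map_comp := fun {n m l M N P} φ ψ h x => by
    have h' : ((φ.comp ψ h).f).lTensor Q = (ψ.f.lTensor Q).comp (φ.f.lTensor Q) :=
      TensorProduct.ext' (fun q m => rfl)
    exact LinearMap.congr_fun h' x
  map_add := fun {n M N} φ ψ x => by
    have h' : ((φ + ψ).f).lTensor Q = (φ.f.lTensor Q) + (ψ.f.lTensor Q) :=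
      TensorProduct.ext' (fun q m => TensorProduct.tmul_add q _ _)
    exact LinearMap.congr_fun h' x
  map_D := fun {n m M N} φ h x => by
    have h' : ((φ.D h).f).lTensor Q = (φ.qt Q).dd :=
      TensorProduct.ext' (fun q m => by
        rw [LinearMap.lTensor_tmul]
        change q ⊗ₜ[S] φ.dd m = (φ.qt Q).dd (M.tq q m)
        rw [GMap.dd_apply, GMap.dd_apply, Bim.tq_d, GMap.qt_tq, GMap.qt_tq, Bim.tq_d]
        rw [TensorProduct.tmul_sub]
        congr 1
        exact map_zsmul (TensorProduct.mk S Q N.M q) _ _)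
    exact LinearMap.congr_fun h' x

end qt

end Pool.Agent.MP_6e5bed_ag_NC
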