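import Pool.Agent.Lib.MP_6e5bed_ag_BC.QExt
import Pool.Agent.Lib.MP_6e5bed_ag_NC.K0Api

set_option autoImplicit false

/-!
# Exactness of the tensor product with a module
-/

namespace Pool.Agent.MP_6e5bed_ag_NC

attribute [local instance] Alg.iR Alg.iA Cf.iG Cf.iM Rs.iG Rs.iM

open scoped TensorProduct

universe u

section ring

variable {S : Type u} [CommRing S] {A B : DGA S} {Q Q' Q'' : Type u} [AddCommGroup Q] [Module S Q]
  [AddCommGroup Q'] [Module S Q'] [AddCommGroup Q''] [Module S Q'']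

theorem Bim.qt_congr (e : Q ≃ₗ[S] Q') (M : Bim A B) : BIso (M.qt Q) (M.qt Q') := by
  refine BIso.of_bij (GMap.qm M e.toLinearMap) (GMap.qm_dd _) ?_
  exact (e.rTensor M.M).bijective

theorem Bim.qt_self (M : Bim A B) : BIso (M.qt S) M := by
  obtain ⟨f, hf⟩ : ∃ f : (M.qt S).M →ₗ[S] M.M, ∀ (q : S) (m : M.M), f (M.tq q m) = q • m :=
    ⟨M.tqLift (LinearMap.lsmul S M.M), fun q m => Bim.tqLift_tq _ q m⟩
  refine BIso.of_bij (GMap.ofQt f (fun q i m h => ?_) (fun q a m => ?_) (fun q b m => ?_)) ?_ ?_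
  · rw [hf, add_zero]
    exact h.smul q
  · rw [hf, hf, map_smul, Dg.sp_zero]
  · rw [hf, hf, map_smul]
  · refine Bim.tq_ext (fun q m => ?_)
    rw [GMap.dd_apply, Bim.tq_d, sg_zero, one_smul, LinearMap.zero_apply]
    change M.dg.d (f (M.tq q m)) - f (M.tq q (M.dg.d m)) = 0
    rw [hf, hf, map_smul, sub_self]
  · have h1 : ∀ x, M.tq 1 (f x) = x := fun x => by
      refine Bim.tq_ind (P := fun x => M.tq 1 (f x) = x) ?_ ?_ ?_ x
      · rw [map_zero, map_zero]
      · intro x y hx hy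
        rw [map_add, map_add, hx, hy]
      · intro q m
        rw [hf, Bim.tq_smul, ← Bim.smul_tq, smul_eq_mul, mul_one]
    have h2 : ∀ m, f (M.tq 1 m) = m := fun m => by rw [hf, one_smul]
    exact ⟨fun x y hxy => by rw [← h1 x, ← h1 y]; exact congrArg (M.tq 1) hxy,
      fun m => ⟨M.tq 1 m, h2 m⟩⟩

/-- The tensor product with a bimodule which is flat over the base ring is exact. -/
theorem Bim.qt_exact (M : Bim A B) [Module.Flat S M.M] (f : Q' →ₗ[S] Q) (g : Q →ₗ[S] Q'')
    (hf : Function.Injective f) (hg : Function.Surjective g) (h : Function.Exact f g) :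
    Function.Injective (GMap.qm M f).f ∧ Function.Surjective (GMap.qm M g).f ∧
      ∀ x, (GMap.qm M g).f x = 0 ↔ ∃ y, (GMap.qm M f).f y = x := by
  refine ⟨Module.Flat.rTensor_preserves_injective_linearMap (M := M.M) f hf,
    LinearMap.rTensor_surjective M.M hg, fun x => ?_⟩
  exact rTensor_exact M.M h hg x

private def qtApi_pr {M N : Bim A B} {φ : GMap 0 M N} {h : φ.dd = 0} (x : M.M) (y : N.M) :
    (cone φ h).M := (x, y)

private theorem qtApi_pr_d {M N : Bim A B} {φ : GMap 0 M N} {h : φ.dd = 0} (x : M.M)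
    (y : N.M) : (cone φ h).dg.d (qtApi_pr x y) = qtApi_pr (- M.dg.d x) (φ.f x + N.dg.d y) :=
  cone_d x y

private theorem qtApi_pr_surj {M N : Bim A B} {φ : GMap 0 M N} {h : φ.dd = 0}
    (c : (cone φ h).M) : ∃ x y, qtApi_pr x y = c := ⟨_, _, rfl⟩

private theorem qtApi_pr_inj {M N : Bim A B} {φ : GMap 0 M N} {h : φ.dd = 0} {x x' : M.M}
    {y y' : N.M} (e : (qtApi_pr x y : (cone φ h).M) = qtApi_pr x' y') : y = y' :=
  congrArg Prod.snd (show ((x, y) : M.M × N.M) = (x', y') from e)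

private theorem qtApi_pr_zero {M N : Bim A B} {φ : GMap 0 M N} {h : φ.dd = 0} :
    (0 : (cone φ h).M) = qtApi_pr 0 0 := rfl

/-- The class is additive for exact sequences (which need not split as sequences of graded
bimodules). -/
theorem K0Q.cls_exact {M' M M'' : Bim A B} {i : GMap 0 M' M} {p : GMap 0 M M''} (hi : i.dd = 0)
    (hp : p.dd = 0) (h1 : Function.Injective i.f) (h2 : Function.Surjective p.f)
    (h3 : ∀ x, p.f x = 0 ↔ ∃ y, i.f y = x) (h' : Perf M') (h : Perf M) (h'' : Perf M'') :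
    cls M h = cls M' h' + cls M'' h'' := by
  have hc := isCone_cone i hi
  have hC : Perf (cone i hi) := hc.perf h' h
  have hpi : ∀ y, p.f (i.f y) = 0 := fun y => (h3 _).2 ⟨y, rfl⟩
  obtain ⟨φ, hφ⟩ : ∃ φ : GMap 0 (cone i hi) M'', ∀ (x' : M'.M) (x : M.M),
      φ.f (qtApi_pr x' x) = p.f x := by
    refine ⟨⟨p.f.comp (LinearMap.snd S M'.M M.M), fun {n c} hn => ?_, fun a c => ?_,
      fun b c => ?_⟩, fun x' x => rfl⟩
    · change M'.M × M.M at c
      obtain ⟨x', x⟩ := c
      exact p.deg (cone_deg.1 hn).2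
    · change M'.M × M.M at c
      obtain ⟨x', x⟩ := c
      exact p.map_l a x
    · change M'.M × M.M at c
      obtain ⟨x', x⟩ := c
      exact p.map_r b x
  have hq : QIso φ := by
    refine ⟨?_, ?_, ?_⟩
    · refine LinearMap.ext (fun c => ?_)
      obtain ⟨x', x, rfl⟩ := qtApi_pr_surj c
      rw [GMap.dd_apply, qtApi_pr_d, hφ, hφ, sg_zero, one_smul, LinearMap.zero_apply, map_add,
        hpi, zero_add, GMap.d_f_zero hp, sub_self]
    · intro c hd hy
      obtain ⟨x', x, rfl⟩ := qtApi_pr_surj c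
      rw [qtApi_pr_d, qtApi_pr_zero] at hd
      have hd1 : i.f x' + M.dg.d x = 0 := qtApi_pr_inj hd
      obtain ⟨y'', hy''⟩ := hy
      obtain ⟨y, rfl⟩ := h2 y''
      rw [hφ, GMap.d_f_zero hp] at hy''
      obtain ⟨z', hz'⟩ := (h3 (x - M.dg.d y)).1 (by rw [map_sub, hy'', sub_self])
      refine ⟨qtApi_pr z' y, ?_⟩
      rw [qtApi_pr_d]
      have h4 : - M'.dg.d z' = x' := by
        apply h1
        rw [map_neg, ← GMap.d_f_zero hi, hz', map_sub, M.dg.d_d, sub_zero]
        exact (eq_neg_of_add_eq_zero_left hd1).symm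
      have h5 : i.f z' + M.dg.d y = x := by rw [hz', sub_add_cancel]
      rw [h4, h5]
    · intro y'' hy''
      obtain ⟨x, rfl⟩ := h2 y''
      rw [GMap.d_f_zero hp] at hy''
      obtain ⟨w, hw⟩ := (h3 _).1 hy''
      have h4 : M'.dg.d w = 0 := by
        apply h1
        rw [← GMap.d_f_zero hi, hw, M.dg.d_d, map_zero]
      refine ⟨qtApi_pr (-w) x, ?_, 0, ?_⟩
      · rw [qtApi_pr_d, map_neg, map_neg, h4, hw, neg_zero, neg_zero, neg_add_cancel]
        rfl
      · rw [hφ, sub_self, map_zero]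
  have e1 := K0Q.cls_qiso hC h'' φ hq
  have e2 := K0Q.cls_ext h hC (h'.shift 1) hc.isExt
  have e3 := K0Q.cls_shift h' 1 (h'.shift 1)
  rw [sg_one] at e3
  rw [e1, e3] at e2
  rw [e2]
  push_cast
  rw [neg_smul, one_smul]
  abel

private theorem qtApi_isExt (M : Bim A B) :
    IsExt (M.qt Q') (M.qt (Q' × Q'')) (M.qt Q'') := by
  refine ⟨GMap.qm M (LinearMap.inl S Q' Q''), GMap.qm M (LinearMap.snd S Q' Q''),
    GMap.qm M (LinearMap.fst S Q' Q''), GMap.qm M (LinearMap.inr S Q' Q''), GMap.qm_dd _,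
    GMap.qm_dd _, fun x => ?_, fun x => ?_, fun x => ?_, fun x => ?_, fun x => ?_⟩
  · refine Bim.tq_ind (P := fun x => (GMap.qm M (LinearMap.fst S Q' Q'')).f
      ((GMap.qm M (LinearMap.inl S Q' Q'')).f x) = x) ?_ ?_ ?_ x
    · rw [map_zero, map_zero]
    · intro x y hx hy
      rw [map_add, map_add, hx, hy]
    · intro q m
      rfl
  · refine Bim.tq_ind (P := fun x => (GMap.qm M (LinearMap.snd S Q' Q'')).f
      ((GMap.qm M (LinearMap.inr S Q' Q'')).f x) = x) ?_ ?_ ?_ x
    · rw [map_zero, map_zero]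
    · intro x y hx hy
      rw [map_add, map_add, hx, hy]
    · intro q m
      rfl
  · refine Bim.tq_ind (P := fun x => (GMap.qm M (LinearMap.snd S Q' Q'')).f
      ((GMap.qm M (LinearMap.inl S Q' Q'')).f x) = 0) ?_ ?_ ?_ x
    · rw [map_zero, map_zero]
    · intro x y hx hy
      rw [map_add, map_add, hx, hy, add_zero]
    · intro q m
      exact TensorProduct.zero_tmul _ _
  · refine Bim.tq_ind (P := fun x => (GMap.qm M (LinearMap.fst S Q' Q'')).f
      ((GMap.qm M (LinearMap.inr S Q' Q'')).f x) = 0) ?_ ?_ ?_ x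
    · rw [map_zero, map_zero]
    · intro x y hx hy
      rw [map_add, map_add, hx, hy, add_zero]
    · intro q m
      exact TensorProduct.zero_tmul _ _
  · refine Bim.tq_ind (P := fun x => (GMap.qm M (LinearMap.inl S Q' Q'')).f
      ((GMap.qm M (LinearMap.fst S Q' Q'')).f x) + (GMap.qm M (LinearMap.inr S Q' Q'')).f
      ((GMap.qm M (LinearMap.snd S Q' Q'')).f x) = x) ?_ ?_ ?_ x
    · rw [map_zero, map_zero, map_zero, map_zero, add_zero]
    · intro x y hx hy
      rw [map_add, map_add, map_add, map_add, add_add_add_comm, hx, hy]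
    · intro q m
      rw [GMap.qm_tq, GMap.qm_tq, GMap.qm_tq, GMap.qm_tq, ← Bim.add_tq]
      obtain ⟨a, b⟩ := q
      have h : LinearMap.inl S Q' Q'' (LinearMap.fst S Q' Q'' (a, b)) +
          LinearMap.inr S Q' Q'' (LinearMap.snd S Q' Q'' (a, b)) = (a, b) := by
        change ((a, (0 : Q'')) : Q' × Q'') + ((0 : Q'), b) = (a, b)
        rw [Prod.mk_add_mk, add_zero, zero_add]
      rw [h]

private theorem qtApi_contr (M : Bim A B) (hQ : ∀ q : Q, q = 0) : Contr (M.qt Q) := by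
  have h0 : ∀ x : (M.qt Q).M, x = 0 := fun x => by
    refine Bim.tq_ind (P := fun x : (M.qt Q).M => x = 0) rfl ?_ ?_ x
    · intro x y hx hy
      rw [hx, hy, add_zero]
    · intro q m
      rw [hQ q]
      exact TensorProduct.zero_tmul _ _
  refine ⟨0, LinearMap.ext (fun x => ?_)⟩
  rw [h0 ((0 : GMap (-1) (M.qt Q) (M.qt Q)).dd x), h0 (LinearMap.id x)]

end ring

section field

variable {L : Type u} [Field L] {A B : DGA L} {M : Bim A B} (V : Type u) [AddCommGroup V]
  [Module L V] [FiniteDimensional L V]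

private theorem qtApi_fin (h : Perf M) (n : ℕ) : ∃ h1 : Perf (M.qt (Fin n → L)),
    cls (M.qt (Fin n → L)) h1 = (n : ℚ) • cls M h := by
  induction n with
  | zero =>
    have hc : Contr (M.qt (Fin 0 → L)) := qtApi_contr M (fun q => Subsingleton.elim _ _)
    refine ⟨Perf.contr hc, ?_⟩
    rw [K0Q.cls_contr _ hc, Nat.cast_zero, zero_smul]
  | succ n ih =>
    obtain ⟨h1, h2⟩ := ih
    have hL : Perf (M.qt L) := (Bim.qt_self M).symm.perf h
    have hE : IsExt (M.qt (Fin n → L)) (M.qt ((Fin n → L) × L)) (M.qt L) := qtApi_isExt M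
    have hp : Perf (M.qt ((Fin n → L) × L)) := Perf.mid hE h1 hL
    have e : ((Fin n → L) × L) ≃ₗ[L] (Fin (n + 1) → L) :=
      LinearEquiv.ofFinrankEq _ _ (by simp)
    refine ⟨(Bim.qt_congr e M).perf hp, ?_⟩
    rw [← K0Q.cls_iso (Bim.qt_congr e M) hp, K0Q.cls_ext h1 hp hL hE, h2,
      K0Q.cls_iso (Bim.qt_self M) hL h, Nat.cast_succ, add_smul, one_smul]

theorem Perf.qt (h : Perf M) : Perf (M.qt V) :=
  (Bim.qt_congr (Module.finBasis L V).equivFun M).symm.perf (qtApi_fin h _).1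

theorem K0Q.cls_qt (h : Perf M) (h' : Perf (M.qt V)) :
    cls (M.qt V) h' = (Module.finrank L V : ℚ) • cls M h := by
  rw [K0Q.cls_iso (Bim.qt_congr (Module.finBasis L V).equivFun M) h' (qtApi_fin h _).1,
    (qtApi_fin h _).2]

end field

end Pool.Agent.MP_6e5bed_ag_NC
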