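import Pool.Agent.Lib.MP_6e5bed_ag_BC.BcDefs

set_option autoImplicit false

/-!
# Restriction of scalars of dg bimodules
-/

namespace Pool.Agent.MP_6e5bed_ag_NC

attribute [local instance] Alg.iR Alg.iA Cf.iG Cf.iM Rs.iG Rs.iM

universe u

variable {k : Type u} [CommRing k] {S T : Type u} [CommRing S] [CommRing T] [Algebra k S]
  [Algebra k T] {A B : DGA k}

/-- The map `A_S → A_T`, as a linear map over `S`. -/
noncomputable def pushL (f : S →ₐ[k] T) (A : DGA k) : (A.bc S).A →ₗ[S] Rs f.toRingHom (A.bc T).A :=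
  DGA.lift ((Rs.to f.toRingHom).comp (A.ι T)) (fun r a => by
    change Rs.to f.toRingHom (A.ι T (r • a)) = algebraMap k S r • Rs.to f.toRingHom (A.ι T a)
    rw [DGA.ι_smul]
    change _ = Rs.to f.toRingHom (f.toRingHom (algebraMap k S r) • A.ι T a)
    rw [algHom_map])

/-- The map `A_S → A_T`. -/
noncomputable def push (f : S →ₐ[k] T) (A : DGA k) : (A.bc S).A →+ (A.bc T).A :=
  (Rs.of f.toRingHom).comp (pushL f A).toAddMonoidHom

section push

variable (f : S →ₐ[k] T)

theorem push_ι (a : A.A) : push f A (A.ι S a) = A.ι T a := by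
  change Rs.of f.toRingHom (pushL f A (A.ι S a)) = _
  rw [pushL, DGA.lift_ι]
  rfl

theorem push_smul (s : S) (x : (A.bc S).A) : push f A (s • x) = f s • push f A x :=
  (pushL f A).map_smul s x

theorem push_ext {P : Type u} [AddCommGroup P] [Module T P] (φ ψ : (A.bc T).A →ₗ[T] P)
    (h : ∀ a, φ (A.ι T a) = ψ (A.ι T a)) (x : (A.bc S).A) :
    φ (push f A x) = ψ (push f A x) := by
  rw [DGA.ι_ext h]

theorem push_one : push f A (A.bc S).one = (A.bc T).one := push_ι f A.one

theorem push_mul (x y : (A.bc S).A) :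
    push f A ((A.bc S).mul x y) = (A.bc T).mul (push f A x) (push f A y) := by
  refine DGA.ι_ind (P := fun x => push f A ((A.bc S).mul x y) =
    (A.bc T).mul (push f A x) (push f A y)) ?_ ?_ ?_ x
  · simp only [map_zero, LinearMap.zero_apply]
  · intro x x' hx hx'
    simp only [map_add, LinearMap.add_apply, hx, hx']
  · intro s a
    refine DGA.ι_ind (P := fun y => push f A ((A.bc S).mul (s • A.ι S a) y) =
      (A.bc T).mul (push f A (s • A.ι S a)) (push f A y)) ?_ ?_ ?_ y
    · simp only [map_zero]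
    · intro y y' hy hy'
      simp only [map_add, hy, hy']
    · intro s' b
      simp only [map_smul, LinearMap.smul_apply, push_smul, push_ι, DGA.ι_mul]

theorem push_d (x : (A.bc S).A) : (A.bc T).dg.d (push f A x) = push f A ((A.bc S).dg.d x) := by
  refine DGA.ι_ind (P := fun x => (A.bc T).dg.d (push f A x) = push f A ((A.bc S).dg.d x))
    ?_ ?_ ?_ x
  · simp only [map_zero]
  · intro x x' hx hx'
    simp only [map_add, hx, hx']
  · intro s a
    simp only [map_smul, push_smul, push_ι, DGA.ι_d]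

theorem push_o (x : (A.bc S).A) : (A.bc T).dg.o (push f A x) = push f A ((A.bc S).dg.o x) := by
  refine DGA.ι_ind (P := fun x => (A.bc T).dg.o (push f A x) = push f A ((A.bc S).dg.o x))
    ?_ ?_ ?_ x
  · simp only [map_zero]
  · intro x x' hx hx'
    simp only [map_add, hx, hx']
  · intro s a
    simp only [map_smul, push_smul, push_ι, DGA.ι_o]

theorem push_s (x : (A.bc S).A) : (A.bc T).dg.s (push f A x) = push f A ((A.bc S).dg.s x) := by
  rw [Dg.s_apply, Dg.s_apply, push_o, map_sub, two_smul, two_smul, map_add]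

theorem push_sp (n : ℤ) (x : (A.bc S).A) :
    (A.bc T).dg.sp n (push f A x) = push f A ((A.bc S).dg.sp n x) := by
  rcases Int.even_or_odd n with h | h
  · rw [Dg.sp_even h, Dg.sp_even h]
  · rw [Dg.sp_odd h, Dg.sp_odd h, push_s]

theorem push_ρ (x : (A.bc S).A) (n : ℤ) :
    (A.bc T).dg.ρ (push f A x) n = push f A ((A.bc S).dg.ρ x n) := by
  refine DGA.ι_ind (P := fun x => (A.bc T).dg.ρ (push f A x) n = push f A ((A.bc S).dg.ρ x n))
    ?_ ?_ ?_ x
  · simp only [map_zero, Finsupp.coe_zero, Pi.zero_apply]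
  · intro x x' hx hx'
    simp only [map_add, Finsupp.add_apply, hx, hx']
  · intro s a
    have h1 : (A.bc T).dg.ρ (A.ι T a) n = A.ι T (A.dg.ρ a n) := Dg.cf_ρ a n
    have h2 : (A.bc S).dg.ρ (A.ι S a) n = A.ι S (A.dg.ρ a n) := Dg.cf_ρ a n
    simp only [map_smul, Finsupp.smul_apply, push_smul, push_ι, h1, h2]

theorem push_deg {n : ℤ} {x : (A.bc S).A} (h : (A.bc S).dg.IsDeg n x) :
    (A.bc T).dg.IsDeg n (push f A x) := by
  have h' : (A.bc S).dg.ρ x = Finsupp.single n x := h
  unfold Dg.IsDeg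
  ext m
  rw [push_ρ, h', Finsupp.single_apply, Finsupp.single_apply]
  split_ifs
  · rfl
  · exact map_zero _

end push

/-- The restriction of scalars of a dg bimodule. -/
noncomputable def Bim.rs (f : S →ₐ[k] T) (N : Bim (A.bc T) (B.bc T)) :
    Bim (A.bc S) (B.bc S) where
  M := Rs f.toRingHom N.M
  dg := N.dg.rs f.toRingHom
  l := LinearMap.mk₂ S (fun a (n : Rs f.toRingHom N.M) =>
      Rs.to f.toRingHom (N.l (push f A a) (Rs.of f.toRingHom n)))
    (fun a a' n => by simp only [map_add, LinearMap.add_apply])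
    (fun s a n => by
      rw [push_smul, map_smul, LinearMap.smul_apply]
      rfl)
    (fun a n n' => by simp only [map_add])
    (fun s a n => by
      rw [Rs.smul_def, map_smul]
      rfl)
  r := LinearMap.mk₂ S (fun b (n : Rs f.toRingHom N.M) =>
      Rs.to f.toRingHom (N.r (push f B b) (Rs.of f.toRingHom n)))
    (fun a a' n => by simp only [map_add, LinearMap.add_apply])
    (fun s a n => by
      rw [push_smul, map_smul, LinearMap.smul_apply]
      rfl)
    (fun a n n' => by simp only [map_add])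
    (fun s a n => by
      rw [Rs.smul_def, map_smul]
      rfl)
  l_one := fun n => by
    rw [LinearMap.mk₂_apply, push_one]
    exact N.l_one n
  r_one := fun n => by
    rw [LinearMap.mk₂_apply, push_one]
    exact N.r_one n
  l_mul := fun a a' n => by
    rw [LinearMap.mk₂_apply, push_mul]
    exact N.l_mul _ _ n
  r_mul := fun a a' n => by
    rw [LinearMap.mk₂_apply, push_mul]
    exact N.r_mul _ _ n
  l_r := fun a b n => N.l_r _ _ n
  l_deg := fun ha hn => N.l_deg (push_deg f ha) hn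
  r_deg := fun hn hb => N.r_deg hn (push_deg f hb)
  d_l := fun a n => by
    change N.dg.d (N.l (push f A a) n) = N.l (push f A ((A.bc S).dg.d a)) n +
      N.l (push f A ((A.bc S).dg.s a)) (N.dg.d n)
    rw [N.d_l, push_d, push_s]
  d_r := fun b n => by
    have h1 : (N.dg.rs f.toRingHom).s n = N.dg.s n :=
      Dg.rs_s (f := f.toRingHom) (X := N.dg) (n : N.M)
    rw [h1]
    change N.dg.d (N.r (push f B b) n) = N.r (push f B b) (N.dg.d n) +
      N.r (push f B ((B.bc S).dg.d b)) (N.dg.s n)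
    rw [N.d_r, push_d]

variable {f : S →ₐ[k] T}

/-- The identity from `N` to its restriction. -/
noncomputable def Bim.to (f : S →ₐ[k] T) (N : Bim (A.bc T) (B.bc T)) : N.M →+ (N.rs f).M := AddMonoidHom.id _

/-- The identity from the restriction of `N` to `N`. -/
noncomputable def Bim.ofRs (f : S →ₐ[k] T) (N : Bim (A.bc T) (B.bc T)) : (N.rs f).M →+ N.M := AddMonoidHom.id _

section rs

variable {N P : Bim (A.bc T) (B.bc T)}

theorem Bim.ofRs_smul (s : S) (n : (N.rs f).M) : N.ofRs f (s • n) = f s • N.ofRs f n := rfl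

theorem Bim.ofRs_l (a : (A.bc S).A) (n : (N.rs f).M) :
    N.ofRs f ((N.rs f).l a n) = N.l (push f A a) (N.ofRs f n) := rfl

theorem Bim.ofRs_r (b : (B.bc S).A) (n : (N.rs f).M) :
    N.ofRs f ((N.rs f).r b n) = N.r (push f B b) (N.ofRs f n) := rfl

theorem Bim.ofRs_d (n : (N.rs f).M) : N.ofRs f ((N.rs f).dg.d n) = N.dg.d (N.ofRs f n) := rfl

theorem Bim.ofRs_deg (i : ℤ) (n : (N.rs f).M) :
    (N.rs f).dg.IsDeg i n ↔ N.dg.IsDeg i (N.ofRs f n) := Iff.rfl

/-- The restriction of scalars of a graded map. -/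
noncomputable def GMap.rs (f : S →ₐ[k] T) {n : ℤ} (φ : GMap n N P) :
    GMap n (N.rs f) (P.rs f) where
  f := (Rs.map f.toRingHom (W := N.M) (W' := P.M) φ.f :
    Rs f.toRingHom N.M →ₗ[S] Rs f.toRingHom P.M)
  deg := fun h => φ.deg h
  map_l := fun a x => by
    change φ.f (N.l (push f A a) x) = P.l (push f A ((A.bc S).dg.sp n a)) (φ.f x)
    rw [φ.map_l, push_sp]
  map_r := fun b x => φ.map_r (push f B b) (N.ofRs f x)

theorem GMap.rs_f {n : ℤ} (φ : GMap n N P) (x : (N.rs f).M) :
    P.ofRs f ((φ.rs f).f x) = φ.f (N.ofRs f x) := rfl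

/-- Restriction of scalars as a dg functor. -/
noncomputable def rsF (f : S →ₐ[k] T) (A B : DGA k) :
    DGFun (A.bc T) (B.bc T) (A.bc S) (B.bc S) where
  obj := fun N => N.rs f
  map := fun φ => φ.rs f
  map_id := fun _ _ => rfl
  map_comp := fun _ _ _ _ => rfl
  map_add := fun _ _ _ => rfl
  map_D := fun _ _ _ => rfl

end rs

section adj

variable {M : Bim (A.bc S) (B.bc S)} {P : Bim (A.bc T) (B.bc T)} {n : ℤ}

/-- The graded map `T ⊗_S M → P` given by a graded map from `M` to the restriction of `P`. -/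
noncomputable def GMap.adj (f : S →ₐ[k] T) (φ : GMap n M (P.rs f)) : GMap n (M.cf f) P :=
  GMap.ofCf (Bim.lift f ((P.ofRs f).comp φ.f.toAddMonoidHom) (fun s m => by
      change P.ofRs f (φ.f (s • m)) = f s • P.ofRs f (φ.f m)
      rw [map_smul]
      rfl))
    (fun hv => by
      rw [Bim.lift_ι]
      exact φ.deg hv)
    (fun a m => by
      rw [Bim.lift_ι, Bim.lift_ι]
      change P.ofRs f (φ.f (M.l (A.ι S a) m)) = P.l (A.ι T (A.dg.sp n a)) (P.ofRs f (φ.f m))
      rw [φ.map_l, DGA.ι_sp, Bim.ofRs_l, push_ι])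
    (fun b m => by
      rw [Bim.lift_ι, Bim.lift_ι]
      change P.ofRs f (φ.f (M.r (B.ι S b) m)) = P.r (B.ι T b) (P.ofRs f (φ.f m))
      rw [φ.map_r, Bim.ofRs_r, push_ι])

theorem GMap.adj_ι (φ : GMap n M (P.rs f)) (m : M.M) :
    (φ.adj f).f (M.ι f m) = P.ofRs f (φ.f m) := Bim.lift_ι _ _ m

theorem GMap.adj_dd (φ : GMap n M (P.rs f)) (m : M.M) :
    (φ.adj f).dd (M.ι f m) = P.ofRs f (φ.dd m) := by
  rw [GMap.dd_apply, GMap.dd_apply, Bim.ι_d, GMap.adj_ι, GMap.adj_ι, map_sub, map_zsmul,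
    Bim.ofRs_d]

/-- The graded map from `M` to the restriction of `P` given by a graded map `T ⊗_S M → P`. -/
noncomputable def GMap.adjInv (f : S →ₐ[k] T) (φ : GMap n (M.cf f) P) : GMap n M (P.rs f) where
  f :=
    { toFun := fun m => P.to f (φ.f (M.ι f m))
      map_add' := fun m m' => by simp only [map_add]
      map_smul' := fun s m => by
        rw [Bim.ι_smul, map_smul]
        rfl }
  deg := fun {i m} h => φ.deg (Bim.ι_deg h)
  map_l := fun a m => by
    change φ.f (M.ι f (M.l a m)) = P.l (push f A ((A.bc S).dg.sp n a)) (φ.f (M.ι f m))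
    have h1 : ∀ a : (A.bc S).A, M.ι f (M.l a m) = (M.cf f).l (push f A a) (M.ι f m) := by
      intro a
      refine DGA.ι_ind (P := fun a => M.ι f (M.l a m) = (M.cf f).l (push f A a) (M.ι f m))
        ?_ ?_ ?_ a
      · simp only [map_zero, LinearMap.zero_apply]
      · intro x y hx hy
        simp only [map_add, LinearMap.add_apply, hx, hy]
      · intro s b
        rw [map_smul, LinearMap.smul_apply, Bim.ι_smul, push_smul, map_smul,
          LinearMap.smul_apply, push_ι, Bim.ι_l]
    rw [h1, φ.map_l, push_sp]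
  map_r := fun b m => by
    change φ.f (M.ι f (M.r b m)) = P.r (push f B b) (φ.f (M.ι f m))
    have h1 : ∀ b : (B.bc S).A, M.ι f (M.r b m) = (M.cf f).r (push f B b) (M.ι f m) := by
      intro b
      refine DGA.ι_ind (P := fun b => M.ι f (M.r b m) = (M.cf f).r (push f B b) (M.ι f m))
        ?_ ?_ ?_ b
      · simp only [map_zero, LinearMap.zero_apply]
      · intro x y hx hy
        simp only [map_add, LinearMap.add_apply, hx, hy]
      · intro s b
        rw [map_smul, LinearMap.smul_apply, Bim.ι_smul, push_smul, map_smul,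
          LinearMap.smul_apply, push_ι, Bim.ι_r]
    rw [h1, φ.map_r]

theorem GMap.adjInv_f (φ : GMap n (M.cf f) P) (m : M.M) :
    P.ofRs f ((φ.adjInv f).f m) = φ.f (M.ι f m) := rfl

theorem GMap.adjInv_dd (φ : GMap n (M.cf f) P) (m : M.M) :
    P.ofRs f ((φ.adjInv f).dd m) = φ.dd (M.ι f m) := by
  rw [GMap.dd_apply, GMap.dd_apply, Bim.ι_d, map_sub, map_zsmul, Bim.ofRs_d,
    GMap.adjInv_f, GMap.adjInv_f]

end adj

end Pool.Agent.MP_6e5bed_ag_NC
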