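import Pool.Agent.Lib.MP_6e5bed_ag_BC.QExt
import Pool.Agent.Lib.MP_6e5bed_ag_BC.BcFree
import Pool.Agent.Lib.MP_6e5bed_ag_BC.QtApi

set_option autoImplicit false

/-!
# Restriction of scalars and tensor products with modules
-/

namespace Pool.Agent.MP_6e5bed_ag_NC

attribute [local instance] Alg.iR Alg.iA Cf.iG Cf.iM Rs.iG Rs.iM

open scoped TensorProduct

universe u

variable {k : Type u} [CommRing k] {S T U : Type u} [CommRing S] [CommRing T] [CommRing U]
  [Algebra k S] [Algebra k T] [Algebra k U] {A B : DGA k}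

private theorem rsQt_push_push (f : S →ₐ[k] T) (g : T →ₐ[k] U) (h : S →ₐ[k] U)
    (e : ∀ s, g (f s) = h s) (A : DGA k) (x : (A.bc S).A) :
    push g A (push f A x) = push h A x := by
  refine DGA.ι_ind (P := fun x => push g A (push f A x) = push h A x) ?_ ?_ ?_ x
  · simp only [map_zero]
  · intro x y hx hy
    simp only [map_add, hx, hy]
  · intro s a
    rw [push_smul, push_smul, push_smul, push_ι, push_ι, push_ι, e]

private theorem rsQt_push_id (f : S →ₐ[k] S) (e : ∀ s, f s = s) (A : DGA k) (x : (A.bc S).A) :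
    push f A x = x := by
  refine DGA.ι_ind (P := fun x => push f A x = x) ?_ ?_ ?_ x
  · simp only [map_zero]
  · intro x y hx hy
    simp only [map_add, hx, hy]
  · intro s a
    rw [push_smul, push_ι, e]

private theorem rsQt_ι_l (f : S →ₐ[k] T) (M : Bim (A.bc S) (B.bc S)) (a : (A.bc S).A) (m : M.M) :
    M.ι f (M.l a m) = (M.cf f).l (push f A a) (M.ι f m) := by
  refine DGA.ι_ind (P := fun a => M.ι f (M.l a m) = (M.cf f).l (push f A a) (M.ι f m))
    ?_ ?_ ?_ a
  · simp only [map_zero, LinearMap.zero_apply]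
  · intro x y hx hy
    simp only [map_add, LinearMap.add_apply, hx, hy]
  · intro s b
    rw [map_smul, LinearMap.smul_apply, Bim.ι_smul, push_smul, map_smul,
      LinearMap.smul_apply, push_ι, Bim.ι_l]

private theorem rsQt_ι_r (f : S →ₐ[k] T) (M : Bim (A.bc S) (B.bc S)) (b : (B.bc S).A) (m : M.M) :
    M.ι f (M.r b m) = (M.cf f).r (push f B b) (M.ι f m) := by
  refine DGA.ι_ind (P := fun b => M.ι f (M.r b m) = (M.cf f).r (push f B b) (M.ι f m))
    ?_ ?_ ?_ b
  · simp only [map_zero, LinearMap.zero_apply]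
  · intro x y hx hy
    simp only [map_add, LinearMap.add_apply, hx, hy]
  · intro s b
    rw [map_smul, LinearMap.smul_apply, Bim.ι_smul, push_smul, map_smul,
      LinearMap.smul_apply, push_ι, Bim.ι_r]

theorem rs_rs (f : S →ₐ[k] T) (g : T →ₐ[k] U) (h : S →ₐ[k] U) (e : ∀ s, g (f s) = h s)
    (M : Bim (A.bc U) (B.bc U)) : BIso ((M.rs g).rs f) (M.rs h) := by
  refine ⟨⟨{ toFun := fun x => M.to h (M.ofRs g ((M.rs g).ofRs f x))
             map_add' := fun x y => rfl
             map_smul' := fun s x => ?_ }, ?_, ?_, ?_⟩,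
    ⟨{ toFun := fun x => (M.rs g).to f (M.to g (M.ofRs h x))
       map_add' := fun x y => rfl
       map_smul' := fun s x => ?_ }, ?_, ?_, ?_⟩, ?_, ?_, ?_⟩
  · change g (f s) • M.ofRs g ((M.rs g).ofRs f x) = h s • M.ofRs g ((M.rs g).ofRs f x)
    rw [e]
  · intro i m hm
    rw [add_zero]
    exact hm
  · intro a m
    rw [Dg.sp_zero]
    change M.l (push g A (push f A a)) (M.ofRs g ((M.rs g).ofRs f m)) =
      M.l (push h A a) (M.ofRs g ((M.rs g).ofRs f m))
    rw [rsQt_push_push f g h e]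
  · intro b m
    change M.r (push g B (push f B b)) (M.ofRs g ((M.rs g).ofRs f m)) =
      M.r (push h B b) (M.ofRs g ((M.rs g).ofRs f m))
    rw [rsQt_push_push f g h e]
  · change h s • M.ofRs h x = g (f s) • M.ofRs h x
    rw [e]
  · intro i m hm
    rw [add_zero]
    exact hm
  · intro a m
    rw [Dg.sp_zero]
    change M.l (push h A a) (M.ofRs h m) = M.l (push g A (push f A a)) (M.ofRs h m)
    rw [rsQt_push_push f g h e]
  · intro b m
    change M.r (push h B b) (M.ofRs h m) = M.r (push g B (push f B b)) (M.ofRs h m)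
    rw [rsQt_push_push f g h e]
  · ext x
    rw [GMap.dd_apply, sg_zero, one_smul, LinearMap.zero_apply]
    exact sub_self (M.dg.d (M.ofRs g ((M.rs g).ofRs f x)))
  · intro m
    rfl
  · intro m
    rfl

theorem rs_id (f : S →ₐ[k] S) (e : ∀ s, f s = s) (M : Bim (A.bc S) (B.bc S)) :
    BIso (M.rs f) M := by
  refine ⟨⟨{ toFun := fun x => M.ofRs f x
             map_add' := fun x y => rfl
             map_smul' := fun s x => ?_ }, ?_, ?_, ?_⟩,
    ⟨{ toFun := fun x => M.to f x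
       map_add' := fun x y => rfl
       map_smul' := fun s x => ?_ }, ?_, ?_, ?_⟩, ?_, ?_, ?_⟩
  · change f s • M.ofRs f x = s • M.ofRs f x
    rw [e]
  · intro i m hm
    rw [add_zero]
    exact hm
  · intro a m
    rw [Dg.sp_zero]
    change M.l (push f A a) (M.ofRs f m) = M.l a (M.ofRs f m)
    rw [rsQt_push_id f e]
  · intro b m
    change M.r (push f B b) (M.ofRs f m) = M.r b (M.ofRs f m)
    rw [rsQt_push_id f e]
  · change s • x = f s • x
    rw [e]
  · intro i m hm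
    rw [add_zero]
    exact hm
  · intro a m
    rw [Dg.sp_zero]
    change M.l a m = M.l (push f A a) m
    rw [rsQt_push_id f e]
  · intro b m
    change M.r b m = M.r (push f B b) m
    rw [rsQt_push_id f e]
  · ext x
    rw [GMap.dd_apply, sg_zero, one_smul, LinearMap.zero_apply]
    exact sub_self (M.dg.d (M.ofRs f x))
  · intro m
    rfl
  · intro m
    rfl

section rsqt

variable (f : S →ₐ[k] T) (Q : Type u) [AddCommGroup Q] [Module T Q]
  (M : Bim (A.bc S) (B.bc S))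

/-- The bilinear map `q, m ↦ q ⊗ (1 ⊗ m)`. -/
private noncomputable def rsQtβ : Rs f.toRingHom Q →ₗ[S] M.M →ₗ[S] (((M.cf f).qt Q).rs f).M :=
  LinearMap.mk₂ S (fun (q : Rs f.toRingHom Q) m =>
      ((M.cf f).qt Q).to f ((M.cf f).tq (Rs.of f.toRingHom q) (M.ι f m)))
    (fun q q' m => by
      rw [map_add, Bim.add_tq, map_add])
    (fun s q m => by
      rw [Rs.smul_def, Bim.smul_tq]
      rfl)
    (fun q m m' => by
      rw [map_add, map_add, map_add])
    (fun s q m => by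
      rw [Bim.ι_smul, Bim.tq_smul]
      rfl)

/-- The map `Q ⊗_S M → Q ⊗_T (T ⊗_S M)`. -/
private noncomputable def rsQtψ :
    GMap 0 (M.qt (Rs f.toRingHom Q)) (((M.cf f).qt Q).rs f) :=
  GMap.ofQt (M.tqLift (rsQtβ f Q M))
    (fun q {i m} h => by
      rw [Bim.tqLift_tq, add_zero]
      exact Bim.tq_deg (Rs.of f.toRingHom q) (Bim.ι_deg h))
    (fun q a m => by
      rw [Bim.tqLift_tq, Bim.tqLift_tq, Dg.sp_zero]
      change (M.cf f).tq (Rs.of f.toRingHom q) (M.ι f (M.l a m)) =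
        ((M.cf f).qt Q).l (push f A a) ((M.cf f).tq (Rs.of f.toRingHom q) (M.ι f m))
      rw [rsQt_ι_l, Bim.tq_l])
    (fun q b m => by
      rw [Bim.tqLift_tq, Bim.tqLift_tq]
      change (M.cf f).tq (Rs.of f.toRingHom q) (M.ι f (M.r b m)) =
        ((M.cf f).qt Q).r (push f B b) ((M.cf f).tq (Rs.of f.toRingHom q) (M.ι f m))
      rw [rsQt_ι_r, Bim.tq_r])

private theorem rsQtψ_tq (q : Rs f.toRingHom Q) (m : M.M) :
    ((M.cf f).qt Q).ofRs f ((rsQtψ f Q M).f (M.tq q m)) =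
      (M.cf f).tq (Rs.of f.toRingHom q) (M.ι f m) := by
  change ((M.cf f).qt Q).ofRs f (M.tqLift (rsQtβ f Q M) (M.tq q m)) = _
  rw [Bim.tqLift_tq]
  rfl

private theorem rsQtψ_dd : (rsQtψ f Q M).dd = 0 := by
  refine Bim.tq_ext (fun q m => ?_)
  rw [GMap.dd_apply, sg_zero, one_smul, LinearMap.zero_apply, Bim.tq_d, sub_eq_zero]
  change ((M.cf f).qt Q).dg.d (((M.cf f).qt Q).ofRs f ((rsQtψ f Q M).f (M.tq q m))) =
    ((M.cf f).qt Q).ofRs f ((rsQtψ f Q M).f (M.tq q (M.dg.d m)))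
  rw [rsQtψ_tq, rsQtψ_tq, Bim.tq_d, Bim.ι_d]

private theorem rsQtψ_inv : ∃ g : ((M.cf f).qt Q).M → (M.qt (Rs f.toRingHom Q)).M,
    (∀ x y, g (x + y) = g x + g y) ∧ g 0 = 0 ∧
      ∀ (q : Q) (t : T) (m : M.M), g ((M.cf f).tq q (t • M.ι f m)) =
        M.tq (Rs.to f.toRingHom (t • q)) m := by
  let i1 : Module T (Rs f.toRingHom Q) := inferInstanceAs (Module T Q)
  have i2 : SMulCommClass S T (Rs f.toRingHom Q) := ⟨fun s t q => smul_comm (f s) t (q : Q)⟩
  have i3 : SMulCommClass T S (Rs f.toRingHom Q) := ⟨fun t s q => smul_comm t (f s) (q : Q)⟩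
  let i4 : Module T (Rs f.toRingHom Q ⊗[S] M.M) := TensorProduct.leftModule
  have hg : ∀ (q : Q) (s : S) (m : M.M),
      (TensorProduct.mk S (Rs f.toRingHom Q) M.M (Rs.to f.toRingHom q)).toAddMonoidHom (s • m) =
        f s • (TensorProduct.mk S (Rs f.toRingHom Q) M.M
          (Rs.to f.toRingHom q)).toAddMonoidHom m := by
    intro q s m
    change (Rs.to f.toRingHom q) ⊗ₜ[S] (s • m) = f s • ((Rs.to f.toRingHom q) ⊗ₜ[S] m)
    rw [TensorProduct.tmul_smul, TensorProduct.smul_tmul', TensorProduct.smul_tmul']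
    rfl
  let γ : Q → ((M.cf f).M →ₗ[T] (Rs f.toRingHom Q ⊗[S] M.M)) := fun q =>
    Bim.lift f (TensorProduct.mk S (Rs f.toRingHom Q) M.M
      (Rs.to f.toRingHom q)).toAddMonoidHom (hg q)
  have hγ : ∀ (q : Q) (m : M.M), γ q (M.ι f m) = (Rs.to f.toRingHom q) ⊗ₜ[S] m := by
    intro q m
    exact Bim.lift_ι _ _ m
  let β : Q →ₗ[T] (M.cf f).M →ₗ[T] (Rs f.toRingHom Q ⊗[S] M.M) :=
    { toFun := γ
      map_add' := fun q q' => Bim.ι_ext (fun m => by
        rw [LinearMap.add_apply, hγ, hγ, hγ, map_add, TensorProduct.add_tmul])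
      map_smul' := fun t q => Bim.ι_ext (fun m => by
        rw [LinearMap.smul_apply, hγ, hγ, RingHom.id_apply, TensorProduct.smul_tmul']
        rfl) }
  refine ⟨fun x => (M.cf f).tqLift β x, fun x y => map_add _ x y, map_zero _, fun q t m => ?_⟩
  change (M.cf f).tqLift β ((M.cf f).tq q (t • M.ι f m)) = _
  rw [Bim.tqLift_tq, map_smul]
  change t • γ q (M.ι f m) = _
  rw [hγ, TensorProduct.smul_tmul']
  rfl

/-- `Q ⊗_T (T ⊗_S M) = Q ⊗_S M`, as a bimodule over `S`. -/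
theorem rs_qt_cf : BIso (((M.cf f).qt Q).rs f) (M.qt (Rs f.toRingHom Q)) := by
  obtain ⟨g, hadd, h0, hg⟩ := rsQtψ_inv f Q M
  refine (BIso.of_bij (rsQtψ f Q M) (rsQtψ_dd f Q M)
    (Function.bijective_iff_has_inverse.2
      ⟨fun x => g (((M.cf f).qt Q).ofRs f x), fun x => ?_, fun y => ?_⟩)).symm
  · refine Bim.tq_ind (M := M) (P := fun x => g (((M.cf f).qt Q).ofRs f ((rsQtψ f Q M).f x)) = x)
      ?_ ?_ ?_ x
    · rw [map_zero, map_zero, h0]
    · intro x y hx hy
      rw [map_add, map_add, hadd, hx, hy]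
    · intro q m
      rw [rsQtψ_tq]
      have h1 := hg (Rs.of f.toRingHom q) 1 m
      rw [one_smul, one_smul] at h1
      exact h1
  · refine Bim.tq_ind (M := M.cf f) (Q := Q) (P := fun y : ((M.cf f).qt Q).M =>
      ((M.cf f).qt Q).ofRs f ((rsQtψ f Q M).f (g y)) = y) ?_ ?_ ?_ y
    · rw [h0, map_zero, map_zero]
    · intro x y hx hy
      rw [hadd, map_add, map_add, hx, hy]
    · intro q z
      refine Bim.ι_ind (M := M) (f := f) (P := fun z : (M.cf f).M =>
        ((M.cf f).qt Q).ofRs f ((rsQtψ f Q M).f (g ((M.cf f).tq q z))) = (M.cf f).tq q z)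
        ?_ ?_ ?_ z
      · rw [map_zero, h0, map_zero, map_zero]
      · intro x y hx hy
        rw [map_add, hadd, map_add, map_add, hx, hy]
      · intro t m
        rw [hg, rsQtψ_tq, Rs.of_to, Bim.smul_tq, Bim.tq_smul]

end rsqt

/-- `T ⊗_S M`, as a bimodule over `S`. -/
theorem rs_cf (f : S →ₐ[k] T) (M : Bim (A.bc S) (B.bc S)) :
    BIso ((M.cf f).rs f) (M.qt (Rs f.toRingHom T)) :=
  ((rsF f A B).biso ((M.cf f).qt_self).symm).trans (rs_qt_cf f T M)

/-- `Q ⊗_T (A_T ⊗_T B_T) = Q ⊗_S (A_S ⊗_S B_S)` -/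
theorem rs_qt_free (f : S →ₐ[k] T) (Q : Type u) [AddCommGroup Q] [Module T Q] :
    BIso (((free (A.bc T) (B.bc T)).qt Q).rs f)
      ((free (A.bc S) (B.bc S)).qt (Rs f.toRingHom Q)) :=
  ((rsF f A B).biso ((qtF Q (A.bc T) (B.bc T)).biso (cf_free f A B).symm)).trans
    (rs_qt_cf f Q (free (A.bc S) (B.bc S)))

/-- `A_T ⊗_T B_T = T ⊗_S (A_S ⊗_S B_S)` -/
theorem rs_free (f : S →ₐ[k] T) : BIso ((free (A.bc T) (B.bc T)).rs f)
    ((free (A.bc S) (B.bc S)).qt (Rs f.toRingHom T)) :=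
  ((rsF f A B).biso (cf_free f A B).symm).trans (rs_cf f (free (A.bc S) (B.bc S)))

end Pool.Agent.MP_6e5bed_ag_NC
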