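import Pool.Agent.Lib.MP_6e5bed_ag_BC.SpModel

set_option autoImplicit false

/-!
# The Grothendieck group over `K` is the colimit of those over finitely generated subalgebras
-/

namespace Pool.Agent.MP_6e5bed_ag_NC

attribute [local instance] Alg.iR Alg.iA Cf.iG Cf.iM Rs.iG Rs.iM

universe u

variable {k : Type u} [CommRing k] {A B : DGA k} {K : Type u} [CommRing K] [Algebra k K]

theorem K0Q.exists_cf (y : K0Q (A.bc K) (B.bc K)) :
    ∃ (S : FGS k K) (x : K0Q (A.bc S.1) (B.bc S.1)), K0Q.cf S.val x = y := by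
  refine K0Q.ind (P := fun y => ∃ (S : FGS k K) (x : K0Q (A.bc S.1) (B.bc S.1)),
    K0Q.cf S.val x = y) ?_ ?_ ?_ ?_ y
  · rintro x y ⟨S, x', rfl⟩ ⟨T, y', rfl⟩
    obtain ⟨U, hS, hT⟩ := exists_ge_ge S T
    refine ⟨U, K0Q.cf (FGS.inc hS) x' + K0Q.cf (FGS.inc hT) y', ?_⟩
    rw [map_add, K0Q.cf_cf' (FGS.inc hS) U.val S.val (FGS.val_inc hS),
      K0Q.cf_cf' (FGS.inc hT) U.val T.val (FGS.val_inc hT)]
  · rintro c x ⟨S, x', rfl⟩
    exact ⟨S, c • x', map_smul _ _ _⟩
  · obtain ⟨S⟩ := (inferInstance : Nonempty (FGS k K))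
    exact ⟨S, 0, map_zero _⟩
  · intro X hX
    obtain ⟨S, M, hM, he⟩ := exists_model hX
    exact ⟨S, cls M hM, (K0Q.cf_cls S.val hM).trans (K0Q.cls_he he _ _)⟩

namespace SpGerm

/-- The families of elements of the Grothendieck groups over the finitely generated
subalgebras. -/
abbrev Fam (A B : DGA k) (K : Type u) [CommRing K] [Algebra k K] : Type (u + 1) :=
  ∀ T : FGS k K, K0Q (A.bc T.1) (B.bc T.1)

/-- The families which vanish eventually. -/
def null (A B : DGA k) (K : Type u) [CommRing K] [Algebra k K] : Submodule ℚ (Fam A B K) where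
  carrier := {x | ∃ T₀ : FGS k K, ∀ T, T₀ ≤ T → x T = 0}
  add_mem' := by
    rintro x y ⟨S, hS⟩ ⟨T, hT⟩
    obtain ⟨U, h1, h2⟩ := exists_ge_ge S T
    refine ⟨U, fun V hV => ?_⟩
    rw [Pi.add_apply, hS V (h1.trans hV), hT V (h2.trans hV), add_zero]
  zero_mem' := by
    obtain ⟨S⟩ := (inferInstance : Nonempty (FGS k K))
    exact ⟨S, fun _ _ => rfl⟩
  smul_mem' := by
    rintro c x ⟨S, hS⟩
    refine ⟨S, fun V hV => ?_⟩
    rw [Pi.smul_apply, hS V hV, smul_zero]

open Classical in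
/-- The family of an element over `S`. -/
noncomputable def fam (S : FGS k K) : K0Q (A.bc S.1) (B.bc S.1) →ₗ[ℚ] Fam A B K where
  toFun x T := if h : S ≤ T then K0Q.cf (FGS.inc h) x else 0
  map_add' x y := by
    funext T
    rw [Pi.add_apply]
    by_cases h : S ≤ T
    · rw [dif_pos h, dif_pos h, dif_pos h, map_add]
    · rw [dif_neg h, dif_neg h, dif_neg h, add_zero]
  map_smul' c x := by
    funext T
    rw [Pi.smul_apply]
    by_cases h : S ≤ T
    · rw [dif_pos h, dif_pos h, map_smul]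
      rfl
    · rw [dif_neg h, dif_neg h, smul_zero]

theorem fam_apply {S T : FGS k K} (h : S ≤ T) (x : K0Q (A.bc S.1) (B.bc S.1)) :
    fam S x T = K0Q.cf (FGS.inc h) x := dif_pos h

/-- The germ of an element over `S`. -/
noncomputable def germ (S : FGS k K) :
    K0Q (A.bc S.1) (B.bc S.1) →ₗ[ℚ] Fam A B K ⧸ null A B K :=
  (null A B K).mkQ.comp (fam S)

theorem germ_up {S T : FGS k K} (h : S ≤ T) (x : K0Q (A.bc S.1) (B.bc S.1)) :
    germ T (K0Q.cf (FGS.inc h) x) = germ S x := by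
  change (null A B K).mkQ _ = (null A B K).mkQ _
  rw [← sub_eq_zero, ← map_sub]
  refine (Submodule.Quotient.mk_eq_zero _).2 ⟨T, fun U hU => ?_⟩
  rw [Pi.sub_apply, fam_apply hU, fam_apply (h.trans hU),
    K0Q.cf_cf' (FGS.inc h) (FGS.inc hU) (FGS.inc (h.trans hU)) (FGS.inc_inc h hU), sub_self]

theorem germ_model {S T : FGS k K} {M : Bim (A.bc S.1) (B.bc S.1)}
    {N : Bim (A.bc T.1) (B.bc T.1)} (hM : Perf M) (hN : Perf N)
    (h : HE (M.cf S.val) (N.cf T.val)) : germ S (cls M hM) = germ T (cls N hN) := by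
  obtain ⟨U, h1, h2, h3⟩ := model_cls hM hN h
  rw [← germ_up h1, ← germ_up h2, h3]

/-- The germ of a chosen model. -/
noncomputable def val (X : Bim (A.bc K) (B.bc K)) (hX : Perf X) : Fam A B K ⧸ null A B K :=
  germ (exists_model hX).choose (cls (exists_model hX).choose_spec.choose
    (exists_model hX).choose_spec.choose_spec.1)

theorem val_eq {X : Bim (A.bc K) (B.bc K)} (hX : Perf X) {S : FGS k K}
    {M : Bim (A.bc S.1) (B.bc S.1)} (hM : Perf M) (h : HE (M.cf S.val) X) :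
    val X hX = germ S (cls M hM) :=
  germ_model _ hM ((exists_model hX).choose_spec.choose_spec.2.trans h.symm)

theorem val_ext {X' X X'' : Bim (A.bc K) (B.bc K)} (h' : Perf X') (h : Perf X) (h'' : Perf X'')
    (hE : IsExt X' X X'') : val X h = val X' h' + val X'' h'' := by
  obtain ⟨S', M', hM', he'⟩ := exists_model h'
  obtain ⟨S, M, hM, he⟩ := exists_model h
  obtain ⟨S'', M'', hM'', he''⟩ := exists_model h''
  obtain ⟨U, u', u, u'', hU⟩ := model_ext hE hM' hM hM'' he' he he''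
  rw [val_eq h hM he, val_eq h' hM' he', val_eq h'' hM'' he'', ← germ_up u, ← germ_up u',
    ← germ_up u'', hU, map_add]

theorem val_contr {X : Bim (A.bc K) (B.bc K)} (hX : Perf X) (hc : Contr X) : val X hX = 0 := by
  obtain ⟨S, M, hM, he⟩ := exists_model hX
  obtain ⟨Z, hZ, -⟩ := contr_zero (A := A.bc S.1) (B := B.bc S.1)
  have hZ' : Contr (Z.cf S.val) := (cfF S.val A B).contr hZ
  have h1 : HE (M.cf S.val) (Z.cf S.val) := he.trans (HE.of_contr hc hZ')
  rw [val_eq hX hM he, germ_model hM (Perf.contr hZ) h1, K0Q.cls_contr _ hZ, map_zero]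

/-- The germ of an element over `K`. -/
noncomputable def Φ : K0Q (A.bc K) (B.bc K) →ₗ[ℚ] Fam A B K ⧸ null A B K :=
  K0Q.lift val (fun h' h h'' hE => val_ext h' h h'' hE) (fun h hc => val_contr h hc)

theorem Φ_cf (S : FGS k K) (x : K0Q (A.bc S.1) (B.bc S.1)) :
    (Φ (A := A) (B := B) (K := K)) (K0Q.cf S.val x) = germ S x := by
  have h : (Φ (A := A) (B := B) (K := K)).comp (K0Q.cf S.val) =
      germ (A := A) (B := B) S := K0Q.hom_ext (fun M hM => by
    rw [LinearMap.comp_apply, K0Q.cf_cls]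
    exact (K0Q.lift_cls _ _ _ _ _).trans (val_eq _ hM (HE.refl _)))
  exact LinearMap.congr_fun h x

end SpGerm

theorem K0Q.cf_zero {S : FGS k K} (x : K0Q (A.bc S.1) (B.bc S.1)) (hx : K0Q.cf S.val x = 0) :
    ∃ (T : FGS k K) (h : S ≤ T), K0Q.cf (FGS.inc h) x = 0 := by
  have h1 : SpGerm.germ S x = 0 := by
    rw [← SpGerm.Φ_cf, hx, map_zero]
  obtain ⟨T₀, h2⟩ := (Submodule.Quotient.mk_eq_zero _).1 h1
  obtain ⟨T, h3, h4⟩ := exists_ge_ge S T₀
  refine ⟨T, h3, ?_⟩
  rw [← SpGerm.fam_apply h3]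
  exact h2 T h4

end Pool.Agent.MP_6e5bed_ag_NC
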