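import Pool.Agent.Lib.MP_6e5bed_ag_BC.SpMap
import Pool.Agent.Lib.MP_6e5bed_ag_BC.K0Cf
import Pool.Agent.Lib.MP_6e5bed_ag_BC.HCone
import Pool.Agent.Lib.MP_6e5bed_ag_BC.HSplit

set_option autoImplicit false

/-!
# Spreading out of homotopy equivalences, cones and summands
-/

namespace Pool.Agent.MP_6e5bed_ag_NC

attribute [local instance] Alg.iR Alg.iA Cf.iG Cf.iM Rs.iG Rs.iM

open CategoryTheory

universe u

namespace SpHe

section cat

variable {k : Type u} [CommRing k] {A B : DGA k} {L M N P : Bim A B}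

/-- Homotopic maps. -/
def Hty (f g : GMap 0 M N) : Prop := ∃ u : GMap (-1) M N, ∀ x, u.dd x = f.f x - g.f x

theorem Hty.refl (f : GMap 0 M N) : Hty f f := ⟨0, fun x => by rw [GMap.dd_zero, sub_self]⟩

theorem Hty.symm {f g : GMap 0 M N} (h : Hty f g) : Hty g f := by
  obtain ⟨u, hu⟩ := h
  exact ⟨-u, fun x => by rw [GMap.dd_neg, hu, neg_sub]⟩

theorem Hty.trans {f g h : GMap 0 M N} (h1 : Hty f g) (h2 : Hty g h) : Hty f h := by
  obtain ⟨u, hu⟩ := h1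
  obtain ⟨v, hv⟩ := h2
  exact ⟨u + v, fun x => by rw [GMap.dd_add, hu, hv, sub_add_sub_cancel]⟩

theorem Hty.comp {f f' : GMap 0 M N} {g g' : GMap 0 N P} (hf' : f'.dd = 0) (hg : g.dd = 0)
    (h1 : Hty f f') (h2 : Hty g g') :
    Hty (f.comp g (add_zero 0)) (f'.comp g' (add_zero 0)) := by
  obtain ⟨u, hu⟩ := h1
  obtain ⟨v, hv⟩ := h2
  refine ⟨u.comp g (add_zero (-1)) + f'.comp v (zero_add (-1)), fun x => ?_⟩
  rw [GMap.dd_add, GMap.dd_comp, GMap.dd_comp, hu, hv, hg, hf', sg_zero, one_smul,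
    LinearMap.zero_apply, LinearMap.zero_apply, map_zero, smul_zero, add_zero, zero_add, map_sub,
    GMap.comp_f, GMap.comp_f]
  abel

theorem dd_comp_zero {f : GMap 0 M N} {g : GMap 0 N P} (hf : f.dd = 0) (hg : g.dd = 0) :
    (f.comp g (add_zero 0)).dd = 0 := by
  refine LinearMap.ext (fun x => ?_)
  rw [GMap.dd_comp, hf, hg, LinearMap.zero_apply, LinearMap.zero_apply, map_zero, smul_zero,
    add_zero, LinearMap.zero_apply]

/-- Closed maps up to homotopy. -/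
def hset (M N : Bim A B) : Setoid {f : GMap 0 M N // f.dd = 0} where
  r f g := Hty f.1 g.1
  iseqv := ⟨fun f => Hty.refl f.1, fun h => h.symm, fun h h' => h.trans h'⟩

variable (A B) in
/-- The homotopy category. -/
structure Ho where
  of : Bim A B

noncomputable instance : Category (Ho A B) where
  Hom X Y := Quotient (hset X.of Y.of)
  id X := Quotient.mk _ ⟨GMap.id X.of, LinearMap.ext GMap.dd_id⟩
  comp {X Y Z} f g := Quotient.map₂ (sa := hset X.of Y.of) (sb := hset Y.of Z.of)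
    (sc := hset X.of Z.of) (fun f g => ⟨f.1.comp g.1 (add_zero 0), dd_comp_zero f.2 g.2⟩)
    (fun _ f' h g _ h' => Hty.comp f'.2 g.2 h h') f g
  id_comp {X Y} f := by
    refine Quotient.inductionOn f (fun f => ?_)
    rfl
  comp_id {X Y} f := by
    refine Quotient.inductionOn f (fun f => ?_)
    rfl
  assoc {W X Y Z} f g h := by
    refine Quotient.inductionOn₃ f g h (fun f g h => ?_)
    rfl

/-- The class of a closed map. -/
def hcl {X Y : Ho A B} (f : GMap 0 X.of Y.of) (hf : f.dd = 0) : X ⟶ Y :=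
  Quotient.mk (hset X.of Y.of) ⟨f, hf⟩

theorem hcl_surj {X Y : Ho A B} (f : X ⟶ Y) : ∃ (g : GMap 0 X.of Y.of) (hg : g.dd = 0),
    hcl g hg = f := by
  refine Quotient.inductionOn f (fun f => ⟨f.1, f.2, rfl⟩)

theorem hcl_eq {X Y : Ho A B} {f g : GMap 0 X.of Y.of} {hf : f.dd = 0} {hg : g.dd = 0} :
    hcl f hf = hcl g hg ↔ Hty f g := Quotient.eq (r := hset X.of Y.of)

theorem hcl_comp {X Y Z : Ho A B} (f : GMap 0 X.of Y.of) (hf : f.dd = 0)
    (g : GMap 0 Y.of Z.of) (hg : g.dd = 0) :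
    hcl f hf ≫ hcl g hg = hcl (Y := Z) (f.comp g (add_zero 0)) (dd_comp_zero hf hg) := rfl

theorem hcl_id (X : Ho A B) : hcl (GMap.id X.of) (LinearMap.ext GMap.dd_id) = 𝟙 X := rfl

theorem hcl_ext {X Y : Ho A B} {f g : GMap 0 X.of Y.of} {hf : f.dd = 0} {hg : g.dd = 0}
    (h : ∀ x, f.f x = g.f x) : hcl f hf = hcl g hg := by
  have e : f = g := GMap.ext h
  subst e
  rfl

/-- Isomorphisms are homotopy equivalences. -/
theorem htpyEq_of_iso {X Y : Ho A B} (I : X ≅ Y) {f : GMap 0 X.of Y.of} {hf : f.dd = 0}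
    (h : hcl f hf = I.hom) : HtpyEq f := by
  obtain ⟨g, hg, e⟩ := hcl_surj I.inv
  have h1 : hcl f hf ≫ hcl g hg = 𝟙 X := by rw [h, e, I.hom_inv_id]
  have h2 : hcl g hg ≫ hcl f hf = 𝟙 Y := by rw [h, e, I.inv_hom_id]
  rw [hcl_comp, ← hcl_id, hcl_eq] at h1 h2
  obtain ⟨u, hu⟩ := h1.symm
  obtain ⟨v, hv⟩ := h2.symm
  exact ⟨hf, g, u, v, hg, hu, hv⟩

theorem exists_iso {X Y : Ho A B} {f : GMap 0 X.of Y.of} (h : HtpyEq f) :
    ∃ I : X ≅ Y, I.hom = hcl f h.1 := by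
  obtain ⟨h0, g, u, v, h1, h2, h3⟩ := h
  refine ⟨⟨hcl f h0, hcl g h1, ?_, ?_⟩, rfl⟩
  · rw [hcl_comp, ← hcl_id, hcl_eq]
    exact Hty.symm ⟨u, h2⟩
  · rw [hcl_comp, ← hcl_id, hcl_eq]
    exact Hty.symm ⟨v, h3⟩

theorem he_iff {X Y : Ho A B} : HE X.of Y.of ↔ Nonempty (X ≅ Y) := by
  constructor
  · rintro ⟨f, hf⟩
    obtain ⟨I, -⟩ := exists_iso hf
    exact ⟨I⟩
  · rintro ⟨I⟩
    obtain ⟨f, hf, e⟩ := hcl_surj I.hom
    exact ⟨f, htpyEq_of_iso I e⟩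

end cat

section functor

variable {k k' : Type u} [CommRing k] [CommRing k'] {A B : DGA k} {A' B' : DGA k'}

theorem Hty.map (F : DGFun A B A' B') {M N : Bim A B} {f g : GMap 0 M N} (h : Hty f g) :
    Hty (F.map f) (F.map g) := by
  obtain ⟨u, hu⟩ := h
  refine ⟨F.map u, fun x => ?_⟩
  have e : u.D (neg_add_cancel 1) + g = f := GMap.ext (fun x => by
    rw [GMap.add_f, GMap.D_f, hu, sub_add_cancel])
  have e1 := F.map_add (u.D (neg_add_cancel 1)) g x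
  rw [e, F.map_D] at e1
  rw [eq_sub_iff_add_eq]
  exact e1.symm

/-- The functor of homotopy categories given by a dg functor. -/
noncomputable def hfun (F : DGFun A B A' B') : Ho A B ⥤ Ho A' B' where
  obj X := ⟨F.obj X.of⟩
  map {X Y} f := Quotient.map (sa := hset X.of Y.of) (sb := hset (F.obj X.of) (F.obj Y.of))
    (fun f => ⟨F.map f.1, F.closed f.2⟩) (fun _ _ h => Hty.map F h) f
  map_id X := hcl_ext (X := ⟨F.obj X.of⟩) (Y := ⟨F.obj X.of⟩) (F.map_id X.of)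
  map_comp {X Y Z} f g := by
    refine Quotient.inductionOn₂ f g (fun f g => ?_)
    exact hcl_ext (X := ⟨F.obj X.of⟩) (Y := ⟨F.obj Z.of⟩) (F.map_comp f.1 g.1 (add_zero 0))

theorem hfun_hcl (F : DGFun A B A' B') {X Y : Ho A B} (f : GMap 0 X.of Y.of) (hf : f.dd = 0) :
    (hfun F).map (hcl f hf) = hcl (X := (hfun F).obj X) (Y := (hfun F).obj Y) (F.map f)
      (F.closed hf) := rfl

end functor

section levels

variable {k : Type u} [CommRing k] {A B : DGA k}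

section

variable {R S T : Type u} [CommRing R] [CommRing S] [CommRing T] [Algebra k R] [Algebra k S]
  [Algebra k T]

variable (A B) in
/-- Extension of scalars. -/
noncomputable abbrev hcf (f : R →ₐ[k] S) : Ho (A.bc R) (B.bc R) ⥤ Ho (A.bc S) (B.bc S) :=
  hfun (cfF f A B)

variable (A B) in
/-- Extension of scalars in stages. -/
noncomputable def hθ (f : R →ₐ[k] S) (g : S →ₐ[k] T) (h : R →ₐ[k] T)
    (e : ∀ r, g (f r) = h r) : hcf A B f ⋙ hcf A B g ≅ hcf A B h :=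
  NatIso.ofComponents (fun X =>
    { hom := hcl (X := (hcf A B f ⋙ hcf A B g).obj X) (Y := (hcf A B h).obj X)
        (cfθ f g h e X.of) (cfθ_dd f g h e X.of)
      inv := hcl (X := (hcf A B h).obj X) (Y := (hcf A B f ⋙ hcf A B g).obj X)
        (cfθi f g h e X.of) (cfθi_dd f g h e X.of)
      hom_inv_id := hcl_ext (X := (hcf A B f ⋙ hcf A B g).obj X)
        (Y := (hcf A B f ⋙ hcf A B g).obj X) (cfθi_cfθ f g h e X.of)
      inv_hom_id := hcl_ext (X := (hcf A B h).obj X) (Y := (hcf A B h).obj X)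
        (cfθ_cfθi f g h e X.of) })
    (fun {X Y} φ => by
      obtain ⟨φ, hφ, rfl⟩ := hcl_surj φ
      exact (hcl_ext (X := (hcf A B f ⋙ hcf A B g).obj X) (Y := (hcf A B h).obj Y)
        (f := (cfθ f g h e X.of).comp (φ.cf h) (add_zero 0))
        (g := ((φ.cf f).cf g).comp (cfθ f g h e Y.of) (add_zero 0))
        (hf := dd_comp_zero (cfθ_dd f g h e X.of) ((cfF h A B).closed hφ))
        (hg := dd_comp_zero ((cfF g A B).closed ((cfF f A B).closed hφ))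
          (cfθ_dd f g h e Y.of)) (cfθ_nat f g h e φ)).symm)

theorem hθ_hom (f : R →ₐ[k] S) (g : S →ₐ[k] T) (h : R →ₐ[k] T)
    (e : ∀ r, g (f r) = h r) (X : Ho (A.bc R) (B.bc R)) : (hθ A B f g h e).hom.app X =
      hcl (X := (hcf A B f ⋙ hcf A B g).obj X) (Y := (hcf A B h).obj X)
        (cfθ f g h e X.of) (cfθ_dd f g h e X.of) := rfl

theorem cf_sub (f : R →ₐ[k] S) {M N : Bim (A.bc R) (B.bc R)} (φ ψ : GMap 0 M N)
    (x : (M.cf f).M) : ((φ - ψ).cf f).f x = (φ.cf f).f x - (ψ.cf f).f x :=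
  GMap.cf_ext (φ := (φ - ψ).cf f) (ψ := φ.cf f - ψ.cf f) (fun m => by
    rw [GMap.cf_ι, GMap.sub_f, GMap.sub_f, GMap.cf_ι, GMap.cf_ι, map_sub]) x

end

variable {K : Type u} [CommRing K] [Algebra k K]

variable (A B) in
noncomputable abbrev hinc {S T : FGS k K} (h : S ≤ T) :
    Ho (A.bc S.1) (B.bc S.1) ⥤ Ho (A.bc T.1) (B.bc T.1) := hcf A B (FGS.inc h)

variable (A B) in
noncomputable abbrev hval (S : FGS k K) : Ho (A.bc S.1) (B.bc S.1) ⥤ Ho (A.bc K) (B.bc K) :=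
  hcf A B S.val

variable (A B) in
noncomputable abbrev hκ {S T : FGS k K} (h : S ≤ T) : hinc A B h ⋙ hval A B T ≅ hval A B S :=
  hθ A B (FGS.inc h) T.val S.val (FGS.val_inc h)

variable (A B) in
noncomputable abbrev hι {S T W : FGS k K} (h : S ≤ T) (h' : T ≤ W) :
    hinc A B h ⋙ hinc A B h' ≅ hinc A B (h.trans h') :=
  hθ A B (FGS.inc h) (FGS.inc h') (FGS.inc (h.trans h')) (FGS.inc_inc h h')

variable {S : FGS k K} {X Y : Ho (A.bc S.1) (B.bc S.1)}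

/-- Maps over `K` come from a finitely generated subalgebra. -/
theorem full (hX : Perf X.of) (f : (hval A B S).obj X ⟶ (hval A B S).obj Y) :
    ∃ (T : FGS k K) (h : S ≤ T) (g : (hinc A B h).obj X ⟶ (hinc A B h).obj Y),
      (hval A B T).map g = (hκ A B h).hom.app X ≫ f ≫ (hκ A B h).inv.app Y := by
  obtain ⟨f, hf, rfl⟩ := hcl_surj f
  obtain ⟨T, h, g, hg, u, hu⟩ := spread_map hX hf
  refine ⟨T, h, hcl g hg, ?_⟩
  rw [← Category.assoc]
  refine (Iso.eq_comp_inv ((hκ A B h).app Y)).2 ?_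
  have e : hcl (X := (hinc A B h ⋙ hval A B T).obj X) (Y := (hval A B S).obj Y)
      ((kθ h X.of).comp f (add_zero 0)) (dd_comp_zero (cfθ_dd _ _ _ _ _) hf) =
      hcl ((g.cf T.val).comp (kθ h Y.of) (add_zero 0))
        (dd_comp_zero ((cfF T.val A B).closed hg) (cfθ_dd _ _ _ _ _)) := hcl_eq.2 ⟨u, hu⟩
  exact e.symm

/-- Maps which agree over `K` agree over a finitely generated subalgebra. -/
theorem faithful (hX : Perf X.of) {f g : X ⟶ Y} (e : (hval A B S).map f = (hval A B S).map g) :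
    ∃ (T : FGS k K) (h : S ≤ T), (hinc A B h).map f = (hinc A B h).map g := by
  obtain ⟨f, hf, rfl⟩ := hcl_surj f
  obtain ⟨g, hg, rfl⟩ := hcl_surj g
  obtain ⟨u, hu⟩ := hcl_eq.1 e
  have hfg : (f - g).dd = 0 := LinearMap.ext (fun x => by
    rw [GMap.dd_sub, hf, hg, LinearMap.zero_apply, sub_zero])
  obtain ⟨T, h, u', hu'⟩ := spread_null hX hfg u
    (fun x => (hu x).trans (cf_sub S.val f g x).symm)
  exact ⟨T, h, hcl_eq.2 ⟨u', fun x => (hu' x).trans (cf_sub (FGS.inc h) f g x)⟩⟩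

theorem map_map {S T : FGS k K} (h : S ≤ T) {X Y : Ho (A.bc S.1) (B.bc S.1)} (g : X ⟶ Y) :
    (hval A B T).map ((hinc A B h).map g) =
      (hκ A B h).hom.app X ≫ (hval A B S).map g ≫ (hκ A B h).inv.app Y := by
  rw [← Category.assoc]
  exact (Iso.eq_comp_inv ((hκ A B h).app Y)).2 ((hκ A B h).hom.naturality g)

theorem map_map_id {S T : FGS k K} (h : S ≤ T) {X : Ho (A.bc S.1) (B.bc S.1)} {g : X ⟶ X}
    (hg : (hval A B S).map g = 𝟙 _) :
    (hval A B T).map ((hinc A B h).map g) = (hval A B T).map (𝟙 ((hinc A B h).obj X)) := by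
  rw [map_map, hg, Category.id_comp, CategoryTheory.Functor.map_id]
  exact ((hκ A B h).app X).hom_inv_id

/-- A map which is an isomorphism over `K` is one over a finitely generated subalgebra. -/
theorem conservative {S : FGS k K} {X Y : Ho (A.bc S.1) (B.bc S.1)} (hX : Perf X.of)
    (hY : Perf Y.of) (g : X ⟶ Y) (I : (hval A B S).obj X ≅ (hval A B S).obj Y)
    (hg : (hval A B S).map g = I.hom) : ∃ (T : FGS k K) (h : S ≤ T),
      Nonempty ((hinc A B h).obj X ≅ (hinc A B h).obj Y) := by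
  obtain ⟨T, h, g', hg'⟩ := full hY I.inv
  have e1 : (hval A B T).map ((hinc A B h).map g ≫ g') =
      (hval A B T).map (𝟙 ((hinc A B h).obj X)) := by
    rw [Functor.map_comp, map_map, hg, hg', CategoryTheory.Functor.map_id]
    simp
  have e2 : (hval A B T).map (g' ≫ (hinc A B h).map g) = 𝟙 _ := by
    rw [Functor.map_comp, map_map, hg, hg']
    simp
  obtain ⟨T1, h1, e3⟩ := faithful (X := (hinc A B h).obj X) (hX.cf) e1
  obtain ⟨T2, h2, e4⟩ := faithful (X := (hinc A B h1).obj ((hinc A B h).obj Y)) (hY.cf.cf)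
    (map_map_id h1 e2)
  have J : (hinc A B h2).obj ((hinc A B h1).obj ((hinc A B h).obj X)) ≅
      (hinc A B h2).obj ((hinc A B h1).obj ((hinc A B h).obj Y)) :=
    { hom := (hinc A B h2).map ((hinc A B h1).map ((hinc A B h).map g))
      inv := (hinc A B h2).map ((hinc A B h1).map g')
      hom_inv_id := by
        rw [← Functor.map_comp, ← Functor.map_comp, e3, CategoryTheory.Functor.map_id, CategoryTheory.Functor.map_id]
      inv_hom_id := by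
        rw [← Functor.map_comp, ← Functor.map_comp, e4, CategoryTheory.Functor.map_id] }
  exact ⟨T2, (h.trans h1).trans h2, ⟨((hι A B (h.trans h1) h2).app X).symm ≪≫
    (hinc A B h2).mapIso ((hι A B h h1).app X).symm ≪≫ J ≪≫
    (hinc A B h2).mapIso ((hι A B h h1).app Y) ≪≫ (hι A B (h.trans h1) h2).app Y⟩⟩

end levels

end SpHe

variable {k : Type u} [CommRing k] {A B : DGA k} {K : Type u} [CommRing K] [Algebra k K]
  {S : FGS k K} {M N : Bim (A.bc S.1) (B.bc S.1)}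

/-- Models may be moved to a larger subalgebra. -/
theorem HE.up {S T : FGS k K} (h : S ≤ T) {M : Bim (A.bc S.1) (B.bc S.1)}
    {X : Bim (A.bc K) (B.bc K)} (hX : HE (M.cf S.val) X) :
    HE ((M.cf (FGS.inc h)).cf T.val) X :=
  (cf_cf (FGS.inc h) T.val S.val (FGS.val_inc h) M).he.trans hX

/-- Perfect bimodules which become homotopy equivalent over `K` are so over a finitely generated
`T`. -/
theorem spread_he (hM : Perf M) (hN : Perf N) (h : HE (M.cf S.val) (N.cf S.val)) :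
    ∃ (T : FGS k K) (h : S ≤ T), HE (M.cf (FGS.inc h)) (N.cf (FGS.inc h)) := by
  obtain ⟨I⟩ := (SpHe.he_iff (X := (SpHe.hval A B S).obj ⟨M⟩)
    (Y := (SpHe.hval A B S).obj ⟨N⟩)).1 h
  obtain ⟨T, h, g, hg⟩ := SpHe.full (X := ⟨M⟩) (Y := ⟨N⟩) hM I.hom
  obtain ⟨T', h', ⟨J⟩⟩ := SpHe.conservative (X := (SpHe.hinc A B h).obj ⟨M⟩)
    (Y := (SpHe.hinc A B h).obj ⟨N⟩) hM.cf hN.cf g
    ((SpHe.hκ A B h).app ⟨M⟩ ≪≫ I ≪≫ ((SpHe.hκ A B h).app ⟨N⟩).symm) hg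
  exact ⟨T', h.trans h', (SpHe.he_iff (X := (SpHe.hinc A B (h.trans h')).obj ⟨M⟩)
    (Y := (SpHe.hinc A B (h.trans h')).obj ⟨N⟩)).2
    ⟨((SpHe.hι A B h h').app ⟨M⟩).symm ≪≫ J ≪≫ (SpHe.hι A B h h').app ⟨N⟩⟩⟩

/-- The cone of a map over `K` between perfect bimodules which come from `S` comes from a
finitely generated `T`. -/
theorem spread_cone (hM : Perf M) (hN : Perf N) {X Y C : Bim (A.bc K) (B.bc K)}
    {φ : GMap 0 X Y} (hφ : φ.dd = 0) (hC : IsCone φ C) (hX : HE (M.cf S.val) X)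
    (hY : HE (N.cf S.val) Y) : ∃ (T : FGS k K) (h : S ≤ T) (P : Bim (A.bc T.1) (B.bc T.1))
      (hP : Perf P), HE (P.cf T.val) C ∧
        cls P hP = K0Q.cf (FGS.inc h) (cls N hN - cls M hM) := by
  obtain ⟨α, hα⟩ := hX
  obtain ⟨β, hβ⟩ := hY
  obtain ⟨I, hI⟩ := SpHe.exists_iso (X := (SpHe.hval A B S).obj ⟨M⟩) (Y := ⟨X⟩) hα
  obtain ⟨J, hJ⟩ := SpHe.exists_iso (X := (SpHe.hval A B S).obj ⟨N⟩) (Y := ⟨Y⟩) hβ
  obtain ⟨T, h, g, hg⟩ := SpHe.full (X := ⟨M⟩) (Y := ⟨N⟩) hM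
    (I.hom ≫ SpHe.hcl (X := ⟨X⟩) (Y := ⟨Y⟩) φ hφ ≫ J.inv)
  obtain ⟨g, hg0, rfl⟩ := SpHe.hcl_surj g
  have hc : IsCone g (cone g hg0) := isCone_cone g hg0
  refine ⟨T, h, cone g hg0, hc.perf hM.cf hN.cf, ?_, ?_⟩
  · have e : (SpHe.hval A B T).map (SpHe.hcl g hg0) ≫ (SpHe.hκ A B h).hom.app ⟨N⟩ ≫ J.hom =
        ((SpHe.hκ A B h).hom.app ⟨M⟩ ≫ I.hom) ≫ SpHe.hcl (X := ⟨X⟩) (Y := ⟨Y⟩) φ hφ := by
      rw [hg]
      simp
    obtain ⟨a, ha, hae⟩ := SpHe.hcl_surj ((SpHe.hκ A B h).hom.app ⟨M⟩ ≫ I.hom)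
    obtain ⟨b, hb, hbe⟩ := SpHe.hcl_surj ((SpHe.hκ A B h).hom.app ⟨N⟩ ≫ J.hom)
    have ha' : HtpyEq a := SpHe.htpyEq_of_iso ((SpHe.hκ A B h).app ⟨M⟩ ≪≫ I) hae
    have hb' : HtpyEq b := SpHe.htpyEq_of_iso ((SpHe.hκ A B h).app ⟨N⟩ ≪≫ J) hbe
    rw [← hae, ← hbe] at e
    obtain ⟨u, hu⟩ := SpHe.hcl_eq.1 e
    exact HE.cone (φ := g.cf T.val) (φ' := φ) ((cfF T.val A B).closed hg0) hφ
      ((cfF T.val A B).isCone hc) hC ha' hb' u hu
  · rw [K0Q.cls_cone hc hM.cf hN.cf (hc.perf hM.cf hN.cf), map_sub, K0Q.cf_cls, K0Q.cf_cls]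
    rfl

/-- Direct summands over `K` of bimodules which come from `S` come from a finitely generated
`T`. -/
theorem spread_summand (hM : Perf M) {X Y : Bim (A.bc K) (B.bc K)} (hX : HE (M.cf S.val) X)
    (hY : IsSummand Y X) : ∃ (T : FGS k K) (P : Bim (A.bc T.1) (B.bc T.1)), Perf P ∧
      HE (P.cf T.val) Y := by
  obtain ⟨i, r, hi, hr, hir⟩ := hY
  obtain ⟨I⟩ := (SpHe.he_iff (X := (SpHe.hval A B S).obj ⟨M⟩) (Y := ⟨X⟩)).1 hX
  obtain ⟨i', r', hir'⟩ : ∃ (i' : (⟨Y⟩ : SpHe.Ho (A.bc K) (B.bc K)) ⟶ ⟨X⟩)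
      (r' : (⟨X⟩ : SpHe.Ho (A.bc K) (B.bc K)) ⟶ ⟨Y⟩), i' ≫ r' = 𝟙 _ :=
    ⟨SpHe.hcl i hi, SpHe.hcl r hr, SpHe.hcl_ext hir⟩
  obtain ⟨T, h, e, he⟩ := SpHe.full (X := ⟨M⟩) (Y := ⟨M⟩) hM (I.hom ≫ r' ≫ i' ≫ I.inv)
  have e1 : (SpHe.hval A B T).map (e ≫ e) = (SpHe.hval A B T).map e := by
    rw [Functor.map_comp, he]
    simp [reassoc_of% hir']
  obtain ⟨T', h', e2⟩ := SpHe.faithful (X := (SpHe.hinc A B h).obj ⟨M⟩) hM.cf e1
  obtain ⟨g, hg, hge⟩ := SpHe.hcl_surj ((SpHe.hinc A B h').map e)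
  have e3 : SpHe.hcl g hg ≫ SpHe.hcl g hg = SpHe.hcl g hg := by
    rw [hge, ← Functor.map_comp, e2]
  obtain ⟨u, hu⟩ := SpHe.hcl_eq.1 e3
  obtain ⟨Z, j, s, hj, hs, ⟨v, hv⟩, ⟨w, hw⟩⟩ := exists_splitting g hg u hu
  refine ⟨T', Z, Perf.of_retract hj hs v hv hM.cf.cf, ?_⟩
  obtain ⟨j', s', hjs, hsj⟩ : ∃ (j' : (⟨Z⟩ : SpHe.Ho (A.bc T'.1) (B.bc T'.1)) ⟶
      (SpHe.hinc A B h').obj ((SpHe.hinc A B h).obj ⟨M⟩))
      (s' : (SpHe.hinc A B h').obj ((SpHe.hinc A B h).obj ⟨M⟩) ⟶ ⟨Z⟩),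
      j' ≫ s' = 𝟙 _ ∧ s' ≫ j' = (SpHe.hinc A B h').map e :=
    ⟨SpHe.hcl j hj, SpHe.hcl s hs, (SpHe.hcl_eq.2 (SpHe.Hty.symm ⟨v, hv⟩)),
      (SpHe.hcl_eq.2 ⟨w, hw⟩).trans hge⟩
  have e4 : (SpHe.hval A B T').map s' ≫ (SpHe.hval A B T').map j' =
      ((SpHe.hκ A B h').hom.app _ ≫ (SpHe.hκ A B h).hom.app ⟨M⟩ ≫ I.hom) ≫ r' ≫ i' ≫
        (I.inv ≫ (SpHe.hκ A B h).inv.app ⟨M⟩ ≫ (SpHe.hκ A B h').inv.app _) := by
    rw [← Functor.map_comp, hsj, SpHe.map_map, he]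
    simp
  have e5 : (SpHe.hval A B T').map j' ≫ (SpHe.hval A B T').map s' = 𝟙 _ := by
    rw [← Functor.map_comp, hjs, CategoryTheory.Functor.map_id]
  obtain ⟨L, hL⟩ : ∃ L : (SpHe.hval A B T').obj ((SpHe.hinc A B h').obj
      ((SpHe.hinc A B h).obj ⟨M⟩)) ≅ (⟨X⟩ : SpHe.Ho (A.bc K) (B.bc K)),
      L = (SpHe.hκ A B h').app _ ≪≫ (SpHe.hκ A B h).app ⟨M⟩ ≪≫ I := ⟨_, rfl⟩
  have e6 : (SpHe.hval A B T').map s' ≫ (SpHe.hval A B T').map j' =
      L.hom ≫ r' ≫ i' ≫ L.inv := by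
    rw [e4, hL]
    simp
  refine (SpHe.he_iff (X := (SpHe.hval A B T').obj ⟨Z⟩) (Y := ⟨Y⟩)).2
    ⟨{ hom := (SpHe.hval A B T').map j' ≫ L.hom ≫ r'
       inv := i' ≫ L.inv ≫ (SpHe.hval A B T').map s'
       hom_inv_id := ?_
       inv_hom_id := ?_ }⟩
  · calc ((SpHe.hval A B T').map j' ≫ L.hom ≫ r') ≫ i' ≫ L.inv ≫ (SpHe.hval A B T').map s' =
        (SpHe.hval A B T').map j' ≫ (L.hom ≫ r' ≫ i' ≫ L.inv) ≫ (SpHe.hval A B T').map s' := by
          simp only [Category.assoc]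
      _ = ((SpHe.hval A B T').map j' ≫ (SpHe.hval A B T').map s') ≫
          ((SpHe.hval A B T').map j' ≫ (SpHe.hval A B T').map s') := by
          rw [← e6]
          simp only [Category.assoc]
      _ = 𝟙 _ := by rw [e5, Category.comp_id]
  · calc (i' ≫ L.inv ≫ (SpHe.hval A B T').map s') ≫ (SpHe.hval A B T').map j' ≫ L.hom ≫ r' =
        i' ≫ L.inv ≫ ((SpHe.hval A B T').map s' ≫ (SpHe.hval A B T').map j') ≫ L.hom ≫ r' := by
          simp only [Category.assoc]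
      _ = 𝟙 _ := by
          rw [e6]
          simp only [Category.assoc, Iso.inv_hom_id_assoc, reassoc_of% hir', hir']


end Pool.Agent.MP_6e5bed_ag_NC
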