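import Pool.Agent.Lib.MP_6e5bed_ag_BC.SpSys
import Pool.Agent.Lib.MP_6e5bed_ag_BC.HSysC
import Pool.Agent.Lib.MP_6e5bed_ag_BC.BcComp

set_option autoImplicit false

/-!
# Spreading out of maps and homotopies
-/

namespace Pool.Agent.MP_6e5bed_ag_NC

attribute [local instance] Alg.iR Alg.iA Cf.iG Cf.iM Rs.iG Rs.iM

universe u

variable {k : Type u} [CommRing k] {A B : DGA k} {K : Type u} [CommRing K] [Algebra k K]
  {S : FGS k K} {M N : Bim (A.bc S.1) (B.bc S.1)}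

/-- The isomorphism `K ⊗_T (T ⊗_S M) ≅ K ⊗_S M`. -/
noncomputable abbrev kθ {S T : FGS k K} (h : S ≤ T) (M : Bim (A.bc S.1) (B.bc S.1)) :
    GMap 0 ((M.cf (FGS.inc h)).cf T.val) (M.cf S.val) :=
  cfθ (FGS.inc h) T.val S.val (FGS.val_inc h) M

private theorem SpMap_trans_ι {R S T : Type u} [CommRing R] [CommRing S] [CommRing T] [Algebra k R]
    [Algebra k S] [Algebra k T] (f : R →ₐ[k] S) (g : S →ₐ[k] T) (h : R →ₐ[k] T)
    (e : ∀ r, g (f r) = h r) (N : Bim (A.bc R) (B.bc R)) (n : N.M) :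
    (N.cf h).ofRs h ((cfTrans f g h e N).f ((N.cf f).to f (N.ι f n))) = N.ι h n := by
  have h1 := cfTrans_ι f g h e N 1 n
  rw [one_smul, map_one, one_smul] at h1
  exact h1

private theorem SpMap_trans {R S T : Type u} [CommRing R] [CommRing S] [CommRing T] [Algebra k R]
    [Algebra k S] [Algebra k T] (f : R →ₐ[k] S) (g : S →ₐ[k] T) (h : R →ₐ[k] T)
    (e : ∀ r, g (f r) = h r) (N : Bim (A.bc R) (B.bc R)) (y : (N.cf f).M) :
    (cfθ f g h e N).f ((N.cf f).ι g y) =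
      (N.cf h).ofRs h ((cfTrans f g h e N).f ((N.cf f).to f y)) := by
  refine Bim.ι_ind (P := fun y => (cfθ f g h e N).f ((N.cf f).ι g y) =
      (N.cf h).ofRs h ((cfTrans f g h e N).f ((N.cf f).to f y))) ?_ ?_ ?_ y
  · simp only [map_zero]
  · intro x y hx hy
    simp only [map_add, hx, hy]
  · intro t m
    rw [cfTrans_ι, Bim.ι_smul, map_smul, cfθ_ι]

/-- A closed map over `K` comes from a closed map over a finitely generated `T`, up to
homotopy. -/
theorem spread_map (hM : Perf M) {g : GMap 0 (M.cf S.val) (N.cf S.val)} (hg : g.dd = 0) :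
    ∃ (T : FGS k K) (h : S ≤ T) (g' : GMap 0 (M.cf (FGS.inc h)) (N.cf (FGS.inc h))),
      g'.dd = 0 ∧ ∃ u : GMap (-1) ((M.cf (FGS.inc h)).cf T.val) (N.cf S.val),
        ∀ x, u.dd x = g.f ((kθ h M).f x) - (kθ h N).f ((g'.cf T.val).f x) := by
  have hφ : (g.adjInv S.val).dd = 0 := LinearMap.ext (fun m => by
    have h1 := GMap.adjInv_dd g m
    rw [hg, LinearMap.zero_apply] at h1
    exact h1)
  obtain ⟨⟨T, h⟩, -, f', hf', u, hu⟩ :=
    Sys.exists_lift (spSys N) hM ⟨S, le_rfl⟩ (g.adjInv S.val) hφ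
  have hf2 : ∃ f2 : GMap 0 M ((N.cf (FGS.inc h)).rs (FGS.inc h)), f2 = f' := ⟨f', rfl⟩
  obtain ⟨f2, hf2⟩ := hf2
  have hu2 : ∃ u2 : GMap (0 - 1) M ((N.cf S.val).rs S.val), u2 = u := ⟨u, rfl⟩
  obtain ⟨u2, hu2⟩ := hu2
  have hf2d : f2.dd = 0 := by rw [hf2]; exact hf'
  have hu2d : ∀ m, u2.dd m = (g.adjInv S.val).f m -
      (cfTrans (FGS.inc h) T.val S.val (FGS.val_inc h) N).f (f2.f m) := by
    intro m
    rw [hf2, hu2]
    exact hu m
  clear hu hu2 hf' hf2
  refine ⟨T, h, f2.adj (FGS.inc h), ?_,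
    (kθ h M).comp ((u2.cast (zero_sub 1)).adj S.val) (zero_add (-1)), ?_⟩
  · refine Bim.ι_ext (fun m => ?_)
    rw [GMap.adj_dd, hf2d, LinearMap.zero_apply, LinearMap.zero_apply, map_zero]
  · have key : ∀ m : M.M, ((kθ h M).comp ((u2.cast (zero_sub 1)).adj S.val) (zero_add (-1))).dd
        ((M.cf (FGS.inc h)).ι T.val (M.ι (FGS.inc h) m)) =
        g.f ((kθ h M).f ((M.cf (FGS.inc h)).ι T.val (M.ι (FGS.inc h) m))) -
          (kθ h N).f (((f2.adj (FGS.inc h)).cf T.val).f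
            ((M.cf (FGS.inc h)).ι T.val (M.ι (FGS.inc h) m))) := by
      intro m
      rw [GMap.dd_comp, cfθ_dd, LinearMap.zero_apply, map_zero, smul_zero, add_zero, cfθ_ι,
        GMap.adj_dd, GMap.dd_cast, hu2d, map_sub, GMap.adjInv_f, GMap.cf_ι, GMap.adj_ι,
        SpMap_trans]
      rfl
    have key2 : ∀ y : (M.cf (FGS.inc h)).M,
        ((kθ h M).comp ((u2.cast (zero_sub 1)).adj S.val) (zero_add (-1))).dd
        ((M.cf (FGS.inc h)).ι T.val y) =
        g.f ((kθ h M).f ((M.cf (FGS.inc h)).ι T.val y)) -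
          (kθ h N).f (((f2.adj (FGS.inc h)).cf T.val).f ((M.cf (FGS.inc h)).ι T.val y)) := by
      intro y
      refine Bim.ι_ind (P := fun y =>
        ((kθ h M).comp ((u2.cast (zero_sub 1)).adj S.val) (zero_add (-1))).dd
        ((M.cf (FGS.inc h)).ι T.val y) =
        g.f ((kθ h M).f ((M.cf (FGS.inc h)).ι T.val y)) -
          (kθ h N).f (((f2.adj (FGS.inc h)).cf T.val).f ((M.cf (FGS.inc h)).ι T.val y)))
        ?_ ?_ ?_ y
      · simp only [map_zero, sub_zero]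
      · intro x y hx hy
        simp only [map_add, hx, hy]
        abel
      · intro t m
        simp only [Bim.ι_smul, map_smul, key, smul_sub]
    intro x
    have h3 : ((kθ h M).comp ((u2.cast (zero_sub 1)).adj S.val) (zero_add (-1))).dd =
        g.f.comp (kθ h M).f - (kθ h N).f.comp ((f2.adj (FGS.inc h)).cf T.val).f :=
      Bim.ι_ext (M := M.cf (FGS.inc h)) (f := T.val) (fun y => by
        rw [LinearMap.sub_apply, LinearMap.comp_apply, LinearMap.comp_apply]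
        exact key2 y)
    exact LinearMap.congr_fun h3 x

/-- A closed map over `S` which is homotopic to zero over `K` is homotopic to zero over a
finitely generated `T`. -/
theorem spread_null (hM : Perf M) {g : GMap 0 M N} (hg : g.dd = 0)
    (u : GMap (-1) (M.cf S.val) (N.cf S.val)) (hu : ∀ x, u.dd x = (g.cf S.val).f x) :
    ∃ (T : FGS k K) (h : S ≤ T) (u' : GMap (-1) (M.cf (FGS.inc h)) (N.cf (FGS.inc h))),
      ∀ x, u'.dd x = (g.cf (FGS.inc h)).f x := by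
  have h0 : S ≤ S := le_rfl
  obtain ⟨j, hj⟩ : ∃ j : GMap 0 N ((N.cf (FGS.inc h0)).rs (FGS.inc h0)),
      j = (GMap.id (N.cf (FGS.inc h0))).adjInv (FGS.inc h0) := ⟨_, rfl⟩
  have hjf : ∀ n, j.f n = (N.cf (FGS.inc h0)).to (FGS.inc h0) (N.ι (FGS.inc h0) n) := by
    intro n
    rw [hj]
    rfl
  have hjd : ∀ n, j.dd n = 0 := by
    intro n
    rw [hj]
    have h1 := GMap.adjInv_dd (GMap.id (N.cf (FGS.inc h0))) n
    rw [GMap.dd_id] at h1
    exact h1
  have hφ : (g.comp j (add_zero 0)).dd = 0 := LinearMap.ext (fun m => by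
    rw [GMap.dd_comp, hjd, hg, LinearMap.zero_apply, map_zero, smul_zero, add_zero]
    rfl)
  have hu0 : ∀ x, ((u.adjInv S.val).cast (zero_sub 1).symm).dd x =
      (cfTrans (FGS.inc h0) S.val S.val (FGS.val_inc h0) N).f
        ((g.comp j (add_zero 0)).f x) := by
    intro x
    rw [GMap.dd_cast, GMap.comp_f, hjf]
    have h1 := GMap.adjInv_dd u x
    rw [hu, GMap.cf_ι] at h1
    have h2 := SpMap_trans_ι (FGS.inc h0) S.val S.val (FGS.val_inc h0) N (g.f x)
    exact h1.trans h2.symm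
  obtain ⟨⟨T, h⟩, hST, u', hu'⟩ := Sys.exists_null (spSys N) hM (i := ⟨S, h0⟩)
    (g.comp j (add_zero 0)) hφ ((u.adjInv S.val).cast (zero_sub 1).symm) hu0
  have hu2 : ∃ u2 : GMap (0 - 1) M ((N.cf (FGS.inc h)).rs (FGS.inc h)), u2 = u' := ⟨u', rfl⟩
  obtain ⟨u2, hu2⟩ := hu2
  have hST' : S ≤ T := hST
  have hu2d : ∀ m, u2.dd m = (cfTrans (FGS.inc h0) (FGS.inc hST') (FGS.inc h)
      (FGS.inc_inc h0 hST') N).f ((g.comp j (add_zero 0)).f m) := by
    intro m
    rw [hu2]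
    exact hu' m
  refine ⟨T, h, (u2.cast (zero_sub 1)).adj (FGS.inc h), fun x => ?_⟩
  have h3 : ((u2.cast (zero_sub 1)).adj (FGS.inc h)).dd = (g.cf (FGS.inc h)).f :=
    Bim.ι_ext (fun m => by
      rw [GMap.adj_dd, GMap.dd_cast, hu2d, GMap.comp_f, hjf, GMap.cf_ι]
      exact SpMap_trans_ι (FGS.inc h0) (FGS.inc hST') (FGS.inc h) (FGS.inc_inc h0 hST') N (g.f m))
  exact LinearMap.congr_fun h3 x

end Pool.Agent.MP_6e5bed_ag_NC
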