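import Pool.Agent.Lib.MP_6e5bed_ag_BC.SpHe
import Pool.Agent.Lib.MP_6e5bed_ag_BC.HExt

set_option autoImplicit false

/-!
# The Grothendieck group over `K` is the colimit of those over finitely generated subalgebras
-/

namespace Pool.Agent.MP_6e5bed_ag_NC

attribute [local instance] Alg.iR Alg.iA Cf.iG Cf.iM Rs.iG Rs.iM

universe u

section shift

variable {k k' : Type u} [CommRing k] [CommRing k'] {A B : DGA k} {A' B' : DGA k'}

private theorem spModel_shift_biso (F : DGFun A B A' B') (M : Bim A B) (n : ℤ) :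
    BIso (F.obj (M.shift n)) ((F.obj M).shift n) := by
  obtain ⟨a, ha⟩ : ∃ a : GMap n (M.shift n) M, a = (GMap.id M).shiftSrc n (zero_add n) :=
    ⟨_, rfl⟩
  obtain ⟨b, hb⟩ : ∃ b : GMap (-n) M (M.shift n),
      b = (GMap.id M).shiftTgt n (neg_add_cancel n) := ⟨_, rfl⟩
  have ha0 : a.dd = 0 := by
    rw [ha]
    refine LinearMap.ext fun x => ?_
    exact (GMap.shiftSrc_dd (GMap.id M) n (zero_add n) x).trans (GMap.dd_id (M := M) x)
  have hb0 : b.dd = 0 := by
    rw [hb]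
    refine LinearMap.ext fun x => ?_
    refine (GMap.shiftTgt_dd (GMap.id M) n (neg_add_cancel n) x).trans ?_
    refine (congrArg (fun y : M.M => sg n • y) (GMap.dd_id x)).trans ?_
    exact smul_zero (sg n)
  have hab : ∀ x, b.f (a.f x) = x := fun x => by
    rw [ha, hb]
    rfl
  have hba : ∀ x, a.f (b.f x) = x := fun x => by
    rw [ha, hb]
    rfl
  have h1 := F.closed ha0
  refine ⟨(F.map a).shiftTgt n (zero_add n), (F.map b).shiftSrc n (neg_add_cancel n),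
    LinearMap.ext fun x => ?_, fun x => ?_, fun x => ?_⟩
  · refine (GMap.shiftTgt_dd (F.map a) n (zero_add n) x).trans ?_
    rw [h1, LinearMap.zero_apply]
    exact smul_zero (sg n)
  · exact F.map_inv (add_neg_cancel n) hab x
  · exact F.map_inv (neg_add_cancel n) hba x

end shift

variable {k : Type u} [CommRing k] {A B : DGA k} {K : Type u} [CommRing K] [Algebra k K]

/-- `X` comes from a finitely generated subalgebra. -/
private def SpMod (X : Bim (A.bc K) (B.bc K)) : Prop :=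
  ∃ (S : FGS k K) (M : Bim (A.bc S.1) (B.bc S.1)), Perf M ∧ HE (M.cf S.val) X

private theorem spModel_perf {S V : FGS k K} (h : S ≤ V) {M : Bim (A.bc S.1) (B.bc S.1)}
    (hM : Perf M) : Perf (M.cf (FGS.inc h)) := hM.cf

private theorem SpMod.he {X Y : Bim (A.bc K) (B.bc K)} (h : SpMod X) (e : HE X Y) : SpMod Y := by
  obtain ⟨S, M, hM, hX⟩ := h
  exact ⟨S, M, hM, hX.trans e⟩

private theorem SpMod.shift {X : Bim (A.bc K) (B.bc K)} (h : SpMod X) (n : ℤ) :
    SpMod (X.shift n) := by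
  obtain ⟨S, M, hM, hX⟩ := h
  exact ⟨S, M.shift n, hM.shift n, (spModel_shift_biso (cfF S.val A B) M n).he.trans (hX.shift n)⟩

private theorem SpMod.cone {X Y C : Bim (A.bc K) (B.bc K)} (hX : SpMod X) (hY : SpMod Y)
    {φ : GMap 0 X Y} (hφ : φ.dd = 0) (hC : IsCone φ C) : SpMod C := by
  obtain ⟨S, M, hM, hX⟩ := hX
  obtain ⟨S', N, hN, hY⟩ := hY
  obtain ⟨T, hS, hS'⟩ := exists_ge_ge S S'
  obtain ⟨U, hU, P, hP, e, _⟩ := spread_cone (S := T) (spModel_perf hS hM)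
    (spModel_perf hS' hN) hφ hC (HE.up hS hX) (HE.up hS' hY)
  exact ⟨U, P, hP, e⟩

/-- Every perfect bimodule over `K` comes from a finitely generated subalgebra. -/
theorem exists_model {X : Bim (A.bc K) (B.bc K)} (hX : Perf X) :
    ∃ (S : FGS k K) (M : Bim (A.bc S.1) (B.bc S.1)), Perf M ∧ HE (M.cf S.val) X := by
  change SpMod X
  induction hX with
  | free =>
    obtain ⟨S⟩ := (inferInstance : Nonempty (FGS k K))
    exact ⟨S, free (A.bc S.1) (B.bc S.1), Perf.free, (cf_free S.val A B).he⟩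
  | contr h =>
    obtain ⟨S⟩ := (inferInstance : Nonempty (FGS k K))
    obtain ⟨Z, hZ, _⟩ := contr_zero (A := A.bc S.1) (B := B.bc S.1)
    exact ⟨S, Z, Perf.contr hZ, HE.of_contr ((cfF S.val A B).contr hZ) h⟩
  | mid hE _ _ h' h'' =>
    obtain ⟨κ, hκ, hC⟩ := hE.he_mid
    exact ((h''.shift (-1)).cone h' hκ (isCone_cone κ hκ)).he (hC _ (isCone_cone κ hκ))
  | @left M' M M'' hE _ _ h h'' =>
    obtain ⟨p, hp, hC⟩ := hE.he_left
    have h1 := ((h.cone h'' hp (isCone_cone p hp)).he (hC _ (isCone_cone p hp))).shift (-1)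
    exact h1.he (shift_shift M' 1).he
  | right hE _ _ h' h =>
    obtain ⟨i, hi, hC⟩ := hE.he_right
    exact (h'.cone h hi (isCone_cone i hi)).he (hC _ (isCone_cone i hi))
  | summand hs _ h =>
    obtain ⟨S, M, hM, hX⟩ := h
    obtain ⟨T, P, hP, e⟩ := spread_summand hM hX hs
    exact ⟨T, P, hP, e⟩

private theorem spModel_cls {S V U : FGS k K} (hS : S ≤ V) (hV : V ≤ U)
    {M : Bim (A.bc S.1) (B.bc S.1)} (hM : Perf M) (h1 : Perf (M.cf (FGS.inc hS))) :
    K0Q.cf (FGS.inc (hS.trans hV)) (cls M hM) =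
      K0Q.cf (FGS.inc hV) (cls (M.cf (FGS.inc hS)) h1) := by
  rw [← K0Q.cf_cf' (FGS.inc hS) (FGS.inc hV) (FGS.inc (hS.trans hV)) (FGS.inc_inc hS hV)
    (cls M hM)]
  exact congrArg _ (K0Q.cf_cls (FGS.inc hS) hM)

/-- The classes of two models of homotopy equivalent bimodules agree over a finitely generated
subalgebra. -/
theorem model_cls {S T : FGS k K} {M : Bim (A.bc S.1) (B.bc S.1)}
    {N : Bim (A.bc T.1) (B.bc T.1)} (hM : Perf M) (hN : Perf N)
    (h : HE (M.cf S.val) (N.cf T.val)) : ∃ (U : FGS k K) (h : S ≤ U) (h' : T ≤ U),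
      K0Q.cf (FGS.inc h) (cls M hM) = K0Q.cf (FGS.inc h') (cls N hN) := by
  obtain ⟨V, hS, hT⟩ := exists_ge_ge S T
  obtain ⟨U, hV, e⟩ := spread_he (S := V) (spModel_perf hS hM) (spModel_perf hT hN)
    ((HE.up hS h).trans (HE.up hT (HE.refl (N.cf T.val))).symm)
  refine ⟨U, hS.trans hV, hT.trans hV, ?_⟩
  refine (spModel_cls hS hV hM (spModel_perf hS hM)).trans ?_
  refine Eq.trans ?_ (spModel_cls hT hV hN (spModel_perf hT hN)).symm
  refine (K0Q.cf_cls (FGS.inc hV) (spModel_perf hS hM)).trans ?_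
  refine Eq.trans ?_ (K0Q.cf_cls (FGS.inc hV) (spModel_perf hT hN)).symm
  exact K0Q.cls_he e (spModel_perf hV (spModel_perf hS hM)) (spModel_perf hV (spModel_perf hT hN))

private theorem spModel_sub {V T U : FGS k K} (hV : V ≤ T) (hT : T ≤ U)
    {M N : Bim (A.bc V.1) (B.bc V.1)} (hM : Perf M) (hN : Perf N) {P : Bim (A.bc T.1) (B.bc T.1)}
    (hP : Perf P) (h : cls P hP = K0Q.cf (FGS.inc hV) (cls N hN - cls M hM)) :
    K0Q.cf (FGS.inc hT) (cls P hP) = K0Q.cf (FGS.inc (hV.trans hT)) (cls N hN) -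
      K0Q.cf (FGS.inc (hV.trans hT)) (cls M hM) := by
  rw [h]
  exact (K0Q.cf_cf' (FGS.inc hV) (FGS.inc hT) (FGS.inc (hV.trans hT)) (FGS.inc_inc hV hT)
    (cls N hN - cls M hM)).trans (map_sub _ _ _)

private theorem spModel_grp {G : Type*} [AddCommGroup G] {x x1 y y1 p z : G} (h1 : x = x1)
    (h2 : y = y1) (h3 : p = x1 - y1) (h4 : p = z) : x = y + z := by
  rw [h1, h2, ← h4, h3]
  abel

private theorem spModel_cone {X' X C : Bim (A.bc K) (B.bc K)} {i : GMap 0 X' X} (hi : i.dd = 0)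
    (hC : IsCone i C) {S' S : FGS k K} {M' : Bim (A.bc S'.1) (B.bc S'.1)}
    {M : Bim (A.bc S.1) (B.bc S.1)} (hM' : Perf M') (hM : Perf M) (h' : HE (M'.cf S'.val) X')
    (h : HE (M.cf S.val) X) : ∃ (V : FGS k K) (hS' : S' ≤ V) (hS : S ≤ V) (T : FGS k K)
      (hV : V ≤ T) (P : Bim (A.bc T.1) (B.bc T.1)) (hP : Perf P), HE (P.cf T.val) C ∧
        cls P hP = K0Q.cf (FGS.inc hV) (cls (M.cf (FGS.inc hS)) (spModel_perf hS hM) -
          cls (M'.cf (FGS.inc hS')) (spModel_perf hS' hM')) := by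
  obtain ⟨V, hS', hS⟩ := exists_ge_ge S' S
  obtain ⟨T, hV, P, hP, e, hcl⟩ := spread_cone (S := V) (spModel_perf hS' hM')
    (spModel_perf hS hM) hi hC (HE.up hS' h') (HE.up hS h)
  exact ⟨V, hS', hS, T, hV, P, hP, e, hcl⟩

/-- The classes of models are additive. -/
theorem model_ext {X' X X'' : Bim (A.bc K) (B.bc K)} (hE : IsExt X' X X'') {S' S S'' : FGS k K}
    {M' : Bim (A.bc S'.1) (B.bc S'.1)} {M : Bim (A.bc S.1) (B.bc S.1)}
    {M'' : Bim (A.bc S''.1) (B.bc S''.1)} (hM' : Perf M') (hM : Perf M) (hM'' : Perf M'')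
    (h' : HE (M'.cf S'.val) X') (h : HE (M.cf S.val) X) (h'' : HE (M''.cf S''.val) X'') :
    ∃ (U : FGS k K) (u' : S' ≤ U) (u : S ≤ U) (u'' : S'' ≤ U),
      K0Q.cf (FGS.inc u) (cls M hM) = K0Q.cf (FGS.inc u') (cls M' hM') +
        K0Q.cf (FGS.inc u'') (cls M'' hM'') := by
  obtain ⟨i, hi, hC⟩ := hE.he_right
  obtain ⟨V, hS', hS, T, hV, P, hP, e, hcl⟩ := spModel_cone hi (isCone_cone i hi) hM' hM h' h
  obtain ⟨U, hT, hS'', hU⟩ := model_cls hP hM''
    ((e.trans (hC _ (isCone_cone i hi))).trans h''.symm)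
  exact ⟨U, hS'.trans (hV.trans hT), hS.trans (hV.trans hT), hS'',
    spModel_grp (spModel_cls hS (hV.trans hT) hM (spModel_perf hS hM))
      (spModel_cls hS' (hV.trans hT) hM' (spModel_perf hS' hM'))
      (spModel_sub hV hT (spModel_perf hS' hM') (spModel_perf hS hM) hP hcl) hU⟩

end Pool.Agent.MP_6e5bed_ag_NC
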