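import Pool.Agent.Lib.MP_6e5bed_ag_BC.FGS
import Pool.Agent.Lib.MP_6e5bed_ag_BC.RsDefs
import Pool.Agent.Lib.MP_6e5bed_ag_BC.HSys

set_option autoImplicit false

/-!
# The directed system of the extensions of scalars of a bimodule
-/

namespace Pool.Agent.MP_6e5bed_ag_NC

attribute [local instance] Alg.iR Alg.iA Cf.iG Cf.iM Rs.iG Rs.iM

universe u

variable {k : Type u} [CommRing k] {A B : DGA k}

section trans

variable {R S T : Type u} [CommRing R] [CommRing S] [CommRing T] [Algebra k R] [Algebra k S]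
  [Algebra k T]

theorem SpSys.push_push (f : R →ₐ[k] S) (g : S →ₐ[k] T) (h : R →ₐ[k] T)
    (e : ∀ r, g (f r) = h r) (a : (A.bc R).A) : push g A (push f A a) = push h A a := by
  refine DGA.ι_ind (P := fun a => push g A (push f A a) = push h A a) ?_ ?_ ?_ a
  · simp only [map_zero]
  · intro x y hx hy
    simp only [map_add, hx, hy]
  · intro s b
    rw [push_smul, push_smul, push_smul, push_ι, push_ι, push_ι, e]

/-- The map `S ⊗_R N → T ⊗_R N`, as a map of bimodules over `S`. -/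
noncomputable def SpSys.tr (f : R →ₐ[k] S) (g : S →ₐ[k] T) (h : R →ₐ[k] T)
    (e : ∀ r, g (f r) = h r) (N : Bim (A.bc R) (B.bc R)) :
    GMap 0 (N.cf f) ((N.cf h).rs g) :=
  GMap.ofCf (P := (N.cf h).rs g) (Bim.lift f (((N.cf h).to g).comp (N.ι h)) (fun r n => by
      change (N.cf h).to g (N.ι h (r • n)) = f r • (N.cf h).to g (N.ι h n)
      rw [Bim.ι_smul, ← e]
      rfl))
    (fun hv => by
      rw [Bim.lift_ι, add_zero]
      exact Bim.ι_deg hv)
    (fun a m => by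
      rw [Bim.lift_ι, Bim.lift_ι]
      change N.ι h (N.l (A.ι R a) m) = (N.cf h).l (push g A (A.ι S (A.dg.sp 0 a))) (N.ι h m)
      rw [push_ι, Bim.ι_l, Dg.sp_zero])
    (fun b m => by
      rw [Bim.lift_ι, Bim.lift_ι]
      change N.ι h (N.r (B.ι R b) m) = (N.cf h).r (push g B (B.ι S b)) (N.ι h m)
      rw [push_ι, Bim.ι_r])

theorem SpSys.tr_ι (f : R →ₐ[k] S) (g : S →ₐ[k] T) (h : R →ₐ[k] T)
    (e : ∀ r, g (f r) = h r) (N : Bim (A.bc R) (B.bc R)) (n : N.M) :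
    (SpSys.tr f g h e N).f (N.ι f n) = (N.cf h).to g (N.ι h n) := Bim.lift_ι _ _ n

/-- The map `S ⊗_R N → T ⊗_R N`, as a map of bimodules over `R`. -/
noncomputable def cfTrans (f : R →ₐ[k] S) (g : S →ₐ[k] T) (h : R →ₐ[k] T)
    (e : ∀ r, g (f r) = h r) (N : Bim (A.bc R) (B.bc R)) :
    GMap 0 ((N.cf f).rs f) ((N.cf h).rs h) where
  f :=
    { toFun := fun x => (N.cf h).to h ((N.cf h).ofRs g ((SpSys.tr f g h e N).f
        ((N.cf f).ofRs f x)))
      map_add' := fun x y => by simp only [map_add]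
      map_smul' := fun r x => by
        rw [Bim.ofRs_smul, map_smul, Bim.ofRs_smul, e]
        rfl }
  deg := fun h' => (SpSys.tr f g h e N).deg h'
  map_l := fun a x => by
    change (SpSys.tr f g h e N).f ((N.cf f).l (push f A a) x) =
      (N.cf h).l (push h A ((A.bc R).dg.sp 0 a)) ((SpSys.tr f g h e N).f x)
    rw [(SpSys.tr f g h e N).map_l, Dg.sp_zero, Dg.sp_zero, ← SpSys.push_push f g h e]
    rfl
  map_r := fun b x => by
    change (SpSys.tr f g h e N).f ((N.cf f).r (push f B b) x) =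
      (N.cf h).r (push h B b) ((SpSys.tr f g h e N).f x)
    rw [(SpSys.tr f g h e N).map_r, ← SpSys.push_push f g h e]
    rfl

theorem cfTrans_ι (f : R →ₐ[k] S) (g : S →ₐ[k] T) (h : R →ₐ[k] T)
    (e : ∀ r, g (f r) = h r) (N : Bim (A.bc R) (B.bc R)) (s : S) (n : N.M) :
    (N.cf h).ofRs h ((cfTrans f g h e N).f ((N.cf f).to f (s • N.ι f n))) =
      g s • N.ι h n := by
  change (N.cf h).ofRs g ((SpSys.tr f g h e N).f (s • N.ι f n)) = g s • N.ι h n
  rw [map_smul, SpSys.tr_ι]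
  rfl

theorem SpSys.tr_dd (f : R →ₐ[k] S) (g : S →ₐ[k] T) (h : R →ₐ[k] T)
    (e : ∀ r, g (f r) = h r) (N : Bim (A.bc R) (B.bc R)) : (SpSys.tr f g h e N).dd = 0 := by
  refine Bim.ι_ext (φ := (SpSys.tr f g h e N).dd) (ψ := 0) (fun m => ?_)
  rw [GMap.dd_apply, Bim.ι_d, SpSys.tr_ι, SpSys.tr_ι, sg_zero, one_smul, LinearMap.zero_apply]
  change (N.cf h).dg.d (N.ι h m) - N.ι h (N.dg.d m) = 0
  rw [Bim.ι_d, sub_self]

theorem cfTrans_dd (f : R →ₐ[k] S) (g : S →ₐ[k] T) (h : R →ₐ[k] T)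
    (e : ∀ r, g (f r) = h r) (N : Bim (A.bc R) (B.bc R)) : (cfTrans f g h e N).dd = 0 := by
  refine LinearMap.ext (fun x => ?_)
  exact LinearMap.congr_fun (SpSys.tr_dd f g h e N) x

theorem SpSys.trans_push (f : R →ₐ[k] S) (g : S →ₐ[k] T) (h : R →ₐ[k] T)
    (e : ∀ r, g (f r) = h r) (N : Bim (A.bc R) (B.bc R)) (x : (N.cf f).M) :
    (N.cf h).ofRs h ((cfTrans f g h e N).f ((N.cf f).to f x)) =
      Cf.push f.toRingHom g.toRingHom h.toRingHom e x := by
  refine Bim.ι_ind (P := fun x => (N.cf h).ofRs h ((cfTrans f g h e N).f ((N.cf f).to f x)) =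
      Cf.push f.toRingHom g.toRingHom h.toRingHom e x) ?_ ?_ ?_ x
  · rw [map_zero, map_zero, map_zero]
    exact (map_zero (Cf.push (V := N.M) f.toRingHom g.toRingHom h.toRingHom e)).symm
  · intro x y hx hy
    rw [map_add, map_add, map_add, hx, hy]
    exact (map_add (Cf.push (V := N.M) f.toRingHom g.toRingHom h.toRingHom e) x y).symm
  · intro s m
    rw [cfTrans_ι]
    exact (Cf.push_ι f.toRingHom g.toRingHom h.toRingHom e s m).symm

theorem SpSys.trans_trans {Q : Type u} [CommRing Q] [Algebra k Q] (f : R →ₐ[k] S)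
    (g : S →ₐ[k] T) (h : R →ₐ[k] T) (e : ∀ r, g (f r) = h r) (g' : T →ₐ[k] Q) (h' : R →ₐ[k] Q)
    (e' : ∀ r, g' (h r) = h' r) (g'' : S →ₐ[k] Q) (e'' : ∀ r, g'' (f r) = h' r)
    (he : ∀ s, g' (g s) = g'' s) (N : Bim (A.bc R) (B.bc R)) (x : ((N.cf f).rs f).M) :
    (cfTrans h g' h' e' N).f ((cfTrans f g h e N).f x) = (cfTrans f g'' h' e'' N).f x := by
  refine Bim.ι_ind (M := N) (f := f) (P := fun x =>
    (cfTrans h g' h' e' N).f ((cfTrans f g h e N).f ((N.cf f).to f x)) =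
      (cfTrans f g'' h' e'' N).f ((N.cf f).to f x)) ?_ ?_ ?_ x
  · simp only [map_zero]
  · intro x y hx hy
    simp only [map_add, hx, hy]
  · intro s m
    have h1 : (cfTrans f g h e N).f ((N.cf f).to f (s • N.ι f m)) =
      (N.cf h).to h (g s • N.ι h m) := cfTrans_ι f g h e N s m
    have h2 : (cfTrans h g' h' e' N).f ((N.cf h).to h (g s • N.ι h m)) =
      (N.cf h').to h' (g' (g s) • N.ι h' m) := cfTrans_ι h g' h' e' N (g s) m
    have h3 : (cfTrans f g'' h' e'' N).f ((N.cf f).to f (s • N.ι f m)) =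
      (N.cf h').to h' (g'' s • N.ι h' m) := cfTrans_ι f g'' h' e'' N s m
    rw [h1, h2, h3, he]

end trans

variable {K : Type u} [CommRing K] [Algebra k K]

/-- The directed system of the `T ⊗_S N`, for the finitely generated `T` which contain `S`; its
colimit is `K ⊗_S N`. -/
noncomputable def spSys {S : FGS k K} (N : Bim (A.bc S.1) (B.bc S.1)) :
    Sys (A.bc S.1) (B.bc S.1) {T : FGS k K // S ≤ T} where
  N := fun T => (N.cf (FGS.inc T.2)).rs (FGS.inc T.2)
  t := fun {T U} h => cfTrans (FGS.inc T.2) (FGS.inc (S := T.1) (T := U.1) h) (FGS.inc U.2)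
    (FGS.inc_inc T.2 h) N
  t_dd := fun h => cfTrans_dd _ _ _ _ N
  t_t := fun {T U W} h h' x => SpSys.trans_trans (FGS.inc T.2) (FGS.inc (S := T.1) (T := U.1) h)
    (FGS.inc U.2) (FGS.inc_inc T.2 h) (FGS.inc (S := U.1) (T := W.1) h') (FGS.inc W.2)
    (FGS.inc_inc U.2 h') (FGS.inc (S := T.1) (T := W.1) (h.trans h'))
    (FGS.inc_inc T.2 (h.trans h')) (fun s => FGS.inc_inc (S := T.1) (T := U.1) (U := W.1) h h' s)
    N x
  L := (N.cf S.val).rs S.val
  c := fun T => cfTrans (FGS.inc T.2) T.1.val S.val (FGS.val_inc T.2) N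
  c_dd := fun T => cfTrans_dd _ _ _ _ N
  c_t := fun {T U} h x => SpSys.trans_trans (FGS.inc T.2) (FGS.inc (S := T.1) (T := U.1) h)
    (FGS.inc U.2) (FGS.inc_inc T.2 h) U.1.val S.val (FGS.val_inc U.2) T.1.val
    (FGS.val_inc T.2) (fun s => FGS.val_inc (S := T.1) (T := U.1) h s) N x
  surj := fun x => by
    obtain ⟨T, h, y, hy⟩ := FGS.exists_push (V := N.M) x
    refine ⟨⟨T, h⟩, y, ?_⟩
    exact (SpSys.trans_push (FGS.inc h) T.val S.val (FGS.val_inc h) N y).trans hy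
  inj := fun T y hy => by
    obtain ⟨U, h', h0⟩ := FGS.exists_push_zero T.2 (V := N.M) y
      ((SpSys.trans_push (FGS.inc T.2) T.1.val S.val (FGS.val_inc T.2) N y).symm.trans hy)
    refine ⟨⟨U, T.2.trans h'⟩, h', ?_⟩
    exact (SpSys.trans_push (FGS.inc T.2) (FGS.inc h') (FGS.inc (T.2.trans h'))
      (FGS.inc_inc T.2 h') N y).trans h0

instance (S : FGS k K) : IsDirected {T : FGS k K // S ≤ T} (· ≤ ·) :=
  ⟨fun T U => by
    obtain ⟨W, hT, hU⟩ := exists_ge_ge T.1 U.1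
    exact ⟨⟨W, T.2.trans hT⟩, hT, hU⟩⟩

end Pool.Agent.MP_6e5bed_ag_NC
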