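import Pool.Agent.Lib.MP_6e5bed_ag_BC.QtApi
import Pool.Agent.Lib.MP_6e5bed_ag_BC.RsQt
import Pool.Agent.Lib.MP_6e5bed_ag_BC.K0Cf

set_option autoImplicit false

/-!
# The transfer for a finite extension
-/

namespace Pool.Agent.MP_6e5bed_ag_NC

attribute [local instance] Alg.iR Alg.iA Cf.iG Cf.iM Rs.iG Rs.iM

universe u

variable {k : Type u} [Field k] {L : Type u} [Field L] [Algebra k L] [FiniteDimensional k L]
  {A B : DGA k}

/-- `L` as a module over `k`, by restriction of scalars. -/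
private def trEquiv (k L : Type u) [Field k] [Field L] [Algebra k L] :
    L ≃ₗ[k] Rs (Algebra.ofId k L).toRingHom L where
  toFun x := x
  invFun x := x
  map_add' _ _ := rfl
  map_smul' c x := by
    rw [Algebra.smul_def]
    rfl
  left_inv _ := rfl
  right_inv _ := rfl

omit [FiniteDimensional k L] in
private theorem tr_finrank : Module.finrank k (Rs (Algebra.ofId k L).toRingHom L) =
    Module.finrank k L := (trEquiv k L).finrank_eq.symm

private theorem tr_finite : FiniteDimensional k (Rs (Algebra.ofId k L).toRingHom L) :=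
  Module.Finite.equiv (trEquiv k L)

theorem Perf.rs {M : Bim (A.bc L) (B.bc L)} (h : Perf M) :
    Perf (M.rs (Algebra.ofId k L)) := by
  have := tr_finite (k := k) (L := L)
  refine (rsF (Algebra.ofId k L) A B).perf ?_ h
  exact (rs_free (Algebra.ofId k L)).symm.perf (Perf.qt _ Perf.free)

/-- Restriction of scalars on Grothendieck groups. -/
noncomputable def K0Q.tr : K0Q (A.bc L) (B.bc L) →ₗ[ℚ] K0Q (A.bc k) (B.bc k) :=
  (rsF (Algebra.ofId k L) A B).k0 Perf.free.rs

theorem K0Q.tr_cls {M : Bim (A.bc L) (B.bc L)} (h : Perf M) :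
    K0Q.tr (cls M h) = cls (M.rs (Algebra.ofId k L)) h.rs := DGFun.k0_cls _ _ h

theorem K0Q.tr_cf (x : K0Q (A.bc k) (B.bc k)) :
    K0Q.tr (K0Q.cf (Algebra.ofId k L) x) = (Module.finrank k L : ℚ) • x := by
  have := tr_finite (k := k) (L := L)
  have h : (K0Q.tr (A := A) (B := B)).comp (K0Q.cf (Algebra.ofId k L)) =
      (Module.finrank k L : ℚ) • (LinearMap.id : K0Q (A.bc k) (B.bc k) →ₗ[ℚ] _) :=
    K0Q.hom_ext (fun M hM => by
      rw [LinearMap.comp_apply, K0Q.cf_cls, K0Q.tr_cls, LinearMap.smul_apply,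
        LinearMap.id_apply, ← tr_finrank (k := k) (L := L),
        ← K0Q.cls_qt (Rs (Algebra.ofId k L).toRingHom L) hM (Perf.qt _ hM)]
      exact K0Q.cls_iso (rs_cf (Algebra.ofId k L) M) _ _)
  exact LinearMap.congr_fun h x

end Pool.Agent.MP_6e5bed_ag_NC
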